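import Mathlib

/-!
# Double counting of independent families (lemma CW)

`Z w` (`w ∈ Om`) are finite sets of points with coordinates `ka c z ∈ PS c`, `#PS c ≤ p`.  `Q` is an abstract
independence predicate (with weights) on finite sets.  If every set of `r + b` points, independent with the
weight `J + N0`, `r = ⌈J / l⌉`, lies in at most `M` of the sets `Z w`, then few of the sets `Z w` are large.
-/

namespace Pool.Agent.Lib.MP_e426f4_ag.DK

open Finset

private lemma cw_card_le {α C : Type*} (p : ℕ) (PS : C → Finset ℕ) (hPS : ∀ c, (PS c).card ≤ p)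
    (ka : C → α → ℕ)
    (Y : Finset α) (F : Finset C) (hmem : ∀ c ∈ F, ∀ z ∈ Y, ka c z ∈ PS c)
    (hinj : ∀ z ∈ Y, ∀ y ∈ Y, (∀ c ∈ F, ka c z = ka c y) → z = y) : Y.card ≤ p ^ F.card := by
  classical
  have h1 : Y.card ≤ (Fintype.piFinset (fun c : F => PS c)).card := by
    apply Finset.card_le_card_of_injOn (fun z => fun c : F => ka c z)
    · intro z hz
      rw [Finset.mem_coe, Fintype.mem_piFinset]
      intro c
      exact hmem c c.2 z hz
    · intro z hz y hy h
      apply hinj z hz y hy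
      intro c hc
      exact congrFun h ⟨c, hc⟩
  refine le_trans h1 ?_
  rw [Fintype.card_piFinset]
  calc ∏ c : F, (PS c).card ≤ ∏ _c : F, p := Finset.prod_le_prod' fun c _ => hPS c
    _ = p ^ F.card := by simp

/-- double counting without decidability instances -/
private lemma cw_dc {Ω β : Type*} (Om : Finset Ω) (Y : Finset β) (R : Ω → β → Prop) (th M : ℝ)
    (h1 : ∀ w ∈ Om, ∃ A : Finset β, A ⊆ Y ∧ th ≤ (A.card : ℝ) ∧ ∀ y ∈ A, R w y)
    (h2 : ∀ y ∈ Y, ∀ T : Finset Ω, T ⊆ Om → (∀ w ∈ T, R w y) → (T.card : ℝ) ≤ M) :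
    (Om.card : ℝ) * th ≤ Y.card * M := by
  classical
  have h3 : ∑ w ∈ Om, (Y.filter (fun y => R w y)).card =
      ∑ y ∈ Y, (Om.filter (fun w => R w y)).card :=
    Finset.sum_card_bipartiteAbove_eq_sum_card_bipartiteBelow R
  calc (Om.card : ℝ) * th = ∑ _w ∈ Om, th := by simp
    _ ≤ ∑ w ∈ Om, ((Y.filter (fun y => R w y)).card : ℝ) := by
        apply Finset.sum_le_sum
        intro w hw
        obtain ⟨A, hA, hth, hR⟩ := h1 w hw
        refine le_trans hth ?_
        exact_mod_cast Finset.card_le_card fun y hy => Finset.mem_filter.2 ⟨hA hy, hR y hy⟩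
    _ = ((∑ w ∈ Om, (Y.filter (fun y => R w y)).card : ℕ) : ℝ) := by push_cast; rfl
    _ = ∑ y ∈ Y, ((Om.filter (fun w => R w y)).card : ℝ) := by rw [h3]; push_cast; rfl
    _ ≤ ∑ _y ∈ Y, M := by
        apply Finset.sum_le_sum
        intro y hy
        exact h2 y hy _ (Finset.filter_subset _ _) fun w hw => (Finset.mem_filter.1 hw).2
    _ = Y.card * M := by simp

/-- the base of the induction -/
private lemma cw_base {α Ω : Type*} [DecidableEq α] (p b : ℕ)
    (hb : b = 1 ∨ b = 2) (Ind : Finset α → Prop) (Y : Finset α) (f : ℕ) (hY : Y.card ≤ p ^ f)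
    (one : b = 1 → ∀ z ∈ Y, Ind {z})
    (two : b = 2 → ∀ z ∈ Y, ∀ y ∈ Y, z ≠ y → Ind {z, y})
    (M G : ℝ) (hM : 0 ≤ M) (hG : 1 ≤ G) (Z : Ω → Finset α) (th : ℝ) (hth : 2 ≤ th)
    (Om : Finset Ω)
    (hcount : ∀ S : Finset α, S ⊆ Y → Ind S → S.card = b → ∀ T : Finset Ω, T ⊆ Om →
      (∀ w ∈ T, S ⊆ Z w) → (T.card : ℝ) ≤ M)
    (hbig : ∀ w ∈ Om, th ≤ ((Y ∩ Z w).card : ℝ)) :
    (Om.card : ℝ) ≤ 2 * G ^ f * ((p : ℝ) ^ f / th) ^ b * M := by
  have hth0 : (0 : ℝ) < th := by linarith
  have hYr : (Y.card : ℝ) ≤ (p : ℝ) ^ f := by exact_mod_cast hY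
  have hGf : 1 ≤ G ^ f := one_le_pow₀ hG
  have hPf : (0 : ℝ) ≤ (p : ℝ) ^ f := by positivity
  rcases hb with rfl | rfl
  · have h := cw_dc Om Y (fun w y => y ∈ Z w) th M
      (fun w hw => ⟨Y ∩ Z w, Finset.inter_subset_left, hbig w hw,
        fun y hy => (Finset.mem_inter.1 hy).2⟩)
      (fun y hy T hT hR => hcount {y} (Finset.singleton_subset_iff.2 hy) (one rfl y hy)
        (Finset.card_singleton y) T hT fun w hw => Finset.singleton_subset_iff.2 (hR w hw))
    rw [pow_one]
    have h2 : (Om.card : ℝ) ≤ (p : ℝ) ^ f / th * M := by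
      rw [div_mul_eq_mul_div, le_div_iff₀ hth0]
      exact h.trans (mul_le_mul_of_nonneg_right hYr hM)
    have h3 : 0 ≤ (p : ℝ) ^ f / th * M := by positivity
    calc (Om.card : ℝ) ≤ 1 * ((p : ℝ) ^ f / th * M) := by linarith
      _ ≤ (2 * G ^ f) * ((p : ℝ) ^ f / th * M) := by
          apply mul_le_mul_of_nonneg_right _ h3
          linarith
      _ = 2 * G ^ f * ((p : ℝ) ^ f / th) * M := by ring
  · have h := cw_dc Om Y.offDiag (fun w y => y.1 ∈ Z w ∧ y.2 ∈ Z w) (th ^ 2 / 2) M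
      (fun w hw => ⟨(Y ∩ Z w).offDiag, by
          intro y hy
          rw [Finset.mem_offDiag] at hy ⊢
          exact ⟨(Finset.mem_inter.1 hy.1).1, (Finset.mem_inter.1 hy.2.1).1, hy.2.2⟩, by
          rw [Finset.offDiag_card]
          have h1 := hbig w hw
          set n := (Y ∩ Z w).card with hn
          have h2 : n ≤ n * n := Nat.le_mul_self n
          rw [Nat.cast_sub h2, Nat.cast_mul]
          nlinarith, fun y hy => by
          rw [Finset.mem_offDiag] at hy
          exact ⟨(Finset.mem_inter.1 hy.1).2, (Finset.mem_inter.1 hy.2.1).2⟩⟩)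
      (fun y hy T hT hR => by
        rw [Finset.mem_offDiag] at hy
        refine hcount {y.1, y.2} ?_ (two rfl y.1 hy.1 y.2 hy.2.1 hy.2.2)
          (Finset.card_pair hy.2.2) T hT fun w hw => ?_
        · intro x hx
          rw [Finset.mem_insert, Finset.mem_singleton] at hx
          rcases hx with rfl | rfl
          · exact hy.1
          · exact hy.2.1
        · intro x hx
          rw [Finset.mem_insert, Finset.mem_singleton] at hx
          rcases hx with rfl | rfl
          · exact (hR w hw).1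
          · exact (hR w hw).2)
    have hoff : (Y.offDiag.card : ℝ) ≤ ((p : ℝ) ^ f) ^ 2 := by
      have h1 : Y.offDiag.card ≤ Y.card * Y.card := by
        rw [Finset.offDiag_card]
        exact Nat.sub_le _ _
      have h2 : (Y.offDiag.card : ℝ) ≤ (Y.card : ℝ) * Y.card := by exact_mod_cast h1
      refine h2.trans ?_
      rw [sq]
      exact mul_le_mul hYr hYr (by positivity) hPf
    have h2 : (Om.card : ℝ) ≤ 2 * (((p : ℝ) ^ f / th) ^ 2 * M) := by
      have h3 : (Om.card : ℝ) * (th ^ 2 / 2) ≤ ((p : ℝ) ^ f) ^ 2 * M :=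
        h.trans (mul_le_mul_of_nonneg_right hoff hM)
      rw [div_pow, div_mul_eq_mul_div, mul_div_assoc', le_div_iff₀ (by positivity)]
      linarith
    have h3 : 0 ≤ ((p : ℝ) ^ f / th) ^ 2 * M := by positivity
    calc (Om.card : ℝ) ≤ 2 * 1 * (((p : ℝ) ^ f / th) ^ 2 * M) := by linarith
      _ ≤ 2 * G ^ f * (((p : ℝ) ^ f / th) ^ 2 * M) := by
          apply mul_le_mul_of_nonneg_right _ h3
          linarith
      _ = 2 * G ^ f * ((p : ℝ) ^ f / th) ^ 2 * M := by ring

/-- pointwise dyadic inequality -/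
private lemma cw_dy (a N : ℝ) (ha : 0 ≤ a) : ∀ L : ℕ, N < 2 ^ L * a →
    N ≤ a + ∑ i ∈ Finset.range L, (if 2 ^ i * a ≤ N then 2 ^ (i + 1) * a else 0) := by
  intro L
  induction L with
  | zero =>
    intro h
    rw [pow_zero, one_mul] at h
    simp only [Finset.range_zero, Finset.sum_empty, add_zero]
    exact h.le
  | succ L ih =>
    intro h
    rw [Finset.sum_range_succ]
    have h0 : 0 ≤ ∑ i ∈ Finset.range L, (if 2 ^ i * a ≤ N then 2 ^ (i + 1) * a else 0) := by
      apply Finset.sum_nonneg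
      intro i _
      split_ifs
      · positivity
      · exact le_rfl
    by_cases h1 : 2 ^ L * a ≤ N
    · rw [if_pos h1]
      linarith
    · rw [if_neg h1]
      push Not at h1
      have := ih h1
      linarith

/-- dyadic pigeonhole -/
private lemma cw_dyadic {V : Type*} (A : Finset V) (N : V → ℝ) (P θ : ℝ) (L : ℕ) (hL : 1 ≤ L)
    (hP : 0 < P) (hAP : (A.card : ℝ) ≤ P) (hθ : 0 < θ) (hsum : θ ≤ ∑ v ∈ A, N v)
    (hN : ∀ v ∈ A, N v < 2 ^ L * (θ / (2 * P))) :
    ∃ i < L, ∃ B ⊆ A, (∀ v ∈ B, 2 ^ i * (θ / (2 * P)) ≤ N v) ∧ P / (2 ^ (i + 1) * L) ≤ (B.card : ℝ) := by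
  classical
  by_contra hcon
  push Not at hcon
  set a : ℝ := θ / (2 * P) with ha
  have ha0 : 0 < a := by positivity
  have hL0 : (0 : ℝ) < L := by exact_mod_cast hL
  have h1 : ∑ v ∈ A, N v ≤ ∑ v ∈ A, (a + ∑ i ∈ Finset.range L,
      (if 2 ^ i * a ≤ N v then 2 ^ (i + 1) * a else 0)) :=
    Finset.sum_le_sum fun v hv => cw_dy a (N v) ha0.le L (hN v hv)
  rw [Finset.sum_add_distrib, Finset.sum_const, nsmul_eq_mul, Finset.sum_comm] at h1
  have h2 : ∀ i ∈ Finset.range L, ∑ v ∈ A, (if 2 ^ i * a ≤ N v then 2 ^ (i + 1) * a else 0) <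
      θ / (2 * L) := by
    intro i hi
    have hc := hcon i (Finset.mem_range.1 hi) (A.filter (fun v => 2 ^ i * a ≤ N v))
      (Finset.filter_subset _ _) (fun v hv => (Finset.mem_filter.1 hv).2)
    rw [← Finset.sum_filter, Finset.sum_const, nsmul_eq_mul]
    calc ((A.filter (fun v => 2 ^ i * a ≤ N v)).card : ℝ) * (2 ^ (i + 1) * a)
        < P / (2 ^ (i + 1) * L) * (2 ^ (i + 1) * a) :=
          mul_lt_mul_of_pos_right hc (by positivity)
      _ = θ / (2 * L) := by
          rw [ha]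
          field_simp
  have h3 : ∑ i ∈ Finset.range L, ∑ v ∈ A, (if 2 ^ i * a ≤ N v then 2 ^ (i + 1) * a else 0) <
      ∑ _i ∈ Finset.range L, θ / (2 * L) :=
    Finset.sum_lt_sum_of_nonempty (Finset.nonempty_range_iff.2 (by omega)) h2
  rw [Finset.sum_const, nsmul_eq_mul, Finset.card_range] at h3
  have h4 : (L : ℝ) * (θ / (2 * L)) = θ / 2 := by field_simp
  have h5 : (A.card : ℝ) * a ≤ θ / 2 := by
    calc (A.card : ℝ) * a ≤ P * a := mul_le_mul_of_nonneg_right hAP ha0.le
      _ = θ / 2 := by rw [ha]; field_simp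
  linarith

/-- the choice of a level of popularity of the values on `J` -/
private lemma cw_pop {α C : Type*} [DecidableEq C] (p : ℕ) (hp : 1 ≤ p) (PS : C → Finset ℕ)
    (hPS : ∀ c, (PS c).card ≤ p) (ka : C → α → ℕ) (A : Finset α) (J : Finset C)
    (hmem : ∀ c ∈ J, ∀ z ∈ A, ka c z ∈ PS c) (th : ℝ) (hth : 0 < th) (hA : th ≤ (A.card : ℝ))
    (L : ℕ) (hL : 1 ≤ L) (hAL : (A.card : ℝ) < 2 ^ L * (th / (2 * (p : ℝ) ^ J.card))) :
    ∃ i < L, ∃ V ⊆ Fintype.piFinset (fun c : J => PS c),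
      (∀ v ∈ V, ∃ B : Finset α, B ⊆ A ∧ (∀ z ∈ B, ∀ c : J, ka c z = v c) ∧
        2 ^ i * (th / (2 * (p : ℝ) ^ J.card)) ≤ (B.card : ℝ)) ∧
      (p : ℝ) ^ J.card / (2 ^ (i + 1) * L) ≤ (V.card : ℝ) := by
  classical
  have hp' : (0 : ℝ) < p := by exact_mod_cast (by omega : 0 < p)
  have hV : ((Fintype.piFinset (fun c : J => PS c)).card : ℝ) ≤ (p : ℝ) ^ J.card := by
    rw [Fintype.card_piFinset]
    have : ∏ c : J, (PS c).card ≤ p ^ J.card := by
      calc ∏ c : J, (PS c).card ≤ ∏ _c : J, p := Finset.prod_le_prod' fun c _ => hPS c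
        _ = p ^ J.card := by simp
    exact_mod_cast this
  have h1 : A.card = ∑ v ∈ Fintype.piFinset (fun c : J => PS c),
      (A.filter (fun z => (fun c : J => ka c z) = v)).card := by
    apply Finset.card_eq_sum_card_fiberwise
    intro z hz
    rw [Finset.mem_coe, Fintype.mem_piFinset]
    intro c
    exact hmem c c.2 z hz
  obtain ⟨i, hi, V, hVs, hVN, hVc⟩ := cw_dyadic (Fintype.piFinset (fun c : J => PS c))
    (fun v => ((A.filter (fun z => (fun c : J => ka c z) = v)).card : ℝ)) ((p : ℝ) ^ J.card) th L hL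
    (by positivity) hV hth (by rw [h1] at hA; exact_mod_cast hA) (by
      intro v _
      refine lt_of_le_of_lt ?_ hAL
      exact_mod_cast Finset.card_le_card (Finset.filter_subset _ _))
  refine ⟨i, hi, V, hVs, fun v hv => ⟨_, Finset.filter_subset _ _, ?_, hVN v hv⟩, hVc⟩
  intro z hz c
  exact congrFun (Finset.mem_filter.1 hz).2 c

/-- the number of points off `v` -/
private lemma cw_off {α C : Type*} (ka : C → α → ℕ) (A : Finset α) (J : Finset C)
    (v : J → ℕ) (th : ℝ) (k : ℕ) (hk : 1 ≤ k) (hJ : J.card ≤ k) (hth : 0 < th)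
    (hA : th ≤ (A.card : ℝ))
    (hnp : ∀ c : J, ∀ B : Finset α, B ⊆ A → (∀ z ∈ B, ka c z = v c) →
      (B.card : ℝ) < th / (2 * k)) :
    ∃ B : Finset α, B ⊆ A ∧ (∀ z ∈ B, ∀ c : J, ka c z ≠ v c) ∧ th / 2 ≤ (B.card : ℝ) := by
  classical
  refine ⟨A.filter (fun z => ∀ c : J, ka c z ≠ v c), Finset.filter_subset _ _,
    fun z hz => (Finset.mem_filter.1 hz).2, ?_⟩
  have h1 : A ⊆ A.filter (fun z => ∀ c : J, ka c z ≠ v c) ∪
      (Finset.univ : Finset J).biUnion (fun c => A.filter (fun z => ka c z = v c)) := by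
    intro z hz
    rw [Finset.mem_union]
    by_cases h : ∀ c : J, ka c z ≠ v c
    · exact Or.inl (Finset.mem_filter.2 ⟨hz, h⟩)
    · right
      push Not at h
      obtain ⟨c, hc⟩ := h
      rw [Finset.mem_biUnion]
      exact ⟨c, Finset.mem_univ _, Finset.mem_filter.2 ⟨hz, hc⟩⟩
  have h2 : (A.card : ℝ) ≤ ((A.filter (fun z => ∀ c : J, ka c z ≠ v c)).card : ℝ) +
      ∑ c : J, ((A.filter (fun z => ka c z = v c)).card : ℝ) := by
    have h3 := (Finset.card_le_card h1).trans (Finset.card_union_le _ _)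
    have h4 := Finset.card_biUnion_le (s := (Finset.univ : Finset J))
      (t := fun c => A.filter (fun z => ka c z = v c))
    have h5 : A.card ≤ (A.filter (fun z => ∀ c : J, ka c z ≠ v c)).card +
        ∑ c : J, (A.filter (fun z => ka c z = v c)).card := by omega
    exact_mod_cast h5
  have h3 : ∑ c : J, ((A.filter (fun z => ka c z = v c)).card : ℝ) ≤ ∑ _c : J, th / (2 * k) := by
    apply Finset.sum_le_sum
    intro c _
    exact (hnp c _ (Finset.filter_subset _ _) fun z hz => (Finset.mem_filter.1 hz).2).le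
  have h4 : ∑ _c : J, th / (2 * (k : ℝ)) ≤ th / 2 := by
    rw [Finset.sum_const, nsmul_eq_mul, Finset.card_univ, Fintype.card_coe]
    have hk0 : (0 : ℝ) < k := by exact_mod_cast (by omega : 0 < k)
    have hJ' : (J.card : ℝ) ≤ k := by exact_mod_cast hJ
    calc (J.card : ℝ) * (th / (2 * (k : ℝ))) ≤ (k : ℝ) * (th / (2 * (k : ℝ))) :=
          mul_le_mul_of_nonneg_right hJ' (by positivity)
      _ = th / 2 := by field_simp
  linarith

/-- arithmetic of case (i) -/
private lemma cw_arith_i (p k m f g : ℕ) (hp : 1 ≤ p) (hm : 1 ≤ m) (hk : 1 ≤ k) (M G th : ℝ)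
    (hM : 0 ≤ M) (hG : 0 ≤ G) (hth : 0 < th) :
    ((f + 1 : ℕ) : ℝ) * p * (2 * G ^ g * ((p : ℝ) ^ f / (th / (2 * k))) ^ m * M) ≤
      ((f + 1 : ℕ) : ℝ) * (2 * k) ^ m * (2 * G ^ g * ((p : ℝ) ^ (f + 1) / th) ^ m * M) := by
  have hp' : (1 : ℝ) ≤ p := by exact_mod_cast hp
  have hk' : (0 : ℝ) < k := by exact_mod_cast hk
  have h1 : ((p : ℝ) ^ f / (th / (2 * k))) ^ m = (2 * k) ^ m * ((p : ℝ) ^ f / th) ^ m := by
    rw [← mul_pow]
    congr 1
    field_simp
  have h2 : (p : ℝ) * ((p : ℝ) ^ f / th) ^ m ≤ ((p : ℝ) ^ (f + 1) / th) ^ m := by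
    have h3 : ((p : ℝ) ^ (f + 1) / th) ^ m = (p : ℝ) ^ m * ((p : ℝ) ^ f / th) ^ m := by
      rw [← mul_pow]
      congr 1
      rw [pow_succ]
      ring
    rw [h3]
    apply mul_le_mul_of_nonneg_right _ (by positivity)
    calc (p : ℝ) = (p : ℝ) ^ 1 := (pow_one _).symm
      _ ≤ (p : ℝ) ^ m := pow_le_pow_right₀ hp' hm
  rw [h1]
  have h4 : 0 ≤ ((f + 1 : ℕ) : ℝ) * (2 * k) ^ m * (2 * G ^ g * M) := by positivity
  calc ((f + 1 : ℕ) : ℝ) * p * (2 * G ^ g * ((2 * k) ^ m * ((p : ℝ) ^ f / th) ^ m) * M)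
      = (((f + 1 : ℕ) : ℝ) * (2 * k) ^ m * (2 * G ^ g * M)) *
          ((p : ℝ) * ((p : ℝ) ^ f / th) ^ m) := by ring
    _ ≤ (((f + 1 : ℕ) : ℝ) * (2 * k) ^ m * (2 * G ^ g * M)) *
          ((p : ℝ) ^ (f + 1) / th) ^ m := mul_le_mul_of_nonneg_left h2 h4
    _ = _ := by ring

/-- arithmetic of case (ii) -/
private lemma cw_arith_ii (p s m f g i L : ℕ) (hp : 1 ≤ p) (hm : 1 ≤ m) (M G th : ℝ)
    (hM : 0 ≤ M) (hG : 0 ≤ G) (hth : 0 < th) :
    (2 ^ (i + 2) * (L : ℝ) / ((p : ℝ) ^ s * th)) * ((p : ℝ) ^ s * (p : ℝ) ^ (f + s)) *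
        (2 * G ^ g * ((p : ℝ) ^ f / (2 ^ i * (th / (2 * (p : ℝ) ^ s)))) ^ m * M) ≤
      4 * L * 2 ^ m * (2 * G ^ g * ((p : ℝ) ^ (f + s) / th) ^ (m + 1) * M) := by
  have hp' : (0 : ℝ) < p := by exact_mod_cast (by omega : 0 < p)
  have h1 : (p : ℝ) ^ f / (2 ^ i * (th / (2 * (p : ℝ) ^ s))) =
      (2 / 2 ^ i) * ((p : ℝ) ^ (f + s) / th) := by
    rw [pow_add]
    field_simp
  rw [h1, mul_pow, div_pow]
  have h2 : (2 : ℝ) ^ i / (2 ^ i) ^ m ≤ 1 := by
    rw [div_le_one (by positivity)]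
    calc (2 : ℝ) ^ i = (2 ^ i) ^ 1 := (pow_one _).symm
      _ ≤ (2 ^ i) ^ m := pow_le_pow_right₀ (one_le_pow₀ (by norm_num)) hm
  have h3 : 0 ≤ 4 * (L : ℝ) * 2 ^ m * (2 * G ^ g * ((p : ℝ) ^ (f + s) / th) ^ (m + 1) * M) := by
    positivity
  calc (2 ^ (i + 2) * (L : ℝ) / ((p : ℝ) ^ s * th)) * ((p : ℝ) ^ s * (p : ℝ) ^ (f + s)) *
        (2 * G ^ g * (2 ^ m / (2 ^ i) ^ m * ((p : ℝ) ^ (f + s) / th) ^ m) * M)
      = (4 * (L : ℝ) * 2 ^ m * (2 * G ^ g * ((p : ℝ) ^ (f + s) / th) ^ (m + 1) * M)) *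
          ((2 : ℝ) ^ i / (2 ^ i) ^ m) := by
        rw [pow_succ ((p : ℝ) ^ (f + s) / th) m, pow_add (2 : ℝ) i 2]
        field_simp
        ring
    _ ≤ (4 * (L : ℝ) * 2 ^ m * (2 * G ^ g * ((p : ℝ) ^ (f + s) / th) ^ (m + 1) * M)) * 1 :=
        mul_le_mul_of_nonneg_left h2 h3
    _ = _ := mul_one _

private theorem cw_aux {α C Ω : Type*} [DecidableEq α] [DecidableEq C] (p k b N0 : ℕ) (hp : 1 ≤ p)
    (hk : 1 ≤ k) (hb : b = 1 ∨ b = 2) (PS : C → Finset ℕ) (hPS : ∀ c, (PS c).card ≤ p)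
    (ka : C → α → ℕ) (F1 : Finset C) (Q : Finset α → ℕ → Prop) (U : Finset α) (F : Finset C)
    (hmem : ∀ c ∈ F, ∀ z ∈ U, ka c z ∈ PS c)
    (hinj : ∀ z ∈ U, ∀ y ∈ U, (∀ c ∈ F, ka c z = ka c y) → z = y)
    (ext : ∀ (S : Finset α) (J : Finset C) (v : C → ℕ) (N : ℕ) (y : α), S ⊆ U → S.Nonempty →
      J ⊆ F → 1 ≤ J.card → J.card ≤ k → (∀ z ∈ S, ∀ c ∈ J, ka c z = v c) → y ∈ U →
      (∀ c ∈ J, ka c y ≠ v c) → Q S N → Q (insert y S) (N + J.card))
    (one : b = 1 → ∀ z ∈ U, Q {z} N0)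
    (two : b = 2 → ∀ z ∈ U, ∀ y ∈ U, z ≠ y → (∀ c ∈ F ∩ F1, ka c z = ka c y) → Q {z, y} N0)
    (M G : ℝ) (hM : 0 ≤ M) (L : ℕ) (hL : (p : ℝ) ^ F.card < 2 ^ L) (Z : Ω → Finset α) :
    ∀ (n r Bu : ℕ) (F' : Finset C) (Y : Finset α) (th : ℝ) (Om : Finset Ω), r + F'.card ≤ n →
      Bu ≤ r * k → (∀ r', r = r' + 1 → r' * k < Bu) → F' ⊆ F → Y ⊆ U → (∀ c ∈ F, c ∉ F' → ∀ z ∈ Y, ∀ y ∈ Y, ka c z = ka c y) →
      (b = 2 → (F' ∩ F1).card ≤ Bu) →
      2 ^ (r + 1) * (2 * (k : ℝ)) ^ F'.card * (p : ℝ) ^ Bu ≤ th →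
      (F'.card : ℝ) * (2 * (k : ℝ)) ^ (r + b) + 2 ^ (F'.card + r + b + 2) * (L : ℝ) ^ 2 ≤ G →
      (∀ S : Finset α, S ⊆ Y → Q S (Bu + N0) → S.card = r + b → ∀ T : Finset Ω, T ⊆ Om →
        (∀ w ∈ T, S ⊆ Z w) → (T.card : ℝ) ≤ M) →
      (∀ w ∈ Om, th ≤ ((Y ∩ Z w).card : ℝ)) →
      (Om.card : ℝ) ≤ 2 * G ^ (F'.card + r) * ((p : ℝ) ^ F'.card / th) ^ (r + b) * M := by
  classical
  have hp' : (1 : ℝ) ≤ p := by exact_mod_cast hp
  have hk' : (1 : ℝ) ≤ k := by exact_mod_cast hk
  have hb1 : 1 ≤ b := by omega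
  -- cells
  have hinj' : ∀ (F' : Finset C) (Y : Finset α), F' ⊆ F → Y ⊆ U →
      (∀ c ∈ F, c ∉ F' → ∀ z ∈ Y, ∀ y ∈ Y, ka c z = ka c y) →
      ∀ z ∈ Y, ∀ y ∈ Y, (∀ c ∈ F', ka c z = ka c y) → z = y := by
    intro F' Y hF' hYU hcon z hz y hy h
    apply hinj z (hYU hz) y (hYU hy)
    intro c hc
    by_cases hcF : c ∈ F'
    · exact h c hcF
    · exact hcon c hc hcF z hz y hy
  have hcard : ∀ (F' : Finset C) (Y : Finset α), F' ⊆ F → Y ⊆ U →
      (∀ c ∈ F, c ∉ F' → ∀ z ∈ Y, ∀ y ∈ Y, ka c z = ka c y) → Y.card ≤ p ^ F'.card := by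
    intro F' Y hF' hYU hcon
    exact cw_card_le p PS hPS ka Y F' (fun c hc z hz => hmem c (hF' hc) z (hYU hz))
      (hinj' F' Y hF' hYU hcon)
  have hL1 : 1 ≤ L := by
    by_contra h
    have h0 : L = 0 := by omega
    rw [h0, pow_zero] at hL
    have : (1 : ℝ) ≤ (p : ℝ) ^ F.card := one_le_pow₀ hp'
    linarith
  have hLr : (1 : ℝ) ≤ L := by exact_mod_cast hL1
  have hGone : ∀ (f r : ℕ), (f : ℝ) * (2 * (k : ℝ)) ^ (r + b) +
      2 ^ (f + r + b + 2) * (L : ℝ) ^ 2 ≤ G → 1 ≤ G := by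
    intro f r h
    have h1 : (1 : ℝ) ≤ 2 ^ (f + r + b + 2) := one_le_pow₀ (by norm_num)
    have h2 : 0 ≤ (f : ℝ) * (2 * (k : ℝ)) ^ (r + b) :=
      mul_nonneg (Nat.cast_nonneg _) (pow_nonneg (by linarith) _)
    have h3 : (1 : ℝ) ≤ (L : ℝ) ^ 2 := one_le_pow₀ hLr
    nlinarith
  have hthone : ∀ (f Bu r : ℕ) (th : ℝ), 2 ^ (r + 1) * (2 * (k : ℝ)) ^ f * (p : ℝ) ^ Bu ≤ th →
      2 ^ (r + 1) * (p : ℝ) ^ Bu ≤ th := by
    intro f Bu r th h
    have h1 : (1 : ℝ) ≤ (2 * (k : ℝ)) ^ f := one_le_pow₀ (by linarith)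
    have h2 : (0 : ℝ) ≤ 2 ^ (r + 1) * (p : ℝ) ^ Bu := by positivity
    nlinarith
  have base : ∀ (F' : Finset C) (Y : Finset α) (th : ℝ) (Om : Finset Ω),
      F' ⊆ F → Y ⊆ U → (∀ c ∈ F, c ∉ F' → ∀ z ∈ Y, ∀ y ∈ Y, ka c z = ka c y) →
      (b = 2 → (F' ∩ F1).card ≤ 0) →
      2 ^ (0 + 1) * (2 * (k : ℝ)) ^ F'.card * (p : ℝ) ^ 0 ≤ th →
      (F'.card : ℝ) * (2 * (k : ℝ)) ^ (0 + b) + 2 ^ (F'.card + 0 + b + 2) * (L : ℝ) ^ 2 ≤ G →
      (∀ S : Finset α, S ⊆ Y → Q S (0 + N0) → S.card = 0 + b → ∀ T : Finset Ω, T ⊆ Om →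
        (∀ w ∈ T, S ⊆ Z w) → (T.card : ℝ) ≤ M) →
      (∀ w ∈ Om, th ≤ ((Y ∩ Z w).card : ℝ)) →
      (Om.card : ℝ) ≤ 2 * G ^ (F'.card + 0) * ((p : ℝ) ^ F'.card / th) ^ (0 + b) * M := by
    intro F' Y th Om hF' hYU hcon hF1 hth hG hcount hbig
    have hth2 : 2 ≤ th := by
      have := hthone _ _ _ _ hth
      rw [pow_zero] at this
      norm_num at this
      exact this
    have h := cw_base p b hb (fun S => Q S N0) Y F'.card (hcard F' Y hF' hYU hcon)
      (fun h1 z hz => one h1 z (hYU hz))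
      (fun h2 z hz y hy hne => two h2 z (hYU hz) y (hYU hy) hne (by
        intro c hc
        rw [Finset.mem_inter] at hc
        by_cases hcF : c ∈ F'
        · exfalso
          have h3 := hF1 h2
          rw [Nat.le_zero, Finset.card_eq_zero] at h3
          have : c ∈ F' ∩ F1 := Finset.mem_inter.2 ⟨hcF, hc.2⟩
          rw [h3] at this
          exact absurd this (Finset.notMem_empty c)
        · exact hcon c hc.1 hcF z hz y hy))
      M G hM (hGone _ _ hG) Z th hth2 Om
      (fun S hS hI hc => hcount S hS (by rw [Nat.zero_add]; exact hI) (by omega)) hbig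
    rw [Nat.zero_add, Nat.add_zero]
    exact h
  intro n
  induction n with
  | zero =>
    intro r Bu F' Y th Om hn hBu _
    obtain rfl : r = 0 := by omega
    obtain rfl : Bu = 0 := by omega
    exact base F' Y th Om
  | succ n ih =>
    intro r Bu F' Y th Om hn hBr hBr' hF' hYU hcon hF1 hth hG hcount hbig
    rcases r with _ | r
    · obtain rfl : Bu = 0 := by omega
      exact base F' Y th Om hF' hYU hcon hF1 hth hG hcount hbig
    have hBlow := hBr' r rfl
    obtain ⟨s, hs⟩ : ∃ s, s = min k Bu := ⟨_, rfl⟩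
    have hsk : s ≤ k := by rw [hs]; exact min_le_left _ _
    have hsB : s ≤ Bu := by rw [hs]; exact min_le_right _ _
    have hs1 : 1 ≤ s := by rw [hs]; exact le_min hk (by omega)
    obtain ⟨B0, hB0⟩ : ∃ B0, Bu = B0 + s := ⟨Bu - s, by omega⟩
    have hB0r : B0 ≤ r * k := by
      rw [Nat.add_mul, Nat.one_mul] at hBr
      rcases min_choice k Bu with h | h
      · omega
      · have : B0 = 0 := by omega
        rw [this]
        exact Nat.zero_le _
    have hB0r' : ∀ r', r = r' + 1 → r' * k < B0 := by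
      intro r' hr'
      rw [hr', Nat.add_mul, Nat.one_mul] at hBlow
      rcases min_choice k Bu with h | h
      · omega
      · exfalso
        have h1 : Bu ≤ k := by rw [← h]; exact min_le_left _ _
        have h2 : 0 ≤ r' * k := Nat.zero_le _
        omega
    have hG1 := hGone _ _ hG
    have hG0 : 0 ≤ G := by linarith
    have hthp := hthone _ _ _ _ hth
    have hpp : (1 : ℝ) ≤ (p : ℝ) ^ Bu := one_le_pow₀ hp'
    have h2r : (2 : ℝ) ≤ 2 ^ (r + 1) := by
      calc (2 : ℝ) = 2 ^ 1 := (pow_one _).symm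
        _ ≤ 2 ^ (r + 1) := pow_le_pow_right₀ (by norm_num) (by omega)
    have hth4 : 2 * (p : ℝ) ^ Bu ≤ th := by
      have : (2 : ℝ) ^ (r + 1 + 1) = 2 * 2 ^ (r + 1) := by rw [pow_succ]; ring
      rw [this] at hthp
      nlinarith
    have hth0 : 0 < th := by linarith
    set f := F'.card with hf
    set X : ℝ := 2 * G ^ (f + r) * ((p : ℝ) ^ f / th) ^ (r + 1 + b) * M
      with hX
    have hX0 : 0 ≤ X := by positivity
    set A1 : Finset Ω := F'.biUnion fun c => (PS c).biUnion fun v =>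
      Om.filter (fun w => th / (2 * k) ≤ ((Y.filter (fun z => ka c z = v) ∩ Z w).card : ℝ)) with hA1
    set Js : Finset (Finset C) := (F'.powersetCard s).filter
      (fun J => F' ∩ F1 ⊆ J ∨ J ⊆ F' ∩ F1) with hJs
    set A2 : Finset Ω := Js.biUnion fun J => (Finset.range L).biUnion fun i =>
      Om.filter (fun w => ∃ W : Finset ((J → ℕ) × α),
        W ⊆ ((Fintype.piFinset fun c : J => PS c) ×ˢ Y).filter
          (fun q => ∀ c : J, ka c q.2 ≠ q.1 c) ∧
        (p : ℝ) ^ s * th / (2 ^ (i + 2) * L) ≤ (W.card : ℝ) ∧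
        ∀ q ∈ W, q.2 ∈ Z w ∧ 2 ^ i * (th / (2 * (p : ℝ) ^ s)) ≤
          ((Y.filter (fun z => ∀ c : J, ka c z = q.1 c) ∩ Z w).card : ℝ)) with hA2
    -- the cover
    have hcover : Om ⊆ A1 ∪ A2 := by
      intro w hw
      rw [Finset.mem_union]
      by_cases h : ∃ c ∈ F', ∃ v ∈ PS c,
          th / (2 * k) ≤ ((Y.filter (fun z => ka c z = v) ∩ Z w).card : ℝ)
      · left
        obtain ⟨c, hc, v, hv, h1⟩ := h
        rw [hA1, Finset.mem_biUnion]
        refine ⟨c, hc, ?_⟩
        rw [Finset.mem_biUnion]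
        exact ⟨v, hv, Finset.mem_filter.2 ⟨hw, h1⟩⟩
      · right
        push Not at h
        have hbw := hbig w hw
        have hkf : s ≤ f := by
          by_contra hlt
          push Not at hlt
          have h1 : ((Y ∩ Z w).card : ℝ) ≤ (p : ℝ) ^ f := by
            have := (Finset.card_le_card (Finset.inter_subset_left (s₁ := Y) (s₂ := Z w))).trans
              (hcard F' Y hF' hYU hcon)
            exact_mod_cast this
          have h2 : (p : ℝ) ^ f ≤ (p : ℝ) ^ Bu := by
            apply pow_le_pow_right₀ hp'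
            omega
          linarith
        have hJ : ∃ J ⊆ F', J.card = s ∧ (F' ∩ F1 ⊆ J ∨ J ⊆ F' ∩ F1) := by
          rcases le_total (F' ∩ F1).card s with h1 | h1
          · obtain ⟨J, hJ1, hJ2, hJ3⟩ := Finset.exists_subsuperset_card_eq
              (Finset.inter_subset_left (s₁ := F') (s₂ := F1)) h1 hkf
            exact ⟨J, hJ2, hJ3, Or.inl hJ1⟩
          · obtain ⟨J, hJ1, hJ2⟩ := Finset.exists_subset_card_eq h1
            exact ⟨J, hJ1.trans Finset.inter_subset_left, hJ2, Or.inr hJ1⟩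
        obtain ⟨J, hJF, hJk, hJ1⟩ := hJ
        have hmemA : ∀ c ∈ J, ∀ z ∈ Y ∩ Z w, ka c z ∈ PS c := fun c hc z hz =>
          hmem c (hF' (hJF hc)) z (hYU (Finset.mem_inter.1 hz).1)
        have hAc : ((Y ∩ Z w).card : ℝ) ≤ (p : ℝ) ^ f := by
          have := (Finset.card_le_card (Finset.inter_subset_left (s₁ := Y) (s₂ := Z w))).trans
            (hcard F' Y hF' hYU hcon)
          exact_mod_cast this
        have hfF : (p : ℝ) ^ f ≤ (p : ℝ) ^ F.card :=
          pow_le_pow_right₀ hp' (Finset.card_le_card hF')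
        have hps0 : (0 : ℝ) < (p : ℝ) ^ s := by positivity
        have hpsB : (p : ℝ) ^ s ≤ (p : ℝ) ^ Bu := pow_le_pow_right₀ hp' hsB
        have hone : 1 ≤ th / (2 * (p : ℝ) ^ s) := by
          rw [le_div_iff₀ (by positivity)]
          linarith
        obtain ⟨i, hi, V, hVs, hVB, hVc⟩ := cw_pop p hp PS hPS ka (Y ∩ Z w) J hmemA th hth0 hbw L hL1
          (by
            rw [hJk]
            have h2L : (0 : ℝ) ≤ 2 ^ L := by positivity
            nlinarith)
        rw [hJk] at hVc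
        rw [hA2, Finset.mem_biUnion]
        refine ⟨J, ?_, ?_⟩
        · rw [hJs, Finset.mem_filter, Finset.mem_powersetCard]
          exact ⟨⟨hJF, hJk⟩, hJ1⟩
        rw [Finset.mem_biUnion]
        refine ⟨i, Finset.mem_range.2 hi, Finset.mem_filter.2 ⟨hw, ?_⟩⟩
        refine ⟨(V ×ˢ (Y ∩ Z w)).filter (fun q => ∀ c : J, ka c q.2 ≠ q.1 c), ?_, ?_, ?_⟩
        · intro q hq
          rw [Finset.mem_filter, Finset.mem_product] at hq ⊢
          exact ⟨⟨hVs hq.1.1, (Finset.mem_inter.1 hq.1.2).1⟩, hq.2⟩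
        · have hfib : ((V ×ˢ (Y ∩ Z w)).filter (fun q => ∀ c : J, ka c q.2 ≠ q.1 c)).card =
              ∑ v ∈ V, (((V ×ˢ (Y ∩ Z w)).filter (fun q => ∀ c : J, ka c q.2 ≠ q.1 c)).filter
                (fun q => q.1 = v)).card := by
            apply Finset.card_eq_sum_card_fiberwise
            intro q hq
            rw [Finset.mem_coe, Finset.mem_filter, Finset.mem_product] at hq
            exact hq.1.1
          have hfib2 : ∀ v ∈ V, th / 2 ≤
              ((((V ×ˢ (Y ∩ Z w)).filter (fun q => ∀ c : J, ka c q.2 ≠ q.1 c)).filter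
                (fun q => q.1 = v)).card : ℝ) := by
            intro v hv
            obtain ⟨B', hB'A, hB'v, hB'c⟩ := cw_off ka (Y ∩ Z w) J v th k hk (hJk.le.trans hsk) hth0
              hbw (by
                intro c B0 hB0 hB0v
                refine lt_of_le_of_lt ?_ (h c (hJF c.2) (v c) ((Fintype.mem_piFinset.1 (hVs hv)) c))
                have : B0 ⊆ Y.filter (fun z => ka c z = v c) ∩ Z w := by
                  intro z hz
                  have h1 := Finset.mem_inter.1 (hB0 hz)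
                  exact Finset.mem_inter.2 ⟨Finset.mem_filter.2 ⟨h1.1, hB0v z hz⟩, h1.2⟩
                exact_mod_cast Finset.card_le_card this)
            refine hB'c.trans ?_
            have : B'.card ≤ (((V ×ˢ (Y ∩ Z w)).filter (fun q => ∀ c : J, ka c q.2 ≠ q.1 c)).filter
                (fun q => q.1 = v)).card := by
              apply Finset.card_le_card_of_injOn (fun y => (v, y))
              · intro y hy
                rw [Finset.mem_coe, Finset.mem_filter, Finset.mem_filter, Finset.mem_product]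
                exact ⟨⟨⟨hv, hB'A hy⟩, hB'v y hy⟩, rfl⟩
              · intro y _ y' _ hyy
                exact congrArg Prod.snd hyy
            exact_mod_cast this
          have hsum : (V.card : ℝ) * (th / 2) ≤
              (((V ×ˢ (Y ∩ Z w)).filter (fun q => ∀ c : J, ka c q.2 ≠ q.1 c)).card : ℝ) := by
            rw [hfib]
            push_cast
            calc (V.card : ℝ) * (th / 2) = ∑ _v ∈ V, th / 2 := by
                  rw [Finset.sum_const, nsmul_eq_mul]
              _ ≤ _ := Finset.sum_le_sum hfib2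
          refine le_trans ?_ hsum
          calc (p : ℝ) ^ s * th / (2 ^ (i + 2) * L)
              = (p : ℝ) ^ s / (2 ^ (i + 1) * L) * (th / 2) := by
                rw [pow_succ (2 : ℝ) (i + 1)]
                field_simp
            _ ≤ (V.card : ℝ) * (th / 2) := mul_le_mul_of_nonneg_right hVc (by positivity)
        · intro q hq
          rw [Finset.mem_filter, Finset.mem_product] at hq
          refine ⟨(Finset.mem_inter.1 hq.1.2).2, ?_⟩
          obtain ⟨B, hBA, hBv, hBc⟩ := hVB q.1 hq.1.1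
          rw [hJk] at hBc
          refine hBc.trans ?_
          have : B ⊆ Y.filter (fun z => ∀ c : J, ka c z = q.1 c) ∩ Z w := by
            intro z hz
            have h1 := Finset.mem_inter.1 (hBA hz)
            exact Finset.mem_inter.2 ⟨Finset.mem_filter.2 ⟨h1.1, hBv z hz⟩, h1.2⟩
          exact_mod_cast Finset.card_le_card this
    -- the first bound
    have hbound1 : (A1.card : ℝ) ≤ (f : ℝ) * (2 * (k : ℝ)) ^ (r + 1 + b) * X := by
      rcases Nat.eq_zero_or_pos f with hf0 | hfpos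
      · have : F' = ∅ := Finset.card_eq_zero.1 (hf ▸ hf0)
        rw [hA1, this, Finset.biUnion_empty, Finset.card_empty]
        rw [Nat.cast_zero]
        exact mul_nonneg (mul_nonneg (Nat.cast_nonneg _) (pow_nonneg (by linarith) _)) hX0
      obtain ⟨f', hff⟩ : ∃ f', f = f' + 1 := ⟨f - 1, by omega⟩
      have h1 : ∀ c ∈ F', ∀ v ∈ PS c, ((Om.filter (fun w => th / (2 * k) ≤
          ((Y.filter (fun z => ka c z = v) ∩ Z w).card : ℝ))).card : ℝ) ≤
          2 * G ^ (f' + (r + 1)) *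
            ((p : ℝ) ^ f' / (th / (2 * k))) ^ (r + 1 + b) * M := by
        intro c hc v hv
        have hce : (F'.erase c).card = f' := by
          rw [Finset.card_erase_of_mem hc]
          omega
        have h2 := ih (r + 1) Bu (F'.erase c) (Y.filter (fun z => ka c z = v)) (th / (2 * k))
          (Om.filter (fun w => th / (2 * k) ≤ ((Y.filter (fun z => ka c z = v) ∩ Z w).card : ℝ)))
          (by rw [hce]; omega) hBr hBr' ((Finset.erase_subset _ _).trans hF')
          ((Finset.filter_subset _ _).trans hYU)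
          (by
            intro c' hc' hc'' z hz y hy
            rw [Finset.mem_filter] at hz hy
            by_cases hcc : c' = c
            · rw [hcc, hz.2, hy.2]
            · exact hcon c' hc' (fun h => hc'' (Finset.mem_erase.2 ⟨hcc, h⟩)) z hz.1 y hy.1)
          (fun h2 => (Finset.card_le_card (Finset.inter_subset_inter_right
            (Finset.erase_subset _ _))).trans (hF1 h2))
          (by
            rw [hce, le_div_iff₀ (by positivity)]
            calc 2 ^ (r + 1 + 1) * (2 * (k : ℝ)) ^ f' * (p : ℝ) ^ Bu * (2 * k)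
                = 2 ^ (r + 1 + 1) * (2 * (k : ℝ)) ^ (f' + 1) * (p : ℝ) ^ Bu := by
                  rw [pow_succ]; ring
              _ ≤ th := by rw [← hff]; exact hth)
          (by
            rw [hce]
            refine le_trans ?_ hG
            have h3 : (f' : ℝ) ≤ f := by rw [hff]; push_cast; linarith
            have h4 : (2 : ℝ) ^ (f' + (r + 1) + b + 2) ≤ 2 ^ (f + (r + 1) + b + 2) :=
              pow_le_pow_right₀ (by norm_num) (by omega)
            have h4' := mul_le_mul_of_nonneg_right h4 (by positivity : (0 : ℝ) ≤ (L : ℝ) ^ 2)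
            have h5 : (0 : ℝ) ≤ (2 * (k : ℝ)) ^ (r + 1 + b) := by positivity
            have h6 := mul_le_mul_of_nonneg_right h3 h5
            linarith)
          (fun S hS hI hSc T hT hTw => hcount S (hS.trans (Finset.filter_subset _ _)) hI hSc T
            (hT.trans (Finset.filter_subset _ _)) hTw)
          (fun w hw => (Finset.mem_filter.1 hw).2)
        rw [hce] at h2
        exact h2
      have h2 : (A1.card : ℝ) ≤ ∑ c ∈ F', ∑ v ∈ PS c, (2 * G ^ (f' + (r + 1)) *
          ((p : ℝ) ^ f' / (th / (2 * k))) ^ (r + 1 + b) * M) := by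
        have h3 : A1.card ≤ ∑ c ∈ F', ∑ v ∈ PS c, (Om.filter (fun w => th / (2 * k) ≤
          ((Y.filter (fun z => ka c z = v) ∩ Z w).card : ℝ))).card := by
          refine Finset.card_biUnion_le.trans (Finset.sum_le_sum fun c _ => ?_)
          exact Finset.card_biUnion_le
        have h4 : (A1.card : ℝ) ≤ ∑ c ∈ F', ∑ v ∈ PS c, ((Om.filter (fun w => th / (2 * k) ≤
          ((Y.filter (fun z => ka c z = v) ∩ Z w).card : ℝ))).card : ℝ) := by exact_mod_cast h3
        exact h4.trans (Finset.sum_le_sum fun c hc => Finset.sum_le_sum fun v hv => h1 c hc v hv)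
      have hQ0 : 0 ≤ 2 * G ^ (f' + (r + 1)) *
          ((p : ℝ) ^ f' / (th / (2 * k))) ^ (r + 1 + b) * M := by
        positivity
      have h3 : (A1.card : ℝ) ≤ ((f' + 1 : ℕ) : ℝ) * p * (2 * G ^ (f' + (r + 1)) *
          ((p : ℝ) ^ f' / (th / (2 * k))) ^ (r + 1 + b) * M) := by
        refine h2.trans ?_
        calc _ ≤ ∑ _c ∈ F', (p : ℝ) * (2 * G ^ (f' + (r + 1)) *
          ((p : ℝ) ^ f' / (th / (2 * k))) ^ (r + 1 + b) * M) := by
              apply Finset.sum_le_sum
              intro c _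
              rw [Finset.sum_const, nsmul_eq_mul]
              apply mul_le_mul_of_nonneg_right _ hQ0
              exact_mod_cast hPS c
          _ = _ := by
              rw [Finset.sum_const, nsmul_eq_mul, ← hf, hff]
              ring
      refine h3.trans ?_
      have h4 := cw_arith_i p k (r + 1 + b) f' (f' + (r + 1)) hp (by omega) hk M G th
        hM hG0 hth0
      refine h4.trans (le_of_eq ?_)
      rw [hX, ← hff, show f' + (r + 1) = f + r by omega]
    -- the second bound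
    have hbound2 : (A2.card : ℝ) ≤ 2 ^ (f + (r + 1) + b + 2) * (L : ℝ) ^ 2 * X := by
      rcases Nat.lt_or_ge f s with hfk | hkf
      · have : Js = ∅ := by
          rw [hJs, Finset.powersetCard_eq_empty.2 (hf ▸ hfk), Finset.filter_empty]
        rw [hA2, this, Finset.biUnion_empty, Finset.card_empty]
        rw [Nat.cast_zero]
        exact mul_nonneg (by positivity) hX0
      obtain ⟨f', hff⟩ : ∃ f', f = f' + s := ⟨f - s, by omega⟩
      have h1 : ∀ J ∈ Js, ∀ i ∈ Finset.range L, ((Om.filter (fun w =>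
        ∃ W : Finset ((J → ℕ) × α),
        W ⊆ ((Fintype.piFinset fun c : J => PS c) ×ˢ Y).filter
          (fun q => ∀ c : J, ka c q.2 ≠ q.1 c) ∧
        (p : ℝ) ^ s * th / (2 ^ (i + 2) * L) ≤ (W.card : ℝ) ∧
        ∀ q ∈ W, q.2 ∈ Z w ∧ 2 ^ i * (th / (2 * (p : ℝ) ^ s)) ≤
          ((Y.filter (fun z => ∀ c : J, ka c z = q.1 c) ∩ Z w).card : ℝ))).card : ℝ) ≤
          4 * L * 2 ^ (r + b) * X := by
        intro J hJ i _
        rw [hJs, Finset.mem_filter, Finset.mem_powersetCard] at hJ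
        obtain ⟨⟨hJF, hJk⟩, hJ1⟩ := hJ
        set QQ : ℝ := 2 * G ^ (f' + r) *
          ((p : ℝ) ^ f' / (2 ^ i * (th / (2 * (p : ℝ) ^ s)))) ^ (r + b) * M with hQ
        have hQ0 : 0 ≤ QQ := by positivity
        have hdc := cw_dc (Om.filter (fun w =>
        ∃ W : Finset ((J → ℕ) × α),
        W ⊆ ((Fintype.piFinset fun c : J => PS c) ×ˢ Y).filter
          (fun q => ∀ c : J, ka c q.2 ≠ q.1 c) ∧
        (p : ℝ) ^ s * th / (2 ^ (i + 2) * L) ≤ (W.card : ℝ) ∧
        ∀ q ∈ W, q.2 ∈ Z w ∧ 2 ^ i * (th / (2 * (p : ℝ) ^ s)) ≤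
          ((Y.filter (fun z => ∀ c : J, ka c z = q.1 c) ∩ Z w).card : ℝ)))
          (((Fintype.piFinset fun c : J => PS c) ×ˢ Y).filter
          (fun q => ∀ c : J, ka c q.2 ≠ q.1 c))
          (fun w q => q.2 ∈ Z w ∧ 2 ^ i * (th / (2 * (p : ℝ) ^ s)) ≤
          ((Y.filter (fun z => ∀ c : J, ka c z = q.1 c) ∩ Z w).card : ℝ))
          ((p : ℝ) ^ s * th / (2 ^ (i + 2) * L)) QQ
          (fun w hw => (Finset.mem_filter.1 hw).2)
          (by
            intro q hq T hT hTq
            rw [Finset.mem_filter, Finset.mem_product] at hq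
            obtain ⟨⟨-, hyY⟩, hyoff⟩ := hq
            have hTm : ∀ w ∈ T, w ∈ Om := fun w hw => (Finset.mem_filter.1 (hT hw)).1
            have hce : (F' \ J).card = f' := by
              rw [Finset.card_sdiff_of_subset hJF]
              omega
            have h2 := ih r B0 (F' \ J) (Y.filter (fun z => ∀ c : J, ka c z = q.1 c))
              (2 ^ i * (th / (2 * (p : ℝ) ^ s))) T (by rw [hce]; omega) hB0r hB0r'
              (Finset.sdiff_subset.trans hF')
              ((Finset.filter_subset _ _).trans hYU)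
              (by
                intro c' hc' hc'' z hz y' hy'
                rw [Finset.mem_filter] at hz hy'
                by_cases hcc : c' ∈ J
                · rw [hz.2 ⟨c', hcc⟩, hy'.2 ⟨c', hcc⟩]
                · exact hcon c' hc' (fun h => hc'' (Finset.mem_sdiff.2 ⟨h, hcc⟩)) z hz.1 y' hy'.1)
              (by
                intro hb2
                rcases hJ1 with h3 | h3
                · have : (F' \ J) ∩ F1 = ∅ := by
                    rw [Finset.eq_empty_iff_forall_notMem]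
                    intro c hc
                    rw [Finset.mem_inter, Finset.mem_sdiff] at hc
                    exact hc.1.2 (h3 (Finset.mem_inter.2 ⟨hc.1.1, hc.2⟩))
                  rw [this, Finset.card_empty]
                  exact Nat.zero_le _
                · have h4 : (F' \ J) ∩ F1 = (F' ∩ F1) \ J := by
                    ext c
                    simp only [Finset.mem_inter, Finset.mem_sdiff]
                    tauto
                  rw [h4, Finset.card_sdiff_of_subset h3, hJk]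
                  have h5 := hF1 hb2
                  omega)
              (by
                rw [hce]
                have h2i : (1 : ℝ) ≤ 2 ^ i := one_le_pow₀ (by norm_num)
                have h3 : 2 ^ (r + 1) * (2 * (k : ℝ)) ^ f' * (p : ℝ) ^ B0 ≤
                    th / (2 * (p : ℝ) ^ s) := by
                  rw [le_div_iff₀ (by positivity)]
                  calc 2 ^ (r + 1) * (2 * (k : ℝ)) ^ f' * (p : ℝ) ^ B0 * (2 * (p : ℝ) ^ s)
                      = 2 ^ (r + 1 + 1) * (2 * (k : ℝ)) ^ f' * (p : ℝ) ^ Bu := by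
                        rw [hB0, pow_add (p : ℝ) B0 s, pow_succ (2 : ℝ) (r + 1)]; ring
                    _ ≤ 2 ^ (r + 1 + 1) * (2 * (k : ℝ)) ^ f * (p : ℝ) ^ Bu := by
                        apply mul_le_mul_of_nonneg_right _ (by positivity)
                        apply mul_le_mul_of_nonneg_left _ (by positivity)
                        exact pow_le_pow_right₀ (by linarith) (by omega)
                    _ ≤ th := hth
                have h4 : 0 ≤ th / (2 * (p : ℝ) ^ s) := by positivity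
                nlinarith)
              (by
                rw [hce]
                refine le_trans ?_ hG
                have h3 : (f' : ℝ) ≤ f := by rw [hff]; push_cast; linarith
                have h4 : (2 : ℝ) ^ (f' + r + b + 2) ≤ 2 ^ (f + (r + 1) + b + 2) :=
                  pow_le_pow_right₀ (by norm_num) (by omega)
                have h4' := mul_le_mul_of_nonneg_right h4 (by positivity : (0 : ℝ) ≤ (L : ℝ) ^ 2)
                have h5 : (0 : ℝ) ≤ (2 * (k : ℝ)) ^ (r + b) := by positivity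
                have h6 := mul_le_mul_of_nonneg_right h3 h5
                have h7 : (2 * (k : ℝ)) ^ (r + b) ≤ (2 * (k : ℝ)) ^ (r + 1 + b) :=
                  pow_le_pow_right₀ (by linarith) (by omega)
                have h8 := mul_le_mul_of_nonneg_left h7 (Nat.cast_nonneg (α := ℝ) f)
                linarith)
              (by
                intro S hS hI hSc T' hT' hTw
                have hSY : S ⊆ Y := hS.trans (Finset.filter_subset _ _)
                have hSne : S.Nonempty := by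
                  rw [← Finset.card_pos]
                  omega
                obtain ⟨c0, hc0⟩ : J.Nonempty := by
                  rw [← Finset.card_pos]
                  omega
                have hyS : q.2 ∉ S := fun h =>
                  hyoff ⟨c0, hc0⟩ ((Finset.mem_filter.1 (hS h)).2 ⟨c0, hc0⟩)
                refine hcount (insert q.2 S) ?_ ?_ ?_ T' (fun w hw => hTm w (hT' hw)) ?_
                · intro x hx
                  rcases Finset.mem_insert.1 hx with h | h
                  · rw [h]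
                    exact hyY
                  · exact hSY h
                · have hext := ext S J (fun c => if h : c ∈ J then q.1 ⟨c, h⟩ else 0) (B0 + N0) q.2
                    (hSY.trans hYU) hSne (hJF.trans hF') (by omega) (by omega) ?_ (hYU hyY) ?_ hI
                  · rw [hJk, show B0 + N0 + s = Bu + N0 by omega] at hext
                    exact hext
                  · intro z hz c hc
                    rw [dif_pos hc]
                    exact (Finset.mem_filter.1 (hS hz)).2 ⟨c, hc⟩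
                  · intro c hc
                    rw [dif_pos hc]
                    exact hyoff ⟨c, hc⟩
                · rw [Finset.card_insert_of_notMem hyS, hSc]
                  omega
                · intro w hw x hx
                  rcases Finset.mem_insert.1 hx with h | h
                  · rw [h]
                    exact (hTq w (hT' hw)).1
                  · exact hTw w hw h)
              (fun w hw => (hTq w hw).2)
            rw [hce] at h2
            exact h2)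
        have hYc : ((((Fintype.piFinset fun c : J => PS c) ×ˢ Y).filter
          (fun q => ∀ c : J, ka c q.2 ≠ q.1 c)).card : ℝ) ≤ (p : ℝ) ^ s * (p : ℝ) ^ (f' + s) := by
          have hY1 : Y.card ≤ p ^ (f' + s) := by
            rw [← hff]
            exact hcard F' Y hF' hYU hcon
          have hV1 : (Fintype.piFinset fun c : J => PS c).card ≤ p ^ s := by
            rw [Fintype.card_piFinset]
            calc ∏ c : J, (PS c).card ≤ ∏ _c : J, p := Finset.prod_le_prod' fun c _ => hPS c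
              _ = p ^ s := by simp [hJk]
          have h2 : (((Fintype.piFinset fun c : J => PS c) ×ˢ Y).filter
              (fun q => ∀ c : J, ka c q.2 ≠ q.1 c)).card ≤ p ^ s * p ^ (f' + s) := by
            refine (Finset.card_le_card (Finset.filter_subset _ _)).trans ?_
            rw [Finset.card_product]
            exact Nat.mul_le_mul hV1 hY1
          exact_mod_cast h2
        have h3 := hdc.trans (mul_le_mul_of_nonneg_right hYc hQ0)
        have hden : 0 < (p : ℝ) ^ s * th / (2 ^ (i + 2) * L) := by positivity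
        have h5 := cw_arith_ii p s (r + b) f' (f' + r) i L hp (by omega) M G th hM hG0 hth0
        rw [← hQ] at h5
        have h6 : (2 ^ (i + 2) * (L : ℝ) / ((p : ℝ) ^ s * th)) * ((p : ℝ) ^ s * th / (2 ^ (i + 2) * L)) = 1 := by
          have hLne : (L : ℝ) ≠ 0 := by positivity
          field_simp
        have h7 := mul_le_mul_of_nonneg_left h3
          (by positivity : (0 : ℝ) ≤ 2 ^ (i + 2) * (L : ℝ) / ((p : ℝ) ^ s * th))
        have h8 : (4 * (L : ℝ) * 2 ^ (r + b)) * (2 * G ^ (f' + r) *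
            ((p : ℝ) ^ (f' + s) / th) ^ (r + b + 1) * M) ≤ 4 * L * 2 ^ (r + b) * X := by
          apply mul_le_mul_of_nonneg_left _ (by positivity)
          rw [hX, hff, show r + b + 1 = r + 1 + b by omega]
          apply mul_le_mul_of_nonneg_right _ hM
          apply mul_le_mul_of_nonneg_right _ (by positivity)
          apply mul_le_mul_of_nonneg_left _ (by norm_num)
          exact pow_le_pow_right₀ hG1 (by omega)
        refine le_trans (le_of_eq ?_) (h7.trans (le_trans (le_of_eq ?_) (h5.trans h8)))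
        · rw [mul_comm (Finset.card _ : ℝ) _, ← mul_assoc, h6, one_mul]
        · ring
      have h2 : (A2.card : ℝ) ≤ ∑ J ∈ Js, ∑ i ∈ Finset.range L, (4 * L * 2 ^ (r + b) * X) := by
        have h3 : A2.card ≤ ∑ J ∈ Js, ∑ i ∈ Finset.range L, (Om.filter (fun w =>
        ∃ W : Finset ((J → ℕ) × α),
        W ⊆ ((Fintype.piFinset fun c : J => PS c) ×ˢ Y).filter
          (fun q => ∀ c : J, ka c q.2 ≠ q.1 c) ∧
        (p : ℝ) ^ s * th / (2 ^ (i + 2) * L) ≤ (W.card : ℝ) ∧
        ∀ q ∈ W, q.2 ∈ Z w ∧ 2 ^ i * (th / (2 * (p : ℝ) ^ s)) ≤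
          ((Y.filter (fun z => ∀ c : J, ka c z = q.1 c) ∩ Z w).card : ℝ))).card := by
          refine Finset.card_biUnion_le.trans (Finset.sum_le_sum fun J _ => ?_)
          exact Finset.card_biUnion_le
        have h4 : (A2.card : ℝ) ≤ ∑ J ∈ Js, ∑ i ∈ Finset.range L, ((Om.filter (fun w =>
        ∃ W : Finset ((J → ℕ) × α),
        W ⊆ ((Fintype.piFinset fun c : J => PS c) ×ˢ Y).filter
          (fun q => ∀ c : J, ka c q.2 ≠ q.1 c) ∧
        (p : ℝ) ^ s * th / (2 ^ (i + 2) * L) ≤ (W.card : ℝ) ∧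
        ∀ q ∈ W, q.2 ∈ Z w ∧ 2 ^ i * (th / (2 * (p : ℝ) ^ s)) ≤
          ((Y.filter (fun z => ∀ c : J, ka c z = q.1 c) ∩ Z w).card : ℝ))).card : ℝ) := by
          exact_mod_cast h3
        exact h4.trans (Finset.sum_le_sum fun J hJ => Finset.sum_le_sum fun i hi => h1 J hJ i hi)
      have h3 : (Js.card : ℝ) ≤ 2 ^ f := by
        have h4 : Js.card ≤ 2 ^ f := by
          rw [hf, ← Finset.card_powerset]
          apply Finset.card_le_card
          intro J hJ
          rw [hJs, Finset.mem_filter, Finset.mem_powersetCard] at hJ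
          exact Finset.mem_powerset.2 hJ.1.1
        exact_mod_cast h4
      rw [Finset.sum_const, Finset.sum_const, nsmul_eq_mul, nsmul_eq_mul, Finset.card_range] at h2
      have hW0 : 0 ≤ (L : ℝ) * (4 * L * 2 ^ (r + b) * X) := by positivity
      calc (A2.card : ℝ) ≤ Js.card * ((L : ℝ) * (4 * L * 2 ^ (r + b) * X)) := h2
        _ ≤ 2 ^ f * ((L : ℝ) * (4 * L * 2 ^ (r + b) * X)) := mul_le_mul_of_nonneg_right h3 hW0
        _ = (2 ^ (f + (r + b) + 2) * (L : ℝ) ^ 2) * X := by
            rw [pow_add (2 : ℝ) (f + (r + b)) 2, pow_add (2 : ℝ) f (r + b)]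
            ring
        _ ≤ 2 ^ (f + (r + 1) + b + 2) * (L : ℝ) ^ 2 * X := by
            apply mul_le_mul_of_nonneg_right _ hX0
            apply mul_le_mul_of_nonneg_right _ (by positivity)
            exact pow_le_pow_right₀ (by norm_num) (by omega)
    -- the end
    have h1 : (Om.card : ℝ) ≤ A1.card + A2.card := by
      have := (Finset.card_le_card hcover).trans (Finset.card_union_le _ _)
      exact_mod_cast this
    calc (Om.card : ℝ) ≤ A1.card + A2.card := h1
      _ ≤ (f : ℝ) * (2 * (k : ℝ)) ^ (r + 1 + b) * X +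
          2 ^ (f + (r + 1) + b + 2) * (L : ℝ) ^ 2 * X := add_le_add hbound1 hbound2
      _ = ((f : ℝ) * (2 * (k : ℝ)) ^ (r + 1 + b) +
          2 ^ (f + (r + 1) + b + 2) * (L : ℝ) ^ 2) * X := by ring
      _ ≤ G * X := mul_le_mul_of_nonneg_right hG hX0
      _ = 2 * G ^ (f + (r + 1)) * ((p : ℝ) ^ f / th) ^ (r + 1 + b) * M := by
          rw [hX, ← add_assoc, pow_succ G (f + r)]
          ring

/-- **Lemma (CW).** -/
theorem cw {α C Ω : Type*} [DecidableEq α] [DecidableEq C] (p l b J N0 : ℕ) (hp : 1 ≤ p)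
    (hl : 1 ≤ l) (hb : b = 1 ∨ b = 2) (PS : C → Finset ℕ) (hPS : ∀ c, (PS c).card ≤ p)
    (ka : C → α → ℕ) (F th : Finset C) (Q : Finset α → ℕ → Prop) (Y : Finset α)
    (hmem : ∀ c ∈ F, ∀ z ∈ Y, ka c z ∈ PS c)
    (hinj : ∀ z ∈ Y, ∀ y ∈ Y, (∀ c ∈ F, ka c z = ka c y) → z = y)
    (hconst : b = 2 → ∀ c ∈ th, c ∉ F → ∀ z ∈ Y, ∀ y ∈ Y, ka c z = ka c y)
    (ext : ∀ (S : Finset α) (J' : Finset C) (v : C → ℕ) (N : ℕ) (y : α), S ⊆ Y → S.Nonempty →
      J' ⊆ F → 1 ≤ J'.card → J'.card ≤ l → (∀ z ∈ S, ∀ c ∈ J', ka c z = v c) → y ∈ Y →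
      (∀ c ∈ J', ka c y ≠ v c) → Q S N → Q (insert y S) (N + J'.card))
    (one : b = 1 → ∀ z ∈ Y, Q {z} N0)
    (two : b = 2 → ∀ z ∈ Y, ∀ y ∈ Y, z ≠ y → (∀ c ∈ th, ka c z = ka c y) → Q {z, y} N0)
    (hJ : b = 2 → (F ∩ th).card ≤ J)
    (M G θ : ℝ) (hM : 0 ≤ M) (L : ℕ) (hL : (p : ℝ) ^ F.card < 2 ^ L)
    (hθ : 2 ^ ((J + l - 1) / l + 1) * (2 * (l : ℝ)) ^ F.card * (p : ℝ) ^ J ≤ θ)
    (hG : (F.card : ℝ) * (2 * (l : ℝ)) ^ ((J + l - 1) / l + b) +
      2 ^ (F.card + (J + l - 1) / l + b + 2) * (L : ℝ) ^ 2 ≤ G)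
    (Z : Ω → Finset α) (Om : Finset Ω)
    (hcount : ∀ S : Finset α, S ⊆ Y → Q S (J + N0) → S.card = (J + l - 1) / l + b →
      ∀ T : Finset Ω, T ⊆ Om → (∀ w ∈ T, S ⊆ Z w) → (T.card : ℝ) ≤ M)
    (hbig : ∀ w ∈ Om, θ ≤ ((Y ∩ Z w).card : ℝ)) :
    (Om.card : ℝ) * θ ^ ((J + l - 1) / l + b) ≤
      2 * G ^ (F.card + (J + l - 1) / l) * (p : ℝ) ^ (F.card * ((J + l - 1) / l + b)) * M := by
  obtain ⟨r, hr⟩ : ∃ r, r = (J + l - 1) / l := ⟨_, rfl⟩
  rw [← hr] at hG hθ hcount ⊢
  have h1 : J ≤ r * l := by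
    have h2 := Nat.lt_mul_div_succ (J + l - 1) (by omega : 0 < l)
    rw [← hr, Nat.mul_add, Nat.mul_comm l r, Nat.mul_one] at h2
    omega
  have h2 : ∀ r', r = r' + 1 → r' * l < J := by
    intro r' hr'
    have h3 := Nat.div_mul_le_self (J + l - 1) l
    rw [← hr, hr', Nat.add_mul, Nat.one_mul] at h3
    omega
  have h3 := cw_aux p l b N0 hp hl hb PS hPS ka th Q Y F hmem hinj ext one
    (fun h z hz y hy hne heq => two h z hz y hy hne (by
      intro c hc
      by_cases hcF : c ∈ F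
      · exact heq c (Finset.mem_inter.2 ⟨hcF, hc⟩)
      · exact hconst h c hc hcF z hz y hy)) M G hM L hL Z (r + F.card) r J F Y θ Om
    le_rfl h1 h2 (Finset.Subset.refl _) (Finset.Subset.refl _) (fun c hc hc' => absurd hc hc') hJ hθ hG
    hcount hbig
  have hp' : (1 : ℝ) ≤ p := by exact_mod_cast hp
  have hl' : (1 : ℝ) ≤ l := by exact_mod_cast hl
  have hθ0 : 0 < θ := lt_of_lt_of_le (by positivity) hθ
  calc (Om.card : ℝ) * θ ^ (r + b) ≤ (2 * G ^ (F.card + r) *
        ((p : ℝ) ^ F.card / θ) ^ (r + b) * M) * θ ^ (r + b) :=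
        mul_le_mul_of_nonneg_right h3 (by positivity)
    _ = 2 * G ^ (F.card + r) * (p : ℝ) ^ (F.card * (r + b)) * M := by
        have h4 : ((p : ℝ) ^ F.card / θ) ^ (r + b) * θ ^ (r + b) =
            (p : ℝ) ^ (F.card * (r + b)) := by
          rw [← mul_pow, div_mul_cancel₀ _ hθ0.ne', ← pow_mul]
        rw [← h4]
        ring

end Pool.Agent.Lib.MP_e426f4_ag.DK
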