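import Pool.Agent.Lib.MP_e426f4_ag.DK.Defs

/-!
# Choice8: the parameters for given `d, s` (DK8): zeros with `|x_i|^(e₀) ≤ H`, `e₀ = min d (n - d)`

`D = s - d = n + 1 - d`, `(D - 1)² ≥ 2 d + 3`.  Here `e` is almost `l d / (d + 1)`, and `cd j l ≤ D - 3` for all
`j ≤ 2 u - e - 1`.
Case A, `e₀ ((D - 3) (d + 1) + d) ≤ 2 d (d + 1)` (then `D ≤ d`):
`l = 2 (d + 1) m`, `e = 2 d m - 2`, `u = (D - 3)(d + 1) m + d m - 1`.
Case B, otherwise: `l = e₀ (d + 1) m`, `u = d (d + 1) m`, `e = d e₀ m - 2`.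
In both cases `m = 2 d + D`.
-/

set_option autoImplicit false

namespace Pool.Agent.Lib.MP_e426f4_ag.DK

private lemma ch8_cd_le (j l K : ℕ) (hl : 1 ≤ l) (h : j ≤ K * l) : cd j l ≤ K := by
  unfold cd
  rw [Nat.div_le_iff_le_mul_add_pred hl]
  have : l * K = K * l := mul_comm _ _
  omega

private lemma ch8_cd_mul (j l : ℕ) (hl : 1 ≤ l) : cd j l * l + 1 ≤ j + l := by
  unfold cd
  have := Nat.div_mul_le_self (j + l - 1) l
  omega

/-- (CA) -/
private lemma ch8_CA (d k u l : ℕ) (hl : 1 ≤ l)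
    (H1 : 2 * (d + 1) * u ≤ l * (k * (d + 1) + d))
    (H2 : d * l + d + (k + 3) + 1 ≤ u * (k + 3))
    (H3 : 2 * (d * l) + 2 * d + (k + 3) ≤ 2 * u * (k + 2) + k * l) :
    CA d (d + (k + 3)) u l := by
  intro j hj
  have hr1 := ch8_cd_mul j l hl
  obtain ⟨r, hr⟩ : ∃ r, r = cd j l := ⟨_, rfl⟩
  rw [← hr] at hr1 ⊢
  obtain ⟨v, rfl⟩ : ∃ v, u = j + (v + 1) := ⟨u - j - 1, by omega⟩
  have hsub : 2 * (j + (v + 1)) - 2 * j - 1 = 2 * v + 1 := by omega
  rw [hsub]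
  -- `2 j < (k + 1) l`
  have h4 : 2 * j < (k + 1) * l := by
    by_contra hcon
    have h5 : (k + 1) * l ≤ 2 * j := by omega
    have h6 : (d + 1) * ((k + 1) * l) ≤ (d + 1) * (2 * j) := Nat.mul_le_mul_left _ h5
    nlinarith
  have h7 : 2 * r < k + 3 := by
    by_contra hcon
    have h8 : (k + 3) * l ≤ 2 * r * l := Nat.mul_le_mul_right l (by omega)
    nlinarith
  rcases Nat.lt_or_ge (2 * r) (k + 2) with h9 | h9
  · have h10 : v * (2 * (r + 1)) ≤ v * (k + 3) := Nat.mul_le_mul_left v (by omega)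
    nlinarith
  · have h11 : 2 * r = k + 2 := by omega
    have h12 : k * l + 2 ≤ 2 * j := by
      have : (k + 2) * l = 2 * r * l := by rw [h11]
      nlinarith
    have h13 : 2 * ((2 * v + 1) * (r + 1)) = (2 * v + 1) * (k + 4) := by
      have : 2 * (r + 1) = k + 4 := by omega
      rw [← this]
      ring
    nlinarith

/-- (CB) -/
private lemma ch8_CB (d k u l e : ℕ) (hl : 1 ≤ l)
    (H4 : 2 * u ≤ e + 1 + k * l) (H5 : d + (k + 3) ≤ e) :
    CB d (d + (k + 3)) u l e := by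
  intro j hj
  have hr : cd j l ≤ k := ch8_cd_le j l k hl (by omega)
  obtain ⟨r, hr'⟩ : ∃ r, r = cd j l := ⟨_, rfl⟩
  rw [← hr'] at hr ⊢
  obtain ⟨y, hy⟩ : ∃ y, 2 * u = j + y := ⟨2 * u - j, by omega⟩
  have hsub : 2 * u - j = y := by omega
  rw [hsub, hy]
  have hy1 : e + 1 ≤ y := by omega
  have h1 : y * (r + 2) ≤ y * (k + 2) := Nat.mul_le_mul_left y (by omega)
  nlinarith

/-- Case A -/
private theorem choice8_A (d k e0 : ℕ) (hk : 2 ≤ k) (hkd : k + 3 ≤ d)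
    (h : 2 * d + 2 ≤ (k + 3) * (k + 1)) (hA : e0 * (k * (d + 1) + d) ≤ 2 * d * (d + 1)) :
    ∃ u l e : ℕ, (d + 1) * (e + 1) + 1 ≤ d * l ∧ l ≤ u ∧ u ≤ d * l ∧ u * e0 ≤ d * l ∧
      CA d (d + (k + 3)) u l ∧ CB d (d + (k + 3)) u l e := by
  obtain ⟨m, hm⟩ : ∃ m, m = 2 * d := ⟨_, rfl⟩
  obtain ⟨l, hl⟩ : ∃ l, l = 2 * (d + 1) * m := ⟨_, rfl⟩
  obtain ⟨e, he⟩ : ∃ e, 2 * d * m = e + 2 := ⟨2 * d * m - 2, by
    have : 1 ≤ d * m := Nat.mul_pos (by omega) (by omega)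
    have : 2 * d * m = 2 * (d * m) := by ring
    omega⟩
  obtain ⟨u, hu⟩ : ∃ u, k * (d + 1) * m + d * m = u + 1 :=
    ⟨k * (d + 1) * m + d * m - 1, by
      have : 1 ≤ d * m := Nat.mul_pos (by omega) (by omega)
      omega⟩
  have hl1 : 1 ≤ l := by
    rw [hl]
    exact Nat.mul_pos (by omega) (by omega)
  have hdd : 5 * 5 ≤ d * d := Nat.mul_le_mul (by omega) (by omega)
  -- the key inequality times `m`
  have hM : m * ((d + 1) * (2 * d + 2)) ≤ m * ((d + 1) * ((k + 3) * (k + 1))) :=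
    Nat.mul_le_mul_left m (Nat.mul_le_mul_left _ h)
  have hM2 : m * (k + 3) ≤ m * d := Nat.mul_le_mul_left m hkd
  refine ⟨u, l, e, ?_, ?_, ?_, ?_, ch8_CA d k u l hl1 ?_ ?_ ?_, ch8_CB d k u l e hl1 ?_ ?_⟩
  · have : (d + 1) * (e + 2) = (d + 1) * (2 * d * m) := by rw [he]
    rw [hl]
    nlinarith
  · have : 2 * ((d + 1) * m) ≤ k * ((d + 1) * m) := Nat.mul_le_mul_right _ hk
    have : 1 ≤ d * m := Nat.mul_pos (by omega) (by omega)
    rw [hl]
    nlinarith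
  · have : k * ((d + 1) * m) ≤ d * ((d + 1) * m) := Nat.mul_le_mul_right _ (by omega)
    rw [hl]
    nlinarith
  · have h1 : e0 * (k * (d + 1) + d) * m ≤ 2 * d * (d + 1) * m := Nat.mul_le_mul_right m hA
    have h2 : e0 * (u + 1) = e0 * (k * (d + 1) + d) * m := by
      rw [← hu]
      ring
    rw [hl]
    nlinarith
  · have h2 : 2 * (d + 1) * (u + 1) = 2 * (d + 1) * m * (k * (d + 1) + d) := by
      rw [← hu]
      ring
    rw [hl]
    nlinarith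
  · -- `m ((d + 1) (D (D - 3) - 2 d) + d D) ≥ d + 2 D + 1`
    have h2 : (u + 1) * (k + 3) = (k * (d + 1) * m + d * m) * (k + 3) := by rw [hu]
    have h3 : d * l = m * (2 * d * (d + 1)) := by
      rw [hl]
      ring
    rw [h3]
    have h4 : m * (d + 2) = 2 * d * (d + 2) := by rw [hm]
    nlinarith
  · have h2 : 2 * (u + 1) * (k + 2) = 2 * (k * (d + 1) * m + d * m) * (k + 2) := by rw [hu]
    have h3 : d * l = m * (2 * d * (d + 1)) := by
      rw [hl]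
      ring
    have h4 : k * l = m * (2 * k * (d + 1)) := by
      rw [hl]
      ring
    rw [h3, h4]
    nlinarith
  · have h4 : k * l = 2 * (k * (d + 1) * m) := by
      rw [hl]
      ring
    have : 2 * (d * m) = e + 2 := by
      rw [← he]
      ring
    omega
  · have : 2 * d * m = 4 * (d * d) := by
      rw [hm]
      ring
    have : 5 * d ≤ d * d := Nat.mul_le_mul_right d (by omega)
    omega

/-- Case B -/
private theorem choice8_B (d k e0 : ℕ) (hd : 4 ≤ d) (hk : 2 ≤ k) (he1 : 1 ≤ e0) (hed : e0 ≤ d)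
    (heD : e0 ≤ k + 2) (hB : 2 * d * (d + 1) < e0 * (k * (d + 1) + d)) :
    ∃ u l e : ℕ, (d + 1) * (e + 1) + 1 ≤ d * l ∧ l ≤ u ∧ u ≤ d * l ∧ u * e0 ≤ d * l ∧
      CA d (d + (k + 3)) u l ∧ CB d (d + (k + 3)) u l e := by
  obtain ⟨m, hm⟩ : ∃ m, m = k + 3 := ⟨_, rfl⟩
  obtain ⟨l, hl⟩ : ∃ l, l = e0 * (d + 1) * m := ⟨_, rfl⟩
  obtain ⟨u, hu⟩ : ∃ u, u = d * (d + 1) * m := ⟨_, rfl⟩
  have hdm : 4 * m ≤ d * m := Nat.mul_le_mul_right m hd
  have hdm2 : d * 5 ≤ d * m := Nat.mul_le_mul_left d (by omega)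
  have hdem : d * m ≤ d * e0 * m := by
    calc d * m = d * 1 * m := by ring
      _ ≤ d * e0 * m := Nat.mul_le_mul_right m (Nat.mul_le_mul_left d he1)
  obtain ⟨e, he⟩ : ∃ e, d * e0 * m = e + 2 := ⟨d * e0 * m - 2, by omega⟩
  have hl1 : 1 ≤ l := by
    rw [hl]
    exact Nat.mul_pos (Nat.mul_pos (by omega) (by omega)) (by omega)
  have hBm : (2 * d * (d + 1) + 1) * m ≤ e0 * (k * (d + 1) + d) * m := Nat.mul_le_mul_right m hB
  refine ⟨u, l, e, ?_, ?_, ?_, ?_, ch8_CA d k u l hl1 ?_ ?_ ?_, ch8_CB d k u l e hl1 ?_ ?_⟩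
  · have : (d + 1) * (e + 2) = (d + 1) * (d * e0 * m) := by rw [he]
    rw [hl]
    nlinarith
  · rw [hl, hu]
    exact Nat.mul_le_mul_right m (Nat.mul_le_mul_right _ hed)
  · rw [hl, hu]
    calc d * (d + 1) * m = d * (1 * (d + 1) * m) := by ring
      _ ≤ d * (e0 * (d + 1) * m) :=
        Nat.mul_le_mul_left d (Nat.mul_le_mul_right m (Nat.mul_le_mul_right _ he1))
  · rw [hl, hu]
    exact le_of_eq (by ring)
  · have h1 : (d + 1) * ((2 * d * (d + 1) + 1) * m) ≤ (d + 1) * (e0 * (k * (d + 1) + d) * m) :=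
      Nat.mul_le_mul_left _ hBm
    rw [hl, hu]
    nlinarith
  · have h1 : d * (d + 1) * m * (e0 + 1) ≤ d * (d + 1) * m * (k + 3) :=
      Nat.mul_le_mul_left _ (by omega)
    have h2 : d * (5 * m) ≤ d * (d + 1) * m := by
      calc d * (5 * m) ≤ d * ((d + 1) * m) :=
            Nat.mul_le_mul_left d (Nat.mul_le_mul_right m (by omega))
        _ = d * (d + 1) * m := by ring
    rw [hl, hu]
    nlinarith
  · have h1 : 2 * (d * (d + 1) * m) * e0 ≤ 2 * (d * (d + 1) * m) * (k + 2) :=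
      Nat.mul_le_mul_left _ heD
    have h2 : 2 * (1 * (d + 1) * m) ≤ k * (e0 * (d + 1) * m) :=
      Nat.mul_le_mul hk (Nat.mul_le_mul_right m (Nat.mul_le_mul_right _ he1))
    rw [hl, hu]
    nlinarith
  · rw [hl, hu]
    nlinarith
  · omega

/-- The parameters: `D = s - d`, `(D - 1)² ≥ 2 d + 3`, `e₀ = min d (D - 1)`. -/
theorem choice8 (d s : ℕ) (hd : 4 ≤ d) (h : 2 * d + 3 ≤ (s - d - 1) ^ 2) :
    ∃ u l e : ℕ, (d + 1) * (e + 1) + 1 ≤ d * l ∧ l ≤ u ∧ u ≤ d * l ∧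
      u * min d (s - d - 1) ≤ d * l ∧ CA d s u l ∧ CB d s u l e := by
  have hD : 4 ≤ s - d - 1 := by
    by_contra hcon
    have : (s - d - 1) ^ 2 ≤ 3 ^ 2 := Nat.pow_le_pow_left (by omega) 2
    omega
  obtain ⟨k, rfl⟩ : ∃ k, s = d + (k + 3) := ⟨s - d - 3, by omega⟩
  have e1 : d + (k + 3) - d - 1 = k + 2 := by omega
  rw [e1] at h ⊢
  rw [e1] at hD
  rcases Nat.lt_or_ge (2 * d * (d + 1)) (min d (k + 2) * (k * (d + 1) + d)) with hB | hA
  · exact choice8_B d k (min d (k + 2)) hd (by omega) (by omega) (by omega) (by omega) hB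
  · refine choice8_A d k (min d (k + 2)) (by omega) ?_ ?_ hA
    · by_contra hcon
      have h1 : min d (k + 2) = d := by omega
      rw [h1] at hA
      obtain ⟨c, hc⟩ : ∃ c, k = d - 2 + c := ⟨k - (d - 2), by omega⟩
      have h2 : 2 * (d + 1) + 1 ≤ k * (d + 1) + d := by
        have : 2 * (d + 1) ≤ k * (d + 1) := Nat.mul_le_mul_right _ (by omega)
        omega
      have h3 : d * (2 * (d + 1) + 1) ≤ d * (k * (d + 1) + d) := Nat.mul_le_mul_left d h2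
      nlinarith
    · nlinarith

end Pool.Agent.Lib.MP_e426f4_ag.DK
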