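import Pool.Agent.Lib.MP_e426f4_ag.DK.Defs

/-!
# IndB: ONE, STAR, EXT

`ind_ext`: `pi_j^d ∣ a_y y_(sd j)^d`, `pi_j ∤ y_(sd j)`, so `pi_j^d ∣ a_y` for all `j ∈ J`; the primes are distinct, so
`∏ pi_j^d ∣ a_y`, and `|a_y| < N ≤ ∏ pi_j^d`: `a_y = 0`.  `D` is `Function.update D y N`.
-/

set_option autoImplicit false

namespace Pool.Agent.Lib.MP_e426f4_ag.DK

open Finset

theorem indM_one (d H N : ℕ) (z : ℕ × ℕ) (hz : 1 ≤ z.1) (hN : 1 ≤ N) (hNH : N ≤ H) :
    IndM d H N {z} := by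
  refine ⟨fun _ => N, fun _ _ => ⟨hN, hNH⟩, by simp, ?_⟩
  intro a _ h1 _ w hw
  rw [mem_singleton] at hw
  subst hw
  rw [sum_singleton] at h1
  have h2 : ((w.1 : ℤ)) ^ d ≠ 0 := pow_ne_zero _ (by exact_mod_cast (by omega : w.1 ≠ 0))
  exact (mul_eq_zero.mp h1).resolve_right h2

/-- two pairs which are not proportional are independent -/
theorem indM_pair' (d H N : ℕ) (hd : 1 ≤ d) (z y : ℕ × ℕ)
    (hzy : z.1 * y.2 ≠ z.2 * y.1) (hN : 1 ≤ N) (hNH : N ≤ H) : IndM d H (N * N) {z, y} := by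
  have hne : z ≠ y := by
    rintro rfl
    exact hzy (Nat.mul_comm _ _)
  refine ⟨fun _ => N, fun _ _ => ⟨hN, hNH⟩, ?_, ?_⟩
  · rw [prod_pair hne]
  · intro a _ h1 h2
    rw [sum_pair hne] at h1 h2
    -- the determinant
    have hdet : ((z.1 : ℤ)) ^ d * (y.2 : ℤ) ^ d - (z.2 : ℤ) ^ d * (y.1 : ℤ) ^ d ≠ 0 := by
      rw [← mul_pow, ← mul_pow, sub_ne_zero]
      intro h
      apply hzy
      have h3 : ((z.1 * y.2 : ℕ) : ℤ) ^ d = ((z.2 * y.1 : ℕ) : ℤ) ^ d := by
        push_cast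
        exact h
      have h4 : (z.1 * y.2) ^ d = (z.2 * y.1) ^ d := by exact_mod_cast h3
      exact Nat.pow_left_injective (by omega : d ≠ 0) h4
    have hz0 : a z * (((z.1 : ℤ)) ^ d * (y.2 : ℤ) ^ d - (z.2 : ℤ) ^ d * (y.1 : ℤ) ^ d) = 0 := by
      linear_combination (y.2 : ℤ) ^ d * h1 - (y.1 : ℤ) ^ d * h2
    have hy0 : a y * (((z.1 : ℤ)) ^ d * (y.2 : ℤ) ^ d - (z.2 : ℤ) ^ d * (y.1 : ℤ) ^ d) = 0 := by
      linear_combination (z.1 : ℤ) ^ d * h2 - (z.2 : ℤ) ^ d * h1
    intro w hw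
    rw [mem_insert, mem_singleton] at hw
    rcases hw with rfl | rfl
    · exact (mul_eq_zero.mp hz0).resolve_right hdet
    · exact (mul_eq_zero.mp hy0).resolve_right hdet

theorem indM_pair (d H N : ℕ) (hd : 1 ≤ d) (x y y' : ℕ) (hx : 1 ≤ x) (hy : y ≠ y') (hN : 1 ≤ N)
    (hNH : N ≤ H) : IndM d H (N * N) {(x, y), (x, y')} := by
  apply indM_pair' d H N hd (x, y) (x, y') _ hN hNH
  simp only
  intro h
  rw [Nat.mul_comm y x] at h
  exact hy (Nat.eq_of_mul_eq_mul_left (by omega) h).symm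

theorem indM_ext {ι : Type} [DecidableEq ι] (d H M N : ℕ) (Z : Finset (ℕ × ℕ)) (y : ℕ × ℕ)
    (hy : y ∉ Z) (hZ : IndM d H M Z) (J : Finset ι) (pi : ι → ℕ) (sd : ι → Bool)
    (hp : ∀ j ∈ J, (pi j).Prime) (hinj : Set.InjOn pi (J : Set ι))
    (h1 : ∀ j ∈ J, ∀ z ∈ Z, pi j ∣ (if sd j then z.1 else z.2))
    (h2 : ∀ j ∈ J, ¬ pi j ∣ (if sd j then y.1 else y.2))
    (hN : 1 ≤ N) (hNH : N ≤ H) (hNJ : N ≤ ∏ j ∈ J, pi j ^ d) : IndM d H (M * N) (insert y Z) := by
  obtain ⟨D, hD1, hD2, hD3⟩ := hZ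
  have hup : ∀ z ∈ Z, Function.update D y N z = D z := by
    intro z hz
    apply Function.update_of_ne
    rintro rfl
    exact hy hz
  refine ⟨Function.update D y N, ?_, ?_, ?_⟩
  · intro z hz
    rcases mem_insert.mp hz with rfl | hz
    · rw [Function.update_self]
      exact ⟨hN, hNH⟩
    · rw [hup z hz]
      exact hD1 z hz
  · rw [prod_insert hy, Function.update_self, prod_congr rfl hup, Nat.mul_comm M N]
    exact Nat.mul_le_mul_left _ hD2
  · intro a ha e1 e2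
    rw [sum_insert hy] at e1 e2
    -- each prime power divides `a y`
    have hdiv : ∀ j ∈ J, ((pi j ^ d : ℕ)) ∣ (a y).natAbs := by
      intro j hj
      have hpr := hp j hj
      have key : ∀ g : ℕ × ℕ → ℕ, (∀ z ∈ Z, pi j ∣ g z) → ¬ pi j ∣ g y →
          a y * (g y : ℤ) ^ d + ∑ z ∈ Z, a z * (g z : ℤ) ^ d = 0 →
          ((pi j ^ d : ℕ)) ∣ (a y).natAbs := by
        intro g hg hgy hsum
        have h3 : ((pi j ^ d : ℕ) : ℤ) ∣ ∑ z ∈ Z, a z * (g z : ℤ) ^ d := by
          apply dvd_sum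
          intro z hz
          apply Dvd.dvd.mul_left
          push_cast
          exact pow_dvd_pow_of_dvd (by exact_mod_cast hg z hz) d
        have h4 : ((pi j ^ d : ℕ) : ℤ) ∣ a y * (g y : ℤ) ^ d := by
          have h5 : a y * (g y : ℤ) ^ d = -∑ z ∈ Z, a z * (g z : ℤ) ^ d := by linarith
          rw [h5]
          exact (dvd_neg).mpr h3
        have h6 : (pi j ^ d) ∣ (a y).natAbs * (g y) ^ d := by
          have h7 := Int.natAbs_dvd_natAbs.mpr h4
          rw [Int.natAbs_mul, Int.natAbs_pow, Int.natAbs_natCast, Int.natAbs_natCast] at h7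
          exact h7
        have h8 : Nat.Coprime (pi j ^ d) (g y ^ d) :=
          Nat.Coprime.pow d d ((Nat.Prime.coprime_iff_not_dvd hpr).mpr hgy)
        exact Nat.Coprime.dvd_of_dvd_mul_right h8 h6
      have h1j := h1 j hj
      have h2j := h2 j hj
      cases hs : sd j with
      | true =>
        simp only [hs, if_true] at h1j h2j
        exact key (fun z => z.1) h1j h2j e1
      | false =>
        simp only [hs, Bool.false_eq_true, if_false] at h1j h2j
        exact key (fun z => z.2) h1j h2j e2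
    have hprod : (∏ j ∈ J, pi j ^ d) ∣ (a y).natAbs := by
      apply Finset.prod_dvd_of_isRelPrime _ hdiv
      intro i hi j hj hij
      rw [Function.onFun, ← Nat.coprime_iff_isRelPrime]
      apply Nat.Coprime.pow
      rw [Nat.coprime_primes (hp i hi) (hp j hj)]
      intro h
      exact hij (hinj hi hj h)
    have hay : a y = 0 := by
      by_contra hne
      have h3 : 0 < (a y).natAbs := Int.natAbs_pos.mpr hne
      have h4 : ∏ j ∈ J, pi j ^ d ≤ (a y).natAbs := Nat.le_of_dvd h3 hprod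
      have h5 := ha y (mem_insert_self _ _)
      rw [Function.update_self] at h5
      have h6 : ((a y).natAbs : ℤ) < N := by
        rw [Int.natCast_natAbs]
        exact h5
      omega
    rw [hay, zero_mul, zero_add] at e1 e2
    have h7 := hD3 a (fun z hz => by
      have := ha z (mem_insert_of_mem hz)
      rwa [hup z hz] at this) e1 e2
    intro w hw
    rcases mem_insert.mp hw with rfl | hw
    · exact hay
    · exact h7 w hw

end Pool.Agent.Lib.MP_e426f4_ag.DK
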