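import Pool.Agent.Lib.MP_e426f4_ag.DK.Defs
import Pool.Agent.Lib.MP_e426f4_ag.DG.Fej
import Pool.Agent.Lib.MP_e426f4_ag.DG.FFb
import Pool.Agent.Lib.MP_e426f4_ag.DG.Ker1
import Pool.Agent.Lib.MP_e426f4_ag.DG.Ker2

/-!
# Meas: the measure of the set where all pairs of an independent set contribute

`wh(c) ≠ 0` gives `|Dn H c|²/H ≥ H/2` (`wh_supp`, `wt_ge` with `H` for `n`).  So
`# (H/2)^|Z| ≤ ∑_{b,b'} ∏_z |Dn H (b z₁^d - b' z₂^d)|²/H ≤ P² #{a : |a_z| < H, both sums 0}` (the private lemmas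
`Mom_term_two` ... of `DH/Mom.lean`; the sums are `< P` in absolute value), and the map `a ↦ (⌊(a_z + H)/D z⌋)_z` is injective
on the solutions, so their number is at most `∏ (2H/D z + 1) ≤ ∏ (3H/D z)`.
-/

set_option autoImplicit false

namespace Pool.Agent.Lib.MP_e426f4_ag.DK

open Finset
open Pool.Agent.Lib.MP_e426f4_ag.DG

private theorem Meas_ee_sum (P : ℕ) [NeZero P] {ι : Type*} (s : Finset ι) (f : ι → ZMod P) :
    ee P (∑ i ∈ s, f i) = ∏ i ∈ s, ee P (f i) := by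
  classical
  unfold ee
  induction s using Finset.induction_on with
  | empty => simp
  | insert a s ha ih => rw [Finset.sum_insert ha, Finset.prod_insert ha, AddChar.map_add_eq_mul, ih]

private theorem Meas_ee_add (P : ℕ) [NeZero P] (x y : ZMod P) : ee P (x + y) = ee P x * ee P y := by
  unfold ee
  exact AddChar.map_add_eq_mul _ _ _

private theorem Meas_zero {ι : Type*} [Fintype ι] (P d H B : ℕ) (hH : 0 < H)
    (hPB : Fintype.card ι * H * B ^ d < P)
    (a : ι → ℤ) (ha : ∀ j, |a j| < H) (x : ι → ℤ) (hx : ∀ j, |x j| ≤ (B : ℤ) ^ d)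
    (h : ∑ j, (a j : ZMod P) * (x j : ZMod P) = 0) : ∑ j, a j * x j = 0 := by
  have h1 : ((∑ j, a j * x j : ℤ) : ZMod P) = 0 := by
    push_cast
    exact h
  rw [ZMod.intCast_zmod_eq_zero_iff_dvd] at h1
  apply Int.eq_zero_of_abs_lt_dvd h1
  calc |∑ j, a j * x j| ≤ ∑ j, |a j * x j| := Finset.abs_sum_le_sum_abs _ _
    _ ≤ ∑ _j : ι, (H : ℤ) * (B : ℤ) ^ d := by
        apply Finset.sum_le_sum
        intro j _
        rw [abs_mul]
        exact mul_le_mul (ha j).le (hx j) (abs_nonneg _) (by positivity)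
    _ = Fintype.card ι * H * (B : ℤ) ^ d := by
        rw [Finset.sum_const, Finset.card_univ]
        simp
        ring
    _ < P := by exact_mod_cast hPB

private theorem Meas_expand {ι : Type*} [Fintype ι] [DecidableEq ι] (P : ℕ) [NeZero P] (d H : ℕ)
    (hH : 0 < H) (z : ι → ℕ × ℕ) (b b' : ZMod P) :
    ((∏ j, (‖Dn P H (b * ((z j).1 : ZMod P) ^ d - b' * ((z j).2 : ZMod P) ^ d)‖ ^ 2 / H) : ℝ) : ℂ) =
      ∑ a ∈ Fintype.piFinset fun _ : ι => Ioo (-(H : ℤ)) H,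
        ((∏ j, (1 - |(a j : ℝ)| / H) : ℝ) : ℂ) *
          (ee P (b * ∑ j, (a j : ZMod P) * ((z j).1 : ZMod P) ^ d) *
            ee P (b' * -∑ j, (a j : ZMod P) * ((z j).2 : ZMod P) ^ d)) := by
  rw [Complex.ofReal_prod]
  simp_rw [Dn_sq H hH]
  rw [Finset.prod_univ_sum]
  apply Finset.sum_congr rfl
  intro a _
  rw [Finset.prod_mul_distrib, Complex.ofReal_prod, ← Meas_ee_sum, ← Meas_ee_add]
  congr 2
  rw [mul_neg, Finset.mul_sum, Finset.mul_sum, ← sub_eq_add_neg, ← Finset.sum_sub_distrib]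
  apply Finset.sum_congr rfl
  intro j _
  ring

private theorem Meas_weight {ι : Type*} [Fintype ι] [DecidableEq ι] (H : ℕ) (hH : 0 < H) (a : ι → ℤ)
    (ha : a ∈ Fintype.piFinset fun _ : ι => Ioo (-(H : ℤ)) H) :
    (∀ j, |a j| < H) ∧ ∀ j, 0 ≤ 1 - |(a j : ℝ)| / H ∧ 1 - |(a j : ℝ)| / H ≤ 1 := by
  have ha' : ∀ j, |a j| < H := by
    intro j
    have := Fintype.mem_piFinset.1 ha j
    rw [Finset.mem_Ioo] at this
    exact abs_lt.2 this
  have hHr : (0 : ℝ) < H := by exact_mod_cast hH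
  refine ⟨ha', fun j => ?_⟩
  have h2 : |(a j : ℝ)| ≤ H := by exact_mod_cast (ha' j).le
  have h3 : |(a j : ℝ)| / H ≤ 1 := (div_le_one hHr).2 h2
  have h4 : 0 ≤ |(a j : ℝ)| / H := by positivity
  constructor <;> linarith

private theorem Meas_pow_le (d B x : ℕ) (hx : x ≤ B) : |((x : ℤ)) ^ d| ≤ (B : ℤ) ^ d := by
  rw [abs_of_nonneg (by positivity)]
  exact_mod_cast Nat.pow_le_pow_left hx d

private theorem Meas_term {ι : Type*} [Fintype ι] [DecidableEq ι] (P : ℕ) [NeZero P] (d H B : ℕ)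
    (hH : 0 < H) (hPB : Fintype.card ι * H * B ^ d < P) (z : ι → ℕ × ℕ)
    (hz : ∀ j, (z j).1 ≤ B ∧ (z j).2 ≤ B) :
    (1 / (P : ℝ) ^ 2) * ∑ b : ZMod P, ∑ b' : ZMod P,
      ∏ j, (‖Dn P H (b * ((z j).1 : ZMod P) ^ d - b' * ((z j).2 : ZMod P) ^ d)‖ ^ 2 / H) ≤
    ((((Fintype.piFinset fun _ : ι => Ioo (-(H : ℤ)) H)).filter
      fun a : ι → ℤ => ∑ j, a j * ((z j).1 : ℤ) ^ d = 0 ∧
        ∑ j, a j * ((z j).2 : ℤ) ^ d = 0).card : ℝ) := by
  have hP0 : (P : ℂ) ≠ 0 := by exact_mod_cast NeZero.ne P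
  have hC : (((1 / (P : ℝ) ^ 2) * ∑ b : ZMod P, ∑ b' : ZMod P,
      ∏ j, (‖Dn P H (b * ((z j).1 : ZMod P) ^ d - b' * ((z j).2 : ZMod P) ^ d)‖ ^ 2 / H) : ℝ) : ℂ) =
      ((∑ a ∈ Fintype.piFinset fun _ : ι => Ioo (-(H : ℤ)) H,
        if (∑ j, (a j : ZMod P) * ((z j).1 : ZMod P) ^ d = 0 ∧
          ∑ j, (a j : ZMod P) * ((z j).2 : ZMod P) ^ d = 0) then
            (∏ j, (1 - |(a j : ℝ)| / H)) else 0 : ℝ) : ℂ) := by
    rw [Complex.ofReal_mul, Complex.ofReal_sum]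
    simp_rw [Complex.ofReal_sum (univ : Finset (ZMod P)), Meas_expand P d H hH z]
    have h1 : ∀ b : ZMod P, (∑ b' : ZMod P, ∑ a ∈ Fintype.piFinset fun _ : ι => Ioo (-(H : ℤ)) H,
        ((∏ j, (1 - |(a j : ℝ)| / H) : ℝ) : ℂ) *
          (ee P (b * ∑ j, (a j : ZMod P) * ((z j).1 : ZMod P) ^ d) *
            ee P (b' * -∑ j, (a j : ZMod P) * ((z j).2 : ZMod P) ^ d))) =
        ∑ a ∈ Fintype.piFinset fun _ : ι => Ioo (-(H : ℤ)) H,
        ((∏ j, (1 - |(a j : ℝ)| / H) : ℝ) : ℂ) *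
          (ee P (b * ∑ j, (a j : ZMod P) * ((z j).1 : ZMod P) ^ d) *
            if (-∑ j, (a j : ZMod P) * ((z j).2 : ZMod P) ^ d) = 0 then (P : ℂ) else 0) := by
      intro b
      rw [Finset.sum_comm]
      apply Finset.sum_congr rfl
      intro a _
      rw [← Finset.mul_sum, ← Finset.mul_sum, sum_ee]
    simp_rw [h1]
    rw [Finset.sum_comm, Finset.mul_sum, Complex.ofReal_sum]
    apply Finset.sum_congr rfl
    intro a _
    rw [← Finset.mul_sum, ← Finset.sum_mul, sum_ee]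
    simp only [neg_eq_zero]
    by_cases hS1 : ∑ j, (a j : ZMod P) * ((z j).1 : ZMod P) ^ d = 0
    · by_cases hS2 : ∑ j, (a j : ZMod P) * ((z j).2 : ZMod P) ^ d = 0
      · rw [if_pos hS1, if_pos hS2, if_pos ⟨hS1, hS2⟩]
        push_cast
        field_simp
      · simp only [hS2, and_false, if_false, mul_zero, Complex.ofReal_zero]
    · simp only [hS1, false_and, if_false, mul_zero, zero_mul, Complex.ofReal_zero]
  rw [Complex.ofReal_injective hC, Finset.card_filter]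
  push_cast
  apply Finset.sum_le_sum
  intro a ha
  obtain ⟨ha', hw⟩ := Meas_weight H hH a ha
  split_ifs with h1 h2 h3
  · exact Finset.prod_le_one (fun j _ => (hw j).1) (fun j _ => (hw j).2)
  · exfalso
    refine h2 ⟨Meas_zero P d H B hH hPB a ha' (fun j => ((z j).1 : ℤ) ^ d)
      (fun j => Meas_pow_le d B _ (hz j).1) ?_,
      Meas_zero P d H B hH hPB a ha' (fun j => ((z j).2 : ℤ) ^ d)
      (fun j => Meas_pow_le d B _ (hz j).2) ?_⟩
    · push_cast
      exact h1.1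
    · push_cast
      exact h1.2
  · exact zero_le_one
  · exact le_rfl

/-- `wh c ≠ 0` gives a large Fejér kernel -/
private theorem Meas_low {P : ℕ} [NeZero P] (n H : ℕ) (hH : 0 < H) (hnH : 4 * n * H ≤ P)
    (c : ZMod P) (h0 : wh P n c ≠ 0) : (H : ℝ) / 2 ≤ ‖Dn P H c‖ ^ 2 / H := by
  obtain ⟨k, hk, hkc⟩ := wh_supp n c h0
  have h1 : 4 * (H : ℤ) * |k| ≤ P := by
    have h2 : (H : ℤ) * |k| ≤ (H : ℤ) * n := by
      apply mul_le_mul_of_nonneg_left hk.le
      positivity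
    have h3 : (4 : ℤ) * n * H ≤ P := by exact_mod_cast hnH
    nlinarith
  have h2 := wt_ge (P := P) H hH k h1
  rw [hkc] at h2
  unfold wt at h2
  have hHp : (0 : ℝ) < H := by positivity
  rw [div_le_div_iff₀ (by norm_num) (by positivity)] at h2
  rw [div_le_div_iff₀ (by norm_num) hHp]
  nlinarith

/-- the number of solutions of the two relations with `|a_z| < H` -/
private theorem Meas_sol (d H : ℕ) (Z : Finset (ℕ × ℕ)) (D : ℕ × ℕ → ℕ)
    (hD : ∀ z ∈ Z, 1 ≤ D z ∧ D z ≤ H) (hI : Ind d D Z) :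
    ((((Fintype.piFinset fun _ : Z => Ioo (-(H : ℤ)) H)).filter
      fun a : Z → ℤ => ∑ j, a j * ((j : ℕ × ℕ).1 : ℤ) ^ d = 0 ∧
        ∑ j, a j * ((j : ℕ × ℕ).2 : ℤ) ^ d = 0).card : ℝ) * ∏ z ∈ Z, (D z : ℝ) ≤
      (3 * H : ℝ) ^ Z.card := by
  classical
  set A := (((Fintype.piFinset fun _ : Z => Ioo (-(H : ℤ)) H)).filter
      fun a : Z → ℤ => ∑ j, a j * ((j : ℕ × ℕ).1 : ℤ) ^ d = 0 ∧
        ∑ j, a j * ((j : ℕ × ℕ).2 : ℤ) ^ d = 0) with hA
  have hAm : ∀ a ∈ A, (∀ j, -(H : ℤ) < a j ∧ a j < H) ∧ ∑ j, a j * ((j : ℕ × ℕ).1 : ℤ) ^ d = 0 ∧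
        ∑ j, a j * ((j : ℕ × ℕ).2 : ℤ) ^ d = 0 := by
    intro a ha
    rw [hA, Finset.mem_filter] at ha
    refine ⟨fun j => ?_, ha.2⟩
    have := Fintype.mem_piFinset.1 ha.1 j
    rwa [Finset.mem_Ioo] at this
  have hcard : A.card ≤ ∏ z : Z, (2 * H / D z + 1) := by
    have h1 : A.card ≤ (Fintype.piFinset fun z : Z => range (2 * H / D z + 1)).card := by
      apply Finset.card_le_card_of_injOn (fun (a : Z → ℤ) (z : Z) => ((a z + H) / (D z : ℤ)).toNat)
      · intro a ha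
        rw [Finset.mem_coe] at ha
        obtain ⟨h2, -⟩ := hAm a ha
        rw [Finset.mem_coe, Fintype.mem_piFinset]
        intro z
        rw [Finset.mem_range]
        obtain ⟨h3, h4⟩ := h2 z
        have h5 : (0 : ℤ) ≤ (a z + H) / (D z : ℤ) := Int.ediv_nonneg (by linarith) (by positivity)
        have h6 : (a z + H) / (D z : ℤ) ≤ (2 * H : ℤ) / (D z : ℤ) := by
          apply Int.ediv_le_ediv
          · have := (hD z z.2).1
            exact_mod_cast this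
          · linarith
        have h7 : (((a z + H) / (D z : ℤ)).toNat : ℤ) ≤ ((2 * H / D z : ℕ) : ℤ) := by
          rw [Int.toNat_of_nonneg h5]
          push_cast
          exact h6
        have h8 : ((a z + H) / (D z : ℤ)).toNat ≤ 2 * H / D z := by exact_mod_cast h7
        exact Nat.lt_succ_of_le h8
      · intro a ha a' ha' h
        rw [Finset.mem_coe] at ha ha'
        obtain ⟨h2, h3, h4⟩ := hAm a ha
        obtain ⟨h2', h3', h4'⟩ := hAm a' ha'
        funext z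
        have key : ∀ z : Z, |a z - a' z| < D z := by
          intro z
          have h5 := congrFun h z
          simp only at h5
          have hD0 : (0 : ℤ) < D z := by
            have := (hD z z.2).1
            exact_mod_cast this
          have h6 : (0 : ℤ) ≤ (a z + H) / (D z : ℤ) :=
            Int.ediv_nonneg (by linarith [(h2 z).1]) hD0.le
          have h6' : (0 : ℤ) ≤ (a' z + H) / (D z : ℤ) :=
            Int.ediv_nonneg (by linarith [(h2' z).1]) hD0.le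
          have h7 : (a z + H) / (D z : ℤ) = (a' z + H) / (D z : ℤ) := by
            rw [← Int.toNat_of_nonneg h6, ← Int.toNat_of_nonneg h6', h5]
          have h8 := Int.emod_add_mul_ediv (a z + H) (D z)
          have h9 := Int.emod_add_mul_ediv (a' z + H) (D z)
          have h10 := Int.emod_nonneg (a z + H) hD0.ne'
          have h11 := Int.emod_lt_of_pos (a z + H) hD0
          have h12 := Int.emod_nonneg (a' z + H) hD0.ne'
          have h13 := Int.emod_lt_of_pos (a' z + H) hD0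
          rw [h7] at h8
          rw [abs_lt]
          constructor <;> linarith
        let c : ℕ × ℕ → ℤ := fun w => if hw : w ∈ Z then a ⟨w, hw⟩ - a' ⟨w, hw⟩ else 0
        have hc : ∀ w : Z, c w = a w - a' w := by
          intro w
          simp only [c, w.2, dif_pos]
        have hsum : ∀ g : ℕ × ℕ → ℤ, ∑ w ∈ Z, c w * g w = ∑ j : Z, a j * g j - ∑ j : Z, a' j * g j := by
          intro g
          rw [← Finset.sum_coe_sort Z (fun w => c w * g w), ← Finset.sum_sub_distrib]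
          apply Finset.sum_congr rfl
          intro j _
          rw [hc j]
          ring
        have h20 := hI c (by
            intro w hw
            have := key ⟨w, hw⟩
            rw [hc ⟨w, hw⟩]
            exact this)
          (by
            rw [hsum (fun w => (w.1 : ℤ) ^ d), h3, h3']
            rfl)
          (by
            rw [hsum (fun w => (w.2 : ℤ) ^ d), h4, h4']
            rfl) z z.2
        rw [hc z] at h20
        linarith
    rw [Fintype.card_piFinset] at h1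
    simpa using h1
  have hprod : ∏ z : Z, (2 * H / D z + 1) = ∏ z ∈ Z, (2 * H / D z + 1) :=
    Finset.prod_coe_sort Z (fun z => 2 * H / D z + 1)
  rw [hprod] at hcard
  have h1 : (A.card : ℝ) ≤ ∏ z ∈ Z, (((2 * H / D z + 1 : ℕ)) : ℝ) := by exact_mod_cast hcard
  calc (A.card : ℝ) * ∏ z ∈ Z, (D z : ℝ)
      ≤ (∏ z ∈ Z, (((2 * H / D z + 1 : ℕ)) : ℝ)) * ∏ z ∈ Z, (D z : ℝ) := by
        apply mul_le_mul_of_nonneg_right h1
        exact Finset.prod_nonneg fun z _ => by positivity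
    _ = ∏ z ∈ Z, (((2 * H / D z + 1 : ℕ)) : ℝ) * (D z : ℝ) := by
        rw [Finset.prod_mul_distrib]
    _ ≤ ∏ z ∈ Z, (3 * H : ℝ) := by
        apply Finset.prod_le_prod (fun z _ => by positivity)
        intro z hz
        obtain ⟨h2, h3⟩ := hD z hz
        have h4 : (2 * H / D z + 1) * D z ≤ 3 * H := by
          have := Nat.div_mul_le_self (2 * H) (D z)
          nlinarith
        exact_mod_cast h4
    _ = (3 * H : ℝ) ^ Z.card := by rw [Finset.prod_const]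

private theorem Meas_aux {P : ℕ} [NeZero P] (n d H B M : ℕ) (hH : 0 < H)
    (hnH : 4 * n * H ≤ P)
    (Z : Finset (ℕ × ℕ)) (hZB : ∀ z ∈ Z, z.1 ≤ B ∧ z.2 ≤ B) (hPB : Z.card * H * B ^ d < P)
    (hI : IndM d H M Z) (G : Finset (ZMod P × ZMod P)) (hG : ∀ b ∈ G, ∀ z ∈ Z,
      wh P n (b.1 * (z.1 : ZMod P) ^ d - b.2 * (z.2 : ZMod P) ^ d) ≠ 0) :
    (G.card : ℝ) * M ≤ (P : ℝ) ^ 2 * 6 ^ Z.card := by
  obtain ⟨D, hD, hM, hInd⟩ := hI
  have hPr : (0 : ℝ) < P := by exact_mod_cast Nat.pos_of_ne_zero (NeZero.ne P)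
  have hHr : (0 : ℝ) < H := by exact_mod_cast hH
  let K : ZMod P × ZMod P → ℝ := fun b => ∏ j : Z,
    (‖Dn P H (b.1 * ((j : ℕ × ℕ).1 : ZMod P) ^ d - b.2 * ((j : ℕ × ℕ).2 : ZMod P) ^ d)‖ ^ 2 / H)
  have hK0 : ∀ b, 0 ≤ K b := fun b => Finset.prod_nonneg fun j _ => by positivity
  have h1 : ∀ b ∈ G, ((H : ℝ) / 2) ^ Z.card ≤ K b := by
    intro b hb
    calc ((H : ℝ) / 2) ^ Z.card = ∏ _j : Z, ((H : ℝ) / 2) := by
          rw [Finset.prod_const, Finset.card_univ, Fintype.card_coe]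
      _ ≤ K b := by
          apply Finset.prod_le_prod (fun _ _ => by positivity)
          intro j _
          exact Meas_low n H hH hnH _ (hG b hb j j.2)
  have h2 : (G.card : ℝ) * ((H : ℝ) / 2) ^ Z.card ≤ ∑ b : ZMod P × ZMod P, K b := by
    calc (G.card : ℝ) * ((H : ℝ) / 2) ^ Z.card ≤ ∑ b ∈ G, K b := by
          rw [← nsmul_eq_mul]
          exact Finset.card_nsmul_le_sum _ _ _ h1
      _ ≤ ∑ b : ZMod P × ZMod P, K b :=
          Finset.sum_le_sum_of_subset_of_nonneg (Finset.subset_univ _) fun b _ _ => hK0 b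
  have h3 := Meas_term P d H B hH (ι := Z) (by rwa [Fintype.card_coe]) (fun j => (j : ℕ × ℕ))
    (fun j => hZB j j.2)
  have h4 := Meas_sol d H Z D hD hInd
  have h5 : ∑ b : ZMod P × ZMod P, K b = ∑ b : ZMod P, ∑ b' : ZMod P,
      ∏ j : Z, (‖Dn P H (b * ((j : ℕ × ℕ).1 : ZMod P) ^ d -
        b' * ((j : ℕ × ℕ).2 : ZMod P) ^ d)‖ ^ 2 / H) := by
    rw [Fintype.sum_prod_type]
  rw [← h5] at h3
  have hM' : (M : ℝ) ≤ ∏ z ∈ Z, (D z : ℝ) := by exact_mod_cast hM
  set AA : ℝ := ((((Fintype.piFinset fun _ : Z => Ioo (-(H : ℤ)) H)).filter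
      fun a : Z → ℤ => ∑ j, a j * ((j : ℕ × ℕ).1 : ℤ) ^ d = 0 ∧
        ∑ j, a j * ((j : ℕ × ℕ).2 : ℤ) ^ d = 0).card : ℝ) with hAA
  have hAA0 : 0 ≤ AA := by positivity
  have h6 : ∑ b : ZMod P × ZMod P, K b ≤ (P : ℝ) ^ 2 * AA := by
    rw [one_div, inv_mul_le_iff₀ (by positivity)] at h3
    exact h3
  have h7 : (G.card : ℝ) * M * ((H : ℝ) / 2) ^ Z.card ≤
      (P : ℝ) ^ 2 * 6 ^ Z.card * ((H : ℝ) / 2) ^ Z.card := by
    calc (G.card : ℝ) * M * ((H : ℝ) / 2) ^ Z.card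
        = (G.card : ℝ) * ((H : ℝ) / 2) ^ Z.card * M := by ring
      _ ≤ (P : ℝ) ^ 2 * AA * M := by
          apply mul_le_mul_of_nonneg_right (h2.trans h6)
          positivity
      _ ≤ (P : ℝ) ^ 2 * AA * ∏ z ∈ Z, (D z : ℝ) := by
          apply mul_le_mul_of_nonneg_left hM'
          positivity
      _ = (P : ℝ) ^ 2 * (AA * ∏ z ∈ Z, (D z : ℝ)) := by ring
      _ ≤ (P : ℝ) ^ 2 * (3 * H : ℝ) ^ Z.card := by
          apply mul_le_mul_of_nonneg_left h4
          positivity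
      _ = (P : ℝ) ^ 2 * 6 ^ Z.card * ((H : ℝ) / 2) ^ Z.card := by
          rw [mul_assoc, ← mul_pow]
          congr 2
          ring
  exact le_of_mul_le_mul_right h7 (by positivity)

open Classical in
theorem meas {P : ℕ} [NeZero P] (n d H B M : ℕ) (hn : 0 < n) (hH : 0 < H) (hnH : 4 * n * H ≤ P)
    (Z : Finset (ℕ × ℕ)) (hZB : ∀ z ∈ Z, z.1 ≤ B ∧ z.2 ≤ B) (hPB : Z.card * H * B ^ d < P)
    (hI : IndM d H M Z) :
    (((univ : Finset (ZMod P × ZMod P)).filter fun b => ∀ z ∈ Z,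
      wh P n (b.1 * (z.1 : ZMod P) ^ d - b.2 * (z.2 : ZMod P) ^ d) ≠ 0).card : ℝ) * M ≤
      (P : ℝ) ^ 2 * 6 ^ Z.card := by
  apply Meas_aux n d H B M hH hnH Z hZB hPB hI
  intro b hb
  simpa using hb

end Pool.Agent.Lib.MP_e426f4_ag.DK
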