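import Pool.Agent.Lib.MP_e426f4_ag.DK.FactsX
import Pool.Agent.Lib.MP_e426f4_ag.DK.IndB
import Pool.Agent.Lib.MP_e426f4_ag.DK.Meas
import Pool.Agent.Lib.MP_e426f4_ag.DK.CW

/-!
# Cls: the double counting lemma for the class of `t, t', A`

`cw` with `α = (Fin u → ℕ) × (Fin u → ℕ)`, `Y = S.Cl A`, `C = Fin u ⊕ Fin u`, `ka (inl c) z = z.1 c`,
`ka (inr c) z = z.2 c`, `PS (inl c) = PS (inr c) = PS c`, `F =` all `inl c` and the `inr c` with `c ∉ A`,
`th =` the `inl c` with `c ∈ A`;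
`Q Z N = IndM d H (W^(d N)) (Z.image (pr t t'))`; `N0 = b l`; `L = R` (`p_two`), `G = R^3`.
`ext`: `indM_ext` with the common values of the primes on `J'` (distinct: the blocks are disjoint, and the two primes of a
block `c ∉ A` are different; they divide no `t ≤ T < W` and no other prime), `W^(d k) ≤ ∏ pi^d`, `W^(d k) ≤ W^(d l) ≤ H`;
`indM_one`; `b = 2`: `indM_two`: if `z ≠ y` agree on `th`, then `z₁ y₂ ≠ y₁ z₂` (otherwise
`∏ z.1 c ∏ y.2 c = ∏ y.1 c ∏ z.2 c`; for `c ∉ A` the prime `z.1 c` divides the right side and is not `z.2 c`,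
so it is `y.1 c`, and `z.2 c` is `y.2 c`).  `M = P² 6^ρ / W^(d (j + b l))` by `meas` (`pr` is injective on `Cl A`: `uniq`;
`ρ ≤ 2 d + 3`, `8 (s + 2) H B^d < P`).  `#F = 2 u - #A`.
-/

set_option autoImplicit false

namespace Pool.Agent.Lib.MP_e426f4_ag.DK

open Finset
open Pool.Agent.Lib.MP_e426f4_ag.DG

theorem indM_two (d H N : ℕ) (hd : 1 ≤ d) (z y : ℕ × ℕ) (hz1 : 1 ≤ z.1) (hz2 : 1 ≤ z.2)
    (hy1 : 1 ≤ y.1) (hy2 : 1 ≤ y.2) (hzy : z.1 * y.2 ≠ y.1 * z.2) (hN : 1 ≤ N)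
    (hNH : N ≤ H) : IndM d H (N * N) {z, y} := by
  have h := indM_pair' d H N hd z y (by rw [mul_comm z.2 y.1]; exact hzy) hN hNH
  exact h

/-- coordinates of a pair of choices -/
private def cls_ka {u : ℕ} (c : Fin u ⊕ Fin u) (z : (Fin u → ℕ) × (Fin u → ℕ)) : ℕ :=
  Sum.elim z.1 z.2 c

private def cls_ix {u : ℕ} (c : Fin u ⊕ Fin u) : Fin u := Sum.elim id id c

private lemma cls_mem {d s u l e m w E : ℕ} (S : Su d s u l e m w E) (A : Finset (Fin u))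
    (z : (Fin u → ℕ) × (Fin u → ℕ)) : z ∈ S.Cl A ↔
      (∀ c : Fin u, z.1 c ∈ S.PS c) ∧ (∀ c : Fin u, z.2 c ∈ S.PS c) ∧ ∀ c : Fin u, z.1 c = z.2 c ↔ c ∈ A := by
  unfold Su.Cl
  rw [mem_filter, mem_product, S.PF_mem, S.PF_mem, and_assoc]

private lemma cls_kamem {d s u l e m w E : ℕ} (S : Su d s u l e m w E) (A : Finset (Fin u))
    (z : (Fin u → ℕ) × (Fin u → ℕ)) (hz : z ∈ S.Cl A) (c : Fin u ⊕ Fin u) :
    cls_ka c z ∈ S.PS (cls_ix c) := by
  obtain ⟨h1, h2, -⟩ := (cls_mem S A z).1 hz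
  rcases c with c | c
  · exact h1 c
  · exact h2 c

private lemma cls_inj {d s u l e m w E : ℕ} (S : Su d s u l e m w E) (t t' : ℕ) (ht : t ∈ S.I)
    (ht' : t' ∈ S.I) (A : Finset (Fin u)) : Set.InjOn (pr (u := u) t t') (S.Cl A) := by
  intro z hz y hy h
  obtain ⟨h1, h2, -⟩ := (cls_mem S A z).1 hz
  obtain ⟨g1, g2, -⟩ := (cls_mem S A y).1 hy
  obtain ⟨k1, k2, -⟩ := (S.I_mem t).1 ht
  obtain ⟨k1', k2', -⟩ := (S.I_mem t').1 ht'
  unfold pr at h
  rw [Prod.mk.injEq] at h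
  have e1 := (S.uniq u le_rfl t t ⟨k1, k2⟩ ⟨k1, k2⟩ z.1 y.1 ((S.PF_mem u _).2 h1)
    ((S.PF_mem u _).2 g1) h.1).2
  have e2 := (S.uniq u le_rfl t' t' ⟨k1', k2'⟩ ⟨k1', k2'⟩ z.2 y.2 ((S.PF_mem u _).2 h2)
    ((S.PF_mem u _).2 g2) h.2).2
  exact Prod.ext e1 e2

private lemma cls_bound {d s u l e m w E : ℕ} (S : Su d s u l e m w E) (t : ℕ) (ht : t ∈ S.I)
    (z : Fin u → ℕ) (hz : ∀ c : Fin u, z c ∈ S.PS c) : 1 ≤ t * ∏ c, z c ∧ t * ∏ c, z c ≤ S.B := by
  have h := S.X_bounds (t * ∏ c, z c) ((S.X_mem _).2 ⟨t, ht, z, (S.PF_mem u _).2 hz, rfl⟩)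
  exact ⟨h.1, h.2.1⟩

/-- the coordinates of the pair are not divisible by other primes -/
private lemma cls_ndvd {d s u l e m w E : ℕ} (S : Su d s u l e m w E) (t t' : ℕ) (ht : t ∈ S.I)
    (ht' : t' ∈ S.I) (A : Finset (Fin u)) (y : (Fin u → ℕ) × (Fin u → ℕ)) (hy : y ∈ S.Cl A)
    (c : Fin u ⊕ Fin u) (q : ℕ) (hq : q ∈ S.PS (cls_ix c)) (hne : cls_ka c y ≠ q) :
    ¬ q ∣ (if Sum.isLeft c then (pr t t' y).1 else (pr t t' y).2) := by
  obtain ⟨g1, g2, -⟩ := (cls_mem S A y).1 hy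
  obtain ⟨k1, k2, -⟩ := (S.I_mem t).1 ht
  obtain ⟨k1', k2', -⟩ := (S.I_mem t').1 ht'
  rcases c with c | c
  · intro h
    obtain ⟨_, h2⟩ := S.PS_dvd u le_rfl q c t c.2 hq ⟨k1, k2⟩ y.1 ((S.PF_mem u _).2 g1) h
    exact hne h2
  · intro h
    obtain ⟨_, h2⟩ := S.PS_dvd u le_rfl q c t' c.2 hq ⟨k1', k2'⟩ y.2 ((S.PF_mem u _).2 g2) h
    exact hne h2

private lemma cls_dvd {u : ℕ} (t t' : ℕ) (z : (Fin u → ℕ) × (Fin u → ℕ)) (c : Fin u ⊕ Fin u) :
    cls_ka c z ∣ (if Sum.isLeft c then (pr t t' z).1 else (pr t t' z).2) := by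
  rcases c with c | c
  · exact Dvd.dvd.mul_left (dvd_prod_of_mem z.1 (mem_univ c)) t
  · exact Dvd.dvd.mul_left (dvd_prod_of_mem z.2 (mem_univ c)) t'

private lemma cls_ext {d s u l e m w E : ℕ} (S : Su d s u l e m w E) (t t' : ℕ) (ht : t ∈ S.I)
    (ht' : t' ∈ S.I) (A : Finset (Fin u)) (Z : Finset ((Fin u → ℕ) × (Fin u → ℕ)))
    (J' : Finset (Fin u ⊕ Fin u)) (v : Fin u ⊕ Fin u → ℕ) (N : ℕ)
    (y : (Fin u → ℕ) × (Fin u → ℕ)) (hZ : Z ⊆ S.Cl A) (hZn : Z.Nonempty)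
    (hJF : ∀ c : Fin u, Sum.inr c ∈ J' → c ∉ A) (hJ1 : 1 ≤ J'.card) (hJl : J'.card ≤ l)
    (hv : ∀ z ∈ Z, ∀ c ∈ J', cls_ka c z = v c) (hy : y ∈ S.Cl A) (hyv : ∀ c ∈ J', cls_ka c y ≠ v c)
    (hQ : IndM d S.H (S.W ^ (d * N)) (Z.image (pr t t'))) :
    IndM d S.H (S.W ^ (d * (N + J'.card))) ((insert y Z).image (pr t t')) := by
  obtain ⟨z0, hz0⟩ := hZn
  obtain ⟨c0, hc0⟩ := card_pos.1 hJ1
  have hvm : ∀ c ∈ J', v c ∈ S.PS (cls_ix c) := fun c hc => by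
    rw [← hv z0 hz0 c hc]
    exact cls_kamem S A z0 (hZ hz0) c
  have hW := S.W_pos
  have hyZ : pr t t' y ∉ Z.image (pr t t') := by
    intro h
    obtain ⟨z, hz, hzy⟩ := mem_image.1 h
    have := cls_inj S t t' ht ht' A (hZ hz) hy hzy
    subst this
    exact hyv c0 hc0 (hv z hz c0 hc0)
  rw [image_insert, Nat.mul_add, pow_add]
  refine indM_ext d S.H (S.W ^ (d * N)) (S.W ^ (d * J'.card)) (Z.image (pr t t')) (pr t t' y) hyZ hQ
    J' v Sum.isLeft ?_ ?_ ?_ ?_ ?_ ?_ ?_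
  · intro c hc
    exact (S.hPS (cls_ix c) (cls_ix c).2 (v c) (hvm c hc)).1
  · intro c hc c' hc' h
    by_contra hne
    have h1 := hvm c hc
    have h2 := hvm c' hc'
    rw [← h] at h2
    have h3 : cls_ix c = cls_ix c' := by
      by_contra h4
      have h5 : (cls_ix c : ℕ) ≠ (cls_ix c' : ℕ) := fun h6 => h4 (Fin.ext h6)
      exact (Finset.disjoint_left.1 (S.hPd _ _ (cls_ix c).2 (cls_ix c').2 h5) h1) h2
    obtain ⟨-, -, k3⟩ := (cls_mem S A z0).1 (hZ hz0)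
    have e1 := hv z0 hz0 c hc
    have e2 := hv z0 hz0 c' hc'
    rcases c with c | c <;> rcases c' with c' | c'
    · exact hne (congrArg _ h3)
    · have h4 : c = c' := h3
      subst h4
      have h5 : z0.1 c = z0.2 c := by
        change z0.1 c = _ at e1
        change z0.2 c = _ at e2
        rw [e1, e2, h]
      exact hJF c hc' ((k3 c).1 h5)
    · have h4 : c = c' := h3
      subst h4
      have h5 : z0.1 c = z0.2 c := by
        change z0.2 c = _ at e1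
        change z0.1 c = _ at e2
        rw [e1, e2, h]
      exact hJF c hc ((k3 c).1 h5)
    · exact hne (congrArg _ h3)
  · intro c hc x hx
    obtain ⟨z, hz, rfl⟩ := mem_image.1 hx
    rw [← hv z hz c hc]
    exact cls_dvd t t' z c
  · intro c hc
    exact cls_ndvd S t t' ht ht' A y hy c (v c) (hvm c hc) (hyv c hc)
  · exact Nat.one_le_pow _ _ hW
  · refine le_trans (Nat.pow_le_pow_right hW ?_) S.H_ge'
    exact Nat.mul_le_mul_left _ hJl
  · calc S.W ^ (d * J'.card) = ∏ _c ∈ J', S.W ^ d := by rw [prod_const, ← pow_mul]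
      _ ≤ ∏ c ∈ J', v c ^ d := by
        refine prod_le_prod' fun c hc => Nat.pow_le_pow_left ?_ d
        exact (S.hPS (cls_ix c) (cls_ix c).2 (v c) (hvm c hc)).2.1.le

/-- the numerical facts -/
private lemma cls_num {d s u l e m w E : ℕ} (S : Su d s u l e m w E) (j b f : ℕ) (hj : j ≤ 2 * u)
    (hb : b = 1 ∨ b = 2) (hf : f ≤ 2 * u) :
    (j + l - 1) / l ≤ 2 * d ∧ 2 ^ ((j + l - 1) / l + 1) ≤ S.R ∧ (2 * l) ^ f ≤ S.R ∧
      f * (2 * l) ^ ((j + l - 1) / l + b) ≤ S.R ∧ 2 ^ (f + (j + l - 1) / l + b + 3) ≤ S.R ∧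
      6 ^ ((j + l - 1) / l + b) ≤ S.R ∧ 2 ≤ S.R := by
  obtain ⟨h1, h2, h3, h4, h5, h6, h7, -, -⟩ := S.nums
  obtain ⟨c1, -, -⟩ := Su.sum_le_cN d s u m w
  have hr : (j + l - 1) / l ≤ 2 * d := by
    rw [← Nat.lt_succ_iff, Nat.div_lt_iff_lt_mul (by omega)]
    have : (2 * d).succ * l = 2 * (d * l) + l := by rw [Nat.succ_mul]; ring
    rw [this]
    omega
  generalize (j + l - 1) / l = r at hr ⊢
  refine ⟨hr, S.const_le _ _ (by omega) (by omega), S.const_le _ _ (by omega) (by omega), ?_,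
    S.const_le _ _ (by omega) (by omega), S.const_le _ _ (by omega) (by omega), ?_⟩
  · calc f * (2 * l) ^ (r + b) ≤ (2 * u) * (2 * u) ^ (r + b) :=
          Nat.mul_le_mul hf (Nat.pow_le_pow_left (by omega) _)
      _ = (2 * u) ^ (r + b + 1) := by rw [pow_succ]; ring
      _ ≤ S.R := S.const_le _ _ (by omega) (by omega)
  · have := S.const_le 2 1 (by omega) (by omega)
    simpa using this

private lemma cls_star {d s u l e m w E : ℕ} (S : Su d s u l e m w E) (t t' : ℕ) (ht : t ∈ S.I)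
    (ht' : t' ∈ S.I) (A : Finset (Fin u)) (z y : (Fin u → ℕ) × (Fin u → ℕ)) (hz : z ∈ S.Cl A)
    (hy : y ∈ S.Cl A) (hne : z ≠ y) (hA : ∀ c ∈ A, z.1 c = y.1 c) :
    (pr t t' z).1 * (pr t t' y).2 ≠ (pr t t' y).1 * (pr t t' z).2 := by
  intro h
  obtain ⟨z1, z2, z3⟩ := (cls_mem S A z).1 hz
  obtain ⟨y1, y2, y3⟩ := (cls_mem S A y).1 hy
  obtain ⟨k1, k2, -⟩ := (S.I_mem t).1 ht
  obtain ⟨k1', k2', -⟩ := (S.I_mem t').1 ht'
  have h' : (∏ c, z.1 c) * (∏ c, y.2 c) = (∏ c, y.1 c) * ∏ c, z.2 c := by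
    unfold pr at h
    have h2 : (t * t') * ((∏ c, z.1 c) * (∏ c, y.2 c)) = (t * t') * ((∏ c, y.1 c) * ∏ c, z.2 c) := by
      calc (t * t') * ((∏ c, z.1 c) * (∏ c, y.2 c)) = (t * ∏ c, z.1 c) * (t' * ∏ c, y.2 c) := by ring
        _ = (t * ∏ c, y.1 c) * (t' * ∏ c, z.2 c) := h
        _ = _ := by ring
    exact Nat.eq_of_mul_eq_mul_left (Nat.mul_pos k1 k1') h2
  have hprime : ∀ (q : ℕ) (c : Fin u), q ∈ S.PS c → q.Prime := fun q c hq =>
    (S.hPS c c.2 q hq).1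
  have hdvd : ∀ (q : ℕ) (c : Fin u) (v : Fin u → ℕ), q ∈ S.PS c → (∀ c : Fin u, v c ∈ S.PS c) →
      q ∣ ∏ c, v c → v c = q := by
    intro q c v hq hv h3
    obtain ⟨_, h4⟩ := S.PS_dvd u le_rfl q c 1 c.2 hq ⟨le_rfl, S.T_pos⟩ v ((S.PF_mem u _).2 hv)
      (by rw [one_mul]; exact h3)
    exact h4
  have e1 : ∀ c : Fin u, c ∉ A → z.1 c = y.1 c := by
    intro c hc
    have h3 : z.1 c ∣ (∏ c, y.1 c) * ∏ c, z.2 c := by
      rw [← h']
      exact Dvd.dvd.mul_right (dvd_prod_of_mem z.1 (mem_univ c)) _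
    rcases (hprime _ c (z1 c)).dvd_mul.1 h3 with h4 | h4
    · exact (hdvd _ c y.1 (z1 c) y1 h4).symm
    · exact absurd ((z3 c).1 (hdvd _ c z.2 (z1 c) z2 h4).symm) hc
  have e2 : ∀ c : Fin u, c ∉ A → z.2 c = y.2 c := by
    intro c hc
    have h3 : y.2 c ∣ (∏ c, y.1 c) * ∏ c, z.2 c := by
      rw [← h']
      exact Dvd.dvd.mul_left (dvd_prod_of_mem y.2 (mem_univ c)) _
    rcases (hprime _ c (y2 c)).dvd_mul.1 h3 with h4 | h4
    · exact absurd ((y3 c).1 (hdvd _ c y.1 (y2 c) y1 h4)) hc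
    · exact hdvd _ c z.2 (y2 c) z2 h4
  apply hne
  refine Prod.ext (funext fun c => ?_) (funext fun c => ?_)
  · by_cases hc : c ∈ A
    · exact hA c hc
    · exact e1 c hc
  · by_cases hc : c ∈ A
    · rw [← (z3 c).2 hc, ← (y3 c).2 hc]
      exact hA c hc
    · exact e2 c hc

open Classical in
theorem cls {d s u l e m w E : ℕ} (S : Su d s u l e m w E) (t t' : ℕ) (ht : t ∈ S.I) (ht' : t' ∈ S.I)
    (A : Finset (Fin u)) (j b : ℕ) (hj : j ≤ 2 * u) (hb : b = 1 ∨ b = 2 ∧ A.card ≤ j) (theta : ℝ)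
    (htheta : (S.R : ℝ) ^ cG d u * (S.p : ℝ) ^ j ≤ theta) :
    (((univ : Finset (ZMod S.P × ZMod S.P)).filter fun o => theta ≤
      (((S.Cl A).filter fun z => wh S.P S.n (o.1 * ((pr t t' z).1 : ZMod S.P) ^ d -
        o.2 * ((pr t t' z).2 : ZMod S.P) ^ d) ≠ 0).card : ℝ)).card : ℝ) *
      (theta ^ (cd j l + b) * (S.W : ℝ) ^ (d * (j + b * l))) ≤
      (S.P : ℝ) ^ 2 * ((S.R : ℝ) ^ cG d u * (S.p : ℝ) ^ ((2 * u - A.card) * (cd j l + b))) := by
  have hl1 : 1 ≤ l := by have := S.nums; omega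
  have hb' : b = 1 ∨ b = 2 := hb.imp_right fun h => h.1
  obtain ⟨F, hF⟩ : ∃ F : Finset (Fin u ⊕ Fin u),
      F = univ.filter (fun c => ∀ c', c = Sum.inr c' → c' ∉ A) := ⟨_, rfl⟩
  obtain ⟨th, hth⟩ : ∃ th : Finset (Fin u ⊕ Fin u), th = A.image Sum.inl := ⟨_, rfl⟩
  have hinl : ∀ c : Fin u, (Sum.inl c : Fin u ⊕ Fin u) ∈ F := by
    intro c
    rw [hF, mem_filter]
    exact ⟨mem_univ _, fun c' h => by simp at h⟩
  have hinr : ∀ c : Fin u, (Sum.inr c : Fin u ⊕ Fin u) ∈ F ↔ c ∉ A := by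
    intro c
    rw [hF, mem_filter]
    constructor
    · exact fun h => h.2 c rfl
    · intro h
      refine ⟨mem_univ _, fun c' h' => ?_⟩
      rw [Sum.inr.injEq] at h'
      exact h' ▸ h
  have hFc : F.card ≤ 2 * u := by
    refine (card_le_univ F).trans ?_
    rw [Fintype.card_sum, Fintype.card_fin]
    omega
  have hthc : th.card ≤ A.card := by
    rw [hth]
    exact card_image_le
  have hFA : F.card ≤ 2 * u - A.card := by
    have h1 : Disjoint F (A.image Sum.inr) := by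
      rw [Finset.disjoint_left]
      intro c hc hci
      obtain ⟨c', hcA, rfl⟩ := mem_image.1 hci
      exact (hinr c').1 hc hcA
    have h2 : (F ∪ A.image Sum.inr).card ≤ 2 * u := by
      refine (card_le_univ _).trans ?_
      rw [Fintype.card_sum, Fintype.card_fin]
      omega
    rw [card_union_of_disjoint h1, card_image_of_injective _ Sum.inr_injective] at h2
    omega
  obtain ⟨n1, n2, n3, n4, n5, n6, n7⟩ := cls_num S j b F.card hj hb' hFc
  have hR1 : (1 : ℝ) ≤ S.R := by exact_mod_cast S.R_pos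
  have hR2 : (2 : ℝ) ≤ S.R := by exact_mod_cast n7
  have hp1 : (1 : ℝ) ≤ S.p := by exact_mod_cast S.p_pos
  have hW1 : (1 : ℝ) ≤ S.W := by exact_mod_cast S.W_pos
  have hWW : (0 : ℝ) < (S.W : ℝ) ^ (d * (j + b * l)) := by positivity
  have hcG : 2 ≤ cG d u := by
    have h1 : 1 ≤ (u + d + 3) ^ 2 := Nat.one_le_pow _ _ (by omega)
    unfold cG
    omega
  obtain ⟨q1, q2, q3, -, q5, -, q7⟩ := S.n_facts
  obtain ⟨Om, hOm⟩ : ∃ Om : Finset (ZMod S.P × ZMod S.P), Om = (univ.filter fun o => theta ≤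
      (((S.Cl A).filter fun z => wh S.P S.n (o.1 * ((pr t t' z).1 : ZMod S.P) ^ d -
        o.2 * ((pr t t' z).2 : ZMod S.P) ^ d) ≠ 0).card : ℝ)) := ⟨_, rfl⟩
  rw [← hOm]
  have hmain := cw (α := (Fin u → ℕ) × (Fin u → ℕ)) (C := Fin u ⊕ Fin u) (Ω := ZMod S.P × ZMod S.P)
    S.p l b j (b * l) S.p_pos hl1 hb' (fun c => S.PS (cls_ix c))
    (fun c => (S.hPc (cls_ix c) (cls_ix c).2).le) cls_ka F th
    (fun Z N => IndM d S.H (S.W ^ (d * N)) (Z.image (pr t t'))) (S.Cl A)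
    (fun c _ z hz => cls_kamem S A z hz c)
    (by
      intro z hz y hy h
      obtain ⟨-, -, h3⟩ := (cls_mem S A z).1 hz
      obtain ⟨-, -, g3⟩ := (cls_mem S A y).1 hy
      have e1 : z.1 = y.1 := funext fun c => h (Sum.inl c) (hinl c)
      refine Prod.ext e1 (funext fun c => ?_)
      by_cases hc : c ∈ A
      · rw [← (h3 c).2 hc, ← (g3 c).2 hc, e1]
      · exact h (Sum.inr c) ((hinr c).2 hc))
    (by
      intro _ c hc hcF
      rw [hth, mem_image] at hc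
      obtain ⟨c', -, rfl⟩ := hc
      exact absurd (hinl c') hcF)
    (by
      intro Z J' v N y hZ hZn hJF hJ1 hJl hv hy hyv hQ
      exact cls_ext S t t' ht ht' A Z J' v N y hZ hZn (fun c hc => (hinr c).1 (hJF hc)) hJ1 hJl hv hy
        hyv hQ)
    (by
      intro hb1 z hz
      subst hb1
      rw [image_singleton, one_mul]
      exact indM_one d S.H (S.W ^ (d * l)) (pr t t' z)
        (cls_bound S t ht z.1 ((cls_mem S A z).1 hz).1).1 (Nat.one_le_pow _ _ S.W_pos) S.H_ge')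
    (by
      intro hb2 z hz y hy hne heq
      subst hb2
      have e1 := cls_star S t t' ht ht' A z y hz hy hne (fun c hc => heq (Sum.inl c) (by
        rw [hth]; exact mem_image_of_mem _ hc))
      rw [image_insert, image_singleton]
      have e3 : d * (2 * l) = d * l + d * l := by ring
      rw [e3, pow_add]
      obtain ⟨z1, z2, -⟩ := (cls_mem S A z).1 hz
      obtain ⟨y1, y2, -⟩ := (cls_mem S A y).1 hy
      exact indM_two d S.H (S.W ^ (d * l)) (by have := S.hd; omega) _ _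
        (cls_bound S t ht z.1 z1).1 (cls_bound S t' ht' z.2 z2).1
        (cls_bound S t ht y.1 y1).1 (cls_bound S t' ht' y.2 y2).1 e1
        (Nat.one_le_pow _ _ S.W_pos) S.H_ge')
    (by
      intro hb2
      refine (card_le_card inter_subset_right).trans (hthc.trans ?_)
      rcases hb with h | h
      · omega
      · exact h.2)
    ((S.P : ℝ) ^ 2 * 6 ^ ((j + l - 1) / l + b) / (S.W : ℝ) ^ (d * (j + b * l))) ((S.R : ℝ) ^ 3) theta
    (by positivity) S.R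
    (by
      have h1 : S.p ^ F.card < 2 ^ S.R :=
        (Nat.pow_le_pow_right S.p_pos hFc).trans_lt S.p_two
      exact_mod_cast h1)
    (by
      refine le_trans ?_ htheta
      refine mul_le_mul_of_nonneg_right ?_ (by positivity)
      calc (2 : ℝ) ^ ((j + l - 1) / l + 1) * (2 * (l : ℝ)) ^ F.card ≤ (S.R : ℝ) * S.R := by
            refine mul_le_mul (by exact_mod_cast n2) (by exact_mod_cast n3) (by positivity)
              (by positivity)
        _ = (S.R : ℝ) ^ 2 := by ring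
        _ ≤ (S.R : ℝ) ^ cG d u := pow_le_pow_right₀ hR1 hcG)
    (by
      have h1 : (F.card : ℝ) * (2 * (l : ℝ)) ^ ((j + l - 1) / l + b) ≤ S.R := by exact_mod_cast n4
      have h2 : (2 : ℝ) ^ (F.card + (j + l - 1) / l + b + 3) ≤ S.R := by exact_mod_cast n5
      rw [pow_succ] at h2
      have h3 : (2 : ℝ) ^ (F.card + (j + l - 1) / l + b + 2) * (S.R : ℝ) ^ 2 ≤
          (S.R : ℝ) / 2 * (S.R : ℝ) ^ 2 := mul_le_mul_of_nonneg_right (by linarith) (by positivity)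
      have h4 : (S.R : ℝ) ≤ (S.R : ℝ) ^ 3 / 2 := by nlinarith [mul_nonneg (sub_nonneg.2 hR1) (sub_nonneg.2 hR2)]
      calc _ ≤ (S.R : ℝ) + (S.R : ℝ) / 2 * (S.R : ℝ) ^ 2 := add_le_add h1 h3
        _ ≤ (S.R : ℝ) ^ 3 / 2 + (S.R : ℝ) / 2 * (S.R : ℝ) ^ 2 := by linarith
        _ = (S.R : ℝ) ^ 3 := by ring)
    (fun o => (S.Cl A).filter fun z => wh S.P S.n (o.1 * ((pr t t' z).1 : ZMod S.P) ^ d -
        o.2 * ((pr t t' z).2 : ZMod S.P) ^ d) ≠ 0) Om
    (by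
      intro Z hZ hQ hZc T hT hTZ
      have h1 := meas S.n d S.H S.B (S.W ^ (d * (j + b * l))) q1 q7 q3 (Z.image (pr t t'))
        (by
          intro x hx
          obtain ⟨z, hz, rfl⟩ := mem_image.1 hx
          obtain ⟨k1, k2, -⟩ := (cls_mem S A z).1 (hZ hz)
          exact ⟨(cls_bound S t ht z.1 k1).2, (cls_bound S t' ht' z.2 k2).2⟩)
        (by
          refine lt_of_le_of_lt ?_ q5
          refine Nat.mul_le_mul_right _ (Nat.mul_le_mul_right _ ?_)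
          refine card_image_le.trans ?_
          rw [hZc]
          have := S.hs
          omega) hQ
      rw [le_div_iff₀ hWW]
      have h2 : (T.card : ℝ) ≤ (((univ : Finset (ZMod S.P × ZMod S.P)).filter fun b =>
          ∀ z ∈ Z.image (pr t t'),
          wh S.P S.n (b.1 * (z.1 : ZMod S.P) ^ d - b.2 * (z.2 : ZMod S.P) ^ d) ≠ 0).card : ℝ) := by
        have h3 : T ⊆ ((univ : Finset (ZMod S.P × ZMod S.P)).filter fun b =>
          ∀ z ∈ Z.image (pr t t'),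
          wh S.P S.n (b.1 * (z.1 : ZMod S.P) ^ d - b.2 * (z.2 : ZMod S.P) ^ d) ≠ 0) := by
          intro o ho
          rw [mem_filter]
          refine ⟨mem_univ _, fun x hx => ?_⟩
          obtain ⟨z, hz, rfl⟩ := mem_image.1 hx
          exact (mem_filter.1 (hTZ o ho hz)).2
        exact_mod_cast card_le_card h3
      have h4 : ((S.W ^ (d * (j + b * l)) : ℕ) : ℝ) = (S.W : ℝ) ^ (d * (j + b * l)) := by
        push_cast; ring
      rw [h4] at h1
      refine (mul_le_mul_of_nonneg_right h2 hWW.le).trans (h1.trans ?_)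
      refine mul_le_mul_of_nonneg_left ?_ (by positivity)
      refine pow_le_pow_right₀ (by norm_num) ?_
      rw [← hZc]
      exact card_image_le)
    (by
      intro o ho
      rw [hOm, mem_filter] at ho
      refine ho.2.trans ?_
      rw [inter_eq_right.2 (filter_subset _ _)])
  have hcd : (j + l - 1) / l = cd j l := rfl
  rw [hcd] at hmain n1 n6
  have e1 : (Om.card : ℝ) * (theta ^ (cd j l + b) * (S.W : ℝ) ^ (d * (j + b * l))) =
      ((Om.card : ℝ) * theta ^ (cd j l + b)) * (S.W : ℝ) ^ (d * (j + b * l)) := by ring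
  rw [e1]
  refine (mul_le_mul_of_nonneg_right hmain hWW.le).trans ?_
  have e2 : 2 * ((S.R : ℝ) ^ 3) ^ (F.card + cd j l) * (S.p : ℝ) ^ (F.card * (cd j l + b)) *
      ((S.P : ℝ) ^ 2 * 6 ^ (cd j l + b) / (S.W : ℝ) ^ (d * (j + b * l))) *
      (S.W : ℝ) ^ (d * (j + b * l)) =
      (S.P : ℝ) ^ 2 * ((2 * 6 ^ (cd j l + b) * ((S.R : ℝ) ^ 3) ^ (F.card + cd j l)) *
        (S.p : ℝ) ^ (F.card * (cd j l + b))) := by
    field_simp
  rw [e2]
  refine mul_le_mul_of_nonneg_left ?_ (by positivity)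
  refine mul_le_mul ?_ (pow_le_pow_right₀ hp1 (Nat.mul_le_mul_right _ hFA)) (by positivity)
    (by positivity)
  have h6 : (6 : ℝ) ^ (cd j l + b) ≤ S.R := by exact_mod_cast n6
  calc 2 * (6 : ℝ) ^ (cd j l + b) * ((S.R : ℝ) ^ 3) ^ (F.card + cd j l)
      ≤ (S.R : ℝ) * S.R * ((S.R : ℝ) ^ 3) ^ (F.card + cd j l) := by gcongr
    _ = (S.R : ℝ) ^ (2 + 3 * (F.card + cd j l)) := by
        rw [← pow_mul, pow_add]; ring
    _ ≤ (S.R : ℝ) ^ cG d u := by
        refine pow_le_pow_right₀ hR1 ?_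
        unfold cG
        nlinarith

end Pool.Agent.Lib.MP_e426f4_ag.DK
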