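import Pool.Agent.Lib.MP_e426f4_ag.DK.Facts
import Pool.Agent.Lib.MP_e426f4_ag.DG.FFb

/-!
# FactsX: the sets `I, PF, Xn, X, LM` (compare `DH/FactsX.lean`)

`PS_dvd`: a prime `q` of block `c` is larger than `W ≥ T ≥ t`; if it divides `t ∏ z_c'` it equals some `z_c'`,
and the blocks are disjoint.  `Xn_succ`: `Fin.prod_univ_castSucc` (`Fin.snoc`, `Fin.init`).
-/

set_option autoImplicit false

namespace Pool.Agent.Lib.MP_e426f4_ag.DK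

open Finset
open Pool.Agent.Lib.MP_e426f4_ag.DG

namespace Su

variable {d s u l e m w E : ℕ} (S : Su d s u l e m w E)

theorem I_mem (t : ℕ) : t ∈ S.I ↔ 1 ≤ t ∧ t ≤ S.T ∧ S.T < E * t := by
  unfold Su.I Su.T
  simp only [mem_filter, mem_Icc]
  tauto

theorem I_card_le : S.I.card ≤ S.T := by
  unfold Su.I Su.T
  calc _ ≤ (Icc 1 (S.R ^ m)).card := card_filter_le _ _
    _ = _ := by simp

theorem I_card_ge : S.T ≤ 2 * S.I.card := by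
  have hE := S.hE
  have hT : 1 ≤ S.T := S.T_pos
  have hsub : Ioc (S.T / 2) S.T ⊆ S.I := by
    intro t ht
    rw [mem_Ioc] at ht
    rw [S.I_mem]
    refine ⟨by omega, ht.2, ?_⟩
    have h1 : S.T < 2 * t := by omega
    have h2 : 2 * t ≤ E * t := Nat.mul_le_mul_right _ hE
    omega
  have := card_le_card hsub
  rw [Nat.card_Ioc] at this
  omega

theorem PF_mem (i : ℕ) (z : Fin i → ℕ) : z ∈ S.PF i ↔ ∀ c : Fin i, z c ∈ S.PS c := by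
  unfold Su.PF
  exact Fintype.mem_piFinset

theorem PF_card (i : ℕ) (hi : i ≤ u) : (S.PF i).card = S.p ^ i := by
  unfold Su.PF
  rw [Fintype.card_piFinset]
  have h1 : ∀ c ∈ (univ : Finset (Fin i)), (S.PS c).card = S.p := by
    intro c _
    exact S.hPc c (lt_of_lt_of_le c.2 hi)
  rw [Finset.prod_congr rfl h1, Finset.prod_const, Finset.card_univ, Fintype.card_fin]

theorem Xn_mem (i x : ℕ) : x ∈ S.Xn i ↔ ∃ t ∈ S.I, ∃ z ∈ S.PF i, x = t * ∏ c, z c := by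
  unfold Su.Xn
  simp only [mem_image, mem_product, Prod.exists]
  constructor
  · rintro ⟨t, z, ⟨ht, hz⟩, rfl⟩
    exact ⟨t, ht, z, hz, rfl⟩
  · rintro ⟨t, ht, z, hz, rfl⟩
    exact ⟨t, z, ⟨ht, hz⟩, rfl⟩

theorem LM_mem (x : ℕ) : x ∈ S.LM ↔ ∃ z ∈ S.PF u, x = ∏ c, z c := by
  unfold Su.LM
  simp only [mem_image]
  constructor
  · rintro ⟨z, hz, rfl⟩
    exact ⟨z, hz, rfl⟩
  · rintro ⟨z, hz, rfl⟩
    exact ⟨z, hz, rfl⟩

theorem X_mem (x : ℕ) : x ∈ S.X ↔ ∃ t ∈ S.I, ∃ z ∈ S.PF u, x = t * ∏ c, z c := S.Xn_mem u x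

private theorem FactsX_TW : S.T ≤ S.W := by
  obtain ⟨-, -, -, -, -, -, n1, -⟩ := S.nums
  have h := S.small_le 1 0 (by omega)
  rwa [pow_one, pow_zero, mul_one] at h

/-- a prime of the blocks dividing `t ∏ z_c` is one of the `z_c` -/
theorem PS_dvd (i : ℕ) (hi : i ≤ u) (q c t : ℕ) (hc : c < u) (hq : q ∈ S.PS c) (ht : 1 ≤ t ∧ t ≤ S.T)
    (z : Fin i → ℕ) (hz : z ∈ S.PF i) (h : q ∣ t * ∏ c', z c') : ∃ hci : c < i, z ⟨c, hci⟩ = q := by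
  obtain ⟨hp, hq1, -⟩ := S.hPS c hc q hq
  have hTW := S.FactsX_TW
  have hWq : S.W < q := hq1
  rcases (Nat.Prime.dvd_mul hp).1 h with h1 | h1
  · exfalso
    have := Nat.le_of_dvd (by omega) h1
    omega
  · obtain ⟨c', -, h2⟩ := (Prime.dvd_finsetProd_iff hp.prime _).1 h1
    have hz' := (S.PF_mem i z).1 hz c'
    have hc' : (c' : ℕ) < u := lt_of_lt_of_le c'.2 hi
    obtain ⟨hp', -, -⟩ := S.hPS c' hc' _ hz'
    have h3 : q = z c' := (Nat.prime_dvd_prime_iff_eq hp hp').1 h2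
    have h4 : c = (c' : ℕ) := by
      by_contra hne
      rw [h3] at hq
      exact Finset.disjoint_left.1 (S.hPd c c' hc hc' hne) hq hz'
    subst h4
    exact ⟨c'.2, h3.symm⟩

theorem uniq (i : ℕ) (hi : i ≤ u) (t t' : ℕ) (ht : 1 ≤ t ∧ t ≤ S.T) (ht' : 1 ≤ t' ∧ t' ≤ S.T)
    (z z' : Fin i → ℕ) (hz : z ∈ S.PF i) (hz' : z' ∈ S.PF i) (h : t * ∏ c, z c = t' * ∏ c, z' c) :
    t = t' ∧ z = z' := by
  have hzz : z = z' := by
    funext c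
    have h1 := (S.PF_mem i z).1 hz c
    have h2 : z c ∣ t' * ∏ c, z' c := by
      rw [← h]
      exact Dvd.dvd.mul_left (Finset.dvd_prod_of_mem z (mem_univ c)) t
    obtain ⟨h3, h4⟩ := S.PS_dvd i hi (z c) c t' (lt_of_lt_of_le c.2 hi) h1 ht' z' hz' h2
    exact h4.symm
  subst hzz
  refine ⟨?_, rfl⟩
  have hpos : 0 < ∏ c, z c := Finset.prod_pos fun c _ =>
    (S.hPS c (lt_of_lt_of_le c.2 hi) _ ((S.PF_mem i z).1 hz c)).1.pos
  exact Nat.eq_of_mul_eq_mul_right hpos h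

private theorem FactsX_snoc_mem (i : ℕ) (z : Fin i → ℕ) (hz : z ∈ S.PF i) (q : ℕ)
    (hq : q ∈ S.PS i) : (Fin.snoc z q : Fin (i + 1) → ℕ) ∈ S.PF (i + 1) := by
  rw [S.PF_mem]
  intro c
  refine Fin.lastCases ?_ (fun c => ?_) c
  · rw [Fin.snoc_last]
    exact hq
  · rw [Fin.snoc_castSucc]
    exact (S.PF_mem i z).1 hz c

private theorem FactsX_snoc_prod (i : ℕ) (z : Fin i → ℕ) (q : ℕ) :
    ∏ c, (Fin.snoc z q : Fin (i + 1) → ℕ) c = (∏ c, z c) * q := by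
  rw [Fin.prod_univ_castSucc, Fin.snoc_last]
  congr 1
  refine Finset.prod_congr rfl fun c _ => ?_
  rw [Fin.snoc_castSucc]

theorem Xn_succ (i : ℕ) : S.Xn (i + 1) = (S.Xn i ×ˢ S.PS i).image fun z => z.1 * z.2 := by
  ext x
  rw [S.Xn_mem]
  simp only [mem_image, mem_product, Prod.exists]
  constructor
  · rintro ⟨t, ht, z, hz, rfl⟩
    have hz1 := (S.PF_mem (i + 1) z).1 hz
    refine ⟨t * ∏ c : Fin i, z (Fin.castSucc c), z (Fin.last i), ⟨?_, ?_⟩, ?_⟩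
    · rw [S.Xn_mem]
      refine ⟨t, ht, fun c => z (Fin.castSucc c), ?_, rfl⟩
      rw [S.PF_mem]
      intro c
      exact hz1 (Fin.castSucc c)
    · exact hz1 (Fin.last i)
    · rw [Fin.prod_univ_castSucc]
      ring
  · rintro ⟨y, q, ⟨hy, hq⟩, rfl⟩
    obtain ⟨t, ht, z, hz, rfl⟩ := (S.Xn_mem i y).1 hy
    refine ⟨t, ht, Fin.snoc z q, S.FactsX_snoc_mem i z hz q hq, ?_⟩
    rw [FactsX_snoc_prod]
    ring

theorem Xn_inj (i : ℕ) (hi : i < u) :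
    Set.InjOn (fun z : ℕ × ℕ => z.1 * z.2) (S.Xn i ×ˢ S.PS i : Finset (ℕ × ℕ)) := by
  rintro ⟨y, q⟩ h1 ⟨y', q'⟩ h2 h3
  simp only [coe_product, Set.mem_prod, mem_coe] at h1 h2
  simp only at h3
  obtain ⟨t, ht, z, hz, rfl⟩ := (S.Xn_mem i y).1 h1.1
  obtain ⟨t', ht', z', hz', rfl⟩ := (S.Xn_mem i y').1 h2.1
  obtain ⟨a1, a2, -⟩ := (S.I_mem t).1 ht
  obtain ⟨b1, b2, -⟩ := (S.I_mem t').1 ht'
  have h4 := S.uniq (i + 1) hi t t' ⟨a1, a2⟩ ⟨b1, b2⟩ _ _ (S.FactsX_snoc_mem i z hz q h1.2)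
    (S.FactsX_snoc_mem i z' hz' q' h2.2) (by
      rw [FactsX_snoc_prod, FactsX_snoc_prod, ← mul_assoc, ← mul_assoc]
      exact h3)
  obtain ⟨h5, h6⟩ := h4
  have h7 : z = z' := by
    funext c
    have := congrFun h6 (Fin.castSucc c)
    rw [Fin.snoc_castSucc, Fin.snoc_castSucc] at this
    exact this
  have h8 : q = q' := by
    have := congrFun h6 (Fin.last i)
    rw [Fin.snoc_last, Fin.snoc_last] at this
    exact this
  rw [h5, h7, h8]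

theorem PF_prod_bounds (i : ℕ) (hi : i ≤ u) (z : Fin i → ℕ) (hz : z ∈ S.PF i) :
    S.W ^ i ≤ ∏ c, z c ∧ ∏ c, z c ≤ 4 ^ i * S.W ^ i := by
  have hz1 := (S.PF_mem i z).1 hz
  have hb : ∀ c : Fin i, S.W < z c ∧ z c ≤ 4 * S.W := fun c =>
    (S.hPS c (lt_of_lt_of_le c.2 hi) _ (hz1 c)).2
  constructor
  · have h1 : ∏ _c : Fin i, S.W ≤ ∏ c, z c :=
      Finset.prod_le_prod (fun c _ => Nat.zero_le _) fun c _ => (hb c).1.le
    rwa [Finset.prod_const, Finset.card_univ, Fintype.card_fin] at h1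
  · have h1 : ∏ c, z c ≤ ∏ _c : Fin i, 4 * S.W :=
      Finset.prod_le_prod (fun c _ => Nat.zero_le _) fun c _ => (hb c).2
    rwa [Finset.prod_const, Finset.card_univ, Fintype.card_fin, mul_pow] at h1

theorem Xn_bounds (i : ℕ) (hi : i ≤ u) (x : ℕ) (hx : x ∈ S.Xn i) :
    1 ≤ x ∧ x ≤ 4 ^ i * S.W ^ i * S.T ∧ 4 ^ i * S.W ^ i * S.T < 4 ^ i * E * x := by
  obtain ⟨t, ht, z, hz, rfl⟩ := (S.Xn_mem i x).1 hx
  obtain ⟨h1, h2, h3⟩ := (S.I_mem t).1 ht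
  obtain ⟨b1, b2⟩ := S.PF_prod_bounds i hi z hz
  have hW : 1 ≤ S.W ^ i := Nat.one_le_pow _ _ S.W_pos
  have h4 : 1 ≤ 4 ^ i := Nat.one_le_pow _ _ (by norm_num)
  refine ⟨Nat.mul_pos (by omega) (by omega), ?_, ?_⟩
  · calc t * ∏ c, z c ≤ S.T * (4 ^ i * S.W ^ i) := Nat.mul_le_mul h2 b2
      _ = 4 ^ i * S.W ^ i * S.T := by ring
  · calc 4 ^ i * S.W ^ i * S.T < 4 ^ i * S.W ^ i * (E * t) :=
          Nat.mul_lt_mul_of_pos_left h3 (Nat.mul_pos (by omega) (by omega))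
      _ ≤ 4 ^ i * (∏ c, z c) * (E * t) :=
          Nat.mul_le_mul_right _ (Nat.mul_le_mul_left _ b1)
      _ = 4 ^ i * E * (t * ∏ c, z c) := by ring

theorem X_bounds (x : ℕ) (hx : x ∈ S.X) : 1 ≤ x ∧ x ≤ S.B ∧ S.B < 4 ^ u * E * x := by
  have := S.Xn_bounds u le_rfl x hx
  rw [S.B_eq]
  exact this

theorem Y_bounds (x : ℕ) (hx : x ∈ S.Xn l) : 1 ≤ x ∧ x ≤ S.BB ∧ S.BB < 4 ^ l * E * x := by
  have := S.Xn_bounds l S.hlu x hx
  rw [S.BB_eq]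
  exact this

/-- `W^u < λ ≤ 4^u W^u` -/
theorem LM_bounds (x : ℕ) (hx : x ∈ S.LM) : S.W ^ u < x ∧ x ≤ 4 ^ u * S.W ^ u := by
  obtain ⟨z, hz, rfl⟩ := (S.LM_mem x).1 hx
  have hz1 := (S.PF_mem u z).1 hz
  obtain ⟨-, -, n1, n2, -⟩ := S.nums
  refine ⟨?_, (S.PF_prod_bounds u le_rfl z hz).2⟩
  have h1 : ∏ _c : Fin u, (S.W + 1) ≤ ∏ c, z c :=
    Finset.prod_le_prod (fun c _ => Nat.zero_le _) fun c _ => (S.hPS c c.2 _ (hz1 c)).2.1
  rw [Finset.prod_const, Finset.card_univ, Fintype.card_fin] at h1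
  exact lt_of_lt_of_le (Nat.pow_lt_pow_left (Nat.lt_succ_self _) (by omega)) h1

theorem LM_card : (S.LM.card : ℝ) = (S.p : ℝ) ^ u := by
  have h1 : S.LM.card = S.p ^ u := by
    rw [← S.PF_card u le_rfl]
    unfold Su.LM
    refine card_image_of_injOn ?_
    intro z hz z' hz' h
    have hT := S.T_pos
    simp only at h
    exact (S.uniq u le_rfl 1 1 ⟨le_refl 1, hT⟩ ⟨le_refl 1, hT⟩ z z' hz hz' (by
      rw [one_mul, one_mul, h])).2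
  rw [h1]
  push_cast
  rfl

theorem Xn_card (i : ℕ) (hi : i ≤ u) : (S.Xn i).card = S.I.card * S.p ^ i := by
  rw [← S.PF_card i hi, ← card_product]
  unfold Su.Xn
  refine card_image_of_injOn ?_
  rintro ⟨t, z⟩ h1 ⟨t', z'⟩ h2 h3
  simp only [coe_product, Set.mem_prod, mem_coe] at h1 h2
  simp only at h3
  obtain ⟨a1, a2, -⟩ := (S.I_mem t).1 h1.1
  obtain ⟨b1, b2, -⟩ := (S.I_mem t').1 h2.1
  obtain ⟨h5, h6⟩ := S.uniq i hi t t' ⟨a1, a2⟩ ⟨b1, b2⟩ z z' h1.2 h2.2 h3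
  rw [h5, h6]

theorem X_card : (S.X.card : ℝ) = S.XX := by
  unfold Su.X Su.XX
  rw [S.Xn_card u le_rfl]
  push_cast
  ring

theorem XX_bounds : (S.B : ℝ) / (2 * 4 ^ u * (S.R : ℝ) ^ u) ≤ S.XX ∧ S.XX ≤ S.B := by
  have h1 : (S.T : ℝ) ≤ 2 * S.I.card := by exact_mod_cast S.I_card_ge
  have h2 : (S.I.card : ℝ) ≤ S.T := by exact_mod_cast S.I_card_le
  have hR1 : (1 : ℝ) ≤ S.R := by exact_mod_cast S.R_pos
  have hR0 : (0 : ℝ) < S.R := by linarith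
  have hp0 : (0 : ℝ) < S.p := by exact_mod_cast S.p_pos
  have hT0 : (0 : ℝ) ≤ S.T := by positivity
  have hI0 : (0 : ℝ) ≤ S.I.card := by positivity
  have hB : (S.B : ℝ) = 4 ^ u * (S.R ^ u * (S.p : ℝ) ^ u) * S.T := by
    rw [S.B_eq, S.W_eq]
    push_cast
    ring
  have hRu : (1 : ℝ) ≤ (S.R : ℝ) ^ u := one_le_pow₀ hR1
  have h4u : (1 : ℝ) ≤ (4 : ℝ) ^ u := one_le_pow₀ (by norm_num)
  have hpu : (0 : ℝ) < (S.p : ℝ) ^ u := by positivity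
  unfold Su.XX
  rw [hB]
  generalize (S.R : ℝ) ^ u = r at hRu ⊢
  generalize (4 : ℝ) ^ u = f at h4u ⊢
  generalize (S.p : ℝ) ^ u = w1 at hpu ⊢
  have hr0 : 0 < r := by linarith
  have hf0 : 0 < f := by linarith
  constructor
  · rw [div_le_iff₀ (by positivity)]
    calc f * (r * w1) * S.T ≤ f * (r * w1) * (2 * S.I.card) :=
          mul_le_mul_of_nonneg_left h1 (by positivity)
      _ = (S.I.card : ℝ) * w1 * (2 * f * r) := by ring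
  · calc (S.I.card : ℝ) * w1 ≤ S.T * w1 := mul_le_mul_of_nonneg_right h2 hpu.le
      _ = 1 * 1 * (S.T * w1) := by ring
      _ ≤ f * r * (S.T * w1) := by
          refine mul_le_mul_of_nonneg_right ?_ (mul_nonneg hT0 hpu.le)
          exact mul_le_mul h4u hRu zero_le_one hf0.le
      _ = f * (r * w1) * S.T := by ring

theorem FF_le (b b' : ZMod S.P) : FF S.P S.n d S.X b b' ≤ 8 * (S.H : ℝ) * S.XX ^ 2 := by
  obtain ⟨hn0, hnP, -, hPn, -, -, -⟩ := S.n_facts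
  unfold FF
  have h1 := FZ_le_card (P := S.P) S.n d hn0 hnP (S.X ×ˢ S.X) b b'
  have h2 : (((S.X ×ˢ S.X).card : ℕ) : ℝ) = S.XX ^ 2 := by
    rw [card_product, ← S.X_card]
    push_cast
    ring
  rw [h2] at h1
  exact h1.trans (mul_le_mul_of_nonneg_right hPn (by positivity))

theorem FFn_le (i : ℕ) (hi : i ≤ u) (b b' : ZMod S.P) :
    FF S.P S.n d (S.Xn i) b b' ≤ 8 * (S.H : ℝ) * (S.T : ℝ) ^ 2 * (S.p : ℝ) ^ (2 * i) := by
  obtain ⟨hn0, hnP, -, hPn, -, -, -⟩ := S.n_facts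
  unfold FF
  have h1 := FZ_le_card (P := S.P) S.n d hn0 hnP (S.Xn i ×ˢ S.Xn i) b b'
  have h2 : (((S.Xn i ×ˢ S.Xn i).card : ℕ) : ℝ) ≤ (S.T : ℝ) ^ 2 * (S.p : ℝ) ^ (2 * i) := by
    rw [card_product, S.Xn_card i hi]
    push_cast
    have h3 : (S.I.card : ℝ) ≤ S.T := by exact_mod_cast S.I_card_le
    have h4 : (S.I.card : ℝ) * (S.p : ℝ) ^ i ≤ S.T * (S.p : ℝ) ^ i :=
      mul_le_mul_of_nonneg_right h3 (by positivity)
    calc (S.I.card : ℝ) * (S.p : ℝ) ^ i * ((S.I.card : ℝ) * (S.p : ℝ) ^ i)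
        ≤ (S.T : ℝ) * (S.p : ℝ) ^ i * (S.T * (S.p : ℝ) ^ i) :=
          mul_le_mul h4 h4 (by positivity) (by positivity)
      _ = (S.T : ℝ) ^ 2 * (S.p : ℝ) ^ (2 * i) := by ring
  calc _ ≤ (S.P : ℝ) / S.n * (((S.Xn i ×ˢ S.Xn i).card : ℕ) : ℝ) := h1
    _ ≤ 8 * (S.H : ℝ) * ((S.T : ℝ) ^ 2 * (S.p : ℝ) ^ (2 * i)) :=
        mul_le_mul hPn h2 (by positivity) (by positivity)
    _ = _ := by ring

theorem FF_le_Nz (b b' : ZMod S.P) :
    FF S.P S.n d S.X b b' ≤ 8 * (S.H : ℝ) * (S.Nz b b').card := by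
  obtain ⟨hn0, hnP, -, hPn, -, -, -⟩ := S.n_facts
  have h1 : FF S.P S.n d S.X b b' = FZ S.P S.n d (S.Nz b b') b b' := by
    unfold FF FZ Su.Nz
    exact (Finset.sum_filter_ne_zero _).symm
  rw [h1]
  refine (FZ_le_card (P := S.P) S.n d hn0 hnP (S.Nz b b') b b').trans ?_
  exact mul_le_mul_of_nonneg_right hPn (by positivity)

end Su

end Pool.Agent.Lib.MP_e426f4_ag.DK
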