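import Pool.Agent.Lib.MP_e426f4_ag.DH.RigidG
import Pool.Agent.Lib.MP_e426f4_ag.DK.FactsX
import Pool.Agent.Lib.MP_e426f4_ag.DG.FFb
import Pool.Agent.Lib.MP_e426f4_ag.DG.Cnt
import Pool.Agent.Lib.MP_e426f4_ag.DG.Ed
import Pool.Agent.Lib.MP_e426f4_ag.DG.Rho
import Pool.Agent.Lib.MP_e426f4_ag.DG.KapSum

/-!
# Core: the bound in the core of the major arcs (adapt `DH/Core.lean`)

The `λ ∈ S.LM` are coprime to `q ≤ R^m4 < W`; constants `(16 E)^d` become `(4^u E)^d`.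
-/

set_option autoImplicit false

namespace Pool.Agent.Lib.MP_e426f4_ag.DK

open Finset
open Pool.Agent.Lib.MP_e426f4_ag.DG

private theorem core_diam (d : ℕ) (hd : 1 ≤ d) (K E T L l H : ℕ) (hK : 1 ≤ K) (hE : 1 ≤ E) (hLl : L ≤ l)
    (hH : 0 < H) (δ c : ℝ) (hδ : 0 ≤ δ) (u u' : ℕ) (hu : u ≤ T) (hu' : T < E * u')
    (h1 : δ * |(l : ℝ) ^ d * (u : ℝ) ^ d - c| ≤ 1 / (4 * H))
    (h2 : δ * |(l : ℝ) ^ d * (u' : ℝ) ^ d - c| ≤ 1 / (4 * H)) :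
    (u : ℝ) - u' ≤ ((K : ℝ) * (E : ℝ)) ^ d *
      (1 / max 1 ((H : ℝ) * ((K * (L * T) : ℕ) : ℝ) ^ d * δ)) * T := by
  have hE1 : (1 : ℝ) ≤ E := by exact_mod_cast hE
  have hT0 : (0 : ℝ) ≤ T := Nat.cast_nonneg T
  have hK1 : (1 : ℝ) ≤ K := by exact_mod_cast hK
  have hCE : (1 : ℝ) ≤ ((K : ℝ) * (E : ℝ)) ^ d := one_le_pow₀ (by nlinarith)
  have hHr : (0 : ℝ) < H := by exact_mod_cast hH
  rcases le_or_gt u u' with hle | hlt
  · have h3 : (u : ℝ) ≤ u' := by exact_mod_cast hle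
    have h4 : 0 ≤ ((K : ℝ) * (E : ℝ)) ^ d *
      (1 / max 1 ((H : ℝ) * ((K * (L * T) : ℕ) : ℝ) ^ d * δ)) * T := by positivity
    linarith
  · rcases le_or_gt ((H : ℝ) * ((K * (L * T) : ℕ) : ℝ) ^ d * δ) 1 with h3 | h3
    · rw [max_eq_left h3, div_one, mul_one]
      have h4 : (u : ℝ) ≤ T := by exact_mod_cast hu
      have h5 : (0 : ℝ) ≤ u' := Nat.cast_nonneg u'
      nlinarith
    · rw [max_eq_right h3.le]
      have hM : 0 < (H : ℝ) * ((K * (L * T) : ℕ) : ℝ) ^ d * δ := by linarith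
      rw [mul_one_div, div_mul_eq_mul_div, le_div_iff₀ hM]
      obtain ⟨e, rfl⟩ : ∃ e, d = e + 1 := ⟨d - 1, by omega⟩
      have huu : (u' : ℝ) ≤ u := by exact_mod_cast hlt.le
      have hu0 : (0 : ℝ) ≤ u' := Nat.cast_nonneg u'
      have h4 : ((u : ℝ) - u') * (u' : ℝ) ^ e ≤ (u : ℝ) ^ (e + 1) - (u' : ℝ) ^ (e + 1) := by
        have h5 : (u : ℝ) * (u' : ℝ) ^ e ≤ u * (u : ℝ) ^ e :=
          mul_le_mul_of_nonneg_left (pow_le_pow_left₀ hu0 huu e) (Nat.cast_nonneg u)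
        rw [pow_succ', pow_succ']
        linarith
      have h5 : δ * ((l : ℝ) ^ (e + 1) * ((u : ℝ) ^ (e + 1) - (u' : ℝ) ^ (e + 1))) ≤
          1 / (2 * H) := by
        have h6 : (l : ℝ) ^ (e + 1) * (u : ℝ) ^ (e + 1) - c ≤
          |(l : ℝ) ^ (e + 1) * (u : ℝ) ^ (e + 1) - c| := le_abs_self _
        have h7 : -((l : ℝ) ^ (e + 1) * (u' : ℝ) ^ (e + 1) - c) ≤
          |(l : ℝ) ^ (e + 1) * (u' : ℝ) ^ (e + 1) - c| := neg_le_abs _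
        have h8 := mul_le_mul_of_nonneg_left h6 hδ
        have h9 := mul_le_mul_of_nonneg_left h7 hδ
        have h10 : 1 / (4 * (H : ℝ)) + 1 / (4 * H) = 1 / (2 * H) := by
          field_simp
          ring
        rw [← h10]
        linarith
      have hLl' : (L : ℝ) ^ (e + 1) ≤ (l : ℝ) ^ (e + 1) :=
        pow_le_pow_left₀ (Nat.cast_nonneg L) (by exact_mod_cast hLl) _
      have hTE : (T : ℝ) ^ e ≤ (E : ℝ) ^ e * (u' : ℝ) ^ e := by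
        rw [← mul_pow]
        exact pow_le_pow_left₀ hT0 (by exact_mod_cast hu'.le) e
      have hd0 : (0 : ℝ) ≤ (u : ℝ) - u' := by linarith
      have h6 : δ * ((L : ℝ) ^ (e + 1) * (((u : ℝ) - u') * (u' : ℝ) ^ e)) ≤ 1 / (2 * H) := by
        refine le_trans ?_ h5
        refine mul_le_mul_of_nonneg_left ?_ hδ
        exact mul_le_mul hLl' h4 (by positivity) (by positivity)
      have h7 : δ * ((L : ℝ) ^ (e + 1) * (((u : ℝ) - u') * (T : ℝ) ^ e)) ≤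
          (E : ℝ) ^ e * (1 / (2 * H)) := by
        calc δ * ((L : ℝ) ^ (e + 1) * (((u : ℝ) - u') * (T : ℝ) ^ e))
            ≤ δ * ((L : ℝ) ^ (e + 1) * (((u : ℝ) - u') * ((E : ℝ) ^ e * (u' : ℝ) ^ e))) := by
              gcongr
          _ = (E : ℝ) ^ e * (δ * ((L : ℝ) ^ (e + 1) * (((u : ℝ) - u') * (u' : ℝ) ^ e))) := by
              ring
          _ ≤ (E : ℝ) ^ e * (1 / (2 * H)) := by gcongr
      have h8 : ((u : ℝ) - u') * ((H : ℝ) * ((K * (L * T) : ℕ) : ℝ) ^ (e + 1) * δ) =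
          (K : ℝ) ^ (e + 1) * T * H *
            (δ * ((L : ℝ) ^ (e + 1) * (((u : ℝ) - u') * (T : ℝ) ^ e))) := by
        push_cast
        ring
      rw [h8]
      calc (K : ℝ) ^ (e + 1) * (T : ℝ) * H *
            (δ * ((L : ℝ) ^ (e + 1) * (((u : ℝ) - u') * (T : ℝ) ^ e)))
          ≤ (K : ℝ) ^ (e + 1) * (T : ℝ) * H * ((E : ℝ) ^ e * (1 / (2 * H))) := by gcongr
        _ = (K : ℝ) ^ (e + 1) * T * ((E : ℝ) ^ e / 2) := by field_simp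
        _ ≤ (K : ℝ) ^ (e + 1) * T * (E : ℝ) ^ (e + 1) := by
          have h9 : (E : ℝ) ^ e / 2 ≤ (E : ℝ) ^ (e + 1) := by
            rw [pow_succ]
            have h10 : (0 : ℝ) < (E : ℝ) ^ e := by positivity
            nlinarith
          gcongr
        _ = ((K : ℝ) * (E : ℝ)) ^ (e + 1) * T := by ring

private theorem core_rho (d : ℕ) (hd : 1 ≤ d) (Cρ : ℕ) (hC1 : 1 ≤ Cρ)
    (hC : ∀ m : ℕ, 1 ≤ m → rho d m ^ (4 * d ^ 2) ≤ Cρ * m) (q : ℕ) (hq : 1 ≤ q) (m : ℕ)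
    (hm : m ∣ q) : (rho d m : ℝ) ≤ (Cρ : ℝ) * (q : ℝ) ^ theta d := by
  have hk : 4 * d ^ 2 ≠ 0 := by positivity
  have hq0 : (0 : ℝ) ≤ q := Nat.cast_nonneg q
  have hr0 : 0 ≤ (Cρ : ℝ) * (q : ℝ) ^ theta d := by positivity
  rw [← pow_le_pow_iff_left₀ (Nat.cast_nonneg _) hr0 hk, mul_pow]
  have h1 : ((q : ℝ) ^ theta d) ^ (4 * d ^ 2) = q := by
    rw [← Real.rpow_mul_natCast hq0]
    have h2 : theta d * ((4 * d ^ 2 : ℕ) : ℝ) = 1 := by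
      unfold theta
      have : (d : ℝ) ≠ 0 := by
        have : d ≠ 0 := by omega
        exact_mod_cast this
      push_cast
      field_simp
    rw [h2, Real.rpow_one]
  rw [h1]
  have hm1 : 1 ≤ m := Nat.pos_of_dvd_of_pos hm hq
  have h3 := hC m hm1
  have h4 : Cρ * m ≤ Cρ ^ (4 * d ^ 2) * q :=
    Nat.mul_le_mul (Nat.le_self_pow hk Cρ) (Nat.le_of_dvd hq hm)
  exact_mod_cast h3.trans h4

theorem core (d s u l e E m4 w : ℕ) (hd : 4 ≤ d) (hm : 1 ≤ m4) :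
    ∃ C : ℝ, 1 ≤ C ∧
    ∀ (S : Su d s u l e (4 * m4) w E) (A : Arc S.P (4 * S.B ^ d)) (b : ZMod S.P),
    A.q b ≤ S.R ^ m4 → (S.H : ℝ) * (S.B : ℝ) ^ d * |A.dl b| ≤ (S.R : ℝ) ^ m4 →
    FF S.P S.n d S.X b b ≤
      C * S.H * S.XX ^ 2 * (((A.q b : ℕ) : ℝ) ^ theta d * S.pk A b) := by
  classical
  obtain ⟨Cρ, hCρ1, hCρ⟩ := rho_bound d (by omega) (4 * d ^ 2)
  have hCρr : (1 : ℝ) ≤ Cρ := by exact_mod_cast hCρ1
  rcases Nat.lt_or_ge E 2 with hE2 | hE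
  · exact ⟨1, le_rfl, fun S => absurd S.hE (by omega)⟩
  have hE1 : (1 : ℝ) ≤ E := by
    have : 1 ≤ E := by omega
    exact_mod_cast this
  have h4u : (1 : ℝ) ≤ (4 : ℝ) ^ u := one_le_pow₀ (by norm_num)
  have hCE : (1 : ℝ) ≤ ((4 : ℝ) ^ u * (E : ℝ)) ^ d := one_le_pow₀ (by nlinarith)
  refine ⟨32 * Cρ * (2 * ((4 : ℝ) ^ u * (E : ℝ)) ^ d + 1), by nlinarith, ?_⟩
  intro S A b hq hδ
  have hq1 : 1 ≤ A.q b := A.qpos b
  have hRpos := S.R_pos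
  have hR1 : (1 : ℝ) ≤ S.R := by exact_mod_cast hRpos
  obtain ⟨hn0, hnP, hnH, hPn, -, -, hH0⟩ := S.n_facts
  have hHr : (0 : ℝ) < S.H := by exact_mod_cast hH0
  have hB1 := S.B_pos
  have hBeq := S.B_eq
  have hT : S.T = S.R ^ (4 * m4) := rfl
  have hT1 : 1 ≤ S.T := S.T_pos
  have hTr : (1 : ℝ) ≤ S.T := by exact_mod_cast hT1
  have hd1 : 1 ≤ d := by omega
  obtain ⟨-, -, hn3, hn4, -, hn6, hn7, -, -⟩ := S.nums
  have hm4w : m4 ≤ w := by omega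
  have hqW : A.q b ≤ S.W := hq.trans (Nat.pow_le_pow_right hRpos hm4w)
  have hqH : A.q b ≤ S.H := by
    refine hqW.trans (le_trans ?_ S.H_ge')
    refine Nat.le_self_pow ?_ _
    have h8 : 1 ≤ d * l := Nat.mul_pos hd1 (by omega)
    omega
  -- the finite set of pairs
  let Zs : Finset (ℕ × ℕ) := (S.X ×ˢ S.X).filter fun z =>
    wh S.P S.n (b * (z.1 : ZMod S.P) ^ d - b * (z.2 : ZMod S.P) ^ d) ≠ 0
  have h1 : FF S.P S.n d S.X b b = FZ S.P S.n d Zs b b :=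
    (Finset.sum_filter_ne_zero _).symm
  have h2 : FZ S.P S.n d Zs b b ≤ (S.P : ℝ) / S.n * Zs.card := FZ_le_card S.n d hn0 hnP Zs b b
  -- the pairs `(t, t')` for given primes
  let J : ℕ × ℕ → ℕ → Set ℕ := fun w v => {x | S.T < E * x ∧ x ≤ S.T ∧
    |A.dl b| * |(w.1 : ℝ) ^ d * (x : ℝ) ^ d - (w.2 : ℝ) ^ d * (v : ℝ) ^ d| ≤ 1 / (4 * S.H)}
  let cs : ℕ × ℕ → Finset (ℕ × ℕ) := fun w => (Icc 1 S.T ×ˢ Icc 1 S.T).filter fun t =>
    ((A.q b : ℕ) : ℤ) ∣ ((w.1 ^ d : ℕ) : ℤ) * (t.1 : ℤ) ^ d - ((w.2 ^ d : ℕ) : ℤ) * (t.2 : ℤ) ^ d ∧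
      t.1 ∈ J w t.2
  have h3 : Zs ⊆ (S.LM ×ˢ S.LM).biUnion fun w =>
      (cs w).image fun t => (t.1 * w.1, t.2 * w.2) := by
    intro z hz
    obtain ⟨hzX, hz0⟩ := Finset.mem_filter.1 hz
    obtain ⟨hz1, hz2⟩ := Finset.mem_product.1 hzX
    have hb1 := S.X_bounds z.1 hz1
    have hb2 := S.X_bounds z.2 hz2
    obtain ⟨t, ht, y, hy, e1⟩ := (S.X_mem z.1).1 hz1
    obtain ⟨t', ht', y', hy', e2⟩ := (S.X_mem z.2).1 hz2
    obtain ⟨l, hll⟩ : ∃ l, l = ∏ c, y c := ⟨_, rfl⟩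
    obtain ⟨l', hll'⟩ : ∃ l', l' = ∏ c, y' c := ⟨_, rfl⟩
    have hl : l ∈ S.LM := (S.LM_mem l).2 ⟨y, hy, hll⟩
    have hl' : l' ∈ S.LM := (S.LM_mem l').2 ⟨y', hy', hll'⟩
    rw [← hll] at e1
    rw [← hll'] at e2
    obtain ⟨r1, r2⟩ := DH.rigid_gen S.n d S.H S.B (A.q b) (A.c b) z.1 z.2 b hB1 hq1 hqH (A.cop b)
      (A.approx b) hnH hb1.2.1 hb2.2.1 hz0
    obtain ⟨ta, tb, tc⟩ := (S.I_mem t).1 ht
    obtain ⟨ta', tb', tc'⟩ := (S.I_mem t').1 ht'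
    rw [Finset.mem_biUnion]
    refine ⟨(l, l'), Finset.mem_product.2 ⟨hl, hl'⟩, ?_⟩
    rw [Finset.mem_image]
    refine ⟨(t, t'), ?_, Prod.ext e1.symm e2.symm⟩
    rw [Finset.mem_filter]
    refine ⟨Finset.mem_product.2 ⟨Finset.mem_Icc.2 ⟨ta, tb⟩, Finset.mem_Icc.2 ⟨ta', tb'⟩⟩, ?_,
      tc, tb, ?_⟩
    · have e3 : ((l ^ d : ℕ) : ℤ) * (t : ℤ) ^ d - ((l' ^ d : ℕ) : ℤ) * (t' : ℤ) ^ d =
          (z.1 : ℤ) ^ d - (z.2 : ℤ) ^ d := by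
        rw [e1, e2]
        push_cast
        ring
      change ((A.q b : ℕ) : ℤ) ∣ ((l ^ d : ℕ) : ℤ) * (t : ℤ) ^ d - ((l' ^ d : ℕ) : ℤ) * (t' : ℤ) ^ d
      rw [e3]
      exact r1
    · have e3 : (l : ℝ) ^ d * (t : ℝ) ^ d - (l' : ℝ) ^ d * (t' : ℝ) ^ d =
          (z.1 : ℝ) ^ d - (z.2 : ℝ) ^ d := by
        rw [e1, e2]
        push_cast
        ring
      change |A.dl b| * |(l : ℝ) ^ d * (t : ℝ) ^ d - (l' : ℝ) ^ d * (t' : ℝ) ^ d| ≤ _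
      rw [e3]
      exact r2
  have hkap0 : 0 ≤ kap d (A.q b) := kap_nonneg d (A.q b)
  have hV0 : 0 ≤ S.pk A b := mul_nonneg (S.lam_nonneg A b) hkap0
  have hqθ : (0 : ℝ) ≤ ((A.q b : ℕ) : ℝ) ^ theta d := by positivity
  -- the bound for one pair of primes
  have h4 : ∀ w ∈ S.LM ×ˢ S.LM, ((cs w).card : ℝ) ≤
      (Cρ : ℝ) * ((A.q b : ℕ) : ℝ) ^ theta d *
        ((2 * ((4 : ℝ) ^ u * (E : ℝ)) ^ d + 1) * (S.T : ℝ) ^ 2 * S.pk A b) := by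
    intro ω hw
    obtain ⟨hw1, hw2⟩ := Finset.mem_product.1 hw
    have hcop : ∀ l ∈ S.LM, Nat.Coprime (l ^ d) (A.q b) := by
      intro l hl
      obtain ⟨y, hy, rfl⟩ := (S.LM_mem l).1 hl
      refine Nat.Coprime.pow_left d (Nat.Coprime.prod_left fun c _ => ?_)
      obtain ⟨hlp, hlL, -⟩ := S.hPS c c.2 (y c) ((S.PF_mem u y).1 hy c)
      rw [hlp.coprime_iff_not_dvd]
      intro hdv
      have h9 := Nat.le_of_dvd hq1 hdv
      have h10 : A.q b ≤ S.W := hqW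
      unfold Su.W at h10
      omega
    have hLle : S.W ^ u ≤ ω.1 := (S.LM_bounds ω.1 hw1).1.le
    have h5 := cnt d (A.q b) (ω.2 ^ d) S.T (by omega) hq1 hT1 (hcop _ hw2) (ω.1 ^ d) (hcop _ hw1)
      (((4 : ℝ) ^ u * (E : ℝ)) ^ d * S.lam A b) ((Cρ : ℝ) * ((A.q b : ℕ) : ℝ) ^ theta d)
      (mul_nonneg (by positivity) (S.lam_nonneg A b)) (J ω)
      (by
        rintro v x ⟨u1, u2, u3⟩ x' ⟨v1, v2, v3⟩
        have h6 := core_diam d (by omega) (4 ^ u) E S.T (S.W ^ u) ω.1 S.H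
          (Nat.one_le_pow _ _ (by norm_num)) (by omega) hLle hH0 |A.dl b|
          ((ω.2 : ℝ) ^ d * (v : ℝ) ^ d) (abs_nonneg _) x x' u2 v1 u3 v3
        rw [← mul_assoc (4 ^ u), ← hBeq] at h6
        push_cast at h6 ⊢
        exact h6)
      (fun m hm' => core_rho d (by omega) Cρ hCρ1 hCρ (A.q b) hq1 m hm')
    have h6 : {uv : ℕ × ℕ | 1 ≤ uv.1 ∧ uv.1 ≤ S.T ∧ 1 ≤ uv.2 ∧ uv.2 ≤ S.T ∧
        ((A.q b : ℕ) : ℤ) ∣ ((ω.1 ^ d : ℕ) : ℤ) * (uv.1 : ℤ) ^ d -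
          ((ω.2 ^ d : ℕ) : ℤ) * (uv.2 : ℤ) ^ d ∧ uv.1 ∈ J ω uv.2} = (cs ω : Set (ℕ × ℕ)) := by
      ext t
      constructor
      · rintro ⟨a1, a2, a3, a4, a5, a6⟩
        exact Finset.mem_coe.2 (Finset.mem_filter.2 ⟨Finset.mem_product.2
          ⟨Finset.mem_Icc.2 ⟨a1, a2⟩, Finset.mem_Icc.2 ⟨a3, a4⟩⟩, a5, a6⟩)
      · intro ht
        obtain ⟨b1, b2, b3⟩ := Finset.mem_filter.1 (Finset.mem_coe.1 ht)
        obtain ⟨b4, b5⟩ := Finset.mem_product.1 b1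
        exact ⟨(Finset.mem_Icc.1 b4).1, (Finset.mem_Icc.1 b4).2, (Finset.mem_Icc.1 b5).1,
          (Finset.mem_Icc.1 b5).2, b2, b3⟩
    rw [h6, Set.ncard_coe_finset] at h5
    refine h5.trans ?_
    -- `1 + log T ≤ R ≤ T * V`
    have hRm : (0 : ℝ) < (S.R : ℝ) ^ m4 := by positivity
    have hTB : S.T ≤ S.B := by
      rw [hBeq]
      exact Nat.le_mul_of_pos_left _ (Nat.mul_pos (Nat.pow_pos (by norm_num))
        (Nat.pow_pos S.W_pos))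
    have h7 : 1 + Real.log S.T ≤ S.R := by
      refine le_trans ?_ S.log_le
      have h8 : (S.T : ℝ) ≤ ((S.B : ℕ) : ℝ) ^ 4 := by
        have h9 : (S.T : ℝ) ≤ S.B := by exact_mod_cast hTB
        have h10 : (1 : ℝ) ≤ S.B := by exact_mod_cast hB1
        exact h9.trans (le_self_pow₀ h10 (by norm_num))
      have h9 := Real.log_le_log (by linarith) h8
      linarith
    have hlam : 1 / (S.R : ℝ) ^ m4 ≤ S.lam A b := by
      unfold Su.lam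
      apply one_div_le_one_div_of_le
      · exact lt_of_lt_of_le one_pos (le_max_left _ _)
      · exact max_le (one_le_pow₀ hR1) hδ
    have hkap : 1 / (S.R : ℝ) ^ m4 ≤ kap d (A.q b) := by
      refine le_trans ?_ (kap_ge d (A.q b) (by omega) hq1)
      apply one_div_le_one_div_of_le
      · exact_mod_cast hq1
      · exact_mod_cast hq
    have h8 : (S.R : ℝ) ≤ S.T * S.pk A b := by
      have h9 : 1 / (S.R : ℝ) ^ m4 * (1 / (S.R : ℝ) ^ m4) ≤ S.pk A b :=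
        mul_le_mul hlam hkap (by positivity) (S.lam_nonneg A b)
      have h10 : (S.T : ℝ) = (S.R : ℝ) ^ (4 * m4) := by
        rw [hT]
        push_cast
        rfl
      calc (S.R : ℝ) ≤ (S.R : ℝ) ^ (2 * m4) := le_self_pow₀ hR1 (by omega)
        _ = (S.R : ℝ) ^ (4 * m4) * (1 / (S.R : ℝ) ^ m4 * (1 / (S.R : ℝ) ^ m4)) := by
          field_simp
          ring
        _ ≤ S.T * S.pk A b := by
          rw [h10]
          exact mul_le_mul_of_nonneg_left h9 (by positivity)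
    refine mul_le_mul_of_nonneg_left ?_ (by positivity)
    have hVdef : S.pk A b = S.lam A b * kap d (A.q b) := rfl
    calc 2 * (((4 : ℝ) ^ u * (E : ℝ)) ^ d * S.lam A b) * (S.T : ℝ) ^ 2 * kap d (A.q b) +
          S.T * (1 + Real.log S.T)
        ≤ 2 * (((4 : ℝ) ^ u * (E : ℝ)) ^ d * S.lam A b) * (S.T : ℝ) ^ 2 * kap d (A.q b) +
          S.T * (S.T * S.pk A b) := by
          have := mul_le_mul_of_nonneg_left (h7.trans h8) (by linarith : (0 : ℝ) ≤ S.T)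
          linarith
      _ = (2 * ((4 : ℝ) ^ u * (E : ℝ)) ^ d + 1) * (S.T : ℝ) ^ 2 * S.pk A b := by
          rw [hVdef]
          ring
  -- sum over the pairs of primes
  have hLMc : ((S.LM.card : ℕ) : ℝ) ≤ (S.p : ℝ) ^ u := S.LM_card.le
  have h5 : (Zs.card : ℝ) ≤
      ((S.p : ℝ) ^ u) ^ 2 *
      ((Cρ : ℝ) * ((A.q b : ℕ) : ℝ) ^ theta d *
        ((2 * ((4 : ℝ) ^ u * (E : ℝ)) ^ d + 1) * (S.T : ℝ) ^ 2 * S.pk A b)) := by
    have h6 : Zs.card ≤ ∑ w ∈ S.LM ×ˢ S.LM, (cs w).card :=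
      (Finset.card_le_card h3).trans (Finset.card_biUnion_le.trans
        (Finset.sum_le_sum fun w _ => Finset.card_image_le))
    have h7 : (Zs.card : ℝ) ≤ ∑ w ∈ S.LM ×ˢ S.LM, ((cs w).card : ℝ) := by
      exact_mod_cast h6
    refine h7.trans ((Finset.sum_le_sum h4).trans ?_)
    rw [Finset.sum_const, Finset.card_product, nsmul_eq_mul]
    push_cast
    refine mul_le_mul_of_nonneg_right ?_ (by positivity)
    rw [sq]
    exact mul_le_mul hLMc hLMc (Nat.cast_nonneg _) (by positivity)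
  have h6 : ((S.p : ℝ) ^ u) * S.T ≤
      2 * S.XX := by
    have h7 : (S.T : ℝ) ≤ 2 * (S.I.card : ℝ) := by exact_mod_cast S.I_card_ge
    unfold Su.XX
    have h8 : (0 : ℝ) ≤ (S.p : ℝ) ^ u := by
      positivity
    have h9 := mul_le_mul_of_nonneg_left h7 h8
    linarith
  have h7 : (((S.p : ℝ) ^ u) * S.T) ^ 2 ≤
      (2 * S.XX) ^ 2 :=
    pow_le_pow_left₀ (by positivity) h6 2
  rw [h1]
  calc FZ S.P S.n d Zs b b ≤ (S.P : ℝ) / S.n * Zs.card := h2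
    _ ≤ (8 * S.H) * (((S.p : ℝ) ^ u) ^ 2 *
      ((Cρ : ℝ) * ((A.q b : ℕ) : ℝ) ^ theta d *
        ((2 * ((4 : ℝ) ^ u * (E : ℝ)) ^ d + 1) * (S.T : ℝ) ^ 2 * S.pk A b))) :=
      mul_le_mul hPn h5 (Nat.cast_nonneg _) (by positivity)
    _ = 8 * S.H * ((Cρ : ℝ) * ((A.q b : ℕ) : ℝ) ^ theta d *
        ((2 * ((4 : ℝ) ^ u * (E : ℝ)) ^ d + 1) * S.pk A b)) *
        (((S.p : ℝ) ^ u) * S.T) ^ 2 := by ring
    _ ≤ 8 * S.H * ((Cρ : ℝ) * ((A.q b : ℕ) : ℝ) ^ theta d *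
        ((2 * ((4 : ℝ) ^ u * (E : ℝ)) ^ d + 1) * S.pk A b)) * (2 * S.XX) ^ 2 := by
      refine mul_le_mul_of_nonneg_left h7 ?_
      positivity
    _ = 32 * Cρ * (2 * ((4 : ℝ) ^ u * (E : ℝ)) ^ d + 1) * S.H * S.XX ^ 2 *
        (((A.q b : ℕ) : ℝ) ^ theta d * S.pk A b) := by ring

end Pool.Agent.Lib.MP_e426f4_ag.DK
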