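import Pool.Agent.Lib.MP_e426f4_ag.DK.Defs

/-!
# Facts: sizes of the parameters (adapt `DH/Facts.lean`)

`const_le`: `a^b ≤ cN^cN ≤ R`.  `small_le`: `T^a R^b = R^(a m + b) ≤ R^w`.
`H_le`: `16 · 2^((w l + m) d) ≤ R` by `const_le`.
-/

set_option autoImplicit false

namespace Pool.Agent.Lib.MP_e426f4_ag.DK

open Finset
open Pool.Agent.Lib.MP_e426f4_ag.DG

namespace Su

variable {d s u l e m w E : ℕ} (S : Su d s u l e m w E)

theorem nums (S : Su d s u l e m w E) :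
    4 ≤ d ∧ d + 4 ≤ s ∧ e + 2 ≤ l ∧ l ≤ u ∧ u ≤ d * l ∧ 4 * u + 20 ≤ m ∧ m + 2 ≤ w ∧
    (d + 1) * (e + 1) + 1 ≤ d * l ∧ (2 * d + 1) * (e + 1) + d + 1 ≤ 2 * (d * l) := by
  have h1 := S.hd
  have h2 := S.hs
  have h3 := S.hle
  have h4 := S.hlu
  have h5 := S.hul
  have h6 := S.hm
  have h7 := S.hmw
  have hel : e + 2 ≤ l := by
    by_contra hcon
    have h8 : l ≤ e + 1 := by omega
    have h9 : d * l ≤ d * (e + 1) := Nat.mul_le_mul_left d h8
    have h10 : (d + 1) * (e + 1) = d * (e + 1) + (e + 1) := by ring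
    omega
  have hcw : 3 ≤ cW d s u := by
    unfold cW
    calc 3 ≤ 10 ^ 8 := by norm_num
      _ ≤ (d + s + u + 10) ^ 8 := Nat.pow_le_pow_left (by omega) 8
  have hw : m + 2 ≤ w := by
    have h8 : 3 * m ≤ cW d s u * m := Nat.mul_le_mul_right m hcw
    omega
  have hlast : (2 * d + 1) * (e + 1) + d + 1 ≤ 2 * (d * l) := by
    rcases Nat.lt_or_ge (e + 1) d with h8 | h8
    · have h9 : d * (e + 2) ≤ d * l := Nat.mul_le_mul_left d hel
      have h10 : (2 * d + 1) * (e + 1) = 2 * (d * (e + 1)) + (e + 1) := by ring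
      have h11 : d * (e + 2) = d * (e + 1) + d := by ring
      omega
    · have h10 : (2 * d + 1) * (e + 1) = 2 * (d * (e + 1)) + (e + 1) := by ring
      have h11 : (d + 1) * (e + 1) = d * (e + 1) + (e + 1) := by ring
      omega
  exact ⟨h1, h2, hel, h4, h5, h6, hw, h3, hlast⟩

/-- the sum of the parameters is at most `cN` -/
theorem facts_sum_le_cN (d s u m w : ℕ) : d + s + u + m + w + 10 ≤ cN d s u m w ∧
    (d + s + u + m + w + 10) ^ 2 ≤ cN d s u m w ∧
    (d + s + u + m + w + 10) ^ 4 ≤ cN d s u m w := by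
  have h0 : 0 < d + s + u + m + w + 10 := by omega
  unfold cN
  refine ⟨?_, Nat.pow_le_pow_right h0 (by norm_num), Nat.pow_le_pow_right h0 (by norm_num)⟩
  calc d + s + u + m + w + 10 = (d + s + u + m + w + 10) ^ 1 := (pow_one _).symm
    _ ≤ _ := Nat.pow_le_pow_right h0 (by norm_num)

theorem facts_cN_pos (d s u m w : ℕ) : 1 ≤ cN d s u m w := by
  have := (facts_sum_le_cN d s u m w).1
  omega

theorem facts_cN_le_R (S : Su d s u l e m w E) : cN d s u m w ≤ S.R := by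
  have h0 := facts_cN_pos d s u m w
  calc cN d s u m w = cN d s u m w ^ 1 := (pow_one _).symm
    _ ≤ cN d s u m w ^ cN d s u m w := Nat.pow_le_pow_right h0 h0
    _ ≤ S.R := S.hR

theorem R_pos : 1 ≤ S.R := le_trans (facts_cN_pos d s u m w) (facts_cN_le_R S)

theorem W_pos : 1 ≤ S.W := Nat.one_le_pow _ _ S.R_pos

theorem T_pos : 1 ≤ S.T := Nat.one_le_pow _ _ S.R_pos

theorem p_pos : 1 ≤ S.p := Nat.one_le_pow _ _ S.R_pos

theorem B_pos : 1 ≤ S.B :=
  Nat.mul_pos (Nat.pow_pos (by norm_num)) (Nat.pow_pos S.R_pos)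

theorem BB_pos : 1 ≤ S.BB :=
  Nat.mul_pos (Nat.pow_pos (by norm_num)) (Nat.pow_pos S.R_pos)

theorem W_eq : S.W = S.R * S.p := by
  obtain ⟨-, -, -, -, -, -, h7, -, -⟩ := S.nums
  unfold Su.W Su.p
  have h1 : w = (w - 1) + 1 := by omega
  calc S.R ^ w = S.R ^ ((w - 1) + 1) := by rw [← h1]
    _ = S.R * S.R ^ (w - 1) := pow_succ' _ _

theorem B_eq : S.B = 4 ^ u * S.W ^ u * S.T := by
  unfold Su.B Su.W Su.T
  rw [← pow_mul, pow_add, mul_assoc]

theorem BB_eq : S.BB = 4 ^ l * S.W ^ l * S.T := by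
  unfold Su.BB Su.W Su.T
  rw [← pow_mul, pow_add, mul_assoc]

theorem BB_le_B : S.BB ≤ S.B := by
  obtain ⟨-, -, -, h4, -, -, -, -, -⟩ := S.nums
  unfold Su.BB Su.B
  apply Nat.mul_le_mul (Nat.pow_le_pow_right (by norm_num) h4)
  apply Nat.pow_le_pow_right S.R_pos
  have := Nat.mul_le_mul_left w h4
  omega

/-- all constants are at most `R` -/
theorem const_le (a b : ℕ) (ha : a ≤ cN d s u m w) (hb : b ≤ cN d s u m w) : a ^ b ≤ S.R :=
  calc a ^ b ≤ cN d s u m w ^ b := Nat.pow_le_pow_left ha b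
    _ ≤ cN d s u m w ^ cN d s u m w := Nat.pow_le_pow_right (facts_cN_pos d s u m w) hb
    _ ≤ S.R := S.hR

/-- the sum of the parameters is at most `cN` -/
theorem sum_le_cN (d s u m w : ℕ) : d + s + u + m + w + 10 ≤ cN d s u m w ∧
    (d + s + u + m + w + 10) ^ 2 ≤ cN d s u m w ∧ (d + s + u + m + w + 10) ^ 4 ≤ cN d s u m w :=
  facts_sum_le_cN d s u m w

/-- bounded powers of `T` and `R` are at most `W` -/
theorem small_le (a b : ℕ) (h : a * m + b ≤ w) : S.T ^ a * S.R ^ b ≤ S.W := by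
  unfold Su.T Su.W
  rw [← pow_mul, ← pow_add, Nat.mul_comm m a]
  exact Nat.pow_le_pow_right S.R_pos h

theorem small_le_p (a b : ℕ) (h : a * m + b + 1 ≤ w) : S.T ^ a * S.R ^ b ≤ S.p := by
  unfold Su.T Su.p
  rw [← pow_mul, ← pow_add, Nat.mul_comm m a]
  exact Nat.pow_le_pow_right S.R_pos (by omega)

/-- `R^a < 2^R` for `a^2 ≤ R` (`(k+1)^2 ≤ 2^k` for `k = √R ≥ 6`) -/
theorem p_two : S.p ^ (2 * u) < 2 ^ S.R := by
  have hR0 := facts_cN_le_R S
  obtain ⟨h1, -, h3⟩ := facts_sum_le_cN d s u m w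
  obtain ⟨hd, hs, -⟩ := S.nums
  have hR2 : 2 ≤ S.R := by omega
  have hA : ((w - 1) * (2 * u) + 1) ^ 2 ≤ S.R := by
    have h4 : (w - 1) * (2 * u) + 1 ≤ (d + s + u + m + w + 10) ^ 2 := by
      have h5 : (w - 1) * (2 * u) ≤ w * (2 * u) := Nat.mul_le_mul_right _ (by omega)
      nlinarith
    calc ((w - 1) * (2 * u) + 1) ^ 2 ≤ ((d + s + u + m + w + 10) ^ 2) ^ 2 :=
          Nat.pow_le_pow_left h4 2
      _ = (d + s + u + m + w + 10) ^ 4 := by ring
      _ ≤ cN d s u m w := h3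
      _ ≤ S.R := hR0
  have hk : (w - 1) * (2 * u) + 1 ≤ Nat.sqrt S.R := by
    rw [Nat.le_sqrt']
    exact hA
  have hk6 : 6 ≤ Nat.sqrt S.R := by
    rw [Nat.le_sqrt']
    have h6 : 10 ^ 4 ≤ (d + s + u + m + w + 10) ^ 4 := Nat.pow_le_pow_left (by omega) 4
    omega
  have hpow : ∀ k : ℕ, 6 ≤ k → (k + 1) ^ 2 ≤ 2 ^ k := by
    intro k hk
    induction k, hk using Nat.le_induction with
    | base => norm_num
    | succ k hk ih =>
      rw [pow_succ 2 k]
      nlinarith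
  have hlt : S.R < (Nat.sqrt S.R + 1) ^ 2 := Nat.lt_succ_sqrt' S.R
  have e1 : S.p ^ (2 * u) = S.R ^ ((w - 1) * (2 * u)) := by
    unfold Su.p
    rw [← pow_mul]
  rw [e1]
  calc S.R ^ ((w - 1) * (2 * u)) < S.R ^ ((w - 1) * (2 * u) + 1) :=
        Nat.pow_lt_pow_right (by omega) (by omega)
    _ ≤ (2 ^ Nat.sqrt S.R) ^ ((w - 1) * (2 * u) + 1) :=
        Nat.pow_le_pow_left (hlt.le.trans (hpow _ hk6)) _
    _ = 2 ^ (Nat.sqrt S.R * ((w - 1) * (2 * u) + 1)) := by rw [← pow_mul]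
    _ ≤ 2 ^ S.R := by
        apply Nat.pow_le_pow_right (by norm_num)
        calc Nat.sqrt S.R * ((w - 1) * (2 * u) + 1) ≤ Nat.sqrt S.R * Nat.sqrt S.R :=
              Nat.mul_le_mul_left _ hk
          _ ≤ S.R := Nat.sqrt_le S.R

/-- powers of `R` are at most powers of `T` -/
theorem R_le_T (a b : ℕ) (h : a ≤ b * m) : S.R ^ a ≤ S.T ^ b := by
  unfold Su.T
  rw [← pow_mul, Nat.mul_comm m b]
  exact Nat.pow_le_pow_right S.R_pos h

theorem BBH : 16 * S.BB ^ d ≤ S.H := S.hH1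

theorem H_le : S.H ≤ S.R * S.BB ^ d := by
  obtain ⟨h1, -, h3⟩ := facts_sum_le_cN d s u m w
  obtain ⟨hd, hs, -, hlu, -⟩ := S.nums
  refine S.hH2.trans ?_
  apply Nat.mul_le_mul_right
  calc 16 * 2 ^ ((w * l + m) * d) = 2 ^ (4 + (w * l + m) * d) := by
        rw [pow_add]
        norm_num
    _ ≤ S.R := by
        apply S.const_le 2
        · omega
        · refine le_trans ?_ h3
          have h5 : w * l ≤ w * u := Nat.mul_le_mul_left w hlu
          have h6 : (w * l + m) * d ≤ (w * u + m) * d := Nat.mul_le_mul_right d (by omega)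
          have hx : w ≤ d + s + u + m + w + 10 := by omega
          have hy : u ≤ d + s + u + m + w + 10 := by omega
          have hz : m ≤ d + s + u + m + w + 10 := by omega
          have ht : d ≤ d + s + u + m + w + 10 := by omega
          have hv : 10 ≤ d + s + u + m + w + 10 := by omega
          generalize d + s + u + m + w + 10 = x at hx hy hz ht hv ⊢
          have h7 : (w * u + m) * d ≤ (x * x + x) * x := by gcongr
          have h8 : 4 + (x * x + x) * x ≤ x ^ 4 := by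
            have h9 : x ^ 4 = x * (x * x * x) := by ring
            rw [h9]
            have h10 : 10 * (x * x * x) ≤ x * (x * x * x) := Nat.mul_le_mul_right _ hv
            have h11 : x * x * 1 ≤ x * x * x := Nat.mul_le_mul_left _ (by omega)
            have h12 : x * x * x ≥ 10 * (x * x) := by
              calc x * x * x = x * (x * x) := by ring
                _ ≥ 10 * (x * x) := Nat.mul_le_mul_right _ hv
            have h13 : (x * x + x) * x = x * x * x + x * x := by ring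
            have h14 : 1 ≤ x * x := Nat.mul_pos (by omega) (by omega)
            omega
          omega

/-- `H` in terms of `W` -/
theorem H_ge : (4 * S.W) ^ (d * l) * S.T ^ d ≤ S.H := by
  have h1 : 16 * S.BB ^ d ≤ S.H := S.hH1
  have h2 : S.BB ^ d = (4 * S.W) ^ (d * l) * S.T ^ d := by
    rw [S.BB_eq, ← mul_pow, mul_pow, ← pow_mul, Nat.mul_comm l d]
  rw [← h2]
  omega

theorem H_ge' : S.W ^ (d * l) ≤ S.H := by
  refine le_trans ?_ S.H_ge
  calc S.W ^ (d * l) ≤ (4 * S.W) ^ (d * l) := Nat.pow_le_pow_left (by omega) _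
    _ = (4 * S.W) ^ (d * l) * 1 := (mul_one _).symm
    _ ≤ (4 * S.W) ^ (d * l) * S.T ^ d := Nat.mul_le_mul_left _ (Nat.one_le_pow _ _ S.T_pos)

/-- the small zeros -/
theorem BH (e' : ℕ) (h : u * e' ≤ d * l) (h' : e' ≤ d) : S.B ^ e' ≤ S.H := by
  refine le_trans ?_ S.H_ge
  have h1 : S.B ^ e' = (4 * S.W) ^ (u * e') * S.T ^ e' := by
    rw [S.B_eq, ← mul_pow, mul_pow, ← pow_mul]
  have hW := S.W_pos
  rw [h1]
  exact Nat.mul_le_mul (Nat.pow_le_pow_right (by omega) h) (Nat.pow_le_pow_right S.T_pos h')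

theorem n_facts : 0 < S.n ∧ S.n ≤ S.P ∧ 4 * S.n * S.H ≤ S.P ∧
    (S.P : ℝ) / S.n ≤ 8 * S.H ∧ 8 * (s + 2) * S.H * S.B ^ d < S.P ∧ 2 * S.H < S.P ∧ 0 < S.H := by
  have hB := S.B_pos
  have hBd : 1 ≤ S.B ^ d := Nat.one_le_pow _ _ hB
  have hH0 : 0 < S.H := lt_of_lt_of_le (Nat.pow_pos S.W_pos) S.H_ge'
  have hP : 8 * (s + 2) * S.H * S.B ^ d < S.P := S.hP
  have h16 : 16 * S.H * S.B ^ d ≤ 8 * (s + 2) * S.H * S.B ^ d := by
    have : 16 ≤ 8 * (s + 2) := by omega
    gcongr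
  have hHB : S.H ≤ S.H * S.B ^ d := Nat.le_mul_of_pos_right _ hBd
  have h3 : 16 * S.H ≤ 16 * S.H * S.B ^ d := by
    rw [mul_assoc]; exact Nat.mul_le_mul_left _ hHB
  have hn0 : 0 < S.n := by
    unfold Su.n
    apply Nat.div_pos _ (by omega)
    omega
  have hn4 : 4 * S.n * S.H ≤ S.P := by
    unfold Su.n
    have := Nat.div_mul_le_self S.P (4 * S.H)
    calc _ = S.P / (4 * S.H) * (4 * S.H) := by ring
      _ ≤ _ := this
  have hlt : S.P < 4 * (S.n + 1) * S.H := by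
    unfold Su.n
    have := Nat.lt_div_mul_add (a := S.P) (b := 4 * S.H) (by omega)
    calc S.P < S.P / (4 * S.H) * (4 * S.H) + 4 * S.H := this
      _ = _ := by ring
  refine ⟨hn0, ?_, hn4, ?_, hP, ?_, hH0⟩
  · unfold Su.n
    exact Nat.div_le_self _ _
  · have hnr : (0 : ℝ) < S.n := by exact_mod_cast hn0
    rw [div_le_iff₀ hnr]
    have h5 : S.P ≤ 8 * S.H * S.n := by
      have : 4 * (S.n + 1) * S.H ≤ 8 * S.H * S.n := by
        have : S.n + 1 ≤ 2 * S.n := by omega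
        calc 4 * (S.n + 1) * S.H ≤ 4 * (2 * S.n) * S.H := by gcongr
          _ = _ := by ring
      omega
    exact_mod_cast h5
  · omega

theorem main_nonneg : 0 ≤ S.main := by
  unfold Su.main
  positivity

theorem lam_nonneg (A : Arc S.P (4 * S.B ^ d)) (b : ZMod S.P) : 0 ≤ S.lam A b := by
  unfold Su.lam
  positivity

theorem lam_le_one (A : Arc S.P (4 * S.B ^ d)) (b : ZMod S.P) : S.lam A b ≤ 1 := by
  unfold Su.lam
  rw [div_le_one (by positivity)]
  exact le_max_left _ _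

theorem log_le : 1 + Real.log (((S.B : ℕ) : ℝ) ^ 4) ≤ S.R := by
  have h1 := S.hlog
  unfold Su.B
  push_cast
  exact h1

theorem tau_le (k : ℕ) (h1 : 1 ≤ k) (h2 : k ≤ S.B ^ (8 * d)) : k.divisors.card ≤ S.R :=
  S.htau k h1 h2

theorem rho_le (k : ℕ) (h1 : 1 ≤ k) (h2 : k ≤ S.B ^ (8 * d)) : rho d k ≤ S.R :=
  S.hrho k h1 h2

end Su

end Pool.Agent.Lib.MP_e426f4_ag.DK
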