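import Pool.Agent.Lib.MP_e426f4_ag.DK.Lossy
import Pool.Agent.Lib.MP_e426f4_ag.DK.Core
import Pool.Agent.Lib.MP_e426f4_ag.DK.Maj
import Pool.Agent.Lib.MP_e426f4_ag.DK.MajCore
import Pool.Agent.Lib.MP_e426f4_ag.DK.FactsX
import Pool.Agent.Lib.MP_e426f4_ag.DG.FFb
import Pool.Agent.Lib.MP_e426f4_ag.DG.Psi

/-!
# CombMaj: the class MAJ (adapt `DH/CombMaj.lean`)

`e0 := d/2 + 2`, `d + 3 ≤ 2 e0 ≤ s`, `e0 ≤ d`.  Outside the core the loss is `(C R² (2·4^u R^u)²)^{e0}`, at most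
`C R^((2u+2) d)`, against `(R^m4)^{-1/(4d)}`.
-/

set_option autoImplicit false

namespace Pool.Agent.Lib.MP_e426f4_ag.DK

open Finset
open Pool.Agent.Lib.MP_e426f4_ag.DG
open Pool.Agent.Lib.MP_e426f4_ag.DH (SmallZ rhsG)

private theorem CombMaj_prod {s k : ℕ} (hk : k ≤ s) (f : Fin s → ℝ) (hf : ∀ i, 0 ≤ f i) (c t : ℝ)
    (h1 : ∀ i : Fin s, i.val < k → f i ≤ c) (h2 : ∀ i : Fin s, k ≤ i.val → f i ≤ t) :
    ∏ i, f i ≤ c ^ k * t ^ (s - k) := by
  have e1 : ∏ i, f i ≤ ∏ i : Fin s, (if i.val < k then c else t) := by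
    refine Finset.prod_le_prod (fun i _ => hf i) (fun i _ => ?_)
    by_cases h : i.val < k
    · rw [if_pos h]; exact h1 i h
    · rw [if_neg h]; exact h2 i (not_lt.mp h)
  have e2 : ∏ i : Fin s, (if i.val < k then c else t) = c ^ k * t ^ (s - k) := by
    rw [← Finset.prod_range (fun j => if j < k then c else t), ← Finset.prod_range_mul_prod_Ico _ hk]
    congr 1
    · rw [Finset.prod_congr rfl (g := fun _ => c)
        (fun j hj => if_pos (Finset.mem_range.mp hj)), Finset.prod_const, Finset.card_range]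
    · rw [Finset.prod_congr rfl (g := fun _ => t)
        (fun j hj => if_neg (not_lt.mpr (Finset.mem_Ico.mp hj).1)), Finset.prod_const, Nat.card_Ico]
  rw [← e2]
  exact e1

private theorem CombMaj_nonneg {d s u l e m w E : ℕ} (S : Su d s u l e m w E)
    (b b' : ZMod S.P) : 0 ≤ FF S.P S.n d S.X b b' := FZ_nonneg _ _ _ _ _

private theorem CombMaj_pk {d s u l e m w E : ℕ} (S : Su d s u l e m w E) (A : Arc S.P (4 * S.B ^ d))
    (b : ZMod S.P) : 0 ≤ S.pk A b := mul_nonneg (S.lam_nonneg A b) (kap_nonneg d _)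

/-- the size of `(R^m4)^(-1/(4d))` -/
private theorem CombMaj_rpow (R d u k m4 : ℕ) (hR : 1 ≤ R) (hd : 4 ≤ d) (he : k ≤ d)
    (hm : 4 * d * ((2 * u + 2) * d + 1) ≤ m4) :
    ((R : ℝ) ^ m4) ^ (-(1 / (4 * (d : ℝ)))) ≤ ((R : ℝ) ^ ((2 * u + 2) * k + 1))⁻¹ := by
  have hR1 : (1 : ℝ) ≤ R := by exact_mod_cast hR
  have hR0 : (0 : ℝ) < R := by linarith
  have hd0 : (0 : ℝ) < d := by exact_mod_cast (by omega : 0 < d)
  have hexp : ((2 * u + 2) * k + 1) * (4 * d) ≤ m4 := by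
    calc ((2 * u + 2) * k + 1) * (4 * d) ≤ ((2 * u + 2) * d + 1) * (4 * d) := by gcongr
      _ = 4 * d * ((2 * u + 2) * d + 1) := by ring
      _ ≤ m4 := hm
  have h1 : ((R : ℝ) ^ ((2 * u + 2) * k + 1)) ^ (4 * d) ≤ (R : ℝ) ^ m4 := by
    rw [← pow_mul]
    exact pow_le_pow_right₀ hR1 hexp
  have h2 : ((R : ℝ) ^ m4) ^ (-(1 / (4 * (d : ℝ)))) ≤
      (((R : ℝ) ^ ((2 * u + 2) * k + 1)) ^ (4 * d)) ^ (-(1 / (4 * (d : ℝ)))) := by
    apply Real.rpow_le_rpow_of_nonpos (by positivity) h1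
    have : 0 < 1 / (4 * (d : ℝ)) := by positivity
    linarith
  refine h2.trans (le_of_eq ?_)
  rw [Real.rpow_neg (by positivity)]
  congr 1
  have h3 : (1 : ℝ) / (4 * (d : ℝ)) = ((4 * d : ℕ) : ℝ)⁻¹ := by
    rw [one_div]
    push_cast
    rfl
  rw [h3]
  exact Real.pow_rpow_inv_natCast (by positivity) (by omega)

open Classical in
theorem comb_maj (d s u l e m4 w E : ℕ) (hm : 4 * d * ((2 * u + 2) * d + 1) ≤ m4) : ∃ C : ℝ, 0 < C ∧
    ∀ (eta : ℝ), 0 < eta →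
    ∃ (om : ℕ) (e0 : ℝ), 1 ≤ om ∧ 0 < e0 ∧ ∀ (J : ℕ)
      (S : Su d s u l e (4 * m4) w E) (A : Arc S.P (4 * S.B ^ d)),
    ((om.factorial : ℝ) * J ≤ e0 * S.H * (S.B : ℝ) ^ d) →
    rhsG S.P S.n d (fun _ : Fin s => S.X)
      (fun b => if S.Maj A b then psi S.P om.factorial J b else 0) ≤ (eta + C / S.R) * S.main := by
  by_cases hcase : 4 ≤ d ∧ d + 4 ≤ s ∧ 2 ≤ E
  swap
  · exact ⟨1, one_pos, fun eta _ => ⟨1, 1, le_rfl, one_pos, fun J S => absurd
      ⟨S.hd, S.hs, S.hE⟩ hcase⟩⟩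
  obtain ⟨hd, hc3, hE⟩ := hcase
  have hm4 : 1 ≤ m4 := by
    have : 1 * 1 ≤ 4 * d * ((2 * u + 2) * d + 1) := Nat.mul_le_mul (by omega) (by omega)
    omega
  obtain ⟨k, he⟩ : ∃ k, k = d / 2 + 2 := ⟨_, rfl⟩
  have hed : k ≤ d := by omega
  have hes : 2 * k ≤ s := by omega
  obtain ⟨C1, hC1, hl⟩ := lossy d s u l e E hd hE
  obtain ⟨C2, hC2, hc⟩ := core d s u l e E m4 w hd hm4
  obtain ⟨C4, hC4, ho⟩ := maj_outer d s u l e E
  obtain ⟨C5, hC5⟩ : ∃ C5 : ℝ, C5 = 2 * ((16 ^ u * C1) ^ k * C4) := ⟨_, rfl⟩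
  have hC50 : 0 ≤ C5 := by rw [hC5]; positivity
  refine ⟨2 * C5 ^ 2 + 1, by positivity, fun eta heta => ?_⟩
  obtain ⟨K, hK⟩ : ∃ K : ℝ, K = (C2 / 8) ^ k := ⟨_, rfl⟩
  have hK0 : 0 < K := by rw [hK]; positivity
  obtain ⟨eta', heta'⟩ : ∃ eta' : ℝ, eta' = Real.sqrt (eta / 2) / K := ⟨_, rfl⟩
  have heta0 : 0 < eta' := by rw [heta']; positivity
  have heta1 : 2 * (K * eta') ^ 2 = eta := by
    rw [heta', mul_div_cancel₀ _ hK0.ne', Real.sq_sqrt (by positivity)]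
    ring
  obtain ⟨om, e0, hom, he0, hmc⟩ := maj_core d s u l e E eta' heta0
  refine ⟨om, e0, hom, he0, fun J S A hJ => ?_⟩
  have hmc' := hmc (4 * m4) w J S A hJ
  have ho' := ho m4 w S A
  rw [← he] at hmc' ho'
  obtain ⟨hX1, hX2⟩ := S.XX_bounds
  obtain ⟨R, hR⟩ : ∃ R : ℝ, R = (S.R : ℝ) := ⟨_, rfl⟩
  obtain ⟨H, hH⟩ : ∃ H : ℝ, H = (S.H : ℝ) := ⟨_, rfl⟩
  obtain ⟨B, hB⟩ : ∃ B : ℝ, B = (S.B : ℝ) := ⟨_, rfl⟩
  obtain ⟨X, hX⟩ : ∃ X : ℝ, X = S.XX := ⟨_, rfl⟩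
  have hR1 : (1 : ℝ) ≤ R := by rw [hR]; exact_mod_cast S.R_pos
  have hR0 : (0 : ℝ) < R := by linarith
  have hH0 : (0 : ℝ) < H := by rw [hH]; exact_mod_cast S.n_facts.2.2.2.2.2.2
  have hB1 : (1 : ℝ) ≤ B := by rw [hB]; exact_mod_cast S.B_pos
  have hB0 : (0 : ℝ) < B := by linarith
  have hP0 : (0 : ℝ) < S.P := by exact_mod_cast S.prime.pos
  rw [← hX, ← hB, ← hR] at hX1
  rw [← hX, ← hB] at hX2
  have hX0 : 0 < X := lt_of_lt_of_le (by positivity) hX1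
  have hBX : B ^ 2 ≤ 4 * 16 ^ u * R ^ (2 * u) * X ^ 2 := by
    rw [div_le_iff₀ (by positivity)] at hX1
    have h16 : ((4 : ℝ) ^ u) ^ 2 = 16 ^ u := by
      rw [← pow_mul, mul_comm u 2, pow_mul]
      norm_num
    calc B ^ 2 ≤ (X * (2 * 4 ^ u * R ^ u)) ^ 2 := pow_le_pow_left₀ hB0.le hX1 2
      _ = 4 * (4 ^ u) ^ 2 * (R ^ u) ^ 2 * X ^ 2 := by ring
      _ = 4 * 16 ^ u * R ^ (2 * u) * X ^ 2 := by rw [h16, ← pow_mul, mul_comm u 2]
  obtain ⟨TR, hTR⟩ : ∃ TR : ℝ, TR = 8 * H * X ^ 2 := ⟨_, rfl⟩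
  have hTR0 : 0 < TR := by rw [hTR]; positivity
  obtain ⟨Am, hAm⟩ : ∃ Am : ℝ, Am = H * B ^ d := ⟨_, rfl⟩
  have hAm0 : 0 < Am := by rw [hAm]; positivity
  -- the majorant
  obtain ⟨cor, hcor⟩ : ∃ cor : ZMod S.P → Prop, cor = fun b => (A.q b ≤ S.R ^ m4 ∧
    (S.H : ℝ) * (S.B : ℝ) ^ d * |A.dl b| ≤ (S.R : ℝ) ^ m4) := ⟨_, rfl⟩
  obtain ⟨mb, hmb⟩ : ∃ mb : ZMod S.P → ℝ, mb = fun b => if cor b then
    C2 * H * X ^ 2 * (((A.q b : ℕ) : ℝ) ^ theta d * S.pk A b) else 2 * C1 * H * R ^ 2 * B ^ 2 * S.pk A b :=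
    ⟨_, rfl⟩
  have hmb0 : ∀ b, 0 ≤ mb b := by
    intro b
    have hV := CombMaj_pk S A b
    rw [hmb]
    by_cases h : cor b
    · simp only [if_pos h]; positivity
    · simp only [if_neg h]; positivity
  have hmaj : ∀ b, S.Maj A b → FF S.P S.n d S.X b b ≤ mb b := by
    intro b hb
    rw [hmb]
    by_cases h : cor b
    · simp only [if_pos h]
      rw [hcor] at h
      have := hc S A b h.1 h.2
      rw [← hH, ← hX] at this
      exact this
    · simp only [if_neg h]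
      unfold Su.Maj at hb
      refine (hl (4 * m4) w S A b hb.1).trans ?_
      have hb2 := hb.2
      rw [← hB] at hb2
      rw [← hH, ← hR, ← hB]
      have h1 : B ≤ B ^ 2 * S.pk A b := by
        have := mul_le_mul_of_nonneg_left hb2.le hB0.le
        calc B = B * 1 := (mul_one _).symm
          _ ≤ B * (B * S.pk A b) := this
          _ = B ^ 2 * S.pk A b := by ring
      calc C1 * H * R ^ 2 * (B + B ^ 2 * S.pk A b) ≤
          C1 * H * R ^ 2 * (B ^ 2 * S.pk A b + B ^ 2 * S.pk A b) := by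
            apply mul_le_mul_of_nonneg_left (by linarith) (by positivity)
        _ = 2 * C1 * H * R ^ 2 * B ^ 2 * S.pk A b := by ring
  -- the product
  have hprod : ∀ b, S.Maj A b → ∀ b', S.Maj A b' →
      ∏ _i : Fin s, FF S.P S.n d S.X b b' ≤ (mb b ^ k * mb b' ^ k) * TR ^ (s - 2 * k) := by
    intro b hb b' hb'
    have h1 := CombMaj_prod (k := 2 * k) hes (fun _ => FF S.P S.n d S.X b b')
      (fun _ => CombMaj_nonneg S b b') (Real.sqrt (mb b * mb b')) TR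
      (fun i _ => by
        apply Real.le_sqrt_of_sq_le
        refine (FF_cs S.n d S.n_facts.1 S.X b b').trans ?_
        exact mul_le_mul (hmaj b hb) (hmaj b' hb') (CombMaj_nonneg S b' b') (hmb0 b))
      (fun i _ => by
        rw [hTR, hH, hX]
        exact S.FF_le b b')
    refine h1.trans (le_of_eq ?_)
    rw [pow_mul, Real.sq_sqrt (mul_nonneg (hmb0 b) (hmb0 b')), mul_pow]
  -- the one-dimensional sum
  obtain ⟨W, hW⟩ : ∃ W : ℕ, W = om.factorial := ⟨_, rfl⟩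
  rw [← hW] at hmc' ⊢
  obtain ⟨ph, hph⟩ : ∃ ph : ZMod S.P → ℝ, ph = fun b => if S.Maj A b then psi S.P W J b else 0 :=
    ⟨_, rfl⟩
  have hph0 : ∀ b, 0 ≤ ph b := by
    intro b
    rw [hph]
    by_cases h : S.Maj A b
    · simp only [if_pos h]; exact psi_nonneg W J b
    · simp only [if_neg h]; exact le_rfl
  have hph1 : ∀ b, ph b ≤ psi S.P W J b := by
    intro b
    rw [hph]
    by_cases h : S.Maj A b
    · simp only [if_pos h]; exact le_rfl
    · simp only [if_neg h]; exact psi_nonneg W J b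
  have hph2 : ∀ b, ¬ S.Maj A b → ph b = 0 := by
    intro b h
    rw [hph]
    simp only [if_neg h]
  rw [← hph]
  obtain ⟨Sg, hSg⟩ : ∃ Sg : ℝ, Sg = (1 / (S.P : ℝ)) * ∑ b : ZMod S.P, ph b * mb b ^ k := ⟨_, rfl⟩
  have hSg0 : 0 ≤ Sg := by
    rw [hSg]
    refine mul_nonneg (by positivity) (Finset.sum_nonneg (fun b _ => ?_))
    exact mul_nonneg (hph0 b) (pow_nonneg (hmb0 b) _)
  have hLHS : rhsG S.P S.n d (fun _ : Fin s => S.X) ph ≤ TR ^ (s - 2 * k) * Sg ^ 2 := by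
    have h1 : ∑ b : ZMod S.P, ∑ b' : ZMod S.P, ph b * ph b' * ∏ _i : Fin s, FF S.P S.n d S.X b b' ≤
        ∑ b : ZMod S.P, ∑ b' : ZMod S.P,
        ((ph b * mb b ^ k) * (ph b' * mb b' ^ k)) * TR ^ (s - 2 * k) := by
      refine Finset.sum_le_sum (fun b _ => Finset.sum_le_sum (fun b' _ => ?_))
      by_cases hb : S.Maj A b
      · by_cases hb' : S.Maj A b'
        · calc ph b * ph b' * ∏ _i : Fin s, FF S.P S.n d S.X b b'
              ≤ ph b * ph b' * ((mb b ^ k * mb b' ^ k) * TR ^ (s - 2 * k)) :=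
                mul_le_mul_of_nonneg_left (hprod b hb b' hb') (mul_nonneg (hph0 b) (hph0 b'))
            _ = _ := by ring
        · rw [hph2 b' hb']
          simp
      · rw [hph2 b hb]
        simp
    unfold rhsG
    calc _ ≤ (1 / (S.P : ℝ) ^ 2) * ∑ b : ZMod S.P, ∑ b' : ZMod S.P,
        ((ph b * mb b ^ k) * (ph b' * mb b' ^ k)) * TR ^ (s - 2 * k) :=
          mul_le_mul_of_nonneg_left h1 (by positivity)
      _ = TR ^ (s - 2 * k) * Sg ^ 2 := by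
        rw [hSg, mul_pow, pow_two (∑ b : ZMod S.P, ph b * mb b ^ k), Finset.sum_mul_sum]
        simp only [← Finset.sum_mul]
        ring
  refine hLHS.trans ?_
  -- the bound of the one-dimensional sum
  have hSgle : Sg ≤ TR ^ k / Am * (K * eta' + C5 / R) := by
    have h1 : ∑ b : ZMod S.P, ph b * mb b ^ k ≤ ∑ b : ZMod S.P,
        ((C2 * H * X ^ 2) ^ k * (psi S.P W J b * (((A.q b : ℕ) : ℝ) ^ theta d * S.pk A b) ^ k) +
          (if ¬ cor b then (2 * (2 * C1 * H * R ^ 2 * B ^ 2) ^ k) * S.pk A b ^ k else 0)) := by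
      refine Finset.sum_le_sum (fun b _ => ?_)
      have hV := CombMaj_pk S A b
      refine (mul_le_mul_of_nonneg_right (hph1 b) (pow_nonneg (hmb0 b) _)).trans ?_
      rw [hmb]
      by_cases h : cor b
      · have hi : (if ¬ cor b then (2 * (2 * C1 * H * R ^ 2 * B ^ 2) ^ k) * S.pk A b ^ k else 0) = 0 :=
          if_neg (not_not.mpr h)
        rw [hi]
        simp only [if_pos h]
        rw [mul_pow]
        apply le_of_eq
        ring
      · have hi : (if ¬ cor b then (2 * (2 * C1 * H * R ^ 2 * B ^ 2) ^ k) * S.pk A b ^ k else 0) =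
          (2 * (2 * C1 * H * R ^ 2 * B ^ 2) ^ k) * S.pk A b ^ k := if_pos h
        rw [hi]
        simp only [if_neg h]
        have h2 : 0 ≤ (C2 * H * X ^ 2) ^ k * (psi S.P W J b * (((A.q b : ℕ) : ℝ) ^ theta d * S.pk A b) ^ k) := by
          have := psi_nonneg (P := S.P) W J b
          positivity
        have h3 := psi_le_two (P := S.P) W J b
        have h4 : 0 ≤ (2 * C1 * H * R ^ 2 * B ^ 2 * S.pk A b) ^ k := by positivity
        calc psi S.P W J b * (2 * C1 * H * R ^ 2 * B ^ 2 * S.pk A b) ^ k ≤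
            2 * (2 * C1 * H * R ^ 2 * B ^ 2 * S.pk A b) ^ k := mul_le_mul_of_nonneg_right h3 h4
          _ = (2 * (2 * C1 * H * R ^ 2 * B ^ 2) ^ k) * S.pk A b ^ k := by
            rw [mul_pow (2 * C1 * H * R ^ 2 * B ^ 2)]
            ring
          _ ≤ _ := by linarith
    have h2 : (1 / (S.P : ℝ)) * ∑ b : ZMod S.P,
        ((C2 * H * X ^ 2) ^ k * (psi S.P W J b * (((A.q b : ℕ) : ℝ) ^ theta d * S.pk A b) ^ k) +
          (if ¬ cor b then (2 * (2 * C1 * H * R ^ 2 * B ^ 2) ^ k) * S.pk A b ^ k else 0)) =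
        (C2 * H * X ^ 2) ^ k * ((1 / (S.P : ℝ)) * ∑ b : ZMod S.P,
          psi S.P W J b * (((A.q b : ℕ) : ℝ) ^ theta d * S.pk A b) ^ k) +
        (2 * (2 * C1 * H * R ^ 2 * B ^ 2) ^ k) * ((1 / (S.P : ℝ)) *
          ∑ b ∈ (univ : Finset (ZMod S.P)).filter (fun b => ¬ cor b), S.pk A b ^ k) := by
      rw [Finset.sum_add_distrib, ← Finset.sum_filter, ← Finset.mul_sum, ← Finset.mul_sum]
      ring
    have h3 : (2 * C1 * H * R ^ 2 * B ^ 2) ^ k ≤
        (16 ^ u * C1) ^ k * R ^ ((2 * u + 2) * k) * TR ^ k := by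
      have h4 : 2 * C1 * H * R ^ 2 * B ^ 2 ≤ 16 ^ u * C1 * R ^ (2 * u + 2) * TR := by
        rw [hTR]
        calc 2 * C1 * H * R ^ 2 * B ^ 2 ≤
              2 * C1 * H * R ^ 2 * (4 * 16 ^ u * R ^ (2 * u) * X ^ 2) :=
              mul_le_mul_of_nonneg_left hBX (by positivity)
          _ = 16 ^ u * C1 * R ^ (2 * u + 2) * (8 * H * X ^ 2) := by
              rw [pow_add R (2 * u) 2]; ring
      calc (2 * C1 * H * R ^ 2 * B ^ 2) ^ k ≤ (16 ^ u * C1 * R ^ (2 * u + 2) * TR) ^ k :=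
            pow_le_pow_left₀ (by positivity) h4 k
        _ = (16 ^ u * C1) ^ k * R ^ ((2 * u + 2) * k) * TR ^ k := by
          rw [mul_pow, mul_pow, ← pow_mul R (2 * u + 2) k]
    have h5 : (1 / (S.P : ℝ)) * ∑ b ∈ (univ : Finset (ZMod S.P)).filter (fun b => ¬ cor b),
        S.pk A b ^ k ≤ C4 * (R ^ ((2 * u + 2) * k + 1))⁻¹ / Am := by
      have h6 := CombMaj_rpow S.R d u k m4 S.R_pos hd hed hm
      refine le_trans (le_trans (le_of_eq ?_) ho') ?_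
      · congr 1
        refine Finset.sum_congr ?_ (fun _ _ => rfl)
        ext b
        simp only [Finset.mem_filter, hcor]
      · rw [← hH, ← hB, ← hR, ← hAm]
        rw [← hR] at h6
        gcongr
    have h7 : (C2 * H * X ^ 2) ^ k = K * TR ^ k := by
      rw [hK, hTR, ← mul_pow]
      congr 1
      ring
    calc Sg ≤ (C2 * H * X ^ 2) ^ k * ((1 / (S.P : ℝ)) * ∑ b : ZMod S.P,
          psi S.P W J b * (((A.q b : ℕ) : ℝ) ^ theta d * S.pk A b) ^ k) +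
        (2 * (2 * C1 * H * R ^ 2 * B ^ 2) ^ k) * ((1 / (S.P : ℝ)) *
          ∑ b ∈ (univ : Finset (ZMod S.P)).filter (fun b => ¬ cor b), S.pk A b ^ k) := by
          rw [hSg, ← h2]
          exact mul_le_mul_of_nonneg_left h1 (by positivity)
      _ ≤ (K * TR ^ k) * (eta' / Am) + (2 * ((16 ^ u * C1) ^ k * R ^ ((2 * u + 2) * k) * TR ^ k)) *
          (C4 * (R ^ ((2 * u + 2) * k + 1))⁻¹ / Am) := by
          rw [h7]
          have h8 : (1 / (S.P : ℝ)) * ∑ b : ZMod S.P,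
            psi S.P W J b * (((A.q b : ℕ) : ℝ) ^ theta d * S.pk A b) ^ k ≤ eta' / Am := by
            rw [hAm, hH, hB]
            exact hmc'
          have h9 : 0 ≤ (1 / (S.P : ℝ)) * ∑ b ∈ (univ : Finset (ZMod S.P)).filter (fun b => ¬ cor b),
            S.pk A b ^ k := by
            refine mul_nonneg (by positivity) (Finset.sum_nonneg (fun b _ => ?_))
            exact pow_nonneg (CombMaj_pk S A b) _
          apply add_le_add
          · exact mul_le_mul_of_nonneg_left h8 (by positivity)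
          · exact mul_le_mul (mul_le_mul_of_nonneg_left h3 (by norm_num)) h5 h9 (by positivity)
      _ = TR ^ k / Am * (K * eta' + C5 / R) := by
          rw [hC5, pow_succ R ((2 * u + 2) * k)]
          field_simp
  calc TR ^ (s - 2 * k) * Sg ^ 2 ≤ TR ^ (s - 2 * k) * (TR ^ k / Am * (K * eta' + C5 / R)) ^ 2 :=
        mul_le_mul_of_nonneg_left (pow_le_pow_left₀ hSg0 hSgle 2) (by positivity)
    _ = (TR ^ (s - 2 * k) * TR ^ (2 * k)) / Am ^ 2 * (K * eta' + C5 / R) ^ 2 := by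
        rw [mul_comm 2 k, pow_mul]
        ring
    _ = TR ^ s / Am ^ 2 * (K * eta' + C5 / R) ^ 2 := by
        rw [← pow_add, Nat.sub_add_cancel hes]
    _ ≤ TR ^ s / Am ^ 2 * (2 * (K * eta') ^ 2 + 2 * (C5 / R) ^ 2) := by
        apply mul_le_mul_of_nonneg_left _ (by positivity)
        nlinarith [sq_nonneg (K * eta' - C5 / R)]
    _ ≤ TR ^ s / Am ^ 2 * (eta + (2 * C5 ^ 2 + 1) / R) := by
        apply mul_le_mul_of_nonneg_left _ (by positivity)
        rw [heta1]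
        have h1 : 2 * (C5 / R) ^ 2 ≤ (2 * C5 ^ 2 + 1) / R := by
          rw [div_pow, mul_div_assoc', div_le_div_iff₀ (by positivity) hR0]
          nlinarith [sq_nonneg C5, mul_nonneg (sq_nonneg C5) (by nlinarith : 0 ≤ R ^ 2 - R)]
        linarith
    _ = (eta + (2 * C5 ^ 2 + 1) / S.R) * S.main := by
        unfold Su.main
        rw [← hH, ← hB, ← hX, ← hTR, ← hAm, ← hR]
        ring

end Pool.Agent.Lib.MP_e426f4_ag.DK
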