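import Pool.Agent.Lib.MP_e426f4_ag.DK.FactsX

/-!
# LevTerm: one level against the main term (pure inequalities between powers)

`XX ≥ T p^u/2`, `H ≤ R BB^d`, `BB = 4^l R^l p^l T`, `B = 4^u R^u p^u T`, `W = R p`, `main = (8 H XX²)^s/(H B^d)²`.
The exponent of `p` on the left minus that on the right is at most `-1` by `h`, and the rest is at most
`T^(...) R^(...) ≤ p/R` (`small_le_p`, `cW d s u * m ≤ w`, `cW = (d + s + u + 10)^8`; exponents of `T`: at most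
`(cG + 3) s + 4 d + 3`, of `R`: at most `cG + 2 + 2d(l + u) + ...`).
-/

set_option autoImplicit false

namespace Pool.Agent.Lib.MP_e426f4_ag.DK

open Finset
open Pool.Agent.Lib.MP_e426f4_ag.DG

/-- the exponents fit -/
private lemma lt_exp (d s u m w : ℕ) (hm : 1 ≤ m) (hmw : cW d s u * m ≤ w) :
    ((cG d u + 3) * s + 3 + 4 * d) * m + (cG d u + 4 + 4 * (d * u)) + 1 ≤ w := by
  refine le_trans ?_ hmw
  have h1 : (cG d u + 3) * s + 3 + 4 * d + (cG d u + 4 + 4 * (d * u)) + 1 ≤ cW d s u := by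
    unfold cG cW
    obtain ⟨N, hN⟩ : ∃ N, N = d + s + u + 10 := ⟨_, rfl⟩
    rw [← hN]
    have e1 : 10 ≤ N := by omega
    have e2 : u + d + 3 ≤ N := by omega
    have e3 : s ≤ N := by omega
    have e4 : (u + d + 3) ^ 2 ≤ N ^ 2 := Nat.pow_le_pow_left e2 2
    have e5 : (100 * (u + d + 3) ^ 2 + 3) * s ≤ (100 * N ^ 2 + 3) * N :=
      Nat.mul_le_mul (by omega) e3
    have e6 : d * u ≤ N * N := Nat.mul_le_mul (by omega) (by omega)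
    have e7 : d ≤ N := by omega
    have e8 : N ^ 8 = N ^ 3 * N ^ 5 := by ring
    have e9 : 10 ^ 5 ≤ N ^ 5 := Nat.pow_le_pow_left e1 5
    have e10 : N ^ 3 * 10 ^ 5 ≤ N ^ 3 * N ^ 5 := Nat.mul_le_mul_left _ e9
    have e11 : 10 * N ^ 2 ≤ N ^ 3 := by
      calc 10 * N ^ 2 ≤ N * N ^ 2 := Nat.mul_le_mul_right _ e1
        _ = N ^ 3 := by ring
    have e12 : 10 * N ≤ N ^ 2 := by
      calc 10 * N ≤ N * N := Nat.mul_le_mul_right _ e1
        _ = N ^ 2 := by ring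
    have e13 : N * N = N ^ 2 := by ring
    have e14 : (100 * N ^ 2 + 3) * N = 100 * N ^ 3 + 3 * N := by ring
    rw [e8]
    rw [e13] at e6
    rw [e14] at e5
    omega
  calc ((cG d u + 3) * s + 3 + 4 * d) * m + (cG d u + 4 + 4 * (d * u)) + 1
      ≤ ((cG d u + 3) * s + 3 + 4 * d) * m + ((cG d u + 4 + 4 * (d * u)) + 1) * m := by
        rw [add_assoc]
        exact Nat.add_le_add_left (Nat.le_mul_of_pos_right _ hm) _
    _ = ((cG d u + 3) * s + 3 + 4 * d + (cG d u + 4 + 4 * (d * u)) + 1) * m := by ring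
    _ ≤ cW d s u * m := Nat.mul_le_mul_right m h1

/-- the constants fit -/
private lemma lt_const {d s u l e m w E : ℕ} (S : Su d s u l e m w E) :
    4 ^ (s + 2 * (d * l + d * u)) ≤ S.R := by
  obtain ⟨h1, h2, h3⟩ := Su.sum_le_cN d s u m w
  have hlu := S.hlu
  refine S.const_le _ _ (by omega) (le_trans ?_ h2)
  have e1 : d * l ≤ d * u := Nat.mul_le_mul_left _ hlu
  have e3 : 4 * (d * u) ≤ (d + u) ^ 2 := by
    have h4 := four_mul_le_sq_add d u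
    linarith
  have e2 : s + 4 * (d * u) ≤ (d + s + u + m + w + 10) ^ 2 := by
    obtain ⟨X, hX⟩ : ∃ X, X = d + u := ⟨_, rfl⟩
    obtain ⟨Y, hY⟩ : ∃ Y, Y = s + m + w + 10 := ⟨_, rfl⟩
    have e4 : d + s + u + m + w + 10 = X + Y := by omega
    rw [← hX] at e3
    rw [e4]
    have e5 : s ≤ Y := by omega
    have e6 : Y * 1 ≤ Y * Y := Nat.mul_le_mul_left _ (by omega)
    have e7 : (X + Y) ^ 2 = X ^ 2 + 2 * (X * Y) + Y * Y := by ring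
    omega
  omega

/-- the general comparison -/
private lemma lt_core {d s u l e m w E : ℕ} (S : Su d s u l e m w E) (x y : ℕ)
    (h : x + 2 * (d * l) + 2 * u * d + 1 ≤ 2 * u * s + y) :
    (8 * (S.H : ℝ)) ^ s * (S.T : ℝ) ^ ((cG d u + 3) * s + 3) * (S.R : ℝ) ^ cG d u * (S.p : ℝ) ^ x ≤
      1 / (S.R : ℝ) * S.main * (S.p : ℝ) ^ y := by
  have hR : (1 : ℝ) ≤ S.R := by exact_mod_cast S.R_pos
  have hT : (1 : ℝ) ≤ S.T := by exact_mod_cast S.T_pos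
  have hp : (1 : ℝ) ≤ S.p := by exact_mod_cast S.p_pos
  have hB : (1 : ℝ) ≤ S.B := by exact_mod_cast S.B_pos
  have hH0 : (0 : ℝ) < S.H := by exact_mod_cast S.n_facts.2.2.2.2.2.2
  have hR0 : (0 : ℝ) < S.R := by linarith
  have hT0 : (0 : ℝ) < S.T := by linarith
  have hp0 : (0 : ℝ) < S.p := by linarith
  have hB0 : (0 : ℝ) < S.B := by linarith
  have hXX : (S.T : ℝ) * (S.p : ℝ) ^ u ≤ 2 * S.XX := by
    unfold Su.XX
    have h1 : (S.T : ℝ) ≤ 2 * (S.I.card : ℝ) := by exact_mod_cast S.I_card_ge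
    calc (S.T : ℝ) * (S.p : ℝ) ^ u ≤ (2 * (S.I.card : ℝ)) * (S.p : ℝ) ^ u :=
          mul_le_mul_of_nonneg_right h1 (by positivity)
      _ = 2 * ((S.I.card : ℝ) * (S.p : ℝ) ^ u) := by ring
  have hX2 : (S.T : ℝ) ^ 2 * (S.p : ℝ) ^ (2 * u) ≤ 4 * S.XX ^ 2 := by
    calc (S.T : ℝ) ^ 2 * (S.p : ℝ) ^ (2 * u) = ((S.T : ℝ) * (S.p : ℝ) ^ u) ^ 2 := by
          rw [mul_pow, ← pow_mul, mul_comm u 2]
      _ ≤ (2 * S.XX) ^ 2 := pow_le_pow_left₀ (by positivity) hXX 2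
      _ = 4 * S.XX ^ 2 := by ring
  -- the numerator of `main`
  have hnum : (8 * (S.H : ℝ)) ^ s * ((S.T : ℝ) ^ (2 * s) * (S.p : ℝ) ^ (2 * u * s)) ≤
      4 ^ s * (8 * (S.H : ℝ) * S.XX ^ 2) ^ s := by
    calc (8 * (S.H : ℝ)) ^ s * ((S.T : ℝ) ^ (2 * s) * (S.p : ℝ) ^ (2 * u * s))
        = (8 * (S.H : ℝ) * ((S.T : ℝ) ^ 2 * (S.p : ℝ) ^ (2 * u))) ^ s := by
          rw [mul_pow (8 * (S.H : ℝ)), mul_pow ((S.T : ℝ) ^ 2), ← pow_mul, ← pow_mul]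
      _ ≤ (8 * (S.H : ℝ) * (4 * S.XX ^ 2)) ^ s := by
          apply pow_le_pow_left₀ (by positivity)
          exact mul_le_mul_of_nonneg_left hX2 (by positivity)
      _ = 4 ^ s * (8 * (S.H : ℝ) * S.XX ^ 2) ^ s := by
          rw [← mul_pow]
          congr 1
          ring
  -- the denominator of `main`
  have hBBe : (S.BB : ℝ) = 4 ^ l * ((S.R : ℝ) * S.p) ^ l * S.T := by
    have h1 := S.BB_eq
    rw [S.W_eq] at h1
    rw [h1]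
    push_cast
    ring
  have hBe : (S.B : ℝ) = 4 ^ u * ((S.R : ℝ) * S.p) ^ u * S.T := by
    have h1 := S.B_eq
    rw [S.W_eq] at h1
    rw [h1]
    push_cast
    ring
  have hHle : (S.H : ℝ) ≤ S.R * (S.BB : ℝ) ^ d := by exact_mod_cast S.H_le
  have hden : ((S.H : ℝ) * (S.B : ℝ) ^ d) ^ 2 ≤
      4 ^ (2 * (d * l + d * u)) * (S.R : ℝ) ^ (2 + 4 * (d * u)) *
        (S.p : ℝ) ^ (2 * (d * l) + 2 * u * d) * (S.T : ℝ) ^ (4 * d) := by
    calc ((S.H : ℝ) * (S.B : ℝ) ^ d) ^ 2 ≤ ((S.R * (S.BB : ℝ) ^ d) * (S.B : ℝ) ^ d) ^ 2 := by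
          apply pow_le_pow_left₀ (by positivity)
          exact mul_le_mul_of_nonneg_right hHle (by positivity)
      _ = 4 ^ (2 * (d * l + d * u)) * (S.R : ℝ) ^ (2 + 2 * (d * l + d * u)) *
        (S.p : ℝ) ^ (2 * (d * l) + 2 * u * d) * (S.T : ℝ) ^ (4 * d) := by
          rw [hBBe, hBe]
          ring
      _ ≤ _ := by
          have h1 : (S.R : ℝ) ^ (2 + 2 * (d * l + d * u)) ≤ (S.R : ℝ) ^ (2 + 4 * (d * u)) := by
            apply pow_le_pow_right₀ hR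
            have e1 : d * l ≤ d * u := Nat.mul_le_mul_left _ S.hlu
            omega
          gcongr
  -- the small factors
  have hsm : ((S.T : ℝ) ^ ((cG d u + 3) * s + 3 + 4 * d) * (S.R : ℝ) ^ (cG d u + 4 + 4 * (d * u))) ≤
      S.p := by
    have h1 := S.small_le_p _ _ (lt_exp d s u m w (by have := S.hm; omega) S.hmw)
    exact_mod_cast h1
  have hcst : (4 : ℝ) ^ (s + 2 * (d * l + d * u)) ≤ S.R := by
    have h1 := lt_const S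
    exact_mod_cast h1
  have hden0 : (0 : ℝ) < ((S.H : ℝ) * (S.B : ℝ) ^ d) ^ 2 := by positivity
  unfold Su.main
  rw [one_div, ← mul_div_assoc, div_mul_eq_mul_div, le_div_iff₀ hden0, ← sub_nonneg]
  have hfin : (8 * (S.H : ℝ)) ^ s * (S.T : ℝ) ^ ((cG d u + 3) * s + 3) * (S.R : ℝ) ^ cG d u *
      (S.p : ℝ) ^ x * ((S.H : ℝ) * (S.B : ℝ) ^ d) ^ 2 * (4 ^ s * S.R) ≤
      ((8 * (S.H : ℝ) * S.XX ^ 2) ^ s * (S.p : ℝ) ^ y) * 4 ^ s := by
    calc (8 * (S.H : ℝ)) ^ s * (S.T : ℝ) ^ ((cG d u + 3) * s + 3) * (S.R : ℝ) ^ cG d u *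
      (S.p : ℝ) ^ x * ((S.H : ℝ) * (S.B : ℝ) ^ d) ^ 2 * (4 ^ s * S.R)
        ≤ (8 * (S.H : ℝ)) ^ s * (S.T : ℝ) ^ ((cG d u + 3) * s + 3) * (S.R : ℝ) ^ cG d u *
      (S.p : ℝ) ^ x * (4 ^ (2 * (d * l + d * u)) * (S.R : ℝ) ^ (2 + 4 * (d * u)) *
        (S.p : ℝ) ^ (2 * (d * l) + 2 * u * d) * (S.T : ℝ) ^ (4 * d)) * (4 ^ s * S.R) := by
          gcongr
      _ = (8 * (S.H : ℝ)) ^ s * (4 ^ (s + 2 * (d * l + d * u)) *
          ((S.T : ℝ) ^ ((cG d u + 3) * s + 3 + 4 * d) * (S.R : ℝ) ^ (cG d u + 3 + 4 * (d * u)))) *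
            (S.p : ℝ) ^ (x + 2 * (d * l) + 2 * u * d) := by
          ring
      _ ≤ (8 * (S.H : ℝ)) ^ s * (S.R *
          ((S.T : ℝ) ^ ((cG d u + 3) * s + 3 + 4 * d) * (S.R : ℝ) ^ (cG d u + 3 + 4 * (d * u)))) *
            (S.p : ℝ) ^ (x + 2 * (d * l) + 2 * u * d) := by
          gcongr
      _ = (8 * (S.H : ℝ)) ^ s * 
          ((S.T : ℝ) ^ ((cG d u + 3) * s + 3 + 4 * d) * (S.R : ℝ) ^ (cG d u + 4 + 4 * (d * u))) *
            (S.p : ℝ) ^ (x + 2 * (d * l) + 2 * u * d) := by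
          ring
      _ ≤ (8 * (S.H : ℝ)) ^ s * S.p * (S.p : ℝ) ^ (x + 2 * (d * l) + 2 * u * d) := by
          gcongr
      _ = (8 * (S.H : ℝ)) ^ s * (S.p : ℝ) ^ (x + 2 * (d * l) + 2 * u * d + 1) := by
          ring
      _ ≤ (8 * (S.H : ℝ)) ^ s * ((S.T : ℝ) ^ (2 * s) * (S.p : ℝ) ^ (2 * u * s + y)) := by
          apply mul_le_mul_of_nonneg_left _ (by positivity)
          calc (S.p : ℝ) ^ (x + 2 * (d * l) + 2 * u * d + 1) ≤ (S.p : ℝ) ^ (2 * u * s + y) :=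
                pow_le_pow_right₀ hp h
            _ = 1 * (S.p : ℝ) ^ (2 * u * s + y) := by ring
            _ ≤ (S.T : ℝ) ^ (2 * s) * (S.p : ℝ) ^ (2 * u * s + y) :=
                mul_le_mul_of_nonneg_right (one_le_pow₀ hT) (by positivity)
      _ = ((8 * (S.H : ℝ)) ^ s * ((S.T : ℝ) ^ (2 * s) * (S.p : ℝ) ^ (2 * u * s))) *
            (S.p : ℝ) ^ y := by
          ring
      _ ≤ (4 ^ s * (8 * (S.H : ℝ) * S.XX ^ 2) ^ s) * (S.p : ℝ) ^ y :=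
          mul_le_mul_of_nonneg_right hnum (by positivity)
      _ = ((8 * (S.H : ℝ) * S.XX ^ 2) ^ s * (S.p : ℝ) ^ y) * 4 ^ s := by ring
  have h4 : (0 : ℝ) < 4 ^ s := by positivity
  have hfin2 : (8 * (S.H : ℝ)) ^ s * (S.T : ℝ) ^ ((cG d u + 3) * s + 3) * (S.R : ℝ) ^ cG d u *
      (S.p : ℝ) ^ x * ((S.H : ℝ) * (S.B : ℝ) ^ d) ^ 2 * S.R ≤
      (8 * (S.H : ℝ) * S.XX ^ 2) ^ s * (S.p : ℝ) ^ y := by
    refine le_of_mul_le_mul_right ?_ h4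
    refine le_trans (le_of_eq ?_) hfin
    ring
  have hfin3 : (8 * (S.H : ℝ)) ^ s * (S.T : ℝ) ^ ((cG d u + 3) * s + 3) * (S.R : ℝ) ^ cG d u *
      (S.p : ℝ) ^ x * ((S.H : ℝ) * (S.B : ℝ) ^ d) ^ 2 ≤
      (S.R : ℝ)⁻¹ * ((8 * (S.H : ℝ) * S.XX ^ 2) ^ s * (S.p : ℝ) ^ y) := by
    rw [inv_mul_eq_div, le_div_iff₀ hR0]
    exact hfin2
  rw [sub_nonneg]
  refine le_trans hfin3 (le_of_eq ?_)
  ring

/-- the term of the level `j` -/
theorem lev_term5 {d s u l e m w E : ℕ} (S : Su d s u l e m w E) (j b N : ℕ)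
    (h : (j + 1) * s + N + 2 * (d * l) + 2 * u * d + 1 ≤ 2 * u * s + d * (j + b * l)) :
    (8 * (S.H : ℝ) * (S.T : ℝ) ^ (cG d u + 3) * (S.p : ℝ) ^ (j + 1)) ^ s *
      ((S.T : ℝ) ^ 3 * (S.R : ℝ) ^ cG d u * (S.p : ℝ) ^ N) ≤
      1 / (S.R : ℝ) * S.main * (S.W : ℝ) ^ (d * (j + b * l)) := by
  have hp : (1 : ℝ) ≤ S.p := by exact_mod_cast S.p_pos
  have hR : (1 : ℝ) ≤ S.R := by exact_mod_cast S.R_pos
  have hpW : (S.p : ℝ) ≤ S.W := by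
    have h1 := S.W_eq
    rw [h1]
    push_cast
    nlinarith
  have h2 := lt_core S ((j + 1) * s + N) (d * (j + b * l)) h
  have hm0 := S.main_nonneg
  calc (8 * (S.H : ℝ) * (S.T : ℝ) ^ (cG d u + 3) * (S.p : ℝ) ^ (j + 1)) ^ s *
      ((S.T : ℝ) ^ 3 * (S.R : ℝ) ^ cG d u * (S.p : ℝ) ^ N)
      = (8 * (S.H : ℝ)) ^ s * (S.T : ℝ) ^ ((cG d u + 3) * s + 3) * (S.R : ℝ) ^ cG d u *
        (S.p : ℝ) ^ ((j + 1) * s + N) := by
        rw [mul_pow, mul_pow, ← pow_mul, ← pow_mul, pow_add (S.T : ℝ), pow_add (S.p : ℝ)]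
        ring
    _ ≤ 1 / (S.R : ℝ) * S.main * (S.p : ℝ) ^ (d * (j + b * l)) := h2
    _ ≤ _ := by
        have h3 : (S.p : ℝ) ^ (d * (j + b * l)) ≤ (S.W : ℝ) ^ (d * (j + b * l)) :=
          pow_le_pow_left₀ (by positivity) hpW _
        gcongr

/-- the term without a level -/
theorem lev_zero {d s u l e m w E : ℕ} (S : Su d s u l e m w E)
    (h : 2 * (d * l) + 2 * u * d + 1 ≤ 2 * u * s) :
    (8 * (S.H : ℝ) * (S.T : ℝ) ^ (cG d u + 3)) ^ s ≤ 1 / (S.R : ℝ) * S.main := by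
  have hT : (1 : ℝ) ≤ S.T := by exact_mod_cast S.T_pos
  have hR : (1 : ℝ) ≤ S.R := by exact_mod_cast S.R_pos
  have h2 := lt_core S 0 0 (by omega)
  rw [pow_zero, mul_one, mul_one] at h2
  refine le_trans ?_ h2
  have e1 : (8 * (S.H : ℝ) * (S.T : ℝ) ^ (cG d u + 3)) ^ s =
      (8 * (S.H : ℝ)) ^ s * (S.T : ℝ) ^ ((cG d u + 3) * s) := by
    rw [mul_pow, ← pow_mul]
  rw [e1]
  have e2 : (S.T : ℝ) ^ ((cG d u + 3) * s) ≤ (S.T : ℝ) ^ ((cG d u + 3) * s + 3) :=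
    pow_le_pow_right₀ hT (by omega)
  calc (8 * (S.H : ℝ)) ^ s * (S.T : ℝ) ^ ((cG d u + 3) * s)
      ≤ (8 * (S.H : ℝ)) ^ s * (S.T : ℝ) ^ ((cG d u + 3) * s + 3) := by gcongr
    _ = (8 * (S.H : ℝ)) ^ s * (S.T : ℝ) ^ ((cG d u + 3) * s + 3) * 1 := by ring
    _ ≤ _ := by
        apply mul_le_mul_of_nonneg_left (one_le_pow₀ hR) (by positivity)

end Pool.Agent.Lib.MP_e426f4_ag.DK
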