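import Pool.Agent.Lib.MP_e426f4_ag.DK.Cls

/-!
# Level: the measure of the set of the pairs `(b, b')` with many contributing pairs

`X × X` is covered by the `|I|² 2^u ≤ T² 2^u` images of the classes `Cl A` under `pr t t'`.  If `Nz` has more than
`T^(cG+3) p^j` elements, some class has more than `θ := T^cG p^j ≥ R^cG p^j` elements in `Nz` (`T^(cG+3) ≥ T² 2^u T^cG`).
`c1` is the sum over the classes with `j < #A` (`cls` with `b = 1`, `2 u - #A ≤ 2 u - j - 1`; there is none if `u ≤ j`),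
`c2` the sum over the classes with `#A ≤ j` (`cls` with `b = 2`, `2 u - #A ≤ 2 u`); `θ^ρ ≥ p^(j ρ)` is divided out.
-/

set_option autoImplicit false

namespace Pool.Agent.Lib.MP_e426f4_ag.DK

open Finset
open Pool.Agent.Lib.MP_e426f4_ag.DG

/-- the elements of a class which contribute -/
private noncomputable def lvF {d s u l e m w E : ℕ} (S : Su d s u l e m w E)
    (i : (ℕ × ℕ) × Finset (Fin u)) (o : ZMod S.P × ZMod S.P) :
    Finset ((Fin u → ℕ) × (Fin u → ℕ)) :=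
  (S.Cl i.2).filter fun z => wh S.P S.n (o.1 * ((pr i.1.1 i.1.2 z).1 : ZMod S.P) ^ d -
        o.2 * ((pr i.1.1 i.1.2 z).2 : ZMod S.P) ^ d) ≠ 0

/-- the index set -/
private noncomputable def lvJ {d s u l e m w E : ℕ} (S : Su d s u l e m w E) :
    Finset ((ℕ × ℕ) × Finset (Fin u)) :=
  (S.I ×ˢ S.I) ×ˢ (univ : Finset (Finset (Fin u)))

private theorem lv_two_u {d s u l e m w E : ℕ} (S : Su d s u l e m w E) : 2 ^ u ≤ S.T := by
  have h0 := S.nums
  have h1 := (Su.sum_le_cN d s u m w).1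
  have h2 : 2 ^ 1 ≤ S.R := S.const_le 2 1 (by omega) (by omega)
  calc 2 ^ u ≤ S.R ^ u := Nat.pow_le_pow_left (by simpa using h2) u
    _ ≤ S.T ^ 1 := S.R_le_T u 1 (by omega)
    _ = S.T := pow_one _

private theorem lv_J {d s u l e m w E : ℕ} (S : Su d s u l e m w E) :
    (lvJ S).card ≤ S.T ^ 3 := by
  unfold lvJ
  rw [card_product, card_product, card_univ, Fintype.card_finset, Fintype.card_fin]
  calc S.I.card * S.I.card * 2 ^ u ≤ S.T * S.T * S.T :=
        Nat.mul_le_mul (Nat.mul_le_mul S.I_card_le S.I_card_le) (lv_two_u S)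
    _ = S.T ^ 3 := by ring

private theorem lv_cover {d s u l e m w E : ℕ} (S : Su d s u l e m w E)
    (o : ZMod S.P × ZMod S.P) :
    (S.Nz o.1 o.2).card ≤ ∑ i ∈ lvJ S, (lvF S i o).card := by
  classical
  have h1 : S.Nz o.1 o.2 ⊆ (lvJ S).biUnion fun i => (lvF S i o).image (pr i.1.1 i.1.2) := by
    intro x hx
    unfold Su.Nz at hx
    rw [mem_filter, mem_product, S.X_mem, S.X_mem] at hx
    obtain ⟨⟨⟨t, ht, z, hz, hx1⟩, ⟨t', ht', z', hz', hx2⟩⟩, hx3⟩ := hx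
    rw [mem_biUnion]
    refine ⟨((t, t'), univ.filter fun c => z c = z' c), ?_, ?_⟩
    · unfold lvJ
      rw [mem_product, mem_product]
      exact ⟨⟨ht, ht'⟩, mem_univ _⟩
    · rw [mem_image]
      refine ⟨(z, z'), ?_, ?_⟩
      · unfold lvF Su.Cl
        rw [mem_filter, mem_filter, mem_product]
        refine ⟨⟨⟨hz, hz'⟩, ?_⟩, ?_⟩
        · intro c
          rw [mem_filter]
          exact ⟨fun h => ⟨mem_univ _, h⟩, fun h => h.2⟩
        · unfold pr
          dsimp only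
          rw [← hx1, ← hx2]
          exact hx3
      · unfold pr
        dsimp only
        rw [← hx1, ← hx2]
  calc (S.Nz o.1 o.2).card
      ≤ ((lvJ S).biUnion fun i => (lvF S i o).image (pr i.1.1 i.1.2)).card := card_le_card h1
    _ ≤ ∑ i ∈ lvJ S, ((lvF S i o).image (pr i.1.1 i.1.2)).card := card_biUnion_le
    _ ≤ ∑ i ∈ lvJ S, (lvF S i o).card := sum_le_sum fun i _ => card_image_le

open Classical in
theorem level {d s u l e m w E : ℕ} (S : Su d s u l e m w E) (j : ℕ) (hj : j ≤ 2 * u) :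
    ∃ c1 c2 : ℝ, 0 ≤ c1 ∧ 0 ≤ c2 ∧ (u ≤ j → c1 = 0) ∧
    (((univ : Finset (ZMod S.P × ZMod S.P)).filter fun o =>
      (S.T : ℝ) ^ (cG d u + 3) * (S.p : ℝ) ^ j < ((S.Nz o.1 o.2).card : ℝ)).card : ℝ) ≤ c1 + c2 ∧
    c1 * (S.W : ℝ) ^ (d * (j + 1 * l)) ≤ (S.P : ℝ) ^ 2 * ((S.T : ℝ) ^ 3 * (S.R : ℝ) ^ cG d u *
        (S.p : ℝ) ^ ((2 * u - 2 * j - 1) * (cd j l + 1))) ∧
    c2 * (S.W : ℝ) ^ (d * (j + 2 * l)) ≤ (S.P : ℝ) ^ 2 * ((S.T : ℝ) ^ 3 * (S.R : ℝ) ^ cG d u *
        (S.p : ℝ) ^ ((2 * u - j) * (cd j l + 2))) := by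
  have hT1 : (1 : ℝ) ≤ S.T := by exact_mod_cast S.T_pos
  have hp1 : (1 : ℝ) ≤ S.p := by exact_mod_cast S.p_pos
  have hRT : (S.R : ℝ) ≤ S.T := by
    have h0 := S.nums
    have := S.R_le_T 1 1 (by omega)
    rw [pow_one, pow_one] at this
    exact_mod_cast this
  set theta : ℝ := (S.T : ℝ) ^ cG d u * (S.p : ℝ) ^ j with hth
  have hth0 : 0 < theta := by positivity
  have htheta : (S.R : ℝ) ^ cG d u * (S.p : ℝ) ^ j ≤ theta :=
    mul_le_mul_of_nonneg_right (pow_le_pow_left₀ (Nat.cast_nonneg _) hRT _) (by positivity)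
  have hpth : (S.p : ℝ) ^ j ≤ theta := by
    rw [hth]
    exact le_mul_of_one_le_left (by positivity) (one_le_pow₀ hT1)
  have hsub : ((univ : Finset (ZMod S.P × ZMod S.P)).filter fun o =>
      (S.T : ℝ) ^ (cG d u + 3) * (S.p : ℝ) ^ j < ((S.Nz o.1 o.2).card : ℝ)) ⊆
      (lvJ S).biUnion fun i => (univ : Finset (ZMod S.P × ZMod S.P)).filter fun o =>
        theta ≤ ((lvF S i o).card : ℝ) := by
    intro o ho
    rw [mem_filter] at ho
    rw [mem_biUnion]
    by_contra hcon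
    push Not at hcon
    have h1 : ∀ i ∈ lvJ S, ((lvF S i o).card : ℝ) ≤ theta := by
      intro i hi
      have h2 := hcon i hi
      rw [mem_filter] at h2
      push Not at h2
      exact (h2 (mem_univ _)).le
    have h3 : ((S.Nz o.1 o.2).card : ℝ) ≤ ∑ i ∈ lvJ S, ((lvF S i o).card : ℝ) := by
      exact_mod_cast lv_cover S o
    have h4 : ∑ i ∈ lvJ S, ((lvF S i o).card : ℝ) ≤ (lvJ S).card * theta := by
      refine (sum_le_sum h1).trans ?_
      rw [sum_const, nsmul_eq_mul]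
    have h5 : ((lvJ S).card : ℝ) ≤ (S.T : ℝ) ^ 3 := by exact_mod_cast lv_J S
    have h6 : ((lvJ S).card : ℝ) * theta ≤ (S.T : ℝ) ^ 3 * theta :=
      mul_le_mul_of_nonneg_right h5 hth0.le
    have h7 : (S.T : ℝ) ^ 3 * theta = (S.T : ℝ) ^ (cG d u + 3) * (S.p : ℝ) ^ j := by
      rw [hth]
      ring
    linarith [ho.2]
  have hcard : ((((univ : Finset (ZMod S.P × ZMod S.P)).filter fun o =>
      (S.T : ℝ) ^ (cG d u + 3) * (S.p : ℝ) ^ j < ((S.Nz o.1 o.2).card : ℝ)).card : ℕ) : ℝ) ≤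
      ∑ i ∈ lvJ S, (((univ : Finset (ZMod S.P × ZMod S.P)).filter fun o =>
        theta ≤ ((lvF S i o).card : ℝ)).card : ℝ) := by
    have h8 := (card_le_card hsub).trans card_biUnion_le
    rw [← Nat.cast_sum]
    exact Nat.cast_le.2 h8
  obtain ⟨mm, hmm⟩ : ∃ mm : (ℕ × ℕ) × Finset (Fin u) → ℝ, mm = fun i =>
      (((univ : Finset (ZMod S.P × ZMod S.P)).filter fun o =>
        theta ≤ ((lvF S i o).card : ℝ)).card : ℝ) := ⟨_, rfl⟩
  have hmm0 : ∀ i, 0 ≤ mm i := by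
    intro i
    rw [hmm]
    exact Nat.cast_nonneg _
  have hpart : ∀ b N : ℕ, ∀ J' : Finset ((ℕ × ℕ) × Finset (Fin u)), J' ⊆ lvJ S →
      (∀ i ∈ J', (b = 1 ∨ b = 2 ∧ i.2.card ≤ j) ∧
        (2 * u - i.2.card) * (cd j l + b) ≤ N + j * (cd j l + b)) →
      (∑ i ∈ J', mm i) * (S.W : ℝ) ^ (d * (j + b * l)) ≤
        (S.P : ℝ) ^ 2 * ((S.T : ℝ) ^ 3 * (S.R : ℝ) ^ cG d u * (S.p : ℝ) ^ N) := by
    intro b N J' hJ' hJ
    set Q : ℝ := (S.P : ℝ) ^ 2 * ((S.R : ℝ) ^ cG d u * (S.p : ℝ) ^ N) with hQ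
    have hQ0 : 0 ≤ Q := mul_nonneg (pow_nonneg (Nat.cast_nonneg _) _)
      (mul_nonneg (pow_nonneg (Nat.cast_nonneg _) _) (pow_nonneg (Nat.cast_nonneg _) _))
    have hone : ∀ i ∈ J', mm i * (S.W : ℝ) ^ (d * (j + b * l)) ≤ Q := by
      intro i hi
      obtain ⟨h1, h2⟩ := hJ i hi
      have h3 := hJ' hi
      unfold lvJ at h3
      rw [mem_product, mem_product] at h3
      have h4 : mm i * (theta ^ (cd j l + b) * (S.W : ℝ) ^ (d * (j + b * l))) ≤
          (S.P : ℝ) ^ 2 * ((S.R : ℝ) ^ cG d u * (S.p : ℝ) ^ ((2 * u - i.2.card) * (cd j l + b))) := by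
        rw [hmm]
        exact cls S i.1.1 i.1.2 h3.1.1 h3.1.2 i.2 j b hj h1 theta htheta
      have hpj : (0 : ℝ) < (S.p : ℝ) ^ (j * (cd j l + b)) := by positivity
      refine le_of_mul_le_mul_right ?_ hpj
      calc mm i * (S.W : ℝ) ^ (d * (j + b * l)) * (S.p : ℝ) ^ (j * (cd j l + b))
          = mm i * (((S.p : ℝ) ^ j) ^ (cd j l + b) * (S.W : ℝ) ^ (d * (j + b * l))) := by
            rw [pow_mul]
            ring
        _ ≤ mm i * (theta ^ (cd j l + b) * (S.W : ℝ) ^ (d * (j + b * l))) := by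
            refine mul_le_mul_of_nonneg_left ?_ (hmm0 i)
            refine mul_le_mul_of_nonneg_right ?_ (by positivity)
            exact pow_le_pow_left₀ (by positivity) hpth _
        _ ≤ (S.P : ℝ) ^ 2 * ((S.R : ℝ) ^ cG d u *
              (S.p : ℝ) ^ ((2 * u - i.2.card) * (cd j l + b))) := h4
        _ ≤ (S.P : ℝ) ^ 2 * ((S.R : ℝ) ^ cG d u * (S.p : ℝ) ^ (N + j * (cd j l + b))) := by
            refine mul_le_mul_of_nonneg_left ?_ (pow_nonneg (Nat.cast_nonneg _) _)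
            refine mul_le_mul_of_nonneg_left ?_ (pow_nonneg (Nat.cast_nonneg _) _)
            exact pow_le_pow_right₀ hp1 h2
        _ = Q * (S.p : ℝ) ^ (j * (cd j l + b)) := by
            rw [hQ, pow_add]
            ring
    calc (∑ i ∈ J', mm i) * (S.W : ℝ) ^ (d * (j + b * l))
        = ∑ i ∈ J', mm i * (S.W : ℝ) ^ (d * (j + b * l)) := by rw [sum_mul]
      _ ≤ ∑ _i ∈ J', Q := sum_le_sum hone
      _ = J'.card * Q := by rw [sum_const, nsmul_eq_mul]
      _ ≤ (S.T : ℝ) ^ 3 * Q := by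
          have h5 : (J'.card : ℝ) ≤ (S.T : ℝ) ^ 3 := by
            exact_mod_cast (card_le_card hJ').trans (lv_J S)
          exact mul_le_mul_of_nonneg_right h5 hQ0
      _ = _ := by
          rw [hQ]
          ring
  have hAu : ∀ A : Finset (Fin u), A.card ≤ u := by
    intro A
    have h1 := card_le_univ A
    rwa [Fintype.card_fin] at h1
  refine ⟨∑ i ∈ (lvJ S).filter fun i => j < i.2.card, mm i,
    ∑ i ∈ (lvJ S).filter fun i => ¬ j < i.2.card, mm i,
    sum_nonneg fun i _ => hmm0 i, sum_nonneg fun i _ => hmm0 i, ?_, ?_, ?_, ?_⟩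
  · intro huj
    rw [filter_false_of_mem, sum_empty]
    intro i _
    have h1 := hAu i.2
    omega
  · rw [sum_filter_add_sum_filter_not, hmm]
    exact hcard
  · refine hpart 1 _ _ (filter_subset _ _) ?_
    intro i hi
    rw [mem_filter] at hi
    refine ⟨Or.inl rfl, ?_⟩
    have h1 := hAu i.2
    have h2 := hi.2
    rw [← add_mul]
    exact Nat.mul_le_mul_right _ (by omega)
  · refine hpart 2 _ _ (filter_subset _ _) ?_
    intro i hi
    rw [mem_filter] at hi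
    refine ⟨Or.inr ⟨rfl, by have h2 := hi.2; omega⟩, ?_⟩
    rw [← add_mul]
    exact Nat.mul_le_mul_right _ (by omega)

end Pool.Agent.Lib.MP_e426f4_ag.DK
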