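import Pool.Agent.Lib.MP_e426f4_ag.DK.SupEnd
import Pool.Agent.Lib.MP_e426f4_ag.DK.Level
import Pool.Agent.Lib.MP_e426f4_ag.DK.LevTerm
import Pool.Agent.Lib.MP_e426f4_ag.DG.Psi

/-!
# CombMin: the frequencies outside MAJ

`0 ≤ psi ≤ 2`, so `rhsG ≤ 4 P⁻² ∑_{b, b' ∉ MAJ} F(b,b')^s`.  `F(b,b') ≤ 8 H T^(u+3) p^(2u-e)` by `sup_end` and `FF_cs`,
`F ≤ 8 H |Nz|` (`FF_le_Nz`).  With `C' = T^(cG+3) ≥ T^(u+3)`:
`F^s ≤ (8 H C')^s + ∑_{j < 2u-e} (8 H C' p^(j+1))^s 1[|Nz| > C' p^j]`; `level` and `lev_term5` with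
(`b = 2`, `N = (2 u - j) (cd j l + 2)`, `CB`) for `c2`, all `j < 2u - e`, and (`b = 1`, `N = (2 u - 2 j - 1) (cd j l + 1)`, `CA`) for `c1`,
`j < u`;
`CA` with `j = u - 1` gives the hypothesis of `lev_zero`; `1 + 2 (2 u)` terms.
-/

set_option autoImplicit false

namespace Pool.Agent.Lib.MP_e426f4_ag.DK

open Finset
open Pool.Agent.Lib.MP_e426f4_ag.DG
open Pool.Agent.Lib.MP_e426f4_ag.DH (SmallZ rhsG)

open Classical in
/-- the levels of `F` -/
private theorem CombMin_pt {d s u l e m w E : ℕ} (S : Su d s u l e m w E) (b b' : ZMod S.P)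
    (hU : FF S.P S.n d S.X b b' ≤ 8 * (S.H : ℝ) * (S.T : ℝ) ^ (u + 3) * (S.p : ℝ) ^ (2 * u - e)) :
    FF S.P S.n d S.X b b' ^ s ≤ (8 * (S.H : ℝ) * (S.T : ℝ) ^ (cG d u + 3)) ^ s +
      ∑ j ∈ range (2 * u - e), (8 * (S.H : ℝ) * (S.T : ℝ) ^ (cG d u + 3) * (S.p : ℝ) ^ (j + 1)) ^ s *
        (if (S.T : ℝ) ^ (cG d u + 3) * (S.p : ℝ) ^ j < ((S.Nz b b').card : ℝ) then 1 else 0) := by
  obtain ⟨n1, n2, n3, n4, n5, n6, n7, n8, n9⟩ := S.nums
  have hF0 : 0 ≤ FF S.P S.n d S.X b b' := FZ_nonneg _ _ _ _ _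
  have hFN := S.FF_le_Nz b b'
  have hT : (1 : ℝ) ≤ S.T := by exact_mod_cast S.T_pos
  have hp : (1 : ℝ) ≤ S.p := by exact_mod_cast S.p_pos
  have hH0 : (0 : ℝ) ≤ S.H := Nat.cast_nonneg _
  set F := FF S.P S.n d S.X b b' with hF
  set N : ℝ := ((S.Nz b b').card : ℝ) with hN
  set C' : ℝ := (S.T : ℝ) ^ (cG d u + 3) with hC'
  have hC0 : 0 < C' := by positivity
  have hterm : ∀ j ∈ range (2 * u - e), 0 ≤ (8 * (S.H : ℝ) * C' * (S.p : ℝ) ^ (j + 1)) ^ s *
      (if C' * (S.p : ℝ) ^ j < N then (1 : ℝ) else 0) := by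
    intro j _
    refine mul_nonneg (by positivity) ?_
    split_ifs <;> norm_num
  by_cases hNC : N ≤ C'
  · have h1 : F ≤ 8 * (S.H : ℝ) * C' := hFN.trans (mul_le_mul_of_nonneg_left hNC (by positivity))
    have h2 := pow_le_pow_left₀ hF0 h1 s
    have h3 := sum_nonneg hterm
    linarith
  · rw [not_le] at hNC
    have hpos : 0 < 2 * u - e := by omega
    set Q := (range (2 * u - e)).filter fun j => C' * (S.p : ℝ) ^ j < N with hQ
    have h0 : (0 : ℕ) ∈ Q := by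
      rw [hQ, mem_filter, mem_range]
      exact ⟨hpos, by rw [pow_zero, mul_one]; exact hNC⟩
    set j0 := Q.max' ⟨0, h0⟩ with hj0
    have hj0Q : j0 ∈ Q := Q.max'_mem _
    obtain ⟨hj1, hj2⟩ := mem_filter.1 hj0Q
    have hj1' := mem_range.1 hj1
    have h1 : F ≤ 8 * (S.H : ℝ) * C' * (S.p : ℝ) ^ (j0 + 1) := by
      by_cases hc : j0 + 1 < 2 * u - e
      · have h2 : N ≤ C' * (S.p : ℝ) ^ (j0 + 1) := by
          by_contra hcon
          rw [not_le] at hcon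
          have h3 : j0 + 1 ∈ Q := mem_filter.2 ⟨mem_range.2 hc, hcon⟩
          have h4 := Q.le_max' _ h3
          omega
        calc F ≤ 8 * (S.H : ℝ) * N := hFN
          _ ≤ 8 * (S.H : ℝ) * (C' * (S.p : ℝ) ^ (j0 + 1)) :=
              mul_le_mul_of_nonneg_left h2 (by positivity)
          _ = _ := by ring
      · have h2 : j0 + 1 = 2 * u - e := by omega
        rw [h2]
        refine hU.trans ?_
        refine mul_le_mul_of_nonneg_right ?_ (by positivity)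
        refine mul_le_mul_of_nonneg_left ?_ (by positivity)
        refine pow_le_pow_right₀ hT ?_
        have : u ≤ cG d u := by
          unfold cG
          nlinarith [Nat.zero_le ((u + d + 3) ^ 2), Nat.le_self_pow (two_ne_zero) (u + d + 3)]
        omega
    have h2 := pow_le_pow_left₀ hF0 h1 s
    have h3 := single_le_sum hterm hj1
    rw [if_pos hj2, mul_one] at h3
    have h4 : 0 ≤ (8 * (S.H : ℝ) * C') ^ s := by positivity
    linarith

open Classical in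
/-- the mean of one level -/
private theorem CombMin_lev {d s u l e m w E : ℕ} (S : Su d s u l e m w E) (j : ℕ)
    (hj : j + 1 ≤ 2 * u)
    (h1 : j < u → (j + 1) * s + (2 * u - 2 * j - 1) * (cd j l + 1) + 2 * (d * l) + 2 * u * d + 1 ≤
      2 * u * s + d * (j + 1 * l))
    (h2 : (j + 1) * s + (2 * u - j) * (cd j l + 2) + 2 * (d * l) + 2 * u * d + 1 ≤
      2 * u * s + d * (j + 2 * l)) :
    (8 * (S.H : ℝ) * (S.T : ℝ) ^ (cG d u + 3) * (S.p : ℝ) ^ (j + 1)) ^ s *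
      (((univ : Finset (ZMod S.P × ZMod S.P)).filter fun o =>
      (S.T : ℝ) ^ (cG d u + 3) * (S.p : ℝ) ^ j < ((S.Nz o.1 o.2).card : ℝ)).card : ℝ) ≤
      (S.P : ℝ) ^ 2 * (2 * (1 / (S.R : ℝ) * S.main)) := by
  have hT : (0 : ℝ) < S.T := by exact_mod_cast S.T_pos
  have hp : (0 : ℝ) < S.p := by exact_mod_cast S.p_pos
  have hW : (0 : ℝ) < S.W := by exact_mod_cast S.W_pos
  have hR0 : (0 : ℝ) < S.R := by exact_mod_cast S.R_pos
  have hmain := S.main_nonneg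
  obtain ⟨c1, c2, hc1, hc2, hz, hcard, g1, g2⟩ := level S j (by omega)
  set K := (8 * (S.H : ℝ) * (S.T : ℝ) ^ (cG d u + 3) * (S.p : ℝ) ^ (j + 1)) ^ s with hK
  have hK0 : 0 ≤ K := by positivity
  have key : ∀ (c M D : ℝ), 0 < D → c * D ≤ (S.P : ℝ) ^ 2 * M →
      K * M ≤ 1 / (S.R : ℝ) * S.main * D → K * c ≤ (S.P : ℝ) ^ 2 * (1 / (S.R : ℝ) * S.main) := by
    intro c M D hD0 k1 k2
    have h3 : K * c * D ≤ (S.P : ℝ) ^ 2 * (1 / (S.R : ℝ) * S.main) * D := by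
      calc K * c * D = K * (c * D) := by ring
        _ ≤ K * ((S.P : ℝ) ^ 2 * M) := mul_le_mul_of_nonneg_left k1 hK0
        _ = (S.P : ℝ) ^ 2 * (K * M) := by ring
        _ ≤ (S.P : ℝ) ^ 2 * (1 / (S.R : ℝ) * S.main * D) :=
            mul_le_mul_of_nonneg_left k2 (by positivity)
        _ = _ := by ring
    exact le_of_mul_le_mul_right h3 hD0
  have hA : K * c1 ≤ (S.P : ℝ) ^ 2 * (1 / (S.R : ℝ) * S.main) := by
    by_cases hju : j < u
    · exact key c1 _ _ (by positivity) g1 (lev_term5 S j 1 _ (h1 hju))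
    · rw [hz (by omega), mul_zero]
      positivity
  have hB : K * c2 ≤ (S.P : ℝ) ^ 2 * (1 / (S.R : ℝ) * S.main) :=
    key c2 _ _ (by positivity) g2 (lev_term5 S j 2 _ h2)
  calc _ ≤ K * (c1 + c2) := mul_le_mul_of_nonneg_left hcard hK0
    _ = K * c1 + K * c2 := by ring
    _ ≤ _ := by linarith

open Classical in
theorem comb_min (d s u l e E : ℕ) (hA : CA d s u l) (hB : CB d s u l e) : ∃ C0 : ℕ, ∀ (m w : ℕ)
    (S : Su d s u l e m w E), C0 ≤ S.R → ∀ (A : Arc S.P (4 * S.B ^ d)) (W J : ℕ),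
    rhsG S.P S.n d (fun _ : Fin s => S.X)
      (fun b => if S.Maj A b then 0 else psi S.P W J b) ≤ (16 * u + 4) / S.R * S.main := by
  obtain ⟨C, hC⟩ := sup_end d s u l e E
  refine ⟨C, fun m w S hR A W J => ?_⟩
  obtain ⟨hn, -, -, -, -, -, -⟩ := S.n_facts
  obtain ⟨n1, n2, n3, n4, n5, n6, n7, n8, n9⟩ := S.nums
  have hT : (0 : ℝ) < S.T := by exact_mod_cast S.T_pos
  have hp : (0 : ℝ) < S.p := by exact_mod_cast S.p_pos
  have hR0 : (0 : ℝ) < S.R := by exact_mod_cast S.R_pos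
  have hH0 : (0 : ℝ) ≤ S.H := Nat.cast_nonneg _
  have hP0 : (0 : ℝ) < S.P := by exact_mod_cast S.prime.pos
  have hmain := S.main_nonneg
  set φ : ZMod S.P → ℝ := fun b => if S.Maj A b then 0 else psi S.P W J b with hφ
  set K0 := (8 * (S.H : ℝ) * (S.T : ℝ) ^ (cG d u + 3)) ^ s with hK0
  set K : ℕ → ℝ := fun j => (8 * (S.H : ℝ) * (S.T : ℝ) ^ (cG d u + 3) * (S.p : ℝ) ^ (j + 1)) ^ s with hK
  set ch : ℕ → ZMod S.P × ZMod S.P → ℝ := fun j o =>
    if (S.T : ℝ) ^ (cG d u + 3) * (S.p : ℝ) ^ j < ((S.Nz o.1 o.2).card : ℝ) then 1 else 0 with hch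
  have hK00 : 0 ≤ K0 := by positivity
  have hKj0 : ∀ j, 0 ≤ K j := fun j => by rw [hK]; positivity
  have hch0 : ∀ j o, 0 ≤ ch j o := by
    intro j o
    rw [hch]
    dsimp only
    split_ifs <;> norm_num
  -- pointwise
  have hpt : ∀ o : ZMod S.P × ZMod S.P, φ o.1 * φ o.2 * ∏ _i : Fin s, FF S.P S.n d S.X o.1 o.2 ≤
      4 * (K0 + ∑ j ∈ range (2 * u - e), K j * ch j o) := by
    rintro ⟨b, b'⟩
    dsimp only
    rw [prod_const, card_univ, Fintype.card_fin]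
    have hG0 : 0 ≤ 4 * (K0 + ∑ j ∈ range (2 * u - e), K j * ch j (b, b')) := by
      have := sum_nonneg (s := range (2 * u - e)) (f := fun j => K j * ch j (b, b'))
        (fun j _ => mul_nonneg (hKj0 j) (hch0 j _))
      positivity
    by_cases hb : S.Maj A b
    · rw [hφ]
      dsimp only
      rw [if_pos hb, zero_mul, zero_mul]
      exact hG0
    by_cases hb' : S.Maj A b'
    · rw [hφ]
      dsimp only
      rw [if_pos hb', mul_zero, zero_mul]
      exact hG0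
    have h1 := hC m w S hR A b hb
    have h2 := hC m w S hR A b' hb'
    set U := 8 * (S.H : ℝ) * (S.T : ℝ) ^ (u + 3) * (S.p : ℝ) ^ (2 * u - e) with hU
    have hU0 : 0 ≤ U := by positivity
    have h3 : FF S.P S.n d S.X b b' ≤ U := by
      have h4 := FF_cs (P := S.P) S.n d hn S.X b b'
      have h5 : FF S.P S.n d S.X b b' ^ 2 ≤ U ^ 2 := by
        refine h4.trans ?_
        rw [sq U]
        exact mul_le_mul h1 h2 (FZ_nonneg _ _ _ _ _) hU0
      exact le_of_sq_le_sq h5 hU0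
    have h6 := CombMin_pt S b b' h3
    rw [hφ]
    dsimp only
    rw [if_neg hb, if_neg hb']
    have h7 : psi S.P W J b * psi S.P W J b' ≤ 4 := by
      calc psi S.P W J b * psi S.P W J b' ≤ 2 * 2 :=
            mul_le_mul (psi_le_two W J b) (psi_le_two W J b') (psi_nonneg W J b') (by norm_num)
        _ = 4 := by norm_num
    have h8 : 0 ≤ FF S.P S.n d S.X b b' ^ s := pow_nonneg (FZ_nonneg _ _ _ _ _) s
    exact mul_le_mul h7 h6 h8 (by norm_num)
  -- the sum over the pairs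
  have hsum : rhsG S.P S.n d (fun _ : Fin s => S.X) φ ≤
      4 * (K0 + ∑ j ∈ range (2 * u - e), 1 / (S.P : ℝ) ^ 2 * (K j * ∑ o, ch j o)) := by
    unfold DH.rhsG
    rw [← Fintype.sum_prod_type (f := fun o : ZMod S.P × ZMod S.P =>
      φ o.1 * φ o.2 * ∏ _i : Fin s, FF S.P S.n d S.X o.1 o.2)]
    have h1 := sum_le_sum fun (o : ZMod S.P × ZMod S.P) (_ : o ∈ univ) => hpt o
    have h2 : ∑ o : ZMod S.P × ZMod S.P, 4 * (K0 + ∑ j ∈ range (2 * u - e), K j * ch j o) =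
        4 * ((S.P : ℝ) ^ 2 * K0 + ∑ j ∈ range (2 * u - e), K j * ∑ o, ch j o) := by
      rw [← mul_sum, sum_add_distrib, sum_const, card_univ, Fintype.card_prod, ZMod.card, sum_comm,
        nsmul_eq_mul]
      push_cast
      rw [← sq]
      congr 2
      exact sum_congr rfl fun j _ => (mul_sum _ _ _).symm
    rw [h2] at h1
    calc 1 / (S.P : ℝ) ^ 2 * ∑ o : ZMod S.P × ZMod S.P,
          φ o.1 * φ o.2 * ∏ _i : Fin s, FF S.P S.n d S.X o.1 o.2
        ≤ 1 / (S.P : ℝ) ^ 2 * (4 * ((S.P : ℝ) ^ 2 * K0 +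
          ∑ j ∈ range (2 * u - e), K j * ∑ o, ch j o)) :=
          mul_le_mul_of_nonneg_left h1 (by positivity)
      _ = 4 * (K0 + ∑ j ∈ range (2 * u - e), 1 / (S.P : ℝ) ^ 2 * (K j * ∑ o, ch j o)) := by
          rw [← mul_sum]
          field_simp
  -- the levels
  have hlev : ∀ j ∈ range (2 * u - e), 1 / (S.P : ℝ) ^ 2 * (K j * ∑ o, ch j o) ≤
      2 * (1 / (S.R : ℝ) * S.main) := by
    intro j hj
    rw [mem_range] at hj
    have h1 : ∑ o, ch j o = (((univ : Finset (ZMod S.P × ZMod S.P)).filter fun o =>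
        (S.T : ℝ) ^ (cG d u + 3) * (S.p : ℝ) ^ j < ((S.Nz o.1 o.2).card : ℝ)).card : ℝ) := by
      rw [card_eq_sum_ones, Nat.cast_sum, sum_filter]
      refine sum_congr rfl fun o _ => ?_
      rw [hch, Nat.cast_one]
    have h2 : K j * ∑ o, ch j o ≤ (S.P : ℝ) ^ 2 * (2 * (1 / (S.R : ℝ) * S.main)) := by
      rw [h1]
      refine CombMin_lev S j (by omega) (fun hju => ?_) ?_
      · have h3 := hA j hju
        nlinarith
      · have h3 := hB j (by omega)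
        nlinarith
    calc 1 / (S.P : ℝ) ^ 2 * (K j * ∑ o, ch j o) ≤
          1 / (S.P : ℝ) ^ 2 * ((S.P : ℝ) ^ 2 * (2 * (1 / (S.R : ℝ) * S.main))) :=
          mul_le_mul_of_nonneg_left h2 (by positivity)
      _ = _ := by field_simp
  have hzero : K0 ≤ 1 / (S.R : ℝ) * S.main := by
    refine lev_zero S ?_
    have h3 := hA (u - 1) (by omega)
    obtain ⟨v, rfl⟩ : ∃ v, u = v + 1 := ⟨u - 1, by omega⟩
    rw [Nat.add_sub_cancel] at h3
    nlinarith [Nat.zero_le ((2 * (v + 1) - 2 * v - 1) * (cd v l + 1))]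
  have hs2 : ∑ j ∈ range (2 * u - e), 1 / (S.P : ℝ) ^ 2 * (K j * ∑ o, ch j o) ≤
      (2 * u : ℝ) * (2 * (1 / (S.R : ℝ) * S.main)) := by
    refine (sum_le_sum hlev).trans ?_
    rw [sum_const, card_range, nsmul_eq_mul]
    refine mul_le_mul_of_nonneg_right ?_ (by positivity)
    have : 2 * u - e ≤ 2 * u := Nat.sub_le _ _
    exact_mod_cast this
  calc _ ≤ 4 * (K0 + ∑ j ∈ range (2 * u - e), 1 / (S.P : ℝ) ^ 2 * (K j * ∑ o, ch j o)) := hsum
    _ ≤ 4 * (1 / (S.R : ℝ) * S.main + (2 * u : ℝ) * (2 * (1 / (S.R : ℝ) * S.main))) := by linarith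
    _ = (16 * u + 4) / S.R * S.main := by ring

end Pool.Agent.Lib.MP_e426f4_ag.DK
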