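import Pool.Agent.Lib.MP_e426f4_ag.DG.FFb

/-!
# CsG: Cauchy-Schwarz over the last factor (adapt `DH/CsM.lean`)

`SS (Y G) (a b) = ∑_{g ∈ G} SS Y (a b g^d)` (the product map is injective on `Y × G`), so
`|SS (Y G) (a b)|² ≤ |G| ∑_g |SS Y (a (b g^d))|²`; multiply by `wt` and sum over `a` (`FF_diag`).
-/

set_option autoImplicit false

namespace Pool.Agent.Lib.MP_e426f4_ag.DK

open Finset
open Pool.Agent.Lib.MP_e426f4_ag.DG

/-- the sum over the products is the sum over the last factor `g` of the sums over `Y` -/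
private theorem CsG_split {P : ℕ} [NeZero P] (d : ℕ) (Y G : Finset ℕ)
    (hinj : Set.InjOn (fun z : ℕ × ℕ => z.1 * z.2) (Y ×ˢ G : Finset (ℕ × ℕ))) (c : ZMod P) :
    SS P d ((Y ×ˢ G).image fun z => z.1 * z.2) c =
      ∑ g ∈ G, SS P d Y (c * (g : ZMod P) ^ d) := by
  unfold SS
  rw [sum_image hinj, sum_product_right]
  refine sum_congr rfl fun g _ => sum_congr rfl fun y _ => ?_
  congr 1
  push_cast
  ring

theorem cs_g {P : ℕ} [NeZero P] (n d : ℕ) (hn : 0 < n) (Y G : Finset ℕ)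
    (hinj : Set.InjOn (fun z : ℕ × ℕ => z.1 * z.2) (Y ×ˢ G : Finset (ℕ × ℕ))) (b : ZMod P) :
    FF P n d ((Y ×ˢ G).image fun z => z.1 * z.2) b b ≤ (G.card : ℝ) * ∑ g ∈ G,
      FF P n d Y (b * (g : ZMod P) ^ d) (b * (g : ZMod P) ^ d) := by
  have hR : ∑ g ∈ G, FF P n d Y (b * (g : ZMod P) ^ d) (b * (g : ZMod P) ^ d) =
      ∑ a : ZMod P, wt P n a *
        ∑ g ∈ G, ‖SS P d Y (a * (b * (g : ZMod P) ^ d))‖ ^ 2 := by
    calc _ = ∑ g ∈ G, ∑ a : ZMod P, wt P n a *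
          ‖SS P d Y (a * (b * (g : ZMod P) ^ d))‖ ^ 2 :=
          sum_congr rfl fun g _ => FF_diag n d hn Y _
      _ = _ := by
          rw [sum_comm]
          exact sum_congr rfl fun a _ => (mul_sum _ _ _).symm
  rw [hR, FF_diag n d hn, mul_sum]
  refine sum_le_sum fun a _ => ?_
  have h1 : ‖SS P d ((Y ×ˢ G).image fun z => z.1 * z.2) (a * b)‖ ≤
      ∑ g ∈ G, ‖SS P d Y (a * (b * (g : ZMod P) ^ d))‖ := by
    rw [CsG_split d Y G hinj (a * b)]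
    refine (norm_sum_le _ _).trans (le_of_eq (sum_congr rfl fun g _ => ?_))
    rw [mul_assoc]
  have h2 : ‖SS P d ((Y ×ˢ G).image fun z => z.1 * z.2) (a * b)‖ ^ 2 ≤ (G.card : ℝ) *
      ∑ g ∈ G, ‖SS P d Y (a * (b * (g : ZMod P) ^ d))‖ ^ 2 :=
    (pow_le_pow_left₀ (norm_nonneg _) h1 2).trans sq_sum_le_card_mul_sum_sq
  calc wt P n a * ‖SS P d ((Y ×ˢ G).image fun z => z.1 * z.2) (a * b)‖ ^ 2
      ≤ wt P n a * ((G.card : ℝ) *
        ∑ g ∈ G, ‖SS P d Y (a * (b * (g : ZMod P) ^ d))‖ ^ 2) :=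
        mul_le_mul_of_nonneg_left h2 (wt_nonneg _ _)
    _ = _ := by ring

end Pool.Agent.Lib.MP_e426f4_ag.DK
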