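import Mathlib
import Pool.Agent.Lib.MP_e426f4_ag.DG.Defs
import Pool.Agent.Lib.MP_e426f4_ag.DH.Defs

/-!
# Random diagonal hypersurfaces in `d + O(√d)` variables: definitions

General notation (`FZ`, `FF`, `wt`, `wh`, `psi`, `NN`, `Mavg`,
`kap`, `ed`, `rho`, `nu`, `box`, `ELS`, `HasZero`, `Mixed`, `Arc`) is that of `DG.Defs`; `SmallZ`, `rhsG` are
those of `DH.Defs`.
-/

set_option autoImplicit false

namespace Pool.Agent.Lib.MP_e426f4_ag.DK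

open Finset
open Pool.Agent.Lib.MP_e426f4_ag.DG
open Pool.Agent.Lib.MP_e426f4_ag.DH (SmallZ rhsG)

/-- `cN ^ cN ≤ R`: all constants are at most `R`. -/
def cN (d s u m w : ℕ) : ℕ := (d + s + u + m + w + 10) ^ 8

/-- `cW * m ≤ w`: bounded powers of `T` and `R` are at most `W`. -/
def cW (d s u : ℕ) : ℕ := (d + s + u + 10) ^ 8

/-- The parameters of the proof: `T = R^m`, `W = R^w`, `p = R^(w-1)`, `B = (4W)^u T`, `BB = (4W)^l T`;
there are `u` blocks `PS 0, ..., PS (u-1)` of `p` primes in `(W, 4W]`. -/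
structure Su (d s u l e m w E : ℕ) where
  R : ℕ
  H : ℕ
  P : ℕ
  PS : ℕ → Finset ℕ
  hd : 4 ≤ d
  hs : d + 4 ≤ s
  hle : (d + 1) * (e + 1) + 1 ≤ d * l
  hlu : l ≤ u
  hul : u ≤ d * l
  hm : 4 * u + 20 ≤ m
  hmw : cW d s u * m ≤ w
  hE : 2 ≤ E
  hR : cN d s u m w ^ cN d s u m w ≤ R
  prime : P.Prime
  hH1 : 16 * (4 ^ l * R ^ (w * l + m)) ^ d ≤ H
  hH2 : H ≤ 16 * 2 ^ ((w * l + m) * d) * (4 ^ l * R ^ (w * l + m)) ^ d
  hP : 8 * (s + 2) * H * (4 ^ u * R ^ (w * u + m)) ^ d < P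
  hPS : ∀ c, c < u → ∀ q ∈ PS c, q.Prime ∧ R ^ w < q ∧ q ≤ 4 * R ^ w
  hPd : ∀ c c', c < u → c' < u → c ≠ c' → Disjoint (PS c) (PS c')
  hPc : ∀ c, c < u → (PS c).card = R ^ (w - 1)
  htau : ∀ k, 1 ≤ k → k ≤ (4 ^ u * R ^ (w * u + m)) ^ (8 * d) → k.divisors.card ≤ R
  hrho : ∀ k, 1 ≤ k → k ≤ (4 ^ u * R ^ (w * u + m)) ^ (8 * d) → rho d k ≤ R
  hlog : 1 + Real.log ((4 ^ u * (R : ℝ) ^ (w * u + m)) ^ 4) ≤ R

namespace Su

variable {d s u l e m w E : ℕ} (S : Su d s u l e m w E)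

def W : ℕ := S.R ^ w

def T : ℕ := S.R ^ m

/-- the number of primes in a block -/
def p : ℕ := S.R ^ (w - 1)

def B : ℕ := 4 ^ u * S.R ^ (w * u + m)

def BB : ℕ := 4 ^ l * S.R ^ (w * l + m)

/-- the length of the dual window -/
def n : ℕ := S.P / (4 * S.H)

def I : Finset ℕ := (Icc 1 (S.R ^ m)).filter fun t => S.R ^ m < E * t

/-- choices of one prime in each of the blocks `0, ..., i - 1` -/
def PF (i : ℕ) : Finset (Fin i → ℕ) := Fintype.piFinset fun c : Fin i => S.PS c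

/-- the numbers `t ∏ p_c` with `t ∈ I` and one prime `p_c` of each of the blocks `0, ..., i - 1` -/
def Xn (i : ℕ) : Finset ℕ := (S.I ×ˢ S.PF i).image fun z => z.1 * ∏ c, z.2 c

/-- the variables -/
def X : Finset ℕ := S.Xn u

/-- the products of one prime of each block -/
def LM : Finset ℕ := (S.PF u).image fun z => ∏ c, z c

/-- the cardinality of `X` -/
noncomputable def XX : ℝ := (S.I.card : ℝ) * (S.p : ℝ) ^ u

instance : NeZero S.P := ⟨S.prime.ne_zero⟩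

/-- `min (1, 1/(H B^d |δ|))` -/
noncomputable def lam (A : Arc S.P (4 * S.B ^ d)) (b : ZMod S.P) : ℝ :=
  1 / max 1 ((S.H : ℝ) * (S.B : ℝ) ^ d * |A.dl b|)

/-- size of the major arc peak at `b` -/
noncomputable def pk (A : Arc S.P (4 * S.B ^ d)) (b : ZMod S.P) : ℝ := S.lam A b * kap d (A.q b)

/-- the main quantity `(8 H X²)^s / (H B^d)²` -/
noncomputable def main : ℝ :=
  (8 * (S.H : ℝ) * S.XX ^ 2) ^ s / ((S.H : ℝ) * (S.B : ℝ) ^ d) ^ 2

/-- major frequencies -/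
def Maj (A : Arc S.P (4 * S.B ^ d)) (b : ZMod S.P) : Prop :=
  A.q b ≤ S.H ∧ 1 < (S.B : ℝ) * S.pk A b

/-- the pairs which contribute to `F(b, b')` -/
noncomputable def Nz (b b' : ZMod S.P) : Finset (ℕ × ℕ) :=
  (S.X ×ˢ S.X).filter fun z =>
    wh S.P S.n (b * (z.1 : ZMod S.P) ^ d - b' * (z.2 : ZMod S.P) ^ d) ≠ 0

/-- pairs of choices which coincide exactly at the blocks of `A` -/
def Cl (A : Finset (Fin u)) : Finset ((Fin u → ℕ) × (Fin u → ℕ)) :=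
  (S.PF u ×ˢ S.PF u).filter fun z => ∀ c, z.1 c = z.2 c ↔ c ∈ A

end Su

/-- the pair of numbers given by `t, t'` and a pair of choices of primes -/
def pr {u : ℕ} (t t' : ℕ) (z : (Fin u → ℕ) × (Fin u → ℕ)) : ℕ × ℕ :=
  (t * ∏ c, z.1 c, t' * ∏ c, z.2 c)

/-- The pairs of a finite set `Z` satisfy no non-trivial pair of relations `∑ a_z z₁^d = ∑ a_z z₂^d = 0`
with coefficients `|a_z| < D z`. -/
def Ind (d : ℕ) (D : ℕ × ℕ → ℕ) (Z : Finset (ℕ × ℕ)) : Prop :=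
  ∀ a : ℕ × ℕ → ℤ, (∀ z ∈ Z, |a z| < D z) → ∑ z ∈ Z, a z * (z.1 : ℤ) ^ d = 0 →
    ∑ z ∈ Z, a z * (z.2 : ℤ) ^ d = 0 → ∀ z ∈ Z, a z = 0

/-- `Ind` for some bounds `1 ≤ D z ≤ H` with product at least `M` -/
def IndM (d H M : ℕ) (Z : Finset (ℕ × ℕ)) : Prop :=
  ∃ D : ℕ × ℕ → ℕ, (∀ z ∈ Z, 1 ≤ D z ∧ D z ≤ H) ∧ M ≤ ∏ z ∈ Z, D z ∧ Ind d D Z

/-- `⌈j / l⌉` -/
def cd (j l : ℕ) : ℕ := (j + l - 1) / l

/-- the exponents of the levels for the classes with many coincidences are negative -/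
def CA (d s u l : ℕ) : Prop := ∀ j, j < u →
  (j + 1) * s + (2 * u - 2 * j - 1) * (cd j l + 1) + d * l + 2 * u * d + 1 ≤ 2 * u * s + j * d

/-- the exponents of the levels for the classes with few coincidences are negative -/
def CB (d s u l e : ℕ) : Prop := ∀ j, j + e + 1 ≤ 2 * u →
  (j + 1) * s + (2 * u - j) * (cd j l + 2) + 2 * u * d + 1 ≤ 2 * u * s + j * d

/-- exponent of the losses in the double counting -/
def cG (d u : ℕ) : ℕ := 100 * (u + d + 3) ^ 2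

/-- the value of `m4` used, `m = 4 m4` -/
def m4v (d u : ℕ) : ℕ := 64 * (d + 1) * (d + 1) * (2 * u + 4)

/-- the value of `w` used -/
def wv (d s u : ℕ) : ℕ := cW d s u * (4 * m4v d u)

end Pool.Agent.Lib.MP_e426f4_ag.DK
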