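import Pool.Agent.Lib.MP_e426f4_ag.DG.Defs
import Pool.Agent.Lib.MP_e426f4_ag.DG.RealA

/-!
# RealCount: real density, with `l_i ∈ (L, F L]`

Copy `DH/RealCount.lean` and replace the ratio `16` of the range `(L, 16L]` by an arbitrary natural number `F ≥ 1`
(constants `32^d` become `(2F)^d`, `mu = c1/(8F)`, and so on).
-/

set_option autoImplicit false

namespace Pool.Agent.Lib.MP_e426f4_ag.DK

open Finset
open Pool.Agent.Lib.MP_e426f4_ag.DG

/-- integers of a residue class in `(a, 2a]` -/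
private theorem realCount_class (a : ℝ) (W tau T : ℕ) (hW : 1 ≤ W) (ha : 2 * (W : ℝ) ≤ a)
    (hT : 2 * a ≤ T) :
    a / (2 * W) ≤ ((((Icc 1 T).filter fun t : ℕ => a < t ∧ (t : ℝ) ≤ 2 * a ∧ t ≡ tau [MOD W]).card
      : ℕ) : ℝ) := by
  have hW0 : (0 : ℝ) < W := by exact_mod_cast hW
  have ha0 : 0 < a := by linarith
  set m0 := ⌊a⌋₊ + 1 with hm0
  have hm1 : a < m0 := by rw [hm0]; push_cast; exact Nat.lt_floor_add_one a
  have hm2 : (m0 : ℝ) ≤ a + 1 := by
    rw [hm0]; push_cast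
    have := Nat.floor_le ha0.le
    linarith
  set e := (tau + (W - 1) * m0) % W with he
  have heW : e < W := Nat.mod_lt _ (by omega)
  have hme : m0 + e ≡ tau [MOD W] := by
    have h1 : e ≡ tau + (W - 1) * m0 [MOD W] := Nat.mod_modEq _ _
    have h2 : m0 + e ≡ m0 + (tau + (W - 1) * m0) [MOD W] := h1.add_left m0
    have h3 : m0 + (tau + (W - 1) * m0) = tau + W * m0 := by
      obtain ⟨w, rfl⟩ : ∃ w, W = w + 1 := ⟨W - 1, by omega⟩
      simp only [Nat.add_sub_cancel]; ring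
    rw [h3] at h2
    have h4 : tau + W * m0 ≡ tau [MOD W] := by
      unfold Nat.ModEq
      rw [Nat.add_mul_mod_self_left]
    exact h2.trans h4
  set J := ⌊a / W⌋₊ with hJ
  have hJ1 : (J : ℝ) * W ≤ a := by
    have := Nat.floor_le (show 0 ≤ a / W by positivity)
    rw [← hJ] at this
    rwa [le_div_iff₀ hW0] at this
  have hJ2 : a / (2 * W) ≤ J := by
    have h1 : a / W < J + 1 := Nat.lt_floor_add_one _
    have h2 : 1 ≤ a / (2 * W) := by rw [le_div_iff₀ (by positivity)]; linarith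
    have h3 : a / W = a / (2 * W) + a / (2 * W) := by field_simp; ring
    linarith
  have hcard : J ≤ ((Icc 1 T).filter fun t : ℕ => a < t ∧ (t : ℝ) ≤ 2 * a ∧ t ≡ tau [MOD W]).card := by
    have h1 : J = (range J).card := (card_range J).symm
    conv_lhs => rw [h1]
    apply Finset.card_le_card_of_injOn (fun j => m0 + e + j * W)
    · intro j hj
      have hj : j < J := by simpa using hj
      have hjr : ((j : ℕ) : ℝ) + 1 ≤ J := by exact_mod_cast hj
      have her : (e : ℝ) + 1 ≤ W := by exact_mod_cast heW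
      have hup : ((m0 + e + j * W : ℕ) : ℝ) ≤ 2 * a := by
        push_cast
        have h5 : ((j : ℝ) + 1) * W ≤ J * W := by gcongr
        linarith
      simp only [Finset.coe_filter, Finset.mem_Icc]
      refine ⟨⟨by omega, ?_⟩, ?_, hup, ?_⟩
      · have : ((m0 + e + j * W : ℕ) : ℝ) ≤ T := hup.trans hT
        exact_mod_cast this
      · have h2 : (m0 : ℝ) ≤ ((m0 + e + j * W : ℕ) : ℝ) := by
          have : m0 ≤ m0 + e + j * W := by omega
          exact_mod_cast this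
        linarith
      · have h4 : m0 + e + j * W ≡ m0 + e [MOD W] := by
          unfold Nat.ModEq
          rw [Nat.add_mul_mod_self_right]
        exact h4.trans hme
    · intro j _ k _ hjk
      simp only at hjk
      have : j * W = k * W := by omega
      exact Nat.eq_of_mul_eq_mul_right (by omega) this
  have : (J : ℝ) ≤ ((((Icc 1 T).filter fun t : ℕ =>
      a < t ∧ (t : ℝ) ≤ 2 * a ∧ t ≡ tau [MOD W]).card : ℕ) : ℝ) := by exact_mod_cast hcard
  linarith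

private theorem realCount_mu (d : ℕ) (hd : 1 ≤ d) (F : ℝ) (hF : 1 ≤ F) (c1 : ℝ) (hc1 : 0 < c1) (hc1' : c1 ≤ 1) :
    2 * ((2 * F) ^ d * (c1 / (8 * F)) ^ d) ≤ c1 * (1 / 2) ^ d := by
  have h1 : (c1 : ℝ) ^ d ≤ c1 := by
    calc c1 ^ d ≤ c1 ^ 1 := pow_le_pow_of_le_one hc1.le hc1' hd
      _ = c1 := pow_one _
  have h2 : (2 : ℝ) * (1 / 2) ^ d ≤ 1 := by
    have : ((1 : ℝ) / 2) ^ d ≤ (1 / 2) ^ 1 := pow_le_pow_of_le_one (by norm_num) (by norm_num) hd
    linarith [this, pow_one ((1 : ℝ) / 2)]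
  have hF0 : 0 < F := by linarith
  have h3 : (2 * F : ℝ) ^ d * (c1 / (8 * F)) ^ d = c1 ^ d * ((1 / 2) ^ d * (1 / 2) ^ d) := by
    rw [← mul_pow, ← mul_pow, ← mul_pow]; congr 1; field_simp; norm_num
  have h4 : (0 : ℝ) < (1 / 2) ^ d := by positivity
  rw [h3]
  calc 2 * (c1 ^ d * ((1 / 2) ^ d * (1 / 2) ^ d))
      = c1 ^ d * (1 / 2) ^ d * (2 * (1 / 2) ^ d) := by ring
    _ ≤ c1 * (1 / 2) ^ d * 1 := by gcongr
    _ = c1 * (1 / 2) ^ d := by ring

private theorem realCount_eta (d s : ℕ) (hd : 1 ≤ d) (hs : 1 ≤ s) (F : ℝ) (hF : 1 ≤ F) (c1 mu : ℝ) (hc1 : 0 < c1)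
    (hc1' : c1 ≤ 1) (hmu : 0 < mu) :
    4 * s * ((2 * F) ^ d * (c1 * mu / (8 * F * s)) ^ d) ≤ c1 * mu ^ d := by
  have hs0 : (1 : ℝ) ≤ s := by exact_mod_cast hs
  have h1 : (c1 : ℝ) ^ d ≤ c1 := by
    calc c1 ^ d ≤ c1 ^ 1 := pow_le_pow_of_le_one hc1.le hc1' hd
      _ = c1 := pow_one _
  have h2 : (4 * (s : ℝ)) * (1 / (4 * s)) ^ d ≤ 1 := by
    have h3 : (1 / (4 * (s : ℝ))) ^ d ≤ (1 / (4 * (s : ℝ))) ^ 1 := by
      apply pow_le_pow_of_le_one (by positivity) _ hd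
      rw [div_le_one (by positivity)]; linarith
    rw [pow_one] at h3
    calc (4 * (s : ℝ)) * (1 / (4 * s)) ^ d ≤ (4 * (s : ℝ)) * (1 / (4 * s)) := by gcongr
      _ = 1 := by field_simp
  have hF0 : 0 < F := by linarith
  have h3 : (2 * F : ℝ) ^ d * (c1 * mu / (8 * F * s)) ^ d = c1 ^ d * mu ^ d * (1 / (4 * s)) ^ d := by
    rw [← mul_pow, ← mul_pow, ← mul_pow]; congr 1; field_simp; norm_num
  rw [h3]
  calc 4 * s * (c1 ^ d * mu ^ d * (1 / (4 * s)) ^ d)
      = c1 ^ d * mu ^ d * ((4 * (s : ℝ)) * (1 / (4 * s)) ^ d) := by ring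
    _ ≤ c1 * mu ^ d * 1 := by gcongr
    _ = c1 * mu ^ d := by ring

/-- bounds for the terms -/
private theorem realCount_term (d : ℕ) {H L T a t l p F : ℝ} (ha : |a| ≤ H)
    (ht0 : 0 ≤ t) (ht : t ≤ 2 * p * T) (hl0 : 0 ≤ l) (hl : l ≤ F * L) :
    |a * (t * l) ^ d| ≤ H * ((2 * F) ^ d * p ^ d) * (L * T) ^ d := by
  rw [abs_mul, abs_of_nonneg (pow_nonneg (mul_nonneg ht0 hl0) d)]
  have h1 : (t * l) ^ d ≤ (2 * p * T * (F * L)) ^ d := by
    apply pow_le_pow_left₀ (mul_nonneg ht0 hl0)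
    exact mul_le_mul ht hl hl0 (ht0.trans ht)
  have h2 : (2 * p * T * (F * L)) ^ d = (2 * F) ^ d * p ^ d * (L * T) ^ d := by
    rw [← mul_pow, ← mul_pow]; congr 1; ring
  rw [h2] at h1
  calc |a| * (t * l) ^ d ≤ H * ((2 * F) ^ d * p ^ d * (L * T) ^ d) :=
        mul_le_mul ha h1 (pow_nonneg (mul_nonneg ht0 hl0) d) ((abs_nonneg a).trans ha)
    _ = _ := by ring

/-- the injection `(u, t) ↦ update u j0 t` -/
private theorem realCount_inj {s : ℕ} (j0 : Fin s) (B : Finset (Fin s → ℕ))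
    (A : (Fin s → ℕ) → Finset ℕ) (S : Finset (Fin s → ℕ)) (hB : ∀ u ∈ B, u j0 = 0)
    (h : ∀ u ∈ B, ∀ t ∈ A u, Function.update u j0 t ∈ S) :
    ∑ u ∈ B, (A u).card ≤ S.card := by
  rw [← Finset.card_sigma]
  apply Finset.card_le_card_of_injOn (fun z : (_ : Fin s → ℕ) × ℕ => Function.update z.1 j0 z.2)
  · rintro ⟨u, t⟩ hut
    rw [Finset.mem_coe, Finset.mem_sigma] at hut
    exact h u hut.1 t hut.2
  · rintro ⟨u, t⟩ hut ⟨u', t'⟩ hut' heq
    rw [Finset.mem_coe, Finset.mem_sigma] at hut hut'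
    simp only at heq
    have h1 : t = t' := by
      have := congrFun heq j0
      simpa using this
    have h2 : u = u' := by
      funext k
      by_cases hk : k = j0
      · rw [hk, hB u hut.1, hB u' hut'.1]
      · have := congrFun heq k
        simpa [Function.update_of_ne hk] using this
    subst h1 h2
    rfl

private theorem realCount_upd (d : ℕ) {s : ℕ} (a : Fin s → ℤ) (l u : Fin s → ℕ) (j0 : Fin s)
    (t : ℕ) (x K : ℝ) (hj0 : a j0 < 0) (hx : x = |(a j0 : ℝ)| * (l j0 : ℝ) ^ d)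
    (h : |x * (t : ℝ) ^ d - ∑ k ∈ univ.erase j0, (a k : ℝ) * ((u k : ℝ) * (l k : ℝ)) ^ d| ≤ K) :
    |∑ i, (a i : ℝ) * (((Function.update u j0 t i : ℕ) : ℝ) * (l i : ℝ)) ^ d| ≤ K := by
  have h1 : ∑ i, (a i : ℝ) * (((Function.update u j0 t i : ℕ) : ℝ) * (l i : ℝ)) ^ d =
      (a j0 : ℝ) * ((t : ℝ) * (l j0 : ℝ)) ^ d +
      ∑ k ∈ univ.erase j0, (a k : ℝ) * ((u k : ℝ) * (l k : ℝ)) ^ d := by
    rw [← Finset.add_sum_erase univ _ (Finset.mem_univ j0)]
    congr 1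
    · simp
    · refine Finset.sum_congr rfl fun k hk => ?_
      rw [Function.update_of_ne (Finset.ne_of_mem_erase hk)]
  have h2 : (a j0 : ℝ) * ((t : ℝ) * (l j0 : ℝ)) ^ d = -(x * (t : ℝ) ^ d) := by
    have h3 : |(a j0 : ℝ)| = -(a j0 : ℝ) := abs_of_neg (by exact_mod_cast hj0)
    rw [hx, h3, mul_pow]; ring
  rw [h1, h2, neg_add_eq_sub, abs_sub_comm]
  exact h

private theorem realCount_Y (d s : ℕ) (hs : 1 ≤ s) (F : ℝ) (hF : 1 ≤ F) (c1 mu eta : ℝ) (hc1 : 0 < c1) (hc1' : c1 ≤ 1)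
    (hmu0 : 0 < mu) (heta0 : 0 < eta) (hM : 2 * ((2 * F) ^ d * mu ^ d) ≤ c1 * (1 / 2) ^ d)
    (hN : 4 * s * ((2 * F) ^ d * eta ^ d) ≤ c1 * mu ^ d) (H L T x P R LT : ℝ) (hH : 0 < H) (hL : 0 < L)
    (hT : 0 < T) (hx1 : c1 * H * L ^ d ≤ x) (hx2 : x ≤ H * (F * L) ^ d) (hLT : LT = (L * T) ^ d)
    (hP1 : c1 * H * mu ^ d * LT ≤ P) (hP2 : P ≤ H * ((2 * F) ^ d * mu ^ d) * LT)
    (hR : |R| ≤ H * (c1 * mu ^ d / 4) * LT) :
    x * (2 * eta * T) ^ d ≤ P + R ∧ P + R ≤ x * (T / 2) ^ d := by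
  have hs0 : (1 : ℝ) ≤ s := by exact_mod_cast hs
  have hF0 : 0 < F := by linarith
  have hLT0 : 0 < LT := by rw [hLT]; positivity
  obtain ⟨hR1, hR2⟩ := abs_le.1 hR
  constructor
  · have h1 : x * (2 * eta * T) ^ d ≤ H * ((2 * F) ^ d * eta ^ d) * LT := by
      calc x * (2 * eta * T) ^ d ≤ H * (F * L) ^ d * (2 * eta * T) ^ d := by gcongr
        _ = H * ((F * L) * (2 * eta * T)) ^ d := by rw [mul_pow (F * L) (2 * eta * T)]; ring
        _ = H * ((2 * F * eta) * (L * T)) ^ d := by congr 2; ring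
        _ = H * ((2 * F) ^ d * eta ^ d) * LT := by
          rw [mul_pow (2 * F * eta) (L * T), mul_pow (2 * F) eta, ← hLT]; ring
    have h2 : (2 * F : ℝ) ^ d * eta ^ d ≤ c1 * mu ^ d / 4 := by
      have h0 : (0 : ℝ) ≤ (2 * F) ^ d * eta ^ d := by positivity
      have h3 : (2 * F : ℝ) ^ d * eta ^ d ≤ s * ((2 * F) ^ d * eta ^ d) := le_mul_of_one_le_left h0 hs0
      linarith
    have h3 : H * ((2 * F) ^ d * eta ^ d) * LT ≤ H * (c1 * mu ^ d / 4) * LT := by gcongr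
    have h4 : 0 ≤ H * (c1 * mu ^ d / 4) * LT := by positivity
    have h5 : c1 * H * mu ^ d * LT = 4 * (H * (c1 * mu ^ d / 4) * LT) := by ring
    linarith
  · have h1 : c1 * H * (1 / 2) ^ d * LT ≤ x * (T / 2) ^ d := by
      calc c1 * H * (1 / 2) ^ d * LT = c1 * H * L ^ d * (T / 2) ^ d := by
            rw [hLT, mul_assoc, ← mul_pow, mul_assoc (c1 * H) (L ^ d), ← mul_pow]
            congr 2; ring
        _ ≤ x * (T / 2) ^ d := by gcongr
    have h5' : c1 * mu ^ d / 4 ≤ (2 * F) ^ d * mu ^ d := by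
      have h0 : 0 < mu ^ d := by positivity
      have h7 : c1 * mu ^ d ≤ mu ^ d := mul_le_of_le_one_left h0.le hc1'
      have h8 : (1 : ℝ) ≤ (2 * F) ^ d := one_le_pow₀ (by linarith)
      have h9 : mu ^ d ≤ (2 * F) ^ d * mu ^ d := le_mul_of_one_le_left h0.le h8
      have : 0 < c1 * mu ^ d := by positivity
      linarith
    have h2 : H * (c1 * mu ^ d / 4) * LT ≤ H * ((2 * F) ^ d * mu ^ d) * LT := by gcongr
    have h3 : H * (2 * ((2 * F) ^ d * mu ^ d)) * LT ≤ H * (c1 * (1 / 2) ^ d) * LT := by gcongr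
    have h5 : H * (2 * ((2 * F) ^ d * mu ^ d)) * LT = 2 * (H * ((2 * F) ^ d * mu ^ d) * LT) := by ring
    have h6 : H * (c1 * (1 / 2) ^ d) * LT = c1 * H * (1 / 2) ^ d * LT := by ring
    linarith

private theorem realCount_K (d : ℕ) (hd : 1 ≤ d) (F : ℝ) (hF : 1 ≤ F) (H L T x r eps K : ℝ) (hH : 0 < H) (hL : 0 < L)
    (hT : 0 < T) (hx2 : x ≤ H * (F * L) ^ d) (heps : 0 < eps) (hr : r = eps * T / d)
    (h1 : T / 2 + r ≤ T) (hK : K = eps * H * (F * L * T) ^ d) :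
    x * d * (T / 2 + r) ^ (d - 1) * r ≤ K := by
  have hd0 : (0 : ℝ) < d := by exact_mod_cast hd
  have hF0 : 0 < F := by linarith
  have hr0 : 0 ≤ r := by rw [hr]; positivity
  obtain ⟨e, rfl⟩ : ∃ e, d = e + 1 := ⟨d - 1, by omega⟩
  rw [Nat.add_sub_cancel]
  calc x * ((e + 1 : ℕ) : ℝ) * (T / 2 + r) ^ e * r
      ≤ (H * (F * L) ^ (e + 1)) * ((e + 1 : ℕ) : ℝ) * T ^ e * r := by gcongr
    _ = eps * H * (F * L) ^ (e + 1) * (T ^ e * T) := by
        rw [hr]; field_simp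
    _ = eps * H * (F * L) ^ (e + 1) * T ^ (e + 1) := by rw [← pow_succ]
    _ = K := by rw [hK, mul_pow (F * L) T]; ring

theorem real_count (d s F : ℕ) (hd : 4 ≤ d) (hs : 2 ≤ s) (hF : 1 ≤ F) (c1 : ℝ) (hc1 : 0 < c1)
    (hc1' : c1 ≤ 1) :
    ∃ (E : ℕ) (c3 e1 : ℝ), 2 ≤ E ∧ 0 < c3 ∧ 0 < e1 ∧ ∀ (W : ℕ) (eps : ℝ), 1 ≤ W → 0 < eps → eps ≤ e1 →
    ∃ T0 : ℕ, ∀ (T L H : ℕ) (K : ℝ), T0 ≤ T → 1 ≤ L → 1 ≤ H →
    K = eps * H * (F * (L : ℝ) * T) ^ d → ∀ (a : Fin s → ℤ), Mixed a →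
    (∀ i, c1 * H ≤ |(a i : ℝ)| ∧ |(a i : ℝ)| ≤ H) → ∀ (l : Fin s → ℕ), (∀ i, L < l i ∧ l i ≤ F * L) →
    ∀ (tau : Fin s → ℕ),
    c3 * eps * ((T : ℝ) / W) ^ s ≤
      (((Fintype.piFinset fun _ : Fin s => (Icc 1 T).filter fun t => T < E * t).filter
        fun t : Fin s → ℕ => (∀ i, t i ≡ tau i [MOD W]) ∧
          |∑ i, (a i : ℝ) * ((t i : ℝ) * (l i : ℝ)) ^ d| ≤ K).card : ℝ) := by
  classical
  have hs0 : (2 : ℝ) ≤ s := by exact_mod_cast hs
  have hd0 : (4 : ℝ) ≤ d := by exact_mod_cast hd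
  set mu : ℝ := c1 / (8 * (F : ℝ)) with hmu
  set eta : ℝ := c1 * mu / (8 * (F : ℝ) * s) with heta
  have hmu0 : 0 < mu := by positivity
  have heta0 : 0 < eta := by positivity
  have hF0 : (1 : ℝ) ≤ (F : ℝ) := by exact_mod_cast hF
  have hmu1 : mu ≤ 1 / 8 := by
    rw [hmu, div_le_div_iff₀ (by positivity) (by norm_num)]
    nlinarith
  have hetamu : eta ≤ mu / 4 := by
    have h1 : c1 * mu ≤ mu := mul_le_of_le_one_left hmu0.le hc1'
    have h2 : mu / (8 * (F : ℝ) * s) ≤ mu / 4 := by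
      apply div_le_div_of_nonneg_left hmu0.le (by norm_num)
      nlinarith [mul_le_mul hF0 hs0 (by norm_num) (by linarith)]
    calc eta = c1 * mu / (8 * (F : ℝ) * s) := heta
      _ ≤ mu / (8 * (F : ℝ) * s) := by gcongr
      _ ≤ mu / 4 := h2
  have hM := realCount_mu d (by omega) (F : ℝ) hF0 c1 hc1 hc1'
  have hN := realCount_eta d s (by omega) (by omega) (F : ℝ) hF0 c1 mu hc1 hc1' hmu0
  rw [← hmu] at hM
  rw [← heta] at hN
  set E := ⌈2 / eta⌉₊ with hE
  have hE1 : 2 / eta ≤ E := Nat.le_ceil _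
  have hE2 : 2 ≤ (E : ℝ) * eta := by rwa [div_le_iff₀ heta0] at hE1
  have hE3 : 2 ≤ E := by
    have h1 : (2 : ℝ) ≤ E := by
      have : (2 : ℝ) ≤ 2 / eta := by rw [le_div_iff₀ heta0]; linarith
      linarith
    exact_mod_cast h1
  refine ⟨E, (eta / 2) ^ (s - 1) / d, eta, hE3, by positivity, heta0, ?_⟩
  intro W eps hW heps hepse
  have hW0 : (1 : ℝ) ≤ W := by exact_mod_cast hW
  refine ⟨⌈d * W / eps⌉₊ + ⌈2 * W / eta⌉₊, ?_⟩
  intro T L H K hT hL hH hK a hmix ha l hl tau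
  have hT1 : d * W / eps ≤ T := by
    have h1 := Nat.le_ceil (d * W / eps)
    have h2 : (⌈(d : ℝ) * W / eps⌉₊ : ℝ) ≤ T := by exact_mod_cast (by omega : ⌈(d : ℝ) * W / eps⌉₊ ≤ T)
    linarith
  have hT2 : 2 * W / eta ≤ T := by
    have h1 := Nat.le_ceil (2 * W / eta)
    have h2 : (⌈2 * (W : ℝ) / eta⌉₊ : ℝ) ≤ T := by exact_mod_cast (by omega : ⌈2 * (W : ℝ) / eta⌉₊ ≤ T)
    linarith
  have hT1' : (W : ℝ) ≤ eps * T / d := by
    rw [div_le_iff₀ heps] at hT1
    rw [le_div_iff₀ (by linarith)]; linarith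
  have hT2' : 2 * (W : ℝ) ≤ eta * T := by
    rw [div_le_iff₀ heta0] at hT2; linarith
  have hT0 : (0 : ℝ) < T := by
    have h1 : 0 < eta * (T : ℝ) := by linarith
    exact pos_of_mul_pos_right h1 heta0.le
  have hL0 : (1 : ℝ) ≤ L := by exact_mod_cast hL
  have hH0 : (1 : ℝ) ≤ H := by exact_mod_cast hH
  set LT : ℝ := ((L : ℝ) * T) ^ d with hLT
  have hLT0 : 0 < LT := by positivity
  obtain ⟨i0, j0, hi0, hj0⟩ := hmix
  have hij : i0 ≠ j0 := by rintro rfl; omega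
  -- base sets
  let cc : Fin s → ℝ := fun k => if k = i0 then mu else eta
  have hcc1 : ∀ k, eta ≤ cc k := fun k => by
    simp only [cc]; split_ifs <;> linarith
  have hcc2 : ∀ k, cc k ≤ mu := fun k => by
    simp only [cc]; split_ifs <;> linarith
  let Bs : Fin s → Finset ℕ := fun k =>
    if k = j0 then {0} else (Icc 1 T).filter fun t : ℕ => cc k * T < t ∧ (t : ℝ) ≤ 2 * (cc k * T) ∧ t ≡ tau k [MOD W]
  have hBs : ∀ k, k ≠ j0 → eta * T / (2 * W) ≤ ((Bs k).card : ℝ) := by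
    intro k hk
    have h1 := realCount_class (cc k * T) W (tau k) T hW
      (hT2'.trans (by have := hcc1 k; gcongr)) (by
        have h2 : cc k * (T : ℝ) ≤ 1 / 8 * T := by
          have := (hcc2 k).trans hmu1
          gcongr
        linarith)
    simp only [Bs, if_neg hk]
    refine le_trans ?_ h1
    have := hcc1 k
    gcongr
  have hmem : ∀ u ∈ Fintype.piFinset Bs, ∀ k, k ≠ j0 → u k ∈ Icc 1 T ∧ cc k * T < u k ∧
      (u k : ℝ) ≤ 2 * (cc k * T) ∧ u k ≡ tau k [MOD W] := by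
    intro u hu k hk
    have h1 := Fintype.mem_piFinset.1 hu k
    simp only [Bs, if_neg hk, Finset.mem_filter] at h1
    exact h1
  have hmem0 : ∀ u ∈ Fintype.piFinset Bs, u j0 = 0 := by
    intro u hu
    have h1 := Fintype.mem_piFinset.1 hu j0
    simpa [Bs] using h1
  -- the quantities of the last variable
  set x : ℝ := |(a j0 : ℝ)| * (l j0 : ℝ) ^ d with hx
  have hlr : ∀ k, (L : ℝ) < l k ∧ (l k : ℝ) ≤ F * L := fun k =>
    ⟨by exact_mod_cast (hl k).1, by exact_mod_cast (hl k).2⟩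
  have hx1 : c1 * H * (L : ℝ) ^ d ≤ x := by
    have h1 := (ha j0).1
    have h2 : (L : ℝ) ^ d ≤ (l j0 : ℝ) ^ d := pow_le_pow_left₀ (by linarith) (hlr j0).1.le d
    rw [hx]
    exact mul_le_mul h1 h2 (by positivity) (abs_nonneg _)
  have hx2 : x ≤ H * ((F : ℝ) * (L : ℝ)) ^ d := by
    have h1 := (ha j0).2
    have h2 : (l j0 : ℝ) ^ d ≤ ((F : ℝ) * (L : ℝ)) ^ d := pow_le_pow_left₀ (by positivity) (hlr j0).2 d
    rw [hx]
    exact mul_le_mul h1 h2 (by positivity) (by linarith)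
  have hx0 : 0 < x := lt_of_lt_of_le (by positivity) hx1
  set r : ℝ := eps * T / d with hr
  have hreta : r ≤ eta * T := by
    rw [hr, div_le_iff₀ (by linarith)]
    have h1 : eps * (T : ℝ) ≤ eta * T := by gcongr
    have h2 : 0 < eta * (T : ℝ) := mul_pos heta0 hT0
    have h3 : eta * (T : ℝ) ≤ eta * T * d := le_mul_of_one_le_right h2.le (by linarith)
    linarith
  have hetaT : eta * (T : ℝ) ≤ 1 / 32 * T := by
    have : eta ≤ 1 / 32 := by linarith
    gcongr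
  have hstep : ∀ u ∈ Fintype.piFinset Bs, ∃ A : Finset ℕ, r / W ≤ A.card ∧ ∀ t ∈ A,
      t ≡ tau j0 [MOD W] ∧ 2 * eta * T - r ≤ t ∧ (t : ℝ) ≤ T / 2 + r ∧
      |x * (t : ℝ) ^ d - ∑ k ∈ univ.erase j0, (a k : ℝ) * ((u k : ℝ) * (l k : ℝ)) ^ d| ≤ K := by
    intro u hu
    have hterm : ∀ k, k ≠ j0 → |(a k : ℝ) * ((u k : ℝ) * (l k : ℝ)) ^ d| ≤
        H * ((2 * (F : ℝ)) ^ d * (cc k) ^ d) * LT := by
      intro k hk
      obtain ⟨-, -, h3, -⟩ := hmem u hu k hk
      exact realCount_term d (ha k).2 (Nat.cast_nonneg _) (by linarith) (Nat.cast_nonneg _)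
        (hlr k).2
    have hsplit : ∑ k ∈ univ.erase j0, (a k : ℝ) * ((u k : ℝ) * (l k : ℝ)) ^ d =
        (a i0 : ℝ) * ((u i0 : ℝ) * (l i0 : ℝ)) ^ d +
        ∑ k ∈ (univ.erase j0).erase i0, (a k : ℝ) * ((u k : ℝ) * (l k : ℝ)) ^ d :=
      (Finset.add_sum_erase _ _ (by simp [hij])).symm
    have hrest : |∑ k ∈ (univ.erase j0).erase i0, (a k : ℝ) * ((u k : ℝ) * (l k : ℝ)) ^ d| ≤
        H * (c1 * mu ^ d / 4) * LT := by
      calc |∑ k ∈ (univ.erase j0).erase i0, (a k : ℝ) * ((u k : ℝ) * (l k : ℝ)) ^ d|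
          ≤ ∑ k ∈ (univ.erase j0).erase i0, |(a k : ℝ) * ((u k : ℝ) * (l k : ℝ)) ^ d| :=
            Finset.abs_sum_le_sum_abs _ _
        _ ≤ ∑ _k ∈ (univ.erase j0).erase i0, H * ((2 * (F : ℝ)) ^ d * eta ^ d) * LT := by
            apply Finset.sum_le_sum
            intro k hk
            rw [Finset.mem_erase, Finset.mem_erase] at hk
            have h1 := hterm k hk.2.1
            simpa [cc, hk.1] using h1
        _ = (((univ.erase j0).erase i0).card : ℝ) * (H * ((2 * (F : ℝ)) ^ d * eta ^ d) * LT) := by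
            rw [Finset.sum_const, nsmul_eq_mul]
        _ ≤ (s : ℝ) * (H * ((2 * (F : ℝ)) ^ d * eta ^ d) * LT) := by
            have h1 : ((univ.erase j0).erase i0).card ≤ s := by
              have := Finset.card_le_univ ((univ.erase j0).erase i0)
              simpa using this
            have h2 : (((univ.erase j0).erase i0).card : ℝ) ≤ s := by exact_mod_cast h1
            gcongr
        _ = H * LT * (s * ((2 * (F : ℝ)) ^ d * eta ^ d)) := by ring
        _ ≤ H * LT * (c1 * mu ^ d / 4) := by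
            have : (s : ℝ) * ((2 * (F : ℝ)) ^ d * eta ^ d) ≤ c1 * mu ^ d / 4 := by linarith
            gcongr
        _ = H * (c1 * mu ^ d / 4) * LT := by ring
    have hi0lo : c1 * H * mu ^ d * LT ≤ (a i0 : ℝ) * ((u i0 : ℝ) * (l i0 : ℝ)) ^ d := by
      obtain ⟨-, h2, -, -⟩ := hmem u hu i0 hij
      have h3 : c1 * H ≤ (a i0 : ℝ) := by
        have := (ha i0).1
        rwa [abs_of_pos (by exact_mod_cast hi0)] at this
      have h4 : mu ^ d * LT ≤ ((u i0 : ℝ) * (l i0 : ℝ)) ^ d := by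
        rw [hLT, ← mul_pow]
        apply pow_le_pow_left₀ (by positivity)
        have h5 : mu * T ≤ (u i0 : ℝ) := by simpa [cc] using h2.le
        calc mu * (L * T) = (mu * T) * L := by ring
          _ ≤ (u i0 : ℝ) * l i0 := mul_le_mul h5 (hlr i0).1.le (by linarith) (Nat.cast_nonneg _)
      calc c1 * H * mu ^ d * LT = (c1 * H) * (mu ^ d * LT) := by ring
        _ ≤ _ := mul_le_mul h3 h4 (by positivity) (by
          have : (0 : ℝ) < a i0 := by exact_mod_cast hi0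
          exact this.le)
    have hi0hi := (le_abs_self _).trans (hterm i0 hij)
    have hcci0 : cc i0 = mu := by simp [cc]
    rw [hcci0] at hi0hi
    obtain ⟨hY1, hY2⟩ := realCount_Y d s (by omega) (F : ℝ) hF0 c1 mu eta hc1 hc1' hmu0 heta0 hM hN H L T x _ _ LT
      (by linarith) (by linarith) hT0 hx1 hx2 hLT hi0lo hi0hi hrest
    rw [← hsplit] at hY1 hY2
    exact one_var d (by omega) x _ K (2 * eta * T) (T / 2) r hx0 (by positivity)
      (by linarith [hetaT]) hY1 hY2 W (tau j0) hW hT1' (by linarith)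
      (realCount_K d (by omega) (F : ℝ) hF0 H L T x r eps K (by linarith) (by linarith) hT0 hx2 heps
        hr (by linarith [hetaT]) hK)
  choose! A hA1 hA2 using hstep
  -- the injection
  have hETbig : ∀ v : ℕ, eta * T ≤ v → T < E * v := by
    intro v hv
    have h1 : (T : ℝ) < E * v := by
      calc (T : ℝ) < 2 * T := by linarith
        _ ≤ (E * eta) * T := by gcongr
        _ = E * (eta * T) := by ring
        _ ≤ E * v := by gcongr
    exact_mod_cast h1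
  have hcount : ∑ u ∈ Fintype.piFinset Bs, (A u).card ≤
      ((Fintype.piFinset fun _ : Fin s => (Icc 1 T).filter fun t => T < E * t).filter
        fun t : Fin s → ℕ => (∀ i, t i ≡ tau i [MOD W]) ∧
          |∑ i, (a i : ℝ) * ((t i : ℝ) * (l i : ℝ)) ^ d| ≤ K).card := by
    apply realCount_inj j0 (Fintype.piFinset Bs) A _ hmem0
    intro u hu t ht
    obtain ⟨g1, g2, g3, g4⟩ := hA2 u hu t ht
    rw [Finset.mem_filter, Fintype.mem_piFinset]
    refine ⟨fun k => ?_, fun k => ?_, ?_⟩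
    · rw [Finset.mem_filter, Finset.mem_Icc]
      by_cases hk : k = j0
      · rw [hk, Function.update_self]
        have h1 : eta * T ≤ t := by linarith
        have h2 : (0 : ℝ) < t := lt_of_lt_of_le (by positivity) h1
        have h3 : (t : ℝ) ≤ T := by linarith [hetaT]
        exact ⟨⟨by exact_mod_cast h2, by exact_mod_cast h3⟩, hETbig t h1⟩
      · rw [Function.update_of_ne hk]
        obtain ⟨h1, h2, -, -⟩ := hmem u hu k hk
        rw [Finset.mem_Icc] at h1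
        refine ⟨h1, hETbig _ ?_⟩
        have h3 := hcc1 k
        have h4 : eta * T ≤ cc k * T := by gcongr
        linarith
    · by_cases hk : k = j0
      · rw [hk, Function.update_self]; exact g1
      · rw [Function.update_of_ne hk]
        exact (hmem u hu k hk).2.2.2
    · exact realCount_upd d a l u j0 t x K hj0 hx g4
  have hcount' : ((∑ u ∈ Fintype.piFinset Bs, (A u).card : ℕ) : ℝ) ≤
      ((((Fintype.piFinset fun _ : Fin s => (Icc 1 T).filter fun t => T < E * t).filter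
        fun t : Fin s → ℕ => (∀ i, t i ≡ tau i [MOD W]) ∧
          |∑ i, (a i : ℝ) * ((t i : ℝ) * (l i : ℝ)) ^ d| ≤ K).card : ℕ) : ℝ) := by
    exact_mod_cast hcount
  refine le_trans ?_ hcount'
  have hprod : (eta * T / (2 * W)) ^ (s - 1) ≤ ((Fintype.piFinset Bs).card : ℝ) := by
    rw [Fintype.card_piFinset, Nat.cast_prod, ← Finset.mul_prod_erase univ _ (Finset.mem_univ j0)]
    have h1 : ((Bs j0).card : ℝ) = 1 := by simp [Bs]
    rw [h1, one_mul]
    calc (eta * T / (2 * W)) ^ (s - 1) = ∏ _k ∈ univ.erase j0, (eta * T / (2 * W)) := by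
          rw [Finset.prod_const, Finset.card_erase_of_mem (Finset.mem_univ j0), Finset.card_univ,
            Fintype.card_fin]
      _ ≤ ∏ k ∈ univ.erase j0, ((Bs k).card : ℝ) := by
          apply Finset.prod_le_prod
          · intro k _; positivity
          · intro k hk; exact hBs k (Finset.ne_of_mem_erase hk)
  have hsum : ((Fintype.piFinset Bs).card : ℝ) * (r / W) ≤
      ((∑ u ∈ Fintype.piFinset Bs, (A u).card : ℕ) : ℝ) := by
    push_cast
    calc ((Fintype.piFinset Bs).card : ℝ) * (r / W) = ∑ _u ∈ Fintype.piFinset Bs, (r / W) := by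
          rw [Finset.sum_const, nsmul_eq_mul]
      _ ≤ ∑ u ∈ Fintype.piFinset Bs, ((A u).card : ℝ) := Finset.sum_le_sum fun u hu => hA1 u hu
  refine le_trans ?_ hsum
  have hrW : 0 ≤ r / W := by positivity
  calc (eta / 2) ^ (s - 1) / d * eps * ((T : ℝ) / W) ^ s
      = (eta * T / (2 * W)) ^ (s - 1) * (r / W) := by
        have hs1 : s = (s - 1) + 1 := by omega
        have h1 : ((T : ℝ) / W) ^ s = ((T : ℝ) / W) ^ (s - 1) * (T / W) := by
          conv_lhs => rw [hs1, pow_succ]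
        have h2 : eta * T / (2 * W) = (eta / 2) * (T / W) := by field_simp
        rw [h1, h2, mul_pow, hr]
        field_simp
    _ ≤ ((Fintype.piFinset Bs).card : ℝ) * (r / W) := by gcongr

end Pool.Agent.Lib.MP_e426f4_ag.DK
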