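import Pool.Agent.Lib.MP_e426f4_ag.DK.MavgA
import Pool.Agent.Lib.MP_e426f4_ag.DK.RealCount

/-!
# MavgLow: the lower bound of the average (adapt `DH/MavgLow.lean`)

`S.LM ⊆ (W^u, 4^u W^u]` (`LM_bounds`); the `λ ∈ S.LM` are coprime to `om!` for `R` large;
`real_count` of this folder with `F := 4^u`, `L := S.W^u`; `S.B = 4^u W^u T`.
-/

set_option autoImplicit false

namespace Pool.Agent.Lib.MP_e426f4_ag.DK

open Finset
open Pool.Agent.Lib.MP_e426f4_ag.DG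

/-- classes modulo `W` after multiplication by units -/
private theorem MavgLow_card_tau {s : ℕ} (d W : ℕ) (hW : 1 ≤ W) (a : Fin s → ℤ) (l : Fin s → ℕ)
    (hl : ∀ i, Nat.Coprime (l i) W) :
    nu d W a ≤ (((Fintype.piFinset fun _ : Fin s => range W).filter fun x : Fin s → ℕ =>
      (W : ℤ) ∣ ∑ i, a i * ((x i * l i : ℕ) : ℤ) ^ d).card : ℝ) := by
  classical
  have hu : ∀ i, ∃ u : ℕ, l i * u ≡ 1 [MOD W] := by
    intro i
    obtain ⟨u, -, hu⟩ := Nat.exists_mul_mod_eq_of_coprime 1 (hl i) (by omega)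
    exact ⟨u, hu⟩
  choose u hu using hu
  unfold nu
  rw [Nat.cast_le]
  have hkey : ∀ (x : Fin s → ℕ) (i : Fin s), (x i * u i) % W * l i ≡ x i [MOD W] := by
    intro x i
    calc (x i * u i) % W * l i ≡ (x i * u i) * l i [MOD W] := (Nat.mod_modEq _ _).mul_right _
      _ = x i * (l i * u i) := by ring
      _ ≡ x i * 1 [MOD W] := (hu i).mul_left _
      _ = x i := mul_one _
  refine card_le_card_of_injOn (fun x i => (x i * u i) % W) ?_ ?_
  · intro x hx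
    rw [mem_coe, mem_filter, Fintype.mem_piFinset] at hx
    rw [mem_coe, mem_filter, Fintype.mem_piFinset]
    refine ⟨fun i => mem_range.2 (Nat.mod_lt _ (by omega)), ?_⟩
    have h1 : (∑ i, a i * (((x i * u i) % W * l i : ℕ) : ℤ) ^ d) ≡ ∑ i, a i * (x i : ℤ) ^ d
        [ZMOD W] := by
      refine Int.ModEq.sum ?_
      intro i _
      exact ((Int.natCast_modEq_iff.2 (hkey x i)).pow d).mul_left _
    exact (Int.modEq_zero_iff_dvd.1 (h1.trans (Int.modEq_zero_iff_dvd.2 hx.2)))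
  · intro x hx y hy hxy
    rw [mem_coe, mem_filter, Fintype.mem_piFinset] at hx hy
    funext i
    have h1 := hkey x i
    have h2 := hkey y i
    have h3 : (x i * u i) % W = (y i * u i) % W := congrFun hxy i
    rw [h3] at h1
    have h4 : x i ≡ y i [MOD W] := h1.symm.trans h2
    have hx1 := mem_range.1 (hx.1 i)
    have hy1 := mem_range.1 (hy.1 i)
    have h5 : x i % W = y i % W := h4
    rwa [Nat.mod_eq_of_lt hx1, Nat.mod_eq_of_lt hy1] at h5

private theorem MavgLow_count_split {s : ℕ} (d W : ℕ) (hW : 1 ≤ W) (a : Fin s → ℤ) (l : Fin s → ℕ)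
    (hl : ∀ i, Nat.Coprime (l i) W) (I : Finset ℕ) (K K' lo c0 : ℝ) (hK : K ≤ K') (hlo : 0 ≤ lo)
    (hc0 : c0 ≤ nu d W a)
    (h : ∀ tau : Fin s → ℕ, lo ≤ (((Fintype.piFinset fun _ : Fin s => I).filter
        fun t : Fin s → ℕ => (∀ i, t i ≡ tau i [MOD W]) ∧
          |∑ i, (a i : ℝ) * ((t i : ℝ) * (l i : ℝ)) ^ d| ≤ K).card : ℝ)) :
    c0 * lo ≤ (((Fintype.piFinset fun _ : Fin s => I).filter fun t : Fin s → ℕ =>
        (W : ℤ) ∣ ∑ i, a i * ((t i * l i : ℕ) : ℤ) ^ d ∧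
          |∑ i, (a i : ℝ) * ((t i : ℝ) * (l i : ℝ)) ^ d| ≤ K').card : ℝ) := by
  classical
  set Tau := ((Fintype.piFinset fun _ : Fin s => range W).filter fun x : Fin s → ℕ =>
      (W : ℤ) ∣ ∑ i, a i * ((x i * l i : ℕ) : ℤ) ^ d) with hTau
  set A : (Fin s → ℕ) → Finset (Fin s → ℕ) := fun tau =>
    ((Fintype.piFinset fun _ : Fin s => I).filter
        fun t : Fin s → ℕ => (∀ i, t i ≡ tau i [MOD W]) ∧
          |∑ i, (a i : ℝ) * ((t i : ℝ) * (l i : ℝ)) ^ d| ≤ K) with hA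
  have h1 : c0 * lo ≤ ∑ tau ∈ Tau, ((A tau).card : ℝ) := by
    calc c0 * lo ≤ (Tau.card : ℝ) * lo :=
          mul_le_mul_of_nonneg_right (hc0.trans (MavgLow_card_tau d W hW a l hl)) hlo
      _ = ∑ tau ∈ Tau, lo := by rw [sum_const, nsmul_eq_mul]
      _ ≤ _ := sum_le_sum fun tau _ => h tau
  refine h1.trans ?_
  rw [← Nat.cast_sum, Nat.cast_le, ← card_sigma]
  refine card_le_card_of_injOn (fun z => z.2) ?_ ?_
  · rintro ⟨tau, t⟩ hz
    rw [mem_coe, mem_sigma] at hz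
    obtain ⟨ht1, ht2⟩ := hz
    simp only [hTau, hA, mem_filter, Fintype.mem_piFinset] at ht1 ht2
    rw [mem_coe, mem_filter, Fintype.mem_piFinset]
    refine ⟨ht2.1, ?_, ht2.2.2.trans hK⟩
    have h2 : (∑ i, a i * ((t i * l i : ℕ) : ℤ) ^ d) ≡ ∑ i, a i * ((tau i * l i : ℕ) : ℤ) ^ d
        [ZMOD W] := by
      refine Int.ModEq.sum ?_
      intro i _
      exact ((Int.natCast_modEq_iff.2 ((ht2.2.1 i).mul_right (l i))).pow d).mul_left _
    exact (Int.modEq_zero_iff_dvd.1 (h2.trans (Int.modEq_zero_iff_dvd.2 ht1.2)))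
  · rintro ⟨tau, t⟩ hz ⟨tau', t'⟩ hz' heq
    rw [mem_coe, mem_sigma] at hz hz'
    simp only [hTau, hA, mem_filter, Fintype.mem_piFinset] at hz hz'
    dsimp only at heq
    subst heq
    have : tau = tau' := by
      funext i
      have h4 : tau i ≡ tau' i [MOD W] := (hz.2.2.1 i).symm.trans (hz'.2.2.1 i)
      have h5 : tau i % W = tau' i % W := h4
      rwa [Nat.mod_eq_of_lt (mem_range.1 (hz.1.1 i)), Nat.mod_eq_of_lt (mem_range.1 (hz'.1.1 i))] at h5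
    subst this
    rfl

theorem Mavg_lower (d s u : ℕ) (hd : 4 ≤ d) (hs : 2 ≤ s) (c1 : ℝ) (hc1 : 0 < c1)
    (hc1' : c1 ≤ 1) : ∃ (E : ℕ) (c3 e1 : ℝ), 2 ≤ E ∧ 0 < c3 ∧ 0 < e1 ∧
    ∀ (om l e m w : ℕ) (eps : ℝ), 1 ≤ om → 0 < eps → eps ≤ e1 →
    ∃ R0 : ℕ, ∀ (S : Su d s u l e m w E) (J : ℕ), R0 ≤ S.R →
    J = ⌊eps * S.H * (S.B : ℝ) ^ d / om.factorial⌋₊ →
    ∀ (a : Fin s → ℤ) (c0 : ℝ), 0 < c0 → Mixed a →
    (∀ i, c1 * S.H ≤ |(a i : ℝ)| ∧ |(a i : ℝ)| ≤ S.H) →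
    c0 * ((om.factorial : ℕ) : ℝ) ^ (s - 1) ≤ nu d om.factorial a →
    c0 * c3 * S.XX ^ s / ((S.H : ℝ) * (S.B : ℝ) ^ d) ≤
      Mavg S.P d om.factorial J (fun _ : Fin s => S.X) (fun i => ((a i : ℤ) : ZMod S.P)) := by
  classical
  obtain ⟨E, c3, e1, hE, hc3, he1, hcount⟩ := real_count d s (4 ^ u) hd hs
    (Nat.one_le_pow _ _ (by norm_num)) c1 hc1 hc1'
  refine ⟨E, c3 / 6, min e1 1, hE, by positivity, by positivity, ?_⟩
  intro om l e m w eps hom heps heps1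
  set W := om.factorial with hWdef
  have hW : 1 ≤ W := Nat.factorial_pos om
  obtain ⟨T0, hT0⟩ := hcount W (eps / 2) hW (by positivity)
    ((by linarith : eps / 2 ≤ eps).trans (heps1.trans (min_le_left _ _)))
  refine ⟨T0 + om + ⌈2 * (W : ℝ) / eps⌉₊ + 1, ?_⟩
  intro S J hR hJ a c0 hc0 hmix ha hnu
  obtain ⟨-, -, hel, hlu, -, hum, hmw, -, -⟩ := S.nums
  have hHpos : 0 < S.H := S.n_facts.2.2.2.2.2.2
  have hH1 : (1 : ℝ) ≤ S.H := by exact_mod_cast hHpos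
  have hRpos : 1 ≤ S.R := S.R_pos
  have hWr : (1 : ℝ) ≤ W := by exact_mod_cast hW
  have hBR : S.R ≤ S.B := by
    have h1 : S.R ≤ S.R ^ (w * u + m) := Nat.le_self_pow (by omega) _
    have h2 : S.B = 4 ^ u * S.R ^ (w * u + m) := rfl
    rw [h2]
    exact h1.trans (Nat.le_mul_of_pos_left _ (by positivity))
  have hBr : (S.R : ℝ) ≤ (S.B : ℝ) ^ d := by
    have h1 : S.R ≤ S.B ^ d := hBR.trans (Nat.le_self_pow (by omega) _)
    exact_mod_cast h1
  set Y : ℝ := (S.H : ℝ) * (S.B : ℝ) ^ d with hY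
  have hYR : (S.R : ℝ) ≤ Y := by
    calc (S.R : ℝ) ≤ (S.B : ℝ) ^ d := hBr
      _ = 1 * (S.B : ℝ) ^ d := (one_mul _).symm
      _ ≤ Y := mul_le_mul_of_nonneg_right hH1 (by positivity)
  have hYpos : 0 < Y := lt_of_lt_of_le (by exact_mod_cast hRpos) hYR
  have hbig : 2 * (W : ℝ) ≤ eps * Y := by
    have h1 : 2 * (W : ℝ) / eps ≤ S.R := by
      refine (Nat.le_ceil _).trans ?_
      exact_mod_cast (by omega : ⌈2 * (W : ℝ) / eps⌉₊ ≤ S.R)
    have h2 : 2 * (W : ℝ) / eps ≤ Y := h1.trans hYR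
    rw [div_le_iff₀ heps] at h2
    linarith
  have hJ1 : (J : ℝ) ≤ eps * Y / W := by
    rw [hJ]
    have : eps * S.H * (S.B : ℝ) ^ d / (W : ℝ) = eps * Y / W := by rw [hY]; ring
    rw [this]
    exact Nat.floor_le (by positivity)
  have hJ2 : eps * Y / W - 1 ≤ (J : ℝ) := by
    rw [hJ]
    have : eps * S.H * (S.B : ℝ) ^ d / (W : ℝ) = eps * Y / W := by rw [hY]; ring
    rw [this]
    have := Nat.lt_floor_add_one (eps * Y / W)
    linarith
  have hWJ1 : (W : ℝ) * J ≤ eps * Y := by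
    have := mul_le_mul_of_nonneg_left hJ1 (by linarith : (0 : ℝ) ≤ W)
    rwa [mul_div_cancel₀ _ (by linarith : (W : ℝ) ≠ 0)] at this
  have hWJ2 : eps / 2 * Y ≤ (W : ℝ) * J := by
    have h1 := mul_le_mul_of_nonneg_left hJ2 (by linarith : (0 : ℝ) ≤ W)
    rw [mul_sub, mul_div_cancel₀ _ (by linarith : (W : ℝ) ≠ 0), mul_one] at h1
    linarith
  have hWJ : W * J ≤ S.H * S.B ^ d := by
    have h1 : (W : ℝ) * J ≤ Y := by
      refine hWJ1.trans ?_
      have : eps ≤ 1 := heps1.trans (min_le_right _ _)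
      nlinarith
    rw [hY] at h1
    exact_mod_cast h1
  have haZ : ∀ i, |a i| ≤ (S.H : ℤ) := by
    intro i
    have h1 := (ha i).2
    exact_mod_cast h1
  have hmain := Mavg_ge S W J hW hWJ a haZ
  -- lower bound for each l
  have hBMLT : (S.B : ℝ) = ((4 ^ u : ℕ) : ℝ) * ((S.W ^ u : ℕ) : ℝ) * (S.T : ℝ) := by
    rw [S.B_eq]
    push_cast
    ring
  have hWR : S.R ≤ S.W := Nat.le_self_pow (by omega) _
  have hlow : ∀ l ∈ Fintype.piFinset (fun _ : Fin s => S.LM),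
      (c0 * (W : ℝ) ^ (s - 1)) * (c3 * (eps / 2) * ((S.T : ℝ) / W) ^ s) ≤
      (((Fintype.piFinset fun _ : Fin s => S.I).filter fun t : Fin s → ℕ =>
        (W : ℤ) ∣ ∑ i, a i * ((t i * l i : ℕ) : ℤ) ^ d ∧
          |∑ i, (a i : ℝ) * ((t i : ℝ) * (l i : ℝ)) ^ d| ≤ (W : ℝ) * J).card : ℝ) := by
    intro l hl
    rw [Fintype.mem_piFinset] at hl
    have hcop : ∀ i, Nat.Coprime (l i) W := by
      intro i
      obtain ⟨z, hz, hzl⟩ := (S.LM_mem _).1 (hl i)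
      rw [hWdef, hzl]
      refine Nat.Coprime.prod_left ?_
      intro c _
      have h1 := S.hPS c c.2 _ ((S.PF_mem u z).1 hz c)
      have h3 : om < z c := by
        have h4 : S.W < z c := h1.2.1
        omega
      exact (Nat.coprime_factorial_iff h1.1.ne_one).2 (by rw [h1.1.minFac_eq]; exact h3)
    refine MavgLow_count_split d W hW a l hcop S.I (eps / 2 * S.H * (((4 ^ u : ℕ) : ℝ) *
      ((S.W ^ u : ℕ) : ℝ) * (S.T : ℝ)) ^ d) _ _ _ ?_ (by positivity) hnu ?_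
    · have : eps / 2 * S.H * (((4 ^ u : ℕ) : ℝ) * ((S.W ^ u : ℕ) : ℝ) * (S.T : ℝ)) ^ d =
          eps / 2 * Y := by
        rw [hY, hBMLT]
        ring
      rw [this]
      exact hWJ2
    · intro tau
      have hTR : S.R ≤ S.T := Nat.le_self_pow (by omega) _
      exact hT0 S.T (S.W ^ u) S.H _ (by omega) (Nat.one_le_pow _ _ S.W_pos) hHpos rfl a hmix ha l
        (fun i => S.LM_bounds _ (hl i)) tau
  -- the number of the products
  have hTcard := S.I_card_ge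
  have hTpos := S.T_pos
  have hIne : S.I.Nonempty := by
    rw [← card_pos]
    omega
  obtain ⟨t0, ht0⟩ := hIne
  set C0 : ℝ := (S.p : ℝ) ^ u with hC0
  have hLMcard : (S.LM.card : ℝ) = C0 := S.LM_card
  have hC0nn : 0 ≤ C0 := by rw [hC0]; positivity
  have hsum : C0 ^ s *
      ((c0 * (W : ℝ) ^ (s - 1)) * (c3 * (eps / 2) * ((S.T : ℝ) / W) ^ s)) ≤
      (2 * J + 1) * Mavg S.P d W J (fun _ : Fin s => S.X) (fun i => ((a i : ℤ) : ZMod S.P)) := by
    refine le_trans ?_ hmain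
    have h1 := sum_le_sum hlow
    rw [sum_const, nsmul_eq_mul, Fintype.card_piFinset] at h1
    refine le_trans (le_of_eq ?_) h1
    congr 1
    push_cast
    rw [prod_congr rfl (fun i _ => hLMcard), prod_const, card_univ, Fintype.card_fin]
  -- the final estimate
  have hXX : S.XX ≤ (S.T : ℝ) * C0 := by
    unfold Su.XX
    rw [← hC0]
    refine mul_le_mul_of_nonneg_right ?_ hC0nn
    exact_mod_cast S.I_card_le
  have hXX0 : 0 ≤ S.XX := by unfold Su.XX; positivity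
  have hXXs : S.XX ^ s ≤ ((S.T : ℝ) * C0) ^ s :=
    pow_le_pow_left₀ hXX0 hXX s
  clear_value C0
  have hWne : (W : ℝ) ≠ 0 := by linarith
  have hWs : (W : ℝ) ^ s = (W : ℝ) ^ (s - 1) * W := by
    rw [← pow_succ]; congr 1; omega
  have hL : c0 * (c3 * (eps / 2)) * S.XX ^ s / W ≤
      (2 * J + 1) * Mavg S.P d W J (fun _ : Fin s => S.X) (fun i => ((a i : ℤ) : ZMod S.P)) := by
    refine le_trans ?_ hsum
    have : C0 ^ s *
      ((c0 * (W : ℝ) ^ (s - 1)) * (c3 * (eps / 2) * ((S.T : ℝ) / W) ^ s)) =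
      c0 * (c3 * (eps / 2)) * ((S.T : ℝ) * C0) ^ s / W := by
      rw [div_pow, hWs, mul_pow]
      have : (W : ℝ) ^ (s - 1) ≠ 0 := pow_ne_zero _ hWne
      field_simp
    rw [this]
    gcongr
  have h2J : (2 * (J : ℝ) + 1) ≤ 3 * (eps * Y / W) := by
    have h1 : 1 ≤ eps * Y / W := by
      rw [le_div_iff₀ (by linarith)]
      linarith
    linarith
  have hMavg0 : 0 ≤ Mavg S.P d W J (fun _ : Fin s => S.X) (fun i => ((a i : ℤ) : ZMod S.P)) := by
    unfold Mavg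
    refine div_nonneg (sum_nonneg fun j _ => ?_) (by linarith [Nat.cast_nonneg (α := ℝ) J])
    exact Nat.cast_nonneg _
  have hfin := hL.trans (mul_le_mul_of_nonneg_right h2J hMavg0)
  rw [div_le_iff₀ hYpos]
  have h3 : c0 * (c3 * (eps / 2)) * S.XX ^ s / W = (eps / W) * 3 * (c0 * (c3 / 6) * S.XX ^ s) := by
    ring
  have h4 : 3 * (eps * Y / W) * Mavg S.P d W J (fun _ : Fin s => S.X) (fun i => ((a i : ℤ) : ZMod S.P)) =
      (eps / W) * 3 * (Mavg S.P d W J (fun _ : Fin s => S.X) (fun i => ((a i : ℤ) : ZMod S.P)) * Y) := by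
    ring
  rw [h3, h4] at hfin
  exact le_of_mul_le_mul_left hfin (by positivity)

end Pool.Agent.Lib.MP_e426f4_ag.DK
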