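import Pool.Agent.Lib.MP_e426f4_ag.DK.Defs
import Pool.Agent.Lib.MP_e426f4_ag.DG.Primes
import Pool.Agent.Lib.MP_e426f4_ag.DG.Rho
import Pool.Agent.Lib.MP_dd84fd_nt.DivBound

/-!
# SuEx: existence of the parameters for every large `H` (adapt `DH/StEx.lean`)

`R` maximal with `16 (4^l R^(w l + m))^d ≤ H`; then `H < 16 (4^l (R+1)^(w l + m))^d ≤ 16 · 2^((w l + m) d) (4^l R^(w l + m))^d`.
`u` disjoint sets of `R^(w-1)` primes in `(R^w, 4 R^w]` (`many_primes u`, `split_parts`).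
-/

set_option autoImplicit false

namespace Pool.Agent.Lib.MP_e426f4_ag.DK

open Finset
open Pool.Agent.Lib.MP_e426f4_ag.DG

private theorem exists_R (f : ℕ → ℕ) (hf : Monotone f) (hf1 : ∀ R, R ≤ f R) (R1 H : ℕ)
    (hH : f R1 ≤ H) : ∃ R, R1 ≤ R ∧ f R ≤ H ∧ H < f (R + 1) := by
  classical
  have h1 : R1 ≤ H := (hf1 R1).trans hH
  refine ⟨Nat.findGreatest (fun R => f R ≤ H) H, ?_, ?_, ?_⟩
  · exact Nat.le_findGreatest h1 hH
  · exact Nat.findGreatest_spec (P := fun R => f R ≤ H) h1 hH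
  · by_contra hcon
    push Not at hcon
    have h2 : Nat.findGreatest (fun R => f R ≤ H) H + 1 ≤ H := (hf1 _).trans hcon
    have := Nat.le_findGreatest (P := fun R => f R ≤ H) h2 hcon
    omega

private theorem split_parts (A : Finset ℕ) (s n : ℕ) (h : s * n ≤ A.card) :
    ∃ PS : Fin s → Finset ℕ, (∀ i, PS i ⊆ A) ∧ (∀ i j, i ≠ j → Disjoint (PS i) (PS j)) ∧
      ∀ i, (PS i).card = n := by
  classical
  let e := A.orderEmbOfCardLe h
  refine ⟨fun i => (univ : Finset (Fin n)).image fun j => e (finProdFinEquiv (i, j)), ?_, ?_, ?_⟩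
  · intro i x hx
    obtain ⟨j, -, rfl⟩ := mem_image.1 hx
    exact Finset.orderEmbOfCardLe_mem A h _
  · intro i j hij
    rw [Finset.disjoint_left]
    intro x hx hx'
    obtain ⟨a, -, rfl⟩ := mem_image.1 hx
    obtain ⟨b, -, hb⟩ := mem_image.1 hx'
    have := e.injective hb
    have h2 := finProdFinEquiv.injective this
    exact hij (congrArg Prod.fst h2).symm
  · intro i
    rw [card_image_of_injective]
    · simp
    · intro a b hab
      have h2 := finProdFinEquiv.injective (e.injective hab)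
      exact congrArg Prod.snd h2

private theorem log_big (c : ℝ) (a : ℝ) : ∃ R0 : ℕ, ∀ R : ℕ, R0 ≤ R →
    a + c * Real.log R ≤ R := by
  have h := Real.isLittleO_log_id_atTop.bound (c := 1 / (2 * (|c| + 1))) (by positivity)
  have h1 : ∀ᶠ x : ℝ in Filter.atTop, a + c * Real.log x ≤ x := by
    filter_upwards [h, Filter.eventually_ge_atTop (2 * |a| + 1)] with x hx hx2
    simp only [id, Real.norm_eq_abs] at hx
    have hx0 : 0 < x := by linarith [abs_nonneg a]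
    rw [abs_of_pos hx0] at hx
    have h3 : c * Real.log x ≤ |c| * |Real.log x| := by
      rw [← abs_mul]; exact le_abs_self _
    have h4 : |c| * |Real.log x| ≤ x / 2 := by
      have : |c| * |Real.log x| ≤ |c| * (1 / (2 * (|c| + 1)) * x) :=
        mul_le_mul_of_nonneg_left hx (abs_nonneg _)
      refine this.trans ?_
      have h5 : |c| * (1 / (2 * (|c| + 1)) * x) = (|c| / (|c| + 1)) * (x / 2) := by
        field_simp
      rw [h5]
      have h6 : |c| / (|c| + 1) ≤ 1 := by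
        rw [div_le_one (by positivity)]; linarith
      calc |c| / (|c| + 1) * (x / 2) ≤ 1 * (x / 2) :=
            mul_le_mul_of_nonneg_right h6 (by positivity)
        _ = x / 2 := one_mul _
    have := le_abs_self a
    linarith
  have h2 := tendsto_natCast_atTop_atTop (R := ℝ) |>.eventually h1
  obtain ⟨R0, hR0⟩ := Filter.eventually_atTop.1 h2
  exact ⟨R0, hR0⟩

private theorem pow_bound (R K d e C t k : ℕ) (hC : C * K ^ (8 * d) ≤ R)
    (ht : t ^ (8 * d * e + 1) ≤ C * k) (hk : k ≤ (K * R ^ e) ^ (8 * d)) : t ≤ R := by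
  have h1 : t ^ (8 * d * e + 1) ≤ R ^ (8 * d * e + 1) := by
    calc t ^ (8 * d * e + 1) ≤ C * k := ht
      _ ≤ C * (K * R ^ e) ^ (8 * d) := Nat.mul_le_mul_left _ hk
      _ = (C * K ^ (8 * d)) * R ^ (8 * d * e) := by
          rw [mul_pow, ← pow_mul, mul_comm e (8 * d)]; ring
      _ ≤ R * R ^ (8 * d * e) := Nat.mul_le_mul_right _ hC
      _ = R ^ (8 * d * e + 1) := by rw [pow_succ]; ring
  exact (Nat.pow_le_pow_iff_left (by omega)).1 h1

private theorem step_bound (A c d R : ℕ) (hR : 0 < R) :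
    16 * (A * (R + 1) ^ c) ^ d ≤ 16 * 2 ^ (c * d) * (A * R ^ c) ^ d := by
  calc 16 * (A * (R + 1) ^ c) ^ d
      ≤ 16 * (A * (2 * R) ^ c) ^ d := by
        have : R + 1 ≤ 2 * R := by omega
        gcongr
    _ = 16 * 2 ^ (c * d) * (A * R ^ c) ^ d := by
        rw [mul_pow 2 R c, mul_left_comm, mul_pow (2 ^ c), ← pow_mul, mul_assoc]

private theorem log_four (K R a : ℕ) (hK : 1 ≤ K) (hR : 0 < R) :
    1 + Real.log (((K : ℝ) * (R : ℝ) ^ a) ^ 4) =
      1 + 4 * Real.log K + 4 * a * Real.log R := by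
  have hR0 : (0 : ℝ) < (R : ℝ) := by exact_mod_cast hR
  have hK0 : (0 : ℝ) < (K : ℝ) := by exact_mod_cast hK
  rw [Real.log_pow, Real.log_mul hK0.ne' (pow_pos hR0 a).ne', Real.log_pow]
  push_cast
  ring

theorem exists_su (d s u l e m w E R0 : ℕ) (hd : 4 ≤ d) (hs : d + 4 ≤ s)
    (hle : (d + 1) * (e + 1) + 1 ≤ d * l) (hlu : l ≤ u) (hul : u ≤ d * l) (hm : 4 * u + 20 ≤ m)
    (hmw : cW d s u * m ≤ w) (hE : 2 ≤ E) :
    ∃ H0 : ℕ, ∀ H : ℕ, H0 ≤ H → ∃ S : Su d s u l e m w E, S.H = H ∧ R0 ≤ S.R := by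
  have hcW : 1 ≤ cW d s u := Nat.one_le_pow _ _ (by omega)
  have hw2 : 2 ≤ w := by
    have h1 : 1 * m ≤ cW d s u * m := Nat.mul_le_mul_right _ hcW
    omega
  obtain ⟨a, ha⟩ : ∃ a, a = w * u + m := ⟨_, rfl⟩
  obtain ⟨c, hc⟩ : ∃ c, c = w * l + m := ⟨_, rfl⟩
  obtain ⟨K, hK⟩ : ∃ K, K = 4 ^ u := ⟨_, rfl⟩
  have hK1 : 1 ≤ K := by
    rw [hK]
    exact Nat.one_le_pow _ _ (by norm_num)
  have hc1 : 1 ≤ c := by omega
  obtain ⟨Ra, hRa⟩ := many_primes u
  obtain ⟨Ct, -, hCt⟩ := Pool.Agent.Lib.MP_dd84fd_nt.DivBound.div_bound (8 * d * a + 1)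
  obtain ⟨Cr, -, hCr⟩ := rho_bound d (by omega) (8 * d * a + 1)
  obtain ⟨Rl, hRl⟩ := log_big (4 * a) (1 + 4 * Real.log K)
  set f : ℕ → ℕ := fun R => 16 * (4 ^ l * R ^ c) ^ d with hf
  have hmono : Monotone f := by
    intro x y hxy
    simp only [hf]
    gcongr
  have hge : ∀ R, R ≤ f R := by
    intro R
    simp only [hf]
    have h1 : R ≤ R ^ c := Nat.le_self_pow (by omega) R
    have h2 : R ^ c ≤ 4 ^ l * R ^ c := Nat.le_mul_of_pos_left _ (by positivity)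
    have h3 : 4 ^ l * R ^ c ≤ (4 ^ l * R ^ c) ^ d := Nat.le_self_pow (by omega) _
    omega
  obtain ⟨N0, hN0⟩ : ∃ N0, N0 = cN d s u m w ^ cN d s u m w := ⟨_, rfl⟩
  obtain ⟨xt, hxt⟩ : ∃ x, x = Ct * K ^ (8 * d) := ⟨_, rfl⟩
  obtain ⟨xr, hxr⟩ : ∃ x, x = Cr * K ^ (8 * d) := ⟨_, rfl⟩
  obtain ⟨xw, hxw⟩ : ∃ x, x = w ^ 2 := ⟨_, rfl⟩
  obtain ⟨R1, hR1⟩ : ∃ R1, R1 = 2 + N0 + R0 + Ra + xt + xr + Rl + xw := ⟨_, rfl⟩
  refine ⟨f R1, fun H hH => ?_⟩
  obtain ⟨R, hR, hR2, hR3⟩ := exists_R f hmono hge R1 H hH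
  obtain ⟨hRpos, hRN, hRR0, hRRa, hRt, hRr, hRl', hRw⟩ : 0 < R ∧ N0 ≤ R ∧ R0 ≤ R ∧ Ra ≤ R ∧
      xt ≤ R ∧ xr ≤ R ∧ Rl ≤ R ∧ xw ≤ R := by
    clear hR3 hR2 hH
    omega
  rw [hxt] at hRt
  rw [hxr] at hRr
  rw [hxw] at hRw
  obtain ⟨P, hP1, hP2⟩ := Nat.exists_infinite_primes (8 * (s + 2) * H * (K * R ^ a) ^ d + 1)
  have hwR : (w : ℝ) ^ 2 ≤ R := by exact_mod_cast hRw
  obtain ⟨PS, hPS1, hPS2, hPS3⟩ := split_parts _ u (R ^ (w - 1)) (hRa R w hRRa hw2 hwR)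
  refine ⟨{ R := R, H := H, P := P, PS := fun i => if h : i < u then PS ⟨i, h⟩ else ∅,
            hd := hd, hs := hs, hle := hle, hlu := hlu, hul := hul, hm := hm, hmw := hmw,
            hE := hE, hR := hN0 ▸ hRN, prime := hP2,
            hH1 := by rw [← hc]; exact hR2, hH2 := ?_,
            hP := by rw [← ha, ← hK]; exact hP1, hPS := ?_, hPd := ?_, hPc := ?_,
            htau := ?_, hrho := ?_, hlog := ?_ }, rfl, ?_⟩
  · rw [← hc]
    refine hR3.le.trans ?_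
    exact step_bound (4 ^ l) c d R hRpos
  · intro i hi q hq
    simp only [dif_pos hi] at hq
    have := hPS1 ⟨i, hi⟩ hq
    rw [mem_filter, mem_Ioc] at this
    exact ⟨this.2, this.1.1, this.1.2⟩
  · intro i i' hi hi' hne
    simp only [dif_pos hi, dif_pos hi']
    exact hPS2 _ _ fun h => hne (congrArg Fin.val h)
  · intro i hi
    simp only [dif_pos hi]
    exact hPS3 _
  · rw [← ha, ← hK]
    intro k hk1 hk2
    exact pow_bound R K d a Ct _ k hRt (hCt k (Nat.one_le_iff_ne_zero.1 hk1)) hk2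
  · rw [← ha, ← hK]
    intro k hk1 hk2
    exact pow_bound R K d a Cr _ k hRr (hCr k hk1) hk2
  · have h3 : ((4 : ℝ) ^ u) = (K : ℝ) := by
      rw [hK]
      push_cast
      ring
    rw [← ha, h3, log_four K R a hK1 hRpos]
    exact hRl R hRl'
  · exact hRR0

end Pool.Agent.Lib.MP_e426f4_ag.DK
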