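import Pool.Agent.Lib.MP_e426f4_ag.DK.FactsX

/-!
# Frac: approximations of `β g^d` for many primes `g` give one for `β`

All fractions `c_g/(q_g g^d)` are equal (two different ones differ by at least `1/(Q² (4W)^(2d)) > 2 D`); let `c/q` be the
common value in lowest terms, `q ∣ q_g g^d` for all `g ∈ GG`, `q ≤ Q (4W)^d ≤ (4W)^(d (e + 2)) ≤ W^(2 d (e + 2))`.  At most
`2 d (e + 2) ≤ R` primes `> W` divide `q`, so some `g ∈ GG` is prime to `q` and `q ∣ q_g`.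
-/

set_option autoImplicit false

namespace Pool.Agent.Lib.MP_e426f4_ag.DK

open Finset
open Pool.Agent.Lib.MP_e426f4_ag.DG

/-- two fractions close to `al` with small denominators are equal -/
private theorem frac_eq {al D X : ℝ} {c c' : ℤ} {M M' : ℕ} (hM : 1 ≤ M) (hM' : 1 ≤ M')
    (hMX : (M : ℝ) ≤ X) (hMX' : (M' : ℝ) ≤ X) (hD : 2 * D * X ^ 2 < 1)
    (h : |al - (c : ℝ) / M| ≤ D) (h' : |al - (c' : ℝ) / M'| ≤ D) : c * M' = c' * M := by
  by_contra hne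
  have h0 : (0 : ℝ) < M := by exact_mod_cast hM
  have h0' : (0 : ℝ) < M' := by exact_mod_cast hM'
  have hD0 : 0 ≤ D := (abs_nonneg _).trans h
  have h1 : (1 : ℝ) ≤ |(c : ℝ) * M' - c' * M| := by
    have h2 : (1 : ℤ) ≤ |c * M' - c' * M| := Int.one_le_abs (sub_ne_zero.mpr hne)
    have h3 : ((1 : ℤ) : ℝ) ≤ ((|c * M' - c' * M| : ℤ) : ℝ) := by exact_mod_cast h2
    push_cast at h3
    exact h3
  have h2 : |(c : ℝ) / M - c' / M'| ≤ 2 * D := by
    have h3 : (c : ℝ) / M - c' / M' = (al - c' / M') - (al - c / M) := by ring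
    rw [h3]
    calc |(al - c' / M') - (al - c / M)| ≤ |al - c' / M'| + |al - c / M| := abs_sub _ _
      _ ≤ 2 * D := by linarith
  have h3 : (c : ℝ) * M' - c' * M = (c / M - c' / M') * (M * M') := by
    field_simp
  have h4 : |(c : ℝ) * M' - c' * M| ≤ 2 * D * X ^ 2 := by
    rw [h3, abs_mul, abs_of_pos (mul_pos h0 h0')]
    have h5 : (M : ℝ) * M' ≤ X ^ 2 := by
      rw [pow_two]
      exact mul_le_mul hMX hMX' h0'.le (h0.le.trans hMX)
    exact mul_le_mul h2 h5 (mul_pos h0 h0').le (by linarith)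
  linarith

theorem frac {d s u l e m w E : ℕ} (S : Su d s u l e m w E) (i : ℕ) (hi : i < u) (al D : ℝ)
    (f : ℕ) (hf : f ≤ e) (GG : Finset ℕ) (hGG : GG ⊆ S.PS i) (hc : S.R < GG.card)
    (hD : 2 * D * ((4 * (S.W : ℝ)) ^ (d * (f + 1))) ^ 2 * (4 * (S.W : ℝ)) ^ (2 * d) < 1)
    (h : ∀ g ∈ GG, ∃ (q : ℕ) (c : ℤ), 1 ≤ q ∧ q ≤ (4 * S.W) ^ (d * (f + 1)) ∧
      |al - (c : ℝ) / ((q : ℝ) * (g : ℝ) ^ d)| ≤ D) :
    ∃ (q : ℕ) (c : ℤ), 1 ≤ q ∧ q ≤ (4 * S.W) ^ (d * (f + 1)) ∧ |al - (c : ℝ) / q| ≤ D := by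
  classical
  obtain ⟨hd4, -, hel, hlu, -⟩ := S.nums
  have hW : 1 ≤ S.W := S.W_pos
  choose! q c hq1 hq2 hqa using h
  have hgp : ∀ g ∈ GG, g.Prime ∧ g ≤ 4 * S.W := by
    intro g hg
    obtain ⟨h1, -, h3⟩ := S.hPS i hi g (hGG hg)
    exact ⟨h1, h3⟩
  obtain ⟨X, hX⟩ : ∃ X : ℕ, X = (4 * S.W) ^ (d * (f + 1)) * (4 * S.W) ^ d := ⟨_, rfl⟩
  have hM1 : ∀ g ∈ GG, 1 ≤ q g * g ^ d := by
    intro g hg
    exact Nat.mul_pos (hq1 g hg) (Nat.pow_pos (hgp g hg).1.pos)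
  have hMX : ∀ g ∈ GG, q g * g ^ d ≤ X := by
    intro g hg
    rw [hX]
    exact Nat.mul_le_mul (hq2 g hg) (Nat.pow_le_pow_left (hgp g hg).2 d)
  have hDX : 2 * D * (X : ℝ) ^ 2 < 1 := by
    have h1 : 2 * D * (X : ℝ) ^ 2 =
        2 * D * ((4 * (S.W : ℝ)) ^ (d * (f + 1))) ^ 2 * (4 * (S.W : ℝ)) ^ (2 * d) := by
      rw [hX]
      push_cast
      ring
    rw [h1]
    exact hD
  have happ : ∀ g ∈ GG, |al - (c g : ℝ) / ((q g * g ^ d : ℕ) : ℝ)| ≤ D := by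
    intro g hg
    have := hqa g hg
    push_cast
    exact this
  have heq : ∀ g ∈ GG, ∀ g' ∈ GG, c g * ((q g' * g' ^ d : ℕ) : ℤ) = c g' * ((q g * g ^ d : ℕ) : ℤ) := by
    intro g hg g' hg'
    exact frac_eq (hM1 g hg) (hM1 g' hg') (by exact_mod_cast hMX g hg) (by exact_mod_cast hMX g' hg')
      hDX (happ g hg) (happ g' hg')
  have hne : GG.Nonempty := by
    rw [← Finset.card_pos]
    omega
  obtain ⟨g0, hg0⟩ := hne
  obtain ⟨r, hr⟩ : ∃ r : ℚ, r = (c g0 : ℚ) / ((q g0 * g0 ^ d : ℕ) : ℤ) := ⟨_, rfl⟩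
  have hrg : ∀ g ∈ GG, r = (c g : ℚ) / (((q g * g ^ d : ℕ) : ℤ) : ℚ) := by
    intro g hg
    rw [hr, div_eq_div_iff]
    · have := heq g0 hg0 g hg
      exact_mod_cast this
    · have := hM1 g0 hg0
      intro h0
      have h2 : ((q g0 * g0 ^ d : ℕ) : ℤ) = 0 := by exact_mod_cast h0
      omega
    · have := hM1 g hg
      intro h0
      have h2 : ((q g * g ^ d : ℕ) : ℤ) = 0 := by exact_mod_cast h0
      omega
  have hden : ∀ g ∈ GG, r.den ∣ q g * g ^ d := by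
    intro g hg
    rw [hrg g hg]
    have := Rat.den_dvd (c g) ((q g * g ^ d : ℕ) : ℤ)
    exact_mod_cast this
  have hdenX : r.den ≤ X := (Nat.le_of_dvd (hM1 g0 hg0) (hden g0 hg0)).trans (hMX g0 hg0)
  have hex : ∃ g ∈ GG, ¬ g ∣ r.den := by
    by_contra hcon
    push Not at hcon
    have h1 : GG ⊆ r.den.divisors := by
      intro g hg
      rw [Nat.mem_divisors]
      exact ⟨hcon g hg, r.den_nz⟩
    have h2 : GG.card ≤ S.R := by
      refine (Finset.card_le_card h1).trans (S.tau_le r.den (Nat.pos_of_ne_zero r.den_nz) ?_)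
      refine hdenX.trans ?_
      have h3 : (4 * S.W) ^ u ≤ S.B := by
        rw [S.B_eq, mul_pow]
        exact Nat.le_mul_of_pos_right _ S.T_pos
      calc X = (4 * S.W) ^ (d * (f + 1) + d) := by rw [hX, ← pow_add]
        _ ≤ (4 * S.W) ^ (u * (8 * d)) := by
          apply Nat.pow_le_pow_right (by omega)
          have h4 : f + 2 ≤ u := by omega
          calc d * (f + 1) + d = d * (f + 2) := by ring
            _ ≤ d * u := Nat.mul_le_mul_left d h4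
            _ ≤ u * (8 * d) := by nlinarith [Nat.zero_le (d * u)]
        _ = ((4 * S.W) ^ u) ^ (8 * d) := by rw [pow_mul]
        _ ≤ S.B ^ (8 * d) := Nat.pow_le_pow_left h3 _
    omega
  obtain ⟨g, hg, hgd⟩ := hex
  have hcop : Nat.Coprime r.den (g ^ d) :=
    Nat.Coprime.pow_right d (((Nat.Prime.coprime_iff_not_dvd (hgp g hg).1).mpr hgd).symm)
  have hdq : r.den ∣ q g := hcop.dvd_of_dvd_mul_right (hden g hg)
  refine ⟨r.den, r.num, Nat.pos_of_ne_zero r.den_nz, (Nat.le_of_dvd (hq1 g hg) hdq).trans (hq2 g hg), ?_⟩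
  have h1 : (r.num : ℝ) / (r.den : ℝ) = (c g : ℝ) / ((q g * g ^ d : ℕ) : ℝ) := by
    have h2 : ((r : ℚ) : ℝ) = (r.num : ℝ) / (r.den : ℝ) := by
      exact Rat.cast_def (K := ℝ) r
    rw [← h2, hrg g hg]
    push_cast
    rfl
  rw [h1]
  exact happ g hg

end Pool.Agent.Lib.MP_e426f4_ag.DK
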