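import Pool.Agent.Lib.MP_e426f4_ag.DH.LossyG
import Pool.Agent.Lib.MP_e426f4_ag.DK.FactsX

/-!
# Lossy: the lossy bound for `X` at the large scale and for `Xn l` at the small scale (adapt `DH/Lossy.lean`)

Both are `DH.lossy_gen`: `X` with `F = 4^u E`, `B`, `r = R`; `Xn l` with `F = 4^l E`, `BB`, `r = R`
(`q'' ≤ 4 BB^d ≤ H`; `tau, rho, log` from the facts of `Su`: `q ≤ 4 B^d ≤ B^(8d)`).
-/

set_option autoImplicit false

namespace Pool.Agent.Lib.MP_e426f4_ag.DK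

open Finset
open Pool.Agent.Lib.MP_e426f4_ag.DG

private theorem lossy_B16 {d s u l e m w E : ℕ} (S : Su d s u l e m w E) : 16 ≤ S.B := by
  obtain ⟨-, -, h1, h2, -, -, -, -, -⟩ := S.nums
  have hW := S.W_pos
  have hT := S.T_pos
  have h3 : 4 ^ 2 ≤ 4 ^ u := Nat.pow_le_pow_right (by norm_num) (by omega)
  have h4 : 1 ≤ S.W ^ u * S.T := Nat.mul_pos (Nat.pow_pos hW) hT
  rw [S.B_eq, mul_assoc]
  nlinarith

private theorem lossy_q {d s u l e m w E : ℕ} (S : Su d s u l e m w E) (hd : 4 ≤ d) (q : ℕ)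
    (hq : q ≤ 4 * S.B ^ d) : q ≤ S.B ^ (8 * d) := by
  have hB := lossy_B16 S
  calc q ≤ 4 * S.B ^ d := hq
    _ ≤ S.B * S.B ^ d := Nat.mul_le_mul_right _ (by omega)
    _ = S.B ^ (d + 1) := by ring
    _ ≤ S.B ^ (8 * d) := Nat.pow_le_pow_right (by omega) (by omega)

private theorem lossy_log {d s u l e m w E : ℕ} (S : Su d s u l e m w E) :
    1 + Real.log (S.B : ℝ) ≤ S.R := by
  have hB := lossy_B16 S
  have hB' : (1 : ℝ) ≤ S.B := by exact_mod_cast (by omega : 1 ≤ S.B)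
  have h1 := S.log_le
  rw [Real.log_pow] at h1
  have h2 : 0 ≤ Real.log (S.B : ℝ) := Real.log_nonneg hB'
  push_cast at h1
  linarith

private theorem lossy_F (u E : ℕ) (hE : 2 ≤ E) : 2 ≤ 4 ^ u * E := by
  have h1 : 1 ≤ 4 ^ u := Nat.one_le_pow _ _ (by norm_num)
  nlinarith

theorem lossy (d s u l e E : ℕ) (hd : 4 ≤ d) (hE : 2 ≤ E) : ∃ C : ℝ, 1 ≤ C ∧ ∀ (m w : ℕ)
    (S : Su d s u l e m w E) (A : Arc S.P (4 * S.B ^ d)) (b : ZMod S.P), A.q b ≤ S.H →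
    FF S.P S.n d S.X b b ≤ C * S.H * (S.R : ℝ) ^ 2 * (S.B + (S.B : ℝ) ^ 2 * S.pk A b) := by
  obtain ⟨C, hC, hmain⟩ := DH.lossy_gen d (4 ^ u * E) hd (lossy_F u E hE)
  refine ⟨C, hC, ?_⟩
  intro m w S A b hq
  obtain ⟨hn0, hnP, hnH, hPn, -, -, -⟩ := S.n_facts
  have hB := lossy_B16 S
  have h1 := hmain S.P S.n S.H S.B S.R (A.q b) (A.c b) b S.X hn0 hnP hnH hPn (by omega)
    (A.qpos b) hq (A.cop b) (A.approx b)
    (by
      intro k hk
      have hk1 : 1 ≤ k := Nat.pos_of_dvd_of_pos hk (A.qpos b)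
      exact S.rho_le k hk1 ((Nat.le_of_dvd (A.qpos b) hk).trans (lossy_q S hd _ (A.qle b))))
    (lossy_log S)
    (fun x hx => S.X_bounds x hx)
  have h2 : S.pk A b = kap d (A.q b) / max 1 ((S.H : ℝ) * (S.B : ℝ) ^ d *
      |(b.val : ℝ) / S.P - (A.c b : ℝ) / A.q b|) := by
    unfold Su.pk Su.lam Arc.dl
    ring
  rw [h2]
  exact h1

theorem lossy_small (d s u l e E : ℕ) (hd : 4 ≤ d) (hE : 2 ≤ E) : ∃ C : ℝ, 1 ≤ C ∧ ∀ (m w : ℕ)
    (S : Su d s u l e m w E) (A : Arc S.P (4 * S.BB ^ d)) (b : ZMod S.P),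
    FF S.P S.n d (S.Xn l) b b ≤ C * S.H * (S.R : ℝ) ^ 2 * (S.BB + (S.BB : ℝ) ^ 2 *
      (kap d (A.q b) / max 1 ((S.H : ℝ) * (S.BB : ℝ) ^ d * |A.dl b|))) := by
  obtain ⟨C, hC, hmain⟩ := DH.lossy_gen d (4 ^ l * E) hd (lossy_F l E hE)
  refine ⟨C, hC, ?_⟩
  intro m w S A b
  obtain ⟨hn0, hnP, hnH, hPn, -, -, -⟩ := S.n_facts
  have hB := lossy_B16 S
  have hBB := S.BB_le_B
  have hBB1 := S.BB_pos
  have hqB : A.q b ≤ 4 * S.B ^ d :=
    (A.qle b).trans (Nat.mul_le_mul_left _ (Nat.pow_le_pow_left hBB d))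
  have hqH : A.q b ≤ S.H := by
    have h1 := A.qle b
    have h2 := S.BBH
    have h3 : 4 * S.BB ^ d ≤ 16 * S.BB ^ d := Nat.mul_le_mul_right _ (by norm_num)
    omega
  have hlog : 1 + Real.log (S.BB : ℝ) ≤ S.R := by
    have h1 := lossy_log S
    have h2 : Real.log (S.BB : ℝ) ≤ Real.log (S.B : ℝ) := by
      apply Real.log_le_log
      · exact_mod_cast hBB1
      · exact_mod_cast hBB
    linarith
  have h1 := hmain S.P S.n S.H S.BB S.R (A.q b) (A.c b) b (S.Xn l) hn0 hnP hnH hPn hBB1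
    (A.qpos b) hqH (A.cop b) (A.approx b)
    (by
      intro k hk
      have hk1 : 1 ≤ k := Nat.pos_of_dvd_of_pos hk (A.qpos b)
      exact S.rho_le k hk1 ((Nat.le_of_dvd (A.qpos b) hk).trans (lossy_q S hd _ hqB)))
    hlog
    (fun x hx => S.Y_bounds x hx)
  exact h1

end Pool.Agent.Lib.MP_e426f4_ag.DK
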