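import Pool.Agent.Lib.MP_e426f4_ag.DK.FactsX

/-!
# NZero: no small zero, no solution modulo `P` (adapt `DH/NZero.lean`; `S.BH`)
-/

set_option autoImplicit false

namespace Pool.Agent.Lib.MP_e426f4_ag.DK

open Finset
open Pool.Agent.Lib.MP_e426f4_ag.DG
open Pool.Agent.Lib.MP_e426f4_ag.DH (SmallZ rhsG)

theorem NN_eq_zero {d s u l e m w E : ℕ} (S : Su d s u l e m w E) (e' : ℕ) (h : u * e' ≤ d * l)
    (h' : e' ≤ d) (a : Fin s → ℤ) (ha : ∀ i, |a i| ≤ (S.H : ℤ)) (hz : ¬ SmallZ d e' S.H a) :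
    NN S.P d (fun _ : Fin s => S.X) (fun i => ((a i : ℤ) : ZMod S.P)) 0 = 0 := by
  obtain ⟨hd1, hs1, -⟩ := S.nums
  obtain ⟨-, -, -, -, hP, -, -⟩ := S.n_facts
  unfold NN
  rw [Nat.cast_eq_zero, Finset.card_eq_zero, Finset.filter_eq_empty_iff]
  intro x hx hsum
  rw [Fintype.mem_piFinset] at hx
  apply hz
  have hb : ∀ i, 1 ≤ x i ∧ x i ≤ S.B := fun i =>
    ⟨(S.X_bounds (x i) (hx i)).1, (S.X_bounds (x i) (hx i)).2.1⟩
  refine ⟨fun i => (x i : ℤ), ?_, ?_, ?_⟩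
  · intro h0
    have := congrFun h0 ⟨0, by omega⟩
    have h1 := (hb ⟨0, by omega⟩).1
    simp at this
    omega
  · have h1 : ((∑ i, a i * (x i : ℤ) ^ d : ℤ) : ZMod S.P) = 0 := by
      push_cast
      exact hsum
    rw [ZMod.intCast_zmod_eq_zero_iff_dvd] at h1
    by_contra hne
    have h2 := Int.le_of_dvd (abs_pos.mpr hne) ((dvd_abs _ _).mpr h1)
    have h3 : |∑ i, a i * (x i : ℤ) ^ d| ≤ s * (S.H * (S.B : ℤ) ^ d) := by
      calc |∑ i, a i * (x i : ℤ) ^ d| ≤ ∑ i, |a i * (x i : ℤ) ^ d| := Finset.abs_sum_le_sum_abs _ _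
        _ ≤ ∑ _i : Fin s, ((S.H : ℤ) * (S.B : ℤ) ^ d) := by
            refine Finset.sum_le_sum fun i _ => ?_
            rw [abs_mul, abs_pow, Nat.abs_cast]
            have h4 : ((x i : ℕ) : ℤ) ^ d ≤ (S.B : ℤ) ^ d :=
              pow_le_pow_left₀ (by positivity) (by exact_mod_cast (hb i).2) d
            exact mul_le_mul (ha i) h4 (by positivity) (by positivity)
        _ = s * (S.H * (S.B : ℤ) ^ d) := by simp
    have h5 : ((8 * (s + 2) * S.H * S.B ^ d : ℕ) : ℤ) < S.P := by exact_mod_cast hP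
    push_cast at h5
    have h6 : (0 : ℤ) ≤ (S.H : ℤ) * (S.B : ℤ) ^ d := by positivity
    nlinarith
  · intro i
    rw [Nat.abs_cast]
    have h4 : (x i) ^ e' ≤ S.B ^ e' := Nat.pow_le_pow_left (hb i).2 e'
    have h5 : S.B ^ e' ≤ S.H := S.BH e' h h'
    exact_mod_cast (h4.trans h5)

end Pool.Agent.Lib.MP_e426f4_ag.DK
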