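import Pool.Agent.Lib.MP_e426f4_ag.DK.SupBase
import Pool.Agent.Lib.MP_e426f4_ag.DK.CsG
import Pool.Agent.Lib.MP_e426f4_ag.DK.Frac

/-!
# Sup: CLAIM(i, f), `l ≤ i ≤ u`, `f ≤ e`

Induction on `i`.  `Xn (i+1) = Xn i · PS i` (`Xn_succ`, `Xn_inj`, `cs_g`):
`∑_g F_i(β g^d) > 8 H T^(i-l+4) p^(2i+1-f)`.
Case A, `f ≥ 1` and `F_i(β g^d) > 8 H T^(i-l+3) p^(2i-(f-1))` for some `g`: CLAIM(i, f-1) for `β g^d`, multiply the
denominator by `g^d`.  Case B: otherwise `F_i(β g^d) ≤ 8 H T^(i-l+3) p^(2i+1-f)` for all `g` (for `f = 0` by `FFn_le`), so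
the set `GG` of the `g` with `F_i(β g^d) > 8 H T^(i-l+3) p^(2i-f)` has `1 + |GG| > T`; `frac` with
`D = W^(f+1)/(H W^(d(i+1)))`: `(2d+1)(e+1) + d + 1 ≤ 2 d l` (`nums`), `H ≥ (4W)^(dl)` (`H_ge`).
`(β g^d).val/P` differs from `β.val g^d/P` by an integer.
-/

set_option autoImplicit false

namespace Pool.Agent.Lib.MP_e426f4_ag.DK

open Finset
open Pool.Agent.Lib.MP_e426f4_ag.DG

/-- `(b g^d).val / P` differs from `b.val g^d / P` by an integer -/
private theorem sup_val (P : ℕ) [NeZero P] (b : ZMod P) (g d : ℕ) : ∃ k : ℤ,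
    (b.val : ℝ) / P * (g : ℝ) ^ d = ((b * (g : ZMod P) ^ d).val : ℝ) / P + k := by
  have hP : (0 : ℝ) < P := by exact_mod_cast Nat.pos_of_ne_zero (NeZero.ne P)
  have h1 : b * (g : ZMod P) ^ d = ((b.val * g ^ d : ℕ) : ZMod P) := by
    push_cast
    rw [ZMod.natCast_zmod_val]
  have h2 : (b * (g : ZMod P) ^ d).val = (b.val * g ^ d) % P := by
    rw [h1, ZMod.val_natCast]
  obtain ⟨K, hK⟩ : ∃ K : ℕ, K = b.val * g ^ d / P := ⟨_, rfl⟩
  refine ⟨(K : ℤ), ?_⟩
  rw [h2]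
  have h3 : (P : ℝ) * ((b.val * g ^ d / P : ℕ) : ℝ) + ((b.val * g ^ d % P : ℕ) : ℝ) =
      (b.val : ℝ) * (g : ℝ) ^ d := by
    exact_mod_cast Nat.div_add_mod (b.val * g ^ d) P
  rw [← hK] at h3
  rw [div_mul_eq_mul_div, ← h3, Int.cast_natCast]
  field_simp
  ring

/-- an approximation of `b g^d` gives one of `b` -/
private theorem sup_div (P : ℕ) [NeZero P] (b : ZMod P) (g d q W : ℕ) (c : ℤ) (N : ℝ) (i : ℕ) (H : ℝ)
    (hH : 0 < H) (hW : 0 < W) (hg : W < g) (hq : 1 ≤ q) (hN : 0 ≤ N)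
    (h : |((b * (g : ZMod P) ^ d).val : ℝ) / P - (c : ℝ) / q| ≤ N / (H * (W : ℝ) ^ (d * i))) :
    ∃ c' : ℤ, |(b.val : ℝ) / P - (c' : ℝ) / ((q : ℝ) * (g : ℝ) ^ d)| ≤
      N / (H * (W : ℝ) ^ (d * (i + 1))) := by
  obtain ⟨k, hk⟩ := sup_val P b g d
  have hg0 : (0 : ℝ) < (g : ℝ) ^ d := by
    have : (0 : ℝ) < g := by exact_mod_cast (hW.trans hg)
    positivity
  have hq0 : (0 : ℝ) < q := by exact_mod_cast hq
  have hW0 : (0 : ℝ) < W := by exact_mod_cast hW
  refine ⟨c + k * q, ?_⟩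
  have h1 : (b.val : ℝ) / P - ((c + k * q : ℤ) : ℝ) / ((q : ℝ) * (g : ℝ) ^ d) =
      (((b * (g : ZMod P) ^ d).val : ℝ) / P - (c : ℝ) / q) / (g : ℝ) ^ d := by
    have h2 : (b.val : ℝ) / P = (((b * (g : ZMod P) ^ d).val : ℝ) / P + k) / (g : ℝ) ^ d := by
      rw [← hk]
      field_simp
    rw [h2]
    push_cast
    field_simp
    ring
  rw [h1, abs_div, abs_of_pos hg0, div_le_iff₀ hg0]
  refine h.trans ?_
  have h3 : (W : ℝ) ^ d ≤ (g : ℝ) ^ d :=
    pow_le_pow_left₀ hW0.le (by exact_mod_cast hg.le) d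
  have h4 : N / (H * (W : ℝ) ^ (d * i)) = N / (H * (W : ℝ) ^ (d * (i + 1))) * (W : ℝ) ^ d := by
    have h5 : (W : ℝ) ^ (d * (i + 1)) = (W : ℝ) ^ (d * i) * (W : ℝ) ^ d := by
      rw [← pow_add]
      congr 1
    rw [h5]
    field_simp
  rw [h4]
  exact mul_le_mul_of_nonneg_left h3 (by positivity)

/-- the condition of `frac` -/
private theorem sup_num {d s u l e m w E : ℕ} (S : Su d s u l e m w E) (i f : ℕ) (hi : l ≤ i)
    (hf : f ≤ e) :
    2 * ((S.W : ℝ) ^ (f + 1) / (S.H * (S.W : ℝ) ^ (d * (i + 1)))) *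
      ((4 * (S.W : ℝ)) ^ (d * (f + 1))) ^ 2 * (4 * (S.W : ℝ)) ^ (2 * d) < 1 := by
  obtain ⟨hd, hs, hel, hlu, hul, hm, hmw, hle, hlast⟩ := S.nums
  have hW1 := S.W_pos
  have hR1 := S.R_pos
  have hT1 := S.T_pos
  have hH0 : 0 < S.H := S.n_facts.2.2.2.2.2.2
  have hW : (0 : ℝ) < S.W := by exact_mod_cast hW1
  have hH : (0 : ℝ) < S.H := by exact_mod_cast hH0
  -- the inequality of natural numbers
  have key : 2 * S.W ^ (f + 1) * ((4 * S.W) ^ (d * (f + 1))) ^ 2 * (4 * S.W) ^ (2 * d) <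
      S.H * S.W ^ (d * (i + 1)) := by
    have hHge := S.H_ge
    have hRW : S.R ≤ S.W := by
      have h0 := S.small_le 0 1 (by omega)
      rwa [pow_zero, pow_one, one_mul] at h0
    have hconst : 2 * 4 ^ (2 * d * (f + 2)) ≤ S.R := by
      obtain ⟨h1, h2, -⟩ := Su.sum_le_cN d s u m w
      calc 2 * 4 ^ (2 * d * (f + 2)) ≤ 4 * 4 ^ (2 * d * (f + 2)) :=
            Nat.mul_le_mul_right _ (by norm_num)
        _ = 4 ^ (2 * d * (f + 2) + 1) := by ring
        _ ≤ S.R := by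
            apply S.const_le 4
            · omega
            · refine le_trans ?_ h2
              have h3 : f + 2 ≤ u := by omega
              have h4 : 2 * d * (f + 2) ≤ 2 * d * u := Nat.mul_le_mul_left _ h3
              nlinarith
    have e1 : 2 * S.W ^ (f + 1) * ((4 * S.W) ^ (d * (f + 1))) ^ 2 * (4 * S.W) ^ (2 * d) =
        2 * 4 ^ (2 * d * (f + 2)) * S.W ^ ((2 * d + 1) * (f + 1) + 2 * d) := by
      rw [← pow_mul, mul_pow, mul_pow]
      have a1 : (4 : ℕ) ^ (2 * d * (f + 2)) = 4 ^ (d * (f + 1) * 2) * 4 ^ (2 * d) := by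
        rw [← pow_add]
        congr 1
        ring
      have a2 : S.W ^ ((2 * d + 1) * (f + 1) + 2 * d) =
          S.W ^ (f + 1) * S.W ^ (d * (f + 1) * 2) * S.W ^ (2 * d) := by
        rw [← pow_add, ← pow_add]
        congr 1
        ring
      rw [a1, a2]
      ring
    have hA : (2 * d + 1) * (f + 1) + 2 * d + 1 ≤ d * l + d * (i + 1) := by
      have b1 : (2 * d + 1) * (f + 1) ≤ (2 * d + 1) * (e + 1) := Nat.mul_le_mul_left _ (by omega)
      have b2 : d * (l + 1) ≤ d * (i + 1) := Nat.mul_le_mul_left _ (by omega)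
      have b3 : d * (l + 1) = d * l + d := by ring
      omega
    have hpos : 0 < S.W ^ ((2 * d + 1) * (f + 1) + 2 * d) := Nat.pow_pos hW1
    rw [e1]
    calc 2 * 4 ^ (2 * d * (f + 2)) * S.W ^ ((2 * d + 1) * (f + 1) + 2 * d)
        ≤ S.W * S.W ^ ((2 * d + 1) * (f + 1) + 2 * d) :=
          Nat.mul_le_mul_right _ (hconst.trans hRW)
      _ < 4 * (S.W * S.W ^ ((2 * d + 1) * (f + 1) + 2 * d)) := by
          have := Nat.mul_pos hW1 hpos
          omega
      _ = 4 * S.W ^ ((2 * d + 1) * (f + 1) + 2 * d + 1) := by ring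
      _ ≤ 4 * S.W ^ (d * l + d * (i + 1)) :=
          Nat.mul_le_mul_left _ (Nat.pow_le_pow_right hW1 hA)
      _ ≤ 4 ^ (d * l) * S.W ^ (d * l + d * (i + 1)) := by
          apply Nat.mul_le_mul_right
          calc 4 = 4 ^ 1 := by norm_num
            _ ≤ 4 ^ (d * l) := Nat.pow_le_pow_right (by norm_num) (Nat.mul_pos (by omega) (by omega))
      _ = (4 * S.W) ^ (d * l) * 1 * S.W ^ (d * (i + 1)) := by
          rw [mul_pow, pow_add]
          ring
      _ ≤ (4 * S.W) ^ (d * l) * S.T ^ d * S.W ^ (d * (i + 1)) := by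
          apply Nat.mul_le_mul_right
          apply Nat.mul_le_mul_left
          exact Nat.one_le_pow _ _ hT1
      _ ≤ S.H * S.W ^ (d * (i + 1)) := Nat.mul_le_mul_right _ hHge
  have key' : 2 * (S.W : ℝ) ^ (f + 1) * ((4 * (S.W : ℝ)) ^ (d * (f + 1))) ^ 2 *
      (4 * (S.W : ℝ)) ^ (2 * d) < S.H * (S.W : ℝ) ^ (d * (i + 1)) := by
    exact_mod_cast key
  have h1 : 2 * ((S.W : ℝ) ^ (f + 1) / (S.H * (S.W : ℝ) ^ (d * (i + 1)))) *
      ((4 * (S.W : ℝ)) ^ (d * (f + 1))) ^ 2 * (4 * (S.W : ℝ)) ^ (2 * d) =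
      (2 * (S.W : ℝ) ^ (f + 1) * ((4 * (S.W : ℝ)) ^ (d * (f + 1))) ^ 2 *
      (4 * (S.W : ℝ)) ^ (2 * d)) / (S.H * (S.W : ℝ) ^ (d * (i + 1))) := by
    ring
  rw [h1, div_lt_one (by positivity)]
  exact key'

theorem sup_claim (d s u l e E : ℕ) : ∃ C : ℕ, ∀ (m w : ℕ)
    (S : Su d s u l e m w E), C ≤ S.R → ∀ (i : ℕ), l ≤ i → i ≤ u → ∀ (b : ZMod S.P) (f : ℕ), f ≤ e →
    8 * (S.H : ℝ) * (S.T : ℝ) ^ (i - l + 3) * (S.p : ℝ) ^ (2 * i - f) < FF S.P S.n d (S.Xn i) b b →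
    ∃ (q : ℕ) (c : ℤ), 1 ≤ q ∧ q ≤ (4 * S.W) ^ (d * (f + 1)) ∧
      |(b.val : ℝ) / S.P - (c : ℝ) / q| ≤ (S.W : ℝ) ^ (f + 1) / (S.H * (S.W : ℝ) ^ (d * i)) := by
  obtain ⟨C0, hbase⟩ := sup_base d s u l e E
  refine ⟨C0, fun m w S hCR i hli => ?_⟩
  induction i, hli using Nat.le_induction with
  | base =>
    intro _ b f hf hF
    rw [Nat.sub_self, zero_add] at hF
    exact hbase m w S hCR b f hf hF
  | succ i hli ih =>
    intro hiu b f hf hF
    have ih' := ih (by omega)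
    clear ih
    obtain ⟨hd, hs, hel, hlu, hul, hm, hmw, hle, hlast⟩ := S.nums
    have hn0 : 0 < S.n := S.n_facts.1
    have hH0 : 0 < S.H := S.n_facts.2.2.2.2.2.2
    have hW1 := S.W_pos
    have hR1 := S.R_pos
    have hT1 := S.T_pos
    have hp1 := S.p_pos
    have hH : (0 : ℝ) < S.H := by exact_mod_cast hH0
    have hT : (1 : ℝ) ≤ S.T := by exact_mod_cast hT1
    have hp : (1 : ℝ) ≤ S.p := by exact_mod_cast hp1
    have hW : (1 : ℝ) ≤ S.W := by exact_mod_cast hW1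
    have hcard : ((S.PS i).card : ℝ) = S.p := by
      have := S.hPc i (by omega)
      rw [this]
      rfl
    -- a lower bound for the sum
    have hcs := cs_g (P := S.P) S.n d hn0 (S.Xn i) (S.PS i) (S.Xn_inj i (by omega)) b
    rw [← S.Xn_succ i, hcard] at hcs
    set F : ℕ → ℝ := fun g => FF S.P S.n d (S.Xn i) (b * (g : ZMod S.P) ^ d)
      (b * (g : ZMod S.P) ^ d) with hFdef
    set Z : ℝ := 8 * (S.H : ℝ) * (S.T : ℝ) ^ (i - l + 3) * (S.p : ℝ) ^ (2 * i - f) with hZ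
    have hZ0 : 0 < Z := by positivity
    have hsum : Z * S.T * S.p < ∑ g ∈ S.PS i, F g := by
      have h1 : 8 * (S.H : ℝ) * (S.T : ℝ) ^ (i + 1 - l + 3) * (S.p : ℝ) ^ (2 * (i + 1) - f) =
          S.p * (Z * S.T * S.p) := by
        have h2 : i + 1 - l + 3 = (i - l + 3) + 1 := by omega
        have h3 : 2 * (i + 1) - f = (2 * i - f) + 2 := by omega
        rw [h2, h3, hZ]
        ring
      rw [h1] at hF
      exact lt_of_mul_lt_mul_left (hF.trans_le hcs) (by linarith)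
    by_cases hA : 1 ≤ f ∧ ∃ g ∈ S.PS i,
        8 * (S.H : ℝ) * (S.T : ℝ) ^ (i - l + 3) * (S.p : ℝ) ^ (2 * i - (f - 1)) < F g
    · -- Case A
      obtain ⟨hf1, g, hg, hFg⟩ := hA
      obtain ⟨q, c, hq1, hq2, hq3⟩ := ih' (b * (g : ZMod S.P) ^ d) (f - 1) (by omega) hFg
      obtain ⟨-, hg1, hg2⟩ := S.hPS i (by omega) g hg
      have hgW : S.W < g := hg1
      have hf2 : f - 1 + 1 = f := by omega
      rw [hf2] at hq2 hq3
      obtain ⟨c', hc'⟩ := sup_div S.P b g d q S.W c ((S.W : ℝ) ^ f) i S.H hH hW1 hgW hq1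
        (by positivity) hq3
      refine ⟨q * g ^ d, c', Nat.mul_pos hq1 (Nat.pow_pos (by omega)), ?_, ?_⟩
      · calc q * g ^ d ≤ (4 * S.W) ^ (d * f) * (4 * S.W) ^ d :=
              Nat.mul_le_mul hq2 (Nat.pow_le_pow_left hg2 d)
          _ = (4 * S.W) ^ (d * (f + 1)) := by
              rw [← pow_add]
              congr 1
      · push_cast
        refine hc'.trans ?_
        have h5 : (S.W : ℝ) ^ f ≤ (S.W : ℝ) ^ (f + 1) := pow_le_pow_right₀ hW (by omega)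
        gcongr
    · -- Case B
      have hB : ∀ g ∈ S.PS i, F g ≤ Z * S.p := by
        intro g hg
        rcases Nat.eq_zero_or_pos f with hf0 | hf0
        · have h1 := S.FFn_le i (by omega) (b * (g : ZMod S.P) ^ d) (b * (g : ZMod S.P) ^ d)
          refine h1.trans ?_
          rw [hZ, hf0, Nat.sub_zero]
          have h2 : (S.T : ℝ) ^ 2 ≤ (S.T : ℝ) ^ (i - l + 3) := pow_le_pow_right₀ hT (by omega)
          calc 8 * (S.H : ℝ) * (S.T : ℝ) ^ 2 * (S.p : ℝ) ^ (2 * i)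
              ≤ 8 * (S.H : ℝ) * (S.T : ℝ) ^ (i - l + 3) * (S.p : ℝ) ^ (2 * i) := by gcongr
            _ = 8 * (S.H : ℝ) * (S.T : ℝ) ^ (i - l + 3) * (S.p : ℝ) ^ (2 * i) * 1 := by ring
            _ ≤ 8 * (S.H : ℝ) * (S.T : ℝ) ^ (i - l + 3) * (S.p : ℝ) ^ (2 * i) * S.p := by gcongr
        · have h1 : ¬ 8 * (S.H : ℝ) * (S.T : ℝ) ^ (i - l + 3) * (S.p : ℝ) ^ (2 * i - (f - 1)) < F g :=
            fun h => hA ⟨hf0, g, hg, h⟩
          have h2 : 2 * i - (f - 1) = (2 * i - f) + 1 := by omega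
          rw [h2] at h1
          refine (not_lt.mp h1).trans (le_of_eq ?_)
          rw [hZ]
          ring
      set GG : Finset ℕ := (S.PS i).filter fun g => Z < F g with hGG
      have hsplit : ∑ g ∈ S.PS i, F g ≤ (GG.card : ℝ) * (Z * S.p) + S.p * Z := by
        rw [← Finset.sum_filter_add_sum_filter_not (S.PS i) (fun g => Z < F g)]
        apply add_le_add
        · calc ∑ g ∈ GG, F g ≤ ∑ _g ∈ GG, Z * S.p :=
                Finset.sum_le_sum fun g hg => hB g (Finset.mem_filter.mp hg).1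
            _ = _ := by rw [Finset.sum_const, nsmul_eq_mul]
        · calc ∑ g ∈ (S.PS i).filter (fun g => ¬ Z < F g), F g
              ≤ ∑ _g ∈ (S.PS i).filter (fun g => ¬ Z < F g), Z :=
                Finset.sum_le_sum fun g hg => not_lt.mp (Finset.mem_filter.mp hg).2
            _ = (((S.PS i).filter (fun g => ¬ Z < F g)).card : ℝ) * Z := by
                rw [Finset.sum_const, nsmul_eq_mul]
            _ ≤ S.p * Z := by
                rw [← hcard]
                have : ((S.PS i).filter (fun g => ¬ Z < F g)).card ≤ (S.PS i).card :=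
                  Finset.card_filter_le _ _
                gcongr
      have hGc : S.R < GG.card := by
        have h1 : (S.T : ℝ) < GG.card + 1 := by
          have h2 : Z * S.p * S.T < Z * S.p * (GG.card + 1) := by
            calc Z * S.p * S.T = Z * S.T * S.p := by ring
              _ < ∑ g ∈ S.PS i, F g := hsum
              _ ≤ (GG.card : ℝ) * (Z * S.p) + S.p * Z := hsplit
              _ = Z * S.p * (GG.card + 1) := by ring
          exact lt_of_mul_lt_mul_left h2 (by positivity)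
        have h3 : S.T < GG.card + 1 := by exact_mod_cast h1
        have h4 : S.R ^ 2 ≤ S.T := by
          unfold Su.T
          exact Nat.pow_le_pow_right hR1 (by omega)
        have h5 : 2 ≤ S.R := by
          obtain ⟨h6, -, -⟩ := Su.sum_le_cN d s u m w
          have h7 := S.facts_cN_le_R
          omega
        have h8 : 2 * S.R ≤ S.R ^ 2 := by nlinarith
        omega
      have hGp : ∀ g ∈ GG, ∃ (q : ℕ) (c : ℤ), 1 ≤ q ∧ q ≤ (4 * S.W) ^ (d * (f + 1)) ∧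
          |(b.val : ℝ) / S.P - (c : ℝ) / ((q : ℝ) * (g : ℝ) ^ d)| ≤
            (S.W : ℝ) ^ (f + 1) / (S.H * (S.W : ℝ) ^ (d * (i + 1))) := by
        intro g hg
        obtain ⟨hg0, hFg⟩ := Finset.mem_filter.mp hg
        obtain ⟨q, c, hq1, hq2, hq3⟩ := ih' (b * (g : ZMod S.P) ^ d) f hf hFg
        obtain ⟨-, hg1, hg2⟩ := S.hPS i (by omega) g hg0
        obtain ⟨c', hc'⟩ := sup_div S.P b g d q S.W c ((S.W : ℝ) ^ (f + 1)) i S.H hH hW1 hg1 hq1
          (by positivity) hq3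
        exact ⟨q, c', hq1, hq2, hc'⟩
      exact frac S i (by omega) _ _ f hf GG (Finset.filter_subset _ _) hGc
        (sup_num S i f hli hf) hGp

end Pool.Agent.Lib.MP_e426f4_ag.DK
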