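import Pool.Agent.Lib.MP_e426f4_ag.DK.Lossy
import Pool.Agent.Lib.MP_e426f4_ag.DH.KapB
import Pool.Agent.Lib.MP_e426f4_ag.DG.ArcEx

/-!
# SupBase: CLAIM(l, f)

An arc system `A2` at scale `4 BB^d` (`exists_arc`), `lossy_small`: `F ≤ C H R² (BB + BB² V)`,
`V = kap(q)/max(1, H BB^d |δ|)`.  `C H R² BB ≤ 4 H T³ p^(2l-f)` (`BB = 4^l R^l p^l T`), so
`C H R² BB² V > 4 H T³ p^(2l-f)`, and `V > p^(-f)` (`m ≥ 2l + 4`, `R ≥ C 16^l`).  `kap q ≤ R` (`kap_le_r`) gives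
`H BB^d |δ| ≤ R p^f ≤ W^(f+1)`, and `kap^d q² ≤ R^d` (`kap_pow_le`) gives `q² ≤ R^d p^(f d) ≤ W^(d (f+1))`.
-/

set_option autoImplicit false

namespace Pool.Agent.Lib.MP_e426f4_ag.DK

open Finset
open Pool.Agent.Lib.MP_e426f4_ag.DG

theorem sup_base (d s u l e E : ℕ) : ∃ C : ℕ, ∀ (m w : ℕ)
    (S : Su d s u l e m w E), C ≤ S.R → ∀ (b : ZMod S.P) (f : ℕ), f ≤ e →
    8 * (S.H : ℝ) * (S.T : ℝ) ^ 3 * (S.p : ℝ) ^ (2 * l - f) < FF S.P S.n d (S.Xn l) b b →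
    ∃ (q : ℕ) (c : ℤ), 1 ≤ q ∧ q ≤ (4 * S.W) ^ (d * (f + 1)) ∧
      |(b.val : ℝ) / S.P - (c : ℝ) / q| ≤ (S.W : ℝ) ^ (f + 1) / (S.H * (S.W : ℝ) ^ (d * l)) := by
  by_cases hdE : 4 ≤ d ∧ 2 ≤ E
  swap
  · exact ⟨0, fun m w S => absurd ⟨S.hd, S.hE⟩ hdE⟩
  obtain ⟨hd, hE⟩ := hdE
  obtain ⟨C0, hC0, hlossy⟩ := lossy_small d s u l e E hd hE
  refine ⟨⌈C0 * 16 ^ l⌉₊, fun m w S hCR b f hf hF => ?_⟩
  obtain ⟨-, hs, hel, hlu, hul, hm, hmw, hle, -⟩ := S.nums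
  have hP0 : 0 < S.P := S.prime.pos
  have hBB1 := S.BB_pos
  have hB1 := S.B_pos
  have hR1 := S.R_pos
  have hW1 := S.W_pos
  have hT1 := S.T_pos
  have hp1 := S.p_pos
  have hH0 : 0 < S.H := S.n_facts.2.2.2.2.2.2
  obtain ⟨A⟩ := exists_arc S.P (4 * S.BB ^ d) hP0 (by
    have : 1 ≤ S.BB ^ d := Nat.one_le_pow _ _ hBB1
    omega)
  have hfF := hlossy m w S A b
  set q := A.q b with hq
  set dl := A.dl b with hdl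
  have hq1 : 1 ≤ q := A.qpos b
  have hqle : q ≤ 4 * S.BB ^ d := A.qle b
  -- real versions
  have hR : (1 : ℝ) ≤ S.R := by exact_mod_cast hR1
  have hT : (1 : ℝ) ≤ S.T := by exact_mod_cast hT1
  have hp : (1 : ℝ) ≤ S.p := by exact_mod_cast hp1
  have hW : (1 : ℝ) ≤ S.W := by exact_mod_cast hW1
  have hH : (0 : ℝ) < S.H := by exact_mod_cast hH0
  have hBB : (1 : ℝ) ≤ S.BB := by exact_mod_cast hBB1
  have hCR' : C0 * 16 ^ l ≤ (S.R : ℝ) := (Nat.le_ceil _).trans (by exact_mod_cast hCR)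
  have hTR : (S.T : ℝ) = (S.R : ℝ) ^ m := by
    unfold Su.T
    push_cast
    rfl
  have hWe : (S.W : ℝ) = S.R * S.p := by
    rw [S.W_eq]
    push_cast
    rfl
  have hBBe : (S.BB : ℝ) = 4 ^ l * (S.R : ℝ) ^ l * (S.p : ℝ) ^ l * S.T := by
    rw [S.BB_eq]
    push_cast
    rw [hWe, mul_pow]
    ring
  have hfl : f ≤ l := by omega
  have hpp : (S.p : ℝ) ^ (2 * l - f) * (S.p : ℝ) ^ f = (S.p : ℝ) ^ (2 * l) := by
    rw [← pow_add]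
    congr 1
    omega
  have hppl : (S.p : ℝ) ^ l ≤ (S.p : ℝ) ^ (2 * l - f) := pow_le_pow_right₀ hp (by omega)
  -- powers of `R` against `T`
  have hT2 : (S.R : ℝ) ^ (2 * l + 3) ≤ S.T := by
    rw [hTR]
    exact pow_le_pow_right₀ hR (by omega)
  have h416 : (4 : ℝ) ^ l ≤ 16 ^ l := pow_le_pow_left₀ (by norm_num) (by norm_num) l
  have hC0p : 0 < C0 := by linarith
  -- first term
  have h1 : C0 * S.H * (S.R : ℝ) ^ 2 * S.BB ≤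
      4 * (S.H : ℝ) * (S.T : ℝ) ^ 3 * (S.p : ℝ) ^ (2 * l - f) := by
    have a1 : C0 * 4 ^ l * (S.R : ℝ) ^ (l + 2) ≤ (S.T : ℝ) ^ 2 := by
      calc C0 * 4 ^ l * (S.R : ℝ) ^ (l + 2) ≤ C0 * 16 ^ l * (S.R : ℝ) ^ (l + 2) := by gcongr
        _ ≤ (S.R : ℝ) * (S.R : ℝ) ^ (l + 2) := by gcongr
        _ = (S.R : ℝ) ^ (l + 3) := by ring
        _ ≤ (S.R : ℝ) ^ (2 * l + 3) := pow_le_pow_right₀ hR (by omega)
        _ ≤ S.T := hT2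
        _ ≤ (S.T : ℝ) ^ 2 := by nlinarith
    calc C0 * S.H * (S.R : ℝ) ^ 2 * S.BB =
          S.H * (C0 * 4 ^ l * (S.R : ℝ) ^ (l + 2)) * (S.p : ℝ) ^ l * S.T := by
            rw [hBBe]
            ring
      _ ≤ S.H * (S.T : ℝ) ^ 2 * (S.p : ℝ) ^ (2 * l - f) * S.T := by gcongr
      _ = 1 * (S.H * (S.T : ℝ) ^ 3 * (S.p : ℝ) ^ (2 * l - f)) := by ring
      _ ≤ 4 * (S.H * (S.T : ℝ) ^ 3 * (S.p : ℝ) ^ (2 * l - f)) := by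
            gcongr
            norm_num
      _ = _ := by ring
  set Y : ℝ := (S.H : ℝ) * (S.BB : ℝ) ^ d * |dl| with hY
  set κ : ℝ := kap d q with hκ
  have hκ0 : 0 ≤ κ := kap_nonneg d q
  have hmax : 0 < max 1 Y := lt_of_lt_of_le one_pos (le_max_left _ _)
  have h2 : 4 * (S.H : ℝ) * (S.T : ℝ) ^ 3 * (S.p : ℝ) ^ (2 * l - f) <
      C0 * S.H * (S.R : ℝ) ^ 2 * ((S.BB : ℝ) ^ 2 * (κ / max 1 Y)) := by
    have a1 := hF.trans_le hfF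
    rw [mul_add] at a1
    linarith
  -- `V p^f > 1`
  have h3 : max 1 Y < κ * (S.p : ℝ) ^ f := by
    have a1 : C0 * (S.R : ℝ) ^ 2 * (S.BB : ℝ) ^ 2 ≤ (S.T : ℝ) ^ 3 * (S.p : ℝ) ^ (2 * l) := by
      have a2 : (S.BB : ℝ) ^ 2 = 16 ^ l * (S.R : ℝ) ^ (2 * l) * (S.p : ℝ) ^ (2 * l) *
          (S.T : ℝ) ^ 2 := by
        rw [hBBe, show (16 : ℝ) = 4 ^ 2 by norm_num, ← pow_mul]
        ring
      calc C0 * (S.R : ℝ) ^ 2 * (S.BB : ℝ) ^ 2 =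
            (C0 * 16 ^ l) * (S.R : ℝ) ^ (2 * l + 2) * ((S.p : ℝ) ^ (2 * l) * (S.T : ℝ) ^ 2) := by
              rw [a2]
              ring
        _ ≤ (S.R : ℝ) * (S.R : ℝ) ^ (2 * l + 2) * ((S.p : ℝ) ^ (2 * l) * (S.T : ℝ) ^ 2) := by
              gcongr
        _ = (S.R : ℝ) ^ (2 * l + 3) * ((S.p : ℝ) ^ (2 * l) * (S.T : ℝ) ^ 2) := by ring
        _ ≤ S.T * ((S.p : ℝ) ^ (2 * l) * (S.T : ℝ) ^ 2) := by gcongr
        _ = (S.T : ℝ) ^ 3 * (S.p : ℝ) ^ (2 * l) := by ring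
    have hHT : 0 < (S.H : ℝ) * (S.T : ℝ) ^ 3 * (S.p : ℝ) ^ (2 * l - f) := by positivity
    have a3 : (S.H : ℝ) * (S.T : ℝ) ^ 3 * (S.p : ℝ) ^ (2 * l - f) * max 1 Y <
        C0 * S.H * (S.R : ℝ) ^ 2 * (S.BB : ℝ) ^ 2 * κ := by
      have a4 : (S.H : ℝ) * (S.T : ℝ) ^ 3 * (S.p : ℝ) ^ (2 * l - f) <
          C0 * S.H * (S.R : ℝ) ^ 2 * ((S.BB : ℝ) ^ 2 * (κ / max 1 Y)) := by linarith
      have a5 := mul_lt_mul_of_pos_right a4 hmax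
      have a6 : C0 * S.H * (S.R : ℝ) ^ 2 * ((S.BB : ℝ) ^ 2 * (κ / max 1 Y)) * max 1 Y =
          C0 * S.H * (S.R : ℝ) ^ 2 * (S.BB : ℝ) ^ 2 * κ := by
        field_simp
      rwa [a6] at a5
    have a7 : C0 * S.H * (S.R : ℝ) ^ 2 * (S.BB : ℝ) ^ 2 * κ ≤
        (S.H : ℝ) * (S.T : ℝ) ^ 3 * (S.p : ℝ) ^ (2 * l - f) * (κ * (S.p : ℝ) ^ f) := by
      calc C0 * S.H * (S.R : ℝ) ^ 2 * (S.BB : ℝ) ^ 2 * κ =
            S.H * (C0 * (S.R : ℝ) ^ 2 * (S.BB : ℝ) ^ 2) * κ := by ring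
        _ ≤ S.H * ((S.T : ℝ) ^ 3 * (S.p : ℝ) ^ (2 * l)) * κ := by gcongr
        _ = _ := by
              rw [← hpp]
              ring
    exact lt_of_mul_lt_mul_left (a3.trans_le a7) hHT.le
  -- the divisors
  have hqB : q ≤ S.B ^ (8 * d) := by
    have b1 : 4 ≤ S.B := by
      have hu1 : 1 ≤ u := by omega
      rw [S.B_eq]
      have c1 : 4 ≤ 4 ^ u := by
        calc 4 = 4 ^ 1 := by norm_num
          _ ≤ 4 ^ u := Nat.pow_le_pow_right (by norm_num) hu1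
      calc 4 = 4 * 1 * 1 := by norm_num
        _ ≤ 4 ^ u * S.W ^ u * S.T :=
          Nat.mul_le_mul (Nat.mul_le_mul c1 (Nat.one_le_pow _ _ hW1)) hT1
    calc q ≤ 4 * S.BB ^ d := hqle
      _ ≤ S.B * S.B ^ d := Nat.mul_le_mul b1 (Nat.pow_le_pow_left S.BB_le_B d)
      _ = S.B ^ (d + 1) := by ring
      _ ≤ S.B ^ (8 * d) := Nat.pow_le_pow_right hB1 (by omega)
  have hdiv := S.tau_le q hq1 hqB
  have hkR : κ ≤ S.R := DH.kap_le_r d q S.R (by omega) hq1 hdiv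
  have hkp := DH.kap_pow_le d q S.R (by omega) hq1 hdiv
  have hRpf : (S.R : ℝ) * (S.p : ℝ) ^ f ≤ (S.W : ℝ) ^ (f + 1) := by
    have c1 : (S.R : ℝ) ≤ S.W := by rw [hWe]; nlinarith
    have c2 : (S.p : ℝ) ≤ S.W := by rw [hWe]; nlinarith
    calc (S.R : ℝ) * (S.p : ℝ) ^ f ≤ (S.W : ℝ) * (S.W : ℝ) ^ f := by gcongr
      _ = _ := by ring
  have hYle : Y ≤ (S.W : ℝ) ^ (f + 1) := by
    calc Y ≤ max 1 Y := le_max_right _ _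
      _ ≤ κ * (S.p : ℝ) ^ f := h3.le
      _ ≤ S.R * (S.p : ℝ) ^ f := by gcongr
      _ ≤ _ := hRpf
  refine ⟨q, (A.c b : ℤ), hq1, ?_, ?_⟩
  · have c1 : 1 ≤ κ * (S.p : ℝ) ^ f := (le_max_left 1 Y).trans h3.le
    have c2 : 1 ≤ (κ * (S.p : ℝ) ^ f) ^ d := one_le_pow₀ c1
    have hq' : (1 : ℝ) ≤ q := by exact_mod_cast hq1
    have c3 : (q : ℝ) ≤ (S.W : ℝ) ^ (d * (f + 1)) := by
      calc (q : ℝ) ≤ (q : ℝ) ^ 2 := by nlinarith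
        _ = 1 * (q : ℝ) ^ 2 := by ring
        _ ≤ (κ * (S.p : ℝ) ^ f) ^ d * (q : ℝ) ^ 2 := by gcongr
        _ = (κ ^ d * (q : ℝ) ^ 2) * ((S.p : ℝ) ^ f) ^ d := by rw [mul_pow]; ring
        _ ≤ (S.R : ℝ) ^ d * ((S.p : ℝ) ^ f) ^ d := by gcongr
        _ = ((S.R : ℝ) * (S.p : ℝ) ^ f) ^ d := by rw [mul_pow]
        _ ≤ ((S.W : ℝ) ^ (f + 1)) ^ d := by gcongr
        _ = (S.W : ℝ) ^ (d * (f + 1)) := by rw [← pow_mul, mul_comm]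
    have c4 : q ≤ S.W ^ (d * (f + 1)) := by exact_mod_cast c3
    exact c4.trans (Nat.pow_le_pow_left (by omega) _)
  · have e1 : |(b.val : ℝ) / S.P - (((A.c b : ℤ)) : ℝ) / q| = |dl| := by
      rw [hdl]
      unfold Arc.dl
      push_cast
      rfl
    rw [e1, le_div_iff₀ (by positivity)]
    have e2 : (S.W : ℝ) ^ (d * l) ≤ (S.BB : ℝ) ^ d := by
      rw [mul_comm d l, pow_mul]
      refine pow_le_pow_left₀ (by positivity) ?_ d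
      rw [S.BB_eq]
      push_cast
      have e3 : (1 : ℝ) ≤ 4 ^ l := one_le_pow₀ (by norm_num)
      calc (S.W : ℝ) ^ l = 1 * (S.W : ℝ) ^ l * 1 := by ring
        _ ≤ 4 ^ l * (S.W : ℝ) ^ l * S.T := by gcongr
    calc |dl| * (S.H * (S.W : ℝ) ^ (d * l)) ≤ |dl| * (S.H * (S.BB : ℝ) ^ d) := by gcongr
      _ = Y := by rw [hY]; ring
      _ ≤ _ := hYle

end Pool.Agent.Lib.MP_e426f4_ag.DK
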