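import Pool.Agent.Lib.MP_e426f4_ag.DK.Sup

/-!
# SupEnd: the sup bound outside MAJ

`q(b) ≤ H` and `B pk(b) ≤ 1`: `lossy`, `F ≤ 2 C H R² B`, `B = 4^u R^u p^u T`, `u ≤ 2u - e`.  `q(b) > H`: `sup_claim` with
`i = u`, `f = e`.  If `c/q = c(b)/q(b)`, then `q(b) ∣ q` and `q(b) ≤ q ≤ (4W)^(d(e+1)) ≤ H`.  Otherwise
`1 ≤ q q(b) D + q/(4B^d+1)` with `q(b) ≤ 4 B^d`, `D = W^(e+1)/(H W^(du))`: both terms are at most `1/4`
(`(d+1)(e+1) + 1 ≤ d l`, `H ≥ (4W)^(dl) T^d`).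
-/

set_option autoImplicit false

namespace Pool.Agent.Lib.MP_e426f4_ag.DK

open Finset
open Pool.Agent.Lib.MP_e426f4_ag.DG

/-- the case `q(b) ≤ H` -/
private theorem se_low {d s u l e m w E : ℕ} (S : Su d s u l e m w E) (C : ℝ) (hC : 1 ≤ C)
    (hCR : C ≤ S.R) (A : Arc S.P (4 * S.B ^ d)) (b : ZMod S.P)
    (hl : FF S.P S.n d S.X b b ≤ C * S.H * (S.R : ℝ) ^ 2 * (S.B + (S.B : ℝ) ^ 2 * S.pk A b))
    (hq : A.q b ≤ S.H) (hM : ¬ S.Maj A b) : FF S.P S.n d S.X b b ≤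
      8 * (S.H : ℝ) * (S.T : ℝ) ^ (u + 3) * (S.p : ℝ) ^ (2 * u - e) := by
  obtain ⟨_, _, n1, n2, _, n3, _, _, _⟩ := S.nums
  have hpk : (S.B : ℝ) * S.pk A b ≤ 1 := by
    by_contra h
    push Not at h
    exact hM ⟨hq, h⟩
  have hR1 : (1 : ℝ) ≤ S.R := by exact_mod_cast S.R_pos
  have hT1 : (1 : ℝ) ≤ S.T := by exact_mod_cast S.T_pos
  have hp1 : (1 : ℝ) ≤ S.p := by exact_mod_cast S.p_pos
  have hB0 : (0 : ℝ) ≤ S.B := Nat.cast_nonneg _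
  have hH0 : (0 : ℝ) ≤ S.H := Nat.cast_nonneg _
  have h1 : FF S.P S.n d S.X b b ≤ C * S.H * (S.R : ℝ) ^ 2 * (2 * S.B) := by
    refine hl.trans ?_
    apply mul_le_mul_of_nonneg_left _ (by positivity)
    have := mul_le_mul_of_nonneg_left hpk hB0
    nlinarith
  have hB : (S.B : ℝ) = 4 ^ u * (S.R : ℝ) ^ u * (S.p : ℝ) ^ u * S.T := by
    have h2 : S.B = 4 ^ u * S.W ^ u * S.T := S.B_eq
    rw [S.W_eq, mul_pow] at h2
    rw [h2]
    push_cast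
    ring
  have h4 : ((4 : ℝ) ^ u) ≤ S.R := by
    have h5 : (4 : ℕ) ^ u ≤ S.R := S.const_le 4 u
      (le_trans (by omega) (Su.sum_le_cN d s u m w).1) (le_trans (by omega) (Su.sum_le_cN d s u m w).1)
    exact_mod_cast h5
  have h6 : (S.R : ℝ) ^ (u + 4) ≤ (S.T : ℝ) ^ (u + 2) := by
    have h7 : S.R ^ (u + 4) ≤ S.T ^ (u + 2) := S.R_le_T _ _ (by nlinarith)
    exact_mod_cast h7
  have h8 : (S.p : ℝ) ^ u ≤ (S.p : ℝ) ^ (2 * u - e) := pow_le_pow_right₀ hp1 (by omega)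
  calc FF S.P S.n d S.X b b ≤ C * S.H * (S.R : ℝ) ^ 2 * (2 * S.B) := h1
    _ = 2 * S.H * (C * 4 ^ u * (S.R : ℝ) ^ (u + 2)) * S.T * (S.p : ℝ) ^ u := by
        rw [hB]
        ring
    _ ≤ 2 * S.H * ((S.R : ℝ) * S.R * (S.R : ℝ) ^ (u + 2)) * S.T * (S.p : ℝ) ^ u := by
        gcongr
    _ = 2 * S.H * ((S.R : ℝ) ^ (u + 4)) * S.T * (S.p : ℝ) ^ u := by
        ring
    _ ≤ 2 * S.H * ((S.T : ℝ) ^ (u + 2)) * S.T * (S.p : ℝ) ^ (2 * u - e) := by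
        gcongr
    _ = 2 * (S.H * (S.T : ℝ) ^ (u + 3) * (S.p : ℝ) ^ (2 * u - e)) := by
        ring
    _ ≤ 8 * (S.H * (S.T : ℝ) ^ (u + 3) * (S.p : ℝ) ^ (2 * u - e)) := by
        have : (0 : ℝ) ≤ S.H * (S.T : ℝ) ^ (u + 3) * (S.p : ℝ) ^ (2 * u - e) := by positivity
        linarith
    _ = 8 * (S.H : ℝ) * (S.T : ℝ) ^ (u + 3) * (S.p : ℝ) ^ (2 * u - e) := by ring

/-- the sizes in the case `q(b) > H` -/
private theorem se_size {d s u l e m w E : ℕ} (S : Su d s u l e m w E)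
    (hR : 4 ^ (d * (e + 1) + u * d + 2) ≤ S.R) :
    4 * (4 * S.W) ^ (d * (e + 1)) * (4 * S.B ^ d) * S.W ^ (e + 1) ≤ S.H * S.W ^ (d * u) := by
  obtain ⟨_, _, n1, n2, _, n3, n4, n5, _⟩ := S.nums
  have hW1 := S.W_pos
  have hRW : S.R ≤ S.W := by
    calc S.R = S.R ^ 1 := (pow_one _).symm
      _ ≤ S.R ^ w := Nat.pow_le_pow_right S.R_pos (by omega)
  have h1 : S.W * S.W ^ ((d + 1) * (e + 1)) ≤ S.W ^ (d * l) := by
    rw [← pow_succ']
    exact Nat.pow_le_pow_right hW1 n5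
  have h2 : 4 ^ (d * (e + 1) + u * d + 2) * S.W ^ ((d + 1) * (e + 1)) ≤
      4 ^ (d * l) * S.W ^ (d * l) := by
    calc 4 ^ (d * (e + 1) + u * d + 2) * S.W ^ ((d + 1) * (e + 1)) ≤
        S.W * S.W ^ ((d + 1) * (e + 1)) := Nat.mul_le_mul_right _ (hR.trans hRW)
      _ ≤ S.W ^ (d * l) := h1
      _ ≤ 4 ^ (d * l) * S.W ^ (d * l) := Nat.le_mul_of_pos_left _ (by positivity)
  calc 4 * (4 * S.W) ^ (d * (e + 1)) * (4 * S.B ^ d) * S.W ^ (e + 1) =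
      (4 ^ (d * (e + 1) + u * d + 2) * S.W ^ ((d + 1) * (e + 1))) * (S.T ^ d * S.W ^ (d * u)) := by
        rw [S.B_eq]
        simp only [mul_pow, pow_add, ← pow_mul]
        have h3 : S.W ^ ((d + 1) * (e + 1)) = S.W ^ (d * (e + 1)) * S.W ^ (e + 1) := by
          rw [← pow_add]
          congr 1
          ring
        rw [h3, mul_comm d u]
        ring
    _ ≤ (4 ^ (d * l) * S.W ^ (d * l)) * (S.T ^ d * S.W ^ (d * u)) := Nat.mul_le_mul_right _ h2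
    _ = ((4 * S.W) ^ (d * l) * S.T ^ d) * S.W ^ (d * u) := by
        rw [mul_pow]
        ring
    _ ≤ S.H * S.W ^ (d * u) := Nat.mul_le_mul_right _ S.H_ge

/-- two approximations of `b / P` -/
private theorem se_two (x : ℝ) (q q' : ℕ) (c c' : ℤ) (hq : 1 ≤ q) (hq' : 1 ≤ q') (D D' : ℝ)
    (h : |x - (c : ℝ) / q| ≤ D) (h' : |x - (c' : ℝ) / q'| ≤ D') :
    c * q' = c' * q ∨ 1 ≤ (q : ℝ) * q' * (D + D') := by
  by_cases hc : c * q' = c' * q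
  · exact Or.inl hc
  · right
    have hq0 : (0 : ℝ) < q := by exact_mod_cast hq
    have hq0' : (0 : ℝ) < q' := by exact_mod_cast hq'
    have h1 : (1 : ℝ) ≤ |((c * q' - c' * q : ℤ) : ℝ)| := by
      have h2 : (1 : ℤ) ≤ |c * q' - c' * q| := Int.one_le_abs (sub_ne_zero.2 hc)
      exact_mod_cast h2
    have h3 : ((c * q' - c' * q : ℤ) : ℝ) = q * q' * ((c : ℝ) / q - (c' : ℝ) / q') := by
      push_cast
      field_simp
    rw [h3, abs_mul, abs_of_pos (mul_pos hq0 hq0')] at h1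
    refine h1.trans (mul_le_mul_of_nonneg_left ?_ (mul_pos hq0 hq0').le)
    have h4 : (c : ℝ) / q - (c' : ℝ) / q' = (x - (c' : ℝ) / q') - (x - (c : ℝ) / q) := by ring
    rw [h4]
    calc |(x - (c' : ℝ) / q') - (x - (c : ℝ) / q)| ≤ |x - (c' : ℝ) / q'| + |x - (c : ℝ) / q| :=
        abs_sub _ _
      _ ≤ D' + D := add_le_add h' h
      _ = D + D' := add_comm _ _

/-- the case `q(b) > H` -/
private theorem se_high {d s u l e m w E : ℕ} (S : Su d s u l e m w E)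
    (hR : 4 ^ (d * (e + 1) + u * d + 2) ≤ S.R) (A : Arc S.P (4 * S.B ^ d)) (b : ZMod S.P)
    (hH : S.H < A.q b) (q : ℕ) (c : ℤ) (hq : 1 ≤ q) (hq2 : q ≤ (4 * S.W) ^ (d * (e + 1)))
    (hc : |(b.val : ℝ) / S.P - (c : ℝ) / q| ≤ (S.W : ℝ) ^ (e + 1) / (S.H * (S.W : ℝ) ^ (d * u))) :
    False := by
  obtain ⟨_, _, n1, n2, _, n3, n4, n5, _⟩ := S.nums
  have hW1 := S.W_pos
  have hW4 : 1 ≤ 4 * S.W := by omega
  have hqb := A.qpos b
  have hqb2 := A.qle b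
  have hap := A.approx b
  have hHpos : 0 < S.H := S.n_facts.2.2.2.2.2.2
  have hH0 : (0 : ℝ) < S.H := by exact_mod_cast hHpos
  have hW0 : (0 : ℝ) < S.W := by exact_mod_cast hW1
  have hq0 : (0 : ℝ) < q := by exact_mod_cast hq
  have hqb0 : (0 : ℝ) < A.q b := by exact_mod_cast hqb
  have hap' : |(b.val : ℝ) / S.P - ((A.c b : ℤ) : ℝ) / A.q b| ≤
      1 / ((A.q b : ℝ) * (4 * (S.B : ℝ) ^ d + 1)) := by
    have := hap
    push_cast at this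
    rw [Int.cast_natCast]
    exact this
  rcases se_two _ q (A.q b) c (A.c b) hq hqb _ _ hc hap' with h | h
  · -- equal fractions
    have h1 : ((A.q b : ℕ) : ℤ) ∣ (A.c b : ℤ) * q := ⟨c, by rw [← h, mul_comm]⟩
    have h2 : A.q b ∣ A.c b * q := by exact_mod_cast h1
    have h3 : A.q b ∣ q := (Nat.Coprime.symm (A.cop b)).dvd_of_dvd_mul_left h2
    have h4 : A.q b ≤ q := Nat.le_of_dvd (by omega) h3
    have h5 : (4 * S.W) ^ (d * (e + 1)) ≤ (4 * S.W) ^ (d * l) :=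
      Nat.pow_le_pow_right hW4 (Nat.mul_le_mul_left _ (by omega))
    have h6 : (4 * S.W) ^ (d * l) ≤ S.H :=
      le_trans (Nat.le_mul_of_pos_right _ (Nat.pow_pos S.T_pos)) S.H_ge
    omega
  · have h1 : (q : ℝ) * A.q b * ((S.W : ℝ) ^ (e + 1) / (S.H * (S.W : ℝ) ^ (d * u))) ≤ 1 / 4 := by
      have h2 : 4 * q * A.q b * S.W ^ (e + 1) ≤ S.H * S.W ^ (d * u) := by
        refine le_trans ?_ (se_size S hR)
        gcongr
      have h3 : 4 * (q : ℝ) * A.q b * (S.W : ℝ) ^ (e + 1) ≤ S.H * (S.W : ℝ) ^ (d * u) := by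
        exact_mod_cast h2
      rw [← mul_div_assoc, div_le_iff₀ (by positivity)]
      linarith
    have h2 : (q : ℝ) * A.q b * (1 / ((A.q b : ℝ) * (4 * (S.B : ℝ) ^ d + 1))) ≤ 1 / 4 := by
      have h3 : q ≤ S.B ^ d := by
        have h4 : (4 * S.W) ^ u ≤ S.B := by
          rw [S.B_eq, mul_pow]
          exact Nat.le_mul_of_pos_right _ S.T_pos
        calc q ≤ (4 * S.W) ^ (d * (e + 1)) := hq2
          _ ≤ (4 * S.W) ^ (u * d) := by
              refine Nat.pow_le_pow_right hW4 ?_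
              rw [mul_comm u d]
              exact Nat.mul_le_mul_left _ (by omega)
          _ = ((4 * S.W) ^ u) ^ d := by rw [pow_mul]
          _ ≤ S.B ^ d := Nat.pow_le_pow_left h4 d
      have h4 : (q : ℝ) ≤ (S.B : ℝ) ^ d := by exact_mod_cast h3
      have h5 : (0 : ℝ) < 4 * (S.B : ℝ) ^ d + 1 := by positivity
      have h6 : (q : ℝ) * A.q b * (1 / ((A.q b : ℝ) * (4 * (S.B : ℝ) ^ d + 1))) =
          q / (4 * (S.B : ℝ) ^ d + 1) := by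
        field_simp
      rw [h6, div_le_iff₀ h5]
      linarith
    rw [mul_add] at h
    linarith

theorem sup_end (d s u l e E : ℕ) : ∃ C : ℕ, ∀ (m w : ℕ)
    (S : Su d s u l e m w E), C ≤ S.R → ∀ (A : Arc S.P (4 * S.B ^ d)) (b : ZMod S.P),
    ¬ S.Maj A b → FF S.P S.n d S.X b b ≤
      8 * (S.H : ℝ) * (S.T : ℝ) ^ (u + 3) * (S.p : ℝ) ^ (2 * u - e) := by
  by_cases hdE : 4 ≤ d ∧ 2 ≤ E
  · obtain ⟨C1, hC1, hl⟩ := lossy d s u l e E hdE.1 hdE.2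
    obtain ⟨C2, hc⟩ := sup_claim d s u l e E
    refine ⟨max ⌈C1⌉₊ (max C2 (4 ^ (d * (e + 1) + u * d + 2))), fun m w S hC A b hM => ?_⟩
    have hCR1 : C1 ≤ S.R := by
      have h1 : C1 ≤ (⌈C1⌉₊ : ℝ) := Nat.le_ceil C1
      have h2 : ⌈C1⌉₊ ≤ S.R := le_trans (le_max_left _ _) hC
      exact h1.trans (by exact_mod_cast h2)
    have hCR2 : C2 ≤ S.R := le_trans (le_trans (le_max_left _ _) (le_max_right _ _)) hC
    have hCR3 : 4 ^ (d * (e + 1) + u * d + 2) ≤ S.R :=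
      le_trans (le_trans (le_max_right _ _) (le_max_right _ _)) hC
    by_cases hq : A.q b ≤ S.H
    · exact se_low S C1 hC1 hCR1 A b (hl m w S A b hq) hq hM
    · by_contra hF
      push Not at hF hq
      have hT1 : (1 : ℝ) ≤ S.T := by exact_mod_cast S.T_pos
      have h1 : 8 * (S.H : ℝ) * (S.T : ℝ) ^ (u - l + 3) * (S.p : ℝ) ^ (2 * u - e) <
          FF S.P S.n d (S.Xn u) b b := by
        refine lt_of_le_of_lt ?_ hF
        have h2 : (S.T : ℝ) ^ (u - l + 3) ≤ (S.T : ℝ) ^ (u + 3) :=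
          pow_le_pow_right₀ hT1 (by omega)
        gcongr
      obtain ⟨q, c, hq1, hq2, hq3⟩ := hc m w S hCR2 u S.hlu le_rfl b e le_rfl h1
      exact se_high S hCR3 A b hq q c hq1 hq2 hq3
  · refine ⟨0, fun m w S _ _ _ _ => ?_⟩
    exact absurd ⟨S.hd, S.hE⟩ hdE

end Pool.Agent.Lib.MP_e426f4_ag.DK
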